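import Pool.Agent.H46.MM.Def

/-!
A nonempty open set with infinite complement in dimension at least two has infinitely many accessible boundary points (in the sense of a
segment): for `v ∈ V` a nearest point `p` of `Vᶜ` (exists, `p ∈ frontier V`) has the open segment in `V` (inside the ball about `v`). If
the set `A` of these points is finite it is closed; every `z ∈ frontier V` is a limit of points `v ∈ V`, whose nearest points
`p ∈ A` also tend to `z`, so `frontier V ⊆ A` is finite; then `V` is open and closed in the complement of `A`, which is connected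
(`Set.Countable.isPathConnected_compl_of_one_lt_rank`), so `Vᶜ ⊆ A` is finite.
-/

set_option autoImplicit false

namespace Pool.Agent.H46.MM

open Set

/-- a nonempty open set is infinite -/
theorem open_inf {m : ℕ} (S : Set (E m)) (hS : IsOpen S) (hne : S.Nonempty) : S.Infinite := by
  have : Nontrivial (E m) := by
    apply Module.nontrivial_of_finrank_pos (R := ℝ)
    rw [finrank_euclideanSpace_fin]
    omega
  obtain ⟨p, hp⟩ := hne
  have : (nhdsWithin p {p}ᶜ).NeBot := Module.punctured_nhds_neBot ℝ (E m) p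
  exact infinite_of_mem_nhds p (hS.mem_nhds hp)

private theorem nearest {m : ℕ} {V : Set (E m)} (hV : IsOpen V) (hc : (Vᶜ).Nonempty) {v : E m} (hv : v ∈ V) :
    ∃ p : E m, p ∈ frontier V ∧ (∀ t : ℝ, 0 ≤ t → t < 1 → v + t • (p - v) ∈ V) ∧ ∀ z ∈ Vᶜ, dist v p ≤ dist v z := by
  obtain ⟨p, hpV, hp⟩ := hV.isClosed_compl.exists_infDist_eq_dist hc v
  have hmin : ∀ z ∈ Vᶜ, dist v p ≤ dist v z := by
    intro z hz
    rw [← hp]
    exact Metric.infDist_le_dist_of_mem hz
  have hvp : v ≠ p := fun h => hpV (h ▸ hv)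
  have hpos : 0 < dist v p := dist_pos.2 hvp
  have hseg : ∀ t : ℝ, 0 ≤ t → t < 1 → v + t • (p - v) ∈ V := by
    intro t h0 h1
    by_contra hcon
    have h2 := hmin _ hcon
    have h3 : dist v (v + t • (p - v)) = t * dist v p := by
      rw [dist_self_add_right, norm_smul, Real.norm_eq_abs, abs_of_nonneg h0, dist_comm v p, dist_eq_norm]
    rw [h3] at h2
    have h4 : t * dist v p < 1 * dist v p := mul_lt_mul_of_pos_right h1 hpos
    linarith
  refine ⟨p, ?_, hseg, hmin⟩
  rw [hV.frontier_eq]
  refine ⟨?_, hpV⟩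
  rw [Metric.mem_closure_iff]
  intro ε hε
  set s : ℝ := min (1 / 2) (ε / (2 * dist v p)) with hs
  have hs0 : 0 < s := lt_min (by norm_num) (by positivity)
  have hs1 : s ≤ 1 / 2 := min_le_left _ _
  have hs2 : s ≤ ε / (2 * dist v p) := min_le_right _ _
  refine ⟨v + (1 - s) • (p - v), hseg (1 - s) (by linarith) (by linarith), ?_⟩
  have h5 : p - (v + (1 - s) • (p - v)) = s • (p - v) := by
    rw [sub_smul, one_smul]
    abel
  rw [dist_eq_norm, h5, norm_smul, Real.norm_eq_abs, abs_of_pos hs0, ← dist_eq_norm, dist_comm p v]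
  have h6 : s * dist v p ≤ ε / (2 * dist v p) * dist v p := mul_le_mul_of_nonneg_right hs2 hpos.le
  have h7 : ε / (2 * dist v p) * dist v p = ε / 2 := by
    field_simp
  linarith

theorem access {m : ℕ} (hm : 1 ≤ m) (V : Set (E m)) (hV : IsOpen V) (hne : V.Nonempty)
    (hinf : (Vᶜ).Infinite) :
    {p : E m | p ∈ frontier V ∧ ∃ v ∈ V, ∀ t : ℝ, 0 ≤ t → t < 1 → v + t • (p - v) ∈ V}.Infinite := by
  intro hfin
  set A : Set (E m) := {p : E m | p ∈ frontier V ∧ ∃ v ∈ V, ∀ t : ℝ, 0 ≤ t → t < 1 → v + t • (p - v) ∈ V} with hA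
  have hc : (Vᶜ).Nonempty := hinf.nonempty
  have hAcl : IsClosed A := hfin.isClosed
  have hfr : frontier V ⊆ A := by
    intro z hz
    have hz' : z ∈ Vᶜ := by
      rw [hV.frontier_eq] at hz
      exact hz.2
    rw [← hAcl.closure_eq, Metric.mem_closure_iff]
    intro ε hε
    obtain ⟨v, hv, hvz⟩ := Metric.mem_closure_iff.1 (frontier_subset_closure hz) (ε / 2) (by linarith)
    obtain ⟨p, hp, hseg, hmin⟩ := nearest hV hc hv
    refine ⟨p, ⟨hp, v, hv, hseg⟩, ?_⟩
    have h1 := hmin z hz'
    have h2 := dist_triangle z v p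
    rw [dist_comm v z] at h1
    linarith
  have hAV : A ⊆ Vᶜ := by
    rintro p ⟨hp, -⟩
    rw [hV.frontier_eq] at hp
    exact hp.2
  have hrank : 1 < Module.rank ℝ (E m) := by
    rw [← Module.finrank_eq_rank, finrank_euclideanSpace_fin]
    exact_mod_cast (by omega : 1 < m + 1)
  have hconn : IsPreconnected (Aᶜ) :=
    (hfin.countable.isPathConnected_compl_of_one_lt_rank hrank).isConnected.isPreconnected
  have hsub : Aᶜ ⊆ V := by
    refine IsPreconnected.subset_left_of_subset_union hV (isClosed_closure (s := V)).isOpen_compl ?_ ?_ ?_ hconn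
    · exact disjoint_compl_right.mono_left subset_closure
    · intro z hz
      by_cases h : z ∈ closure V
      · left
        by_contra hzV
        apply hz
        apply hfr
        rw [hV.frontier_eq]
        exact ⟨h, hzV⟩
      · exact Or.inr h
    · obtain ⟨v, hv⟩ := hne
      exact ⟨v, fun h => hAV h hv, hv⟩
  exact hinf (hfin.subset (compl_subset_comm.1 hsub))

end Pool.Agent.H46.MM
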