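import Pool.Agent.H46.MM.FillDef

/-!
Topology of `fill`. Components of the open set `Cᶜ` are open (`IsOpen.connectedComponentIn`). The complement of `fill D C` is the
union of the components not contained in `D`: open; `fill` is closed and bounded. If `z ∉ fill`, the component of `z` in `Cᶜ`
misses `fill`, so it is contained in the component of `z` in `fillᶜ`. A point of `fill` outside `C` is interior. Connected: a component
`U ⊆ D` of `Cᶜ` is open and not closed (the space is connected, `C` nonempty), a point `w ∈ closure U \ U` is in `C` (otherwise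
its component meets `U`), so `U ∪ C` is preconnected.
-/

set_option autoImplicit false

namespace Pool.Agent.H46.MM

open Set

private theorem comp_open {m : ℕ} {C : Set (E m)} (hC : IsClosed C) (z : E m) :
    IsOpen (connectedComponentIn Cᶜ z) :=
  hC.isOpen_compl.connectedComponentIn

private theorem mem_comp {m : ℕ} {C : Set (E m)} {z : E m} (hz : z ∉ C) :
    z ∈ connectedComponentIn Cᶜ z :=
  mem_connectedComponentIn hz

private theorem comp_not {m : ℕ} {C : Set (E m)} {z w : E m}
    (hw : w ∈ connectedComponentIn Cᶜ z) : w ∉ C :=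
  connectedComponentIn_subset _ _ hw

private theorem comp_sub_fill {m : ℕ} {D C : Set (E m)} {z : E m}
    (hz : connectedComponentIn Cᶜ z ⊆ D) : connectedComponentIn Cᶜ z ⊆ fill D C := by
  intro w hw
  refine Or.inr ⟨comp_not hw, ?_⟩
  rw [← connectedComponentIn_eq hw]
  exact hz

private theorem comp_sub_compl {m : ℕ} {D C : Set (E m)} {z : E m}
    (hz : ¬ connectedComponentIn Cᶜ z ⊆ D) : connectedComponentIn Cᶜ z ⊆ (fill D C)ᶜ := by
  intro w hw h
  rcases h with h | h
  · exact comp_not hw h
  · apply hz
    rw [connectedComponentIn_eq hw]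
    exact h.2

private theorem not_fill {m : ℕ} {D C : Set (E m)} {z : E m} (hz : z ∉ fill D C) :
    z ∉ C ∧ ¬ connectedComponentIn Cᶜ z ⊆ D := by
  have h1 : z ∉ C := fun h => hz (Or.inl h)
  exact ⟨h1, fun h => hz (Or.inr ⟨h1, h⟩)⟩

theorem fill_closed {m : ℕ} (D C : Set (E m)) (hC : IsClosed C) :
    IsClosed (fill D C) := by
  rw [← isOpen_compl_iff, isOpen_iff_forall_mem_open]
  intro z hz
  obtain ⟨h1, h2⟩ := not_fill hz
  exact ⟨connectedComponentIn Cᶜ z, comp_sub_compl h2, comp_open hC z, mem_comp h1⟩

theorem fill_sub {m : ℕ} (D C : Set (E m)) (hCD : C ⊆ D) : fill D C ⊆ D := by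
  intro z hz
  rcases hz with hz | hz
  · exact hCD hz
  · exact hz.2 (mem_comp hz.1)

private theorem touch {m : ℕ} {C : Set (E m)} (hC : IsClosed C) (hne : C.Nonempty) {z : E m}
    (hz : z ∉ C) : ∃ w ∈ C, w ∈ closure (connectedComponentIn Cᶜ z) := by
  by_contra hcon
  push Not at hcon
  have h1 : IsClosed (connectedComponentIn Cᶜ z) := by
    rw [← closure_subset_iff_isClosed]
    intro w hw
    have hwC : w ∉ C := fun h => hcon w h hw
    have h2 := mem_closure_iff.1 hw (connectedComponentIn Cᶜ w) (comp_open hC w) (mem_comp hwC)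
    obtain ⟨y, hy1, hy2⟩ := h2
    rw [connectedComponentIn_eq hy2, ← connectedComponentIn_eq hy1]
    exact mem_comp hwC
  have h2 : IsClopen (connectedComponentIn Cᶜ z) := ⟨h1, comp_open hC z⟩
  rcases isClopen_iff.1 h2 with h3 | h3
  · have h4 := mem_comp hz
    rw [h3] at h4
    exact h4
  · obtain ⟨y, hy⟩ := hne
    have h4 : y ∈ connectedComponentIn Cᶜ z := by
      rw [h3]
      exact mem_univ y
    exact comp_not h4 hy

theorem fill_conn {m : ℕ} (D C : Set (E m)) (hC : IsCompact C) (hCc : IsConnected C) :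
    IsConnected (fill D C) := by
  obtain ⟨x, hx⟩ := hCc.nonempty
  refine ⟨⟨x, Or.inl hx⟩, ?_⟩
  refine isPreconnected_of_forall x fun y hy => ?_
  by_cases hyC : y ∈ C
  · exact ⟨C, fun w hw => Or.inl hw, hx, hyC, hCc.isPreconnected⟩
  · have hyD : connectedComponentIn Cᶜ y ⊆ D := (hy.resolve_left hyC).2
    obtain ⟨w, hwC, hw⟩ := touch hC.isClosed ⟨x, hx⟩ hyC
    have h1 : IsPreconnected (insert w (connectedComponentIn Cᶜ y)) := by
      refine isPreconnected_connectedComponentIn.subset_closure (subset_insert _ _) ?_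
      exact insert_subset hw subset_closure
    have h2 : IsPreconnected (insert w (connectedComponentIn Cᶜ y) ∪ C) :=
      IsPreconnected.union w (mem_insert _ _) hwC h1 hCc.isPreconnected
    refine ⟨insert w (connectedComponentIn Cᶜ y) ∪ C, ?_, Or.inr hx,
      Or.inl (Or.inr (mem_comp hyC)), h2⟩
    refine union_subset (insert_subset (Or.inl hwC) (comp_sub_fill hyD)) fun u hu => Or.inl hu

theorem fill_out {m : ℕ} (D C : Set (E m)) (hC : IsCompact C) (z : E m) (hz : z ∉ fill D C) :
    ¬ connectedComponentIn (fill D C)ᶜ z ⊆ D := by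
  obtain ⟨h1, h2⟩ := not_fill hz
  intro h
  apply h2
  refine subset_trans ?_ h
  exact isPreconnected_connectedComponentIn.subset_connectedComponentIn (mem_comp h1)
    (comp_sub_compl h2)

theorem fill_front {m : ℕ} (D C : Set (E m)) (hC : IsCompact C) : frontier (fill D C) ⊆ C := by
  intro z hz
  rw [(fill_closed D C hC.isClosed).frontier_eq] at hz
  by_contra hzC
  apply hz.2
  have hzD : connectedComponentIn Cᶜ z ⊆ D := (hz.1.resolve_left hzC).2
  exact mem_interior.2 ⟨_, comp_sub_fill hzD, comp_open hC.isClosed z, mem_comp hzC⟩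

end Pool.Agent.H46.MM
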