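import Pool.Agent.H46.MM.Def

/-!
A smooth cut function: `θ s = s` for `s ≤ -ε`, `-ε ≤ θ s ≤ 0` for `s ≥ -ε`, `0 ≤ θ' ≤ 1`.
(`θ s = -ε + ∫ t in -ε..s, (1 - Real.smoothTransition ((t + ε) / ε))`.)
-/

set_option autoImplicit false

namespace Pool.Agent.H46.MM

theorem exists_cut (ε : ℝ) (hε : 0 < ε) : ∃ θ : ℝ → ℝ, ContDiff ℝ (⊤ : ℕ∞) θ ∧ (∀ s, s ≤ -ε → θ s = s) ∧
    (∀ s, -ε ≤ s → -ε ≤ θ s) ∧ (∀ s, θ s ≤ 0) ∧ (∀ s, θ s ≤ s) ∧ (∀ s, 0 ≤ deriv θ s) ∧
    ∀ s, deriv θ s ≤ 1 := by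
  obtain ⟨g, hg⟩ : ∃ g : ℝ → ℝ, g = fun t => 1 - Real.smoothTransition ((t + ε) / ε) := ⟨_, rfl⟩
  have hgc : ContDiff ℝ (⊤ : ℕ∞) g := by
    rw [hg]
    exact contDiff_const.sub (Real.smoothTransition.contDiff.comp
      ((contDiff_id.add contDiff_const).div_const ε))
  have hgcont : Continuous g := hgc.continuous
  have hgi : ∀ a b : ℝ, IntervalIntegrable g MeasureTheory.volume a b := fun a b =>
    hgcont.intervalIntegrable a b
  have g0 : ∀ t, 0 ≤ g t := by
    intro t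
    rw [hg]
    exact sub_nonneg.2 (Real.smoothTransition.le_one _)
  have g1 : ∀ t, g t ≤ 1 := by
    intro t
    rw [hg]
    have := Real.smoothTransition.nonneg ((t + ε) / ε)
    show 1 - Real.smoothTransition ((t + ε) / ε) ≤ 1
    linarith
  have gz : ∀ t, 0 ≤ t → g t = 0 := by
    intro t ht
    rw [hg]
    show 1 - Real.smoothTransition ((t + ε) / ε) = 0
    rw [Real.smoothTransition.one_of_one_le ((one_le_div hε).2 (by linarith)), sub_self]
  have gone : ∀ t, t ≤ -ε → g t = 1 := by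
    intro t ht
    rw [hg]
    show 1 - Real.smoothTransition ((t + ε) / ε) = 1
    rw [Real.smoothTransition.zero_of_nonpos (div_nonpos_of_nonpos_of_nonneg (by linarith) hε.le), sub_zero]
  obtain ⟨θ, hθ⟩ : ∃ θ : ℝ → ℝ, θ = fun s => -ε + ∫ t in (-ε)..s, g t := ⟨_, rfl⟩
  have hd : ∀ s, HasDerivAt θ (g s) s := by
    intro s
    rw [hθ]
    exact ((hgcont.integral_hasStrictDerivAt (-ε) s).hasDerivAt).const_add (-ε)
  have hder : deriv θ = g := funext fun s => (hd s).deriv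
  have h1 : ∀ s, s ≤ -ε → θ s = s := by
    intro s hs
    have h2 : ∫ t in (-ε)..s, g t = ∫ _t in (-ε)..s, (1 : ℝ) := by
      refine intervalIntegral.integral_congr fun t ht => ?_
      rw [Set.uIcc_of_ge hs] at ht
      exact gone t ht.2
    rw [hθ]
    show -ε + ∫ t in (-ε)..s, g t = s
    rw [h2, intervalIntegral.integral_const, smul_eq_mul]
    ring
  have h2 : ∀ s, -ε ≤ s → -ε ≤ θ s := by
    intro s hs
    have h3 : 0 ≤ ∫ t in (-ε)..s, g t := intervalIntegral.integral_nonneg hs fun t _ => g0 t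
    rw [hθ]
    show -ε ≤ -ε + ∫ t in (-ε)..s, g t
    linarith
  have h4 : ∀ s, θ s ≤ s := by
    intro s
    rcases le_total s (-ε) with hs | hs
    · exact (h1 s hs).le
    · have h3 : ∫ t in (-ε)..s, g t ≤ ∫ _t in (-ε)..s, (1 : ℝ) :=
        intervalIntegral.integral_mono_on hs (hgi _ _) (continuous_const.intervalIntegrable _ _)
          fun t _ => g1 t
      rw [intervalIntegral.integral_const, smul_eq_mul] at h3
      rw [hθ]
      show -ε + ∫ t in (-ε)..s, g t ≤ s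
      linarith
  have h3 : ∀ s, θ s ≤ 0 := by
    intro s
    rcases le_total s 0 with hs | hs
    · exact (h4 s).trans hs
    · have h5 : ∫ t in (0 : ℝ)..s, g t = 0 := by
        have h6 : ∫ t in (0 : ℝ)..s, g t = ∫ _t in (0 : ℝ)..s, (0 : ℝ) := by
          refine intervalIntegral.integral_congr fun t ht => ?_
          rw [Set.uIcc_of_le hs] at ht
          exact gz t ht.1
        rw [h6]
        simp
      have h6 : θ s = θ 0 := by
        rw [hθ]
        show -ε + ∫ t in (-ε)..s, g t = -ε + ∫ t in (-ε)..0, g t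
        rw [← intervalIntegral.integral_add_adjacent_intervals (hgi (-ε) 0) (hgi 0 s), h5, add_zero]
      rw [h6]
      exact h4 0
  refine ⟨θ, ?_, h1, h2, h3, h4, fun s => ?_, fun s => ?_⟩
  · rw [contDiff_infty_iff_deriv]
    refine ⟨fun s => (hd s).differentiableAt, ?_⟩
    rw [hder]
    exact hgc
  · rw [hder]
    exact g0 s
  · rw [hder]
    exact g1 s

end Pool.Agent.H46.MM
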