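import Pool.Agent.H46.MM.FillDef
import Pool.Agent.H46.MM.Cut

/-!
Filling holes does not change the capacity. `u` admissible for `C`, `ε > 0`; `f = (1 + ε) u`, `θ` from `exists_cut (ε/2)`,
`σ s = -θ (-s)`: `σ s = s` for `s ≥ ε/2`, `σ ≥ 0`, `0 ≤ σ' ≤ 1`. With `H = {z | z ∉ C ∧ connectedComponentIn Cᶜ z ⊆ D}` (open, and
so is the complement of `C ∪ H`) put `g x = 1 + σ (f x - 1)` on `H`, `g = f` elsewhere. Near a point of `C` we have `f > 1 + ε/2`, so
`g = f` there: `g` is smooth; `g ≥ 1` on `fill D C`; `tsupport g ⊆ tsupport u ∪ fill D C`;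
`‖∇ g‖ ≤ (1 + ε) ‖∇ u‖`, so `cap D (fill D C) ≤ (1 + ε)^(m+1) energy u`; infimum over `u`, `ε → 0`.
-/

set_option autoImplicit false

namespace Pool.Agent.H46.MM

open MeasureTheory Filter Topology

theorem fillCap_open {m : ℕ} (C : Set (E m)) (hC : IsClosed C) (P : Set (E m) → Prop) :
    IsOpen {z : E m | z ∉ C ∧ P (connectedComponentIn Cᶜ z)} := by
  rw [isOpen_iff_mem_nhds]
  rintro z ⟨hz, hP⟩
  have h1 : IsOpen (connectedComponentIn Cᶜ z) := hC.isOpen_compl.connectedComponentIn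
  have h2 : z ∈ connectedComponentIn Cᶜ z := mem_connectedComponentIn hz
  filter_upwards [h1.mem_nhds h2] with w hw
  have h3 : connectedComponentIn Cᶜ z = connectedComponentIn Cᶜ w := connectedComponentIn_eq hw
  exact ⟨connectedComponentIn_subset _ _ hw, h3 ▸ hP⟩

theorem fillCap_one {m : ℕ} (D C : Set (E m)) (hC : IsCompact C)
    (hf : IsCompact (fill D C)) (hfD : fill D C ⊆ D) (u : E m → ℝ) (hu : Adm D C u) (ε : ℝ) (hε : 0 < ε) :
    cap D (fill D C) ≤ (1 + ε) ^ (m + 1) * energy u := by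
  classical
  obtain ⟨θ, hθc, hθ1, _, hθ0, _, hθd0, hθd1⟩ := exists_cut (ε / 2) (by linarith)
  obtain ⟨σ, hσ⟩ : ∃ σ : ℝ → ℝ, σ = fun s => -θ (-s) := ⟨_, rfl⟩
  have hσc : ContDiff ℝ (⊤ : ℕ∞) σ := by
    rw [hσ]
    exact (hθc.comp contDiff_neg).neg
  have hσ1 : ∀ s, ε / 2 ≤ s → σ s = s := by
    intro s hs
    rw [hσ]
    show -θ (-s) = s
    rw [hθ1 (-s) (by linarith), neg_neg]
  have hσ0 : ∀ s, 0 ≤ σ s := by
    intro s
    rw [hσ]
    show 0 ≤ -θ (-s)
    have := hθ0 (-s)
    linarith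
  have hθdiff : ∀ s, HasDerivAt θ (deriv θ s) s := fun s =>
    ((hθc.differentiable (by simp)).differentiableAt).hasDerivAt
  have hσd : ∀ s, HasDerivAt σ (deriv θ (-s)) s := by
    intro s
    rw [hσ]
    have h1 : HasDerivAt (fun s => θ (-s)) (deriv θ (-s) * (-1)) s :=
      (hθdiff (-s)).comp s (hasDerivAt_neg s)
    have h2 : HasDerivAt (fun s => -θ (-s)) (-(deriv θ (-s) * (-1))) s := h1.neg
    rwa [mul_neg_one, neg_neg] at h2
  obtain ⟨f, hfdef⟩ : ∃ f : E m → ℝ, f = fun x => (1 + ε) * u x := ⟨_, rfl⟩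
  have hfc : ContDiff ℝ (⊤ : ℕ∞) f := by
    rw [hfdef]
    exact contDiff_const.mul hu.smooth
  have hfcs : HasCompactSupport f := by
    rw [hfdef]
    exact hu.comp.mul_left
  have hfdiff : ∀ x, DifferentiableAt ℝ f x := fun x =>
    (hfc.differentiable (by simp)).differentiableAt
  obtain ⟨H, hH⟩ : ∃ H : Set (E m), H = {z | z ∉ C ∧ connectedComponentIn Cᶜ z ⊆ D} := ⟨_, rfl⟩
  have hHo : IsOpen H := by
    rw [hH]
    exact fillCap_open C hC.isClosed (fun S => S ⊆ D)
  have hOo : IsOpen {z : E m | z ∉ C ∧ ¬ connectedComponentIn Cᶜ z ⊆ D} :=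
    fillCap_open C hC.isClosed (fun S => ¬ S ⊆ D)
  have hfill : fill D C = C ∪ H := by rw [hH]; rfl
  obtain ⟨g, hg⟩ : ∃ g : E m → ℝ, g = fun x => if x ∈ H then 1 + σ (f x - 1) else f x := ⟨_, rfl⟩
  have hgH : ∀ x, x ∈ H → g x = 1 + σ (f x - 1) := fun x hx => by rw [hg]; exact if_pos hx
  have hgN : ∀ x, x ∉ H → g x = f x := fun x hx => by rw [hg]; exact if_neg hx
  have hloc : ∀ x, g =ᶠ[𝓝 x] f ∨ g =ᶠ[𝓝 x] fun y => 1 + σ (f y - 1) := by
    intro x
    by_cases hxC : x ∈ C
    · left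
      have h1 : 1 + ε / 2 < f x := by
        have := hu.one x hxC
        rw [hfdef]
        show 1 + ε / 2 < (1 + ε) * u x
        nlinarith
      have h2 : ∀ᶠ y in 𝓝 x, 1 + ε / 2 < f y := (hfc.continuous.continuousAt).eventually_const_lt h1
      filter_upwards [h2] with y hy
      by_cases hyH : y ∈ H
      · rw [hgH y hyH, hσ1 (f y - 1) (by linarith)]
        ring
      · exact hgN y hyH
    · by_cases hxH : x ∈ H
      · right
        filter_upwards [hHo.mem_nhds hxH] with y hy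
        exact hgH y hy
      · left
        have hxO : x ∈ {z : E m | z ∉ C ∧ ¬ connectedComponentIn Cᶜ z ⊆ D} := by
          refine ⟨hxC, fun h => hxH ?_⟩
          rw [hH]
          exact ⟨hxC, h⟩
        filter_upwards [hOo.mem_nhds hxO] with y hy
        refine hgN y fun h => ?_
        rw [hH] at h
        exact hy.2 h.2
  have hcomp : ContDiff ℝ (⊤ : ℕ∞) fun y => 1 + σ (f y - 1) :=
    contDiff_const.add (hσc.comp (hfc.sub contDiff_const))
  have hgc : ContDiff ℝ (⊤ : ℕ∞) g := by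
    rw [contDiff_iff_contDiffAt]
    intro x
    rcases hloc x with h | h
    · exact hfc.contDiffAt.congr_of_eventuallyEq h
    · exact hcomp.contDiffAt.congr_of_eventuallyEq h
  have hgd : ∀ x, ‖fderiv ℝ g x‖ ≤ ‖fderiv ℝ f x‖ := by
    intro x
    rcases hloc x with h | h
    · rw [h.fderiv_eq]
    · rw [h.fderiv_eq]
      have h1 : HasFDerivAt (fun y => f y - 1) (fderiv ℝ f x) x := (hfdiff x).hasFDerivAt.sub_const 1
      have h2 : HasFDerivAt (fun y => σ (f y - 1)) (deriv θ (-(f x - 1)) • fderiv ℝ f x) x :=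
        (hσd (f x - 1)).comp_hasFDerivAt x h1
      have h3 : HasFDerivAt (fun y => 1 + σ (f y - 1)) (deriv θ (-(f x - 1)) • fderiv ℝ f x) x :=
        h2.const_add 1
      rw [h3.fderiv, norm_smul, Real.norm_eq_abs, abs_of_nonneg (hθd0 _)]
      exact mul_le_of_le_one_left (norm_nonneg _) (hθd1 _)
  have hts : tsupport g ⊆ tsupport u ∪ fill D C := by
    refine closure_minimal ?_ ((isClosed_tsupport u).union hf.isClosed)
    intro x hx
    by_cases hxH : x ∈ H
    · right
      rw [hfill]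
      exact Or.inr hxH
    · left
      apply subset_tsupport u
      intro h0
      apply hx
      rw [hgN x hxH, hfdef]
      show (1 + ε) * u x = 0
      rw [h0, mul_zero]
  have hgcs : HasCompactSupport g :=
    (hu.comp.union hf).of_isClosed_subset (isClosed_tsupport g) hts
  have hadm : Adm D (fill D C) g := by
    refine ⟨hgc, hgcs, hts.trans (Set.union_subset hu.sub hfD), fun x hx => ?_⟩
    by_cases hxH : x ∈ H
    · rw [hgH x hxH]
      have := hσ0 (f x - 1)
      linarith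
    · rw [hfill] at hx
      have hxC : x ∈ C := hx.resolve_right hxH
      rw [hgN x hxH, hfdef]
      show 1 ≤ (1 + ε) * u x
      have := hu.one x hxC
      nlinarith
  have h1 := cap_le D (fill D C) g hadm
  have h2 : energy g ≤ energy f := by
    unfold energy
    refine integral_mono (integ g hgc hgcs) (integ f hfc hfcs) fun x => ?_
    simp only
    rw [norm_grad, norm_grad]
    exact pow_le_pow_left₀ (norm_nonneg _) (hgd x) _
  have h3 : energy f = (1 + ε) ^ (m + 1) * energy u := by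
    rw [hfdef, energy_smul (1 + ε) u hu.smooth, abs_of_pos (by linarith)]
  rw [← h3]
  exact h1.trans h2

theorem fill_cap {m : ℕ} (D C : Set (E m)) (hD : IsOpen D) (hC : IsCompact C) (hCD : C ⊆ D)
    (hf : IsCompact (fill D C)) (hfD : fill D C ⊆ D) : cap D (fill D C) ≤ cap D C := by
  obtain ⟨u0, hu0⟩ := exists_adm D C hD hC hCD
  refine le_csInf ⟨_, u0, hu0, rfl⟩ ?_
  rintro _ ⟨u, hu, rfl⟩
  have h1 : Tendsto (fun ε : ℝ => (1 + ε) ^ (m + 1) * energy u) (𝓝[>] 0) (𝓝 ((1 + 0) ^ (m + 1) * energy u)) := by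
    refine tendsto_nhdsWithin_of_tendsto_nhds ?_
    have : Continuous fun ε : ℝ => (1 + ε) ^ (m + 1) * energy u := by fun_prop
    exact this.tendsto 0
  rw [add_zero, one_pow, one_mul] at h1
  refine ge_of_tendsto h1 ?_
  filter_upwards [self_mem_nhdsWithin] with ε hε
  exact fillCap_one D C hC hf hfD u hu ε hε

end Pool.Agent.H46.MM
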