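import Pool.Agent.H46.MM.Parab
import Pool.Agent.H46.MM.FillCap
import Pool.Agent.H46.MM.FillTop

/-!
`FillCap` for compact subsets `K` of `fill D G` when `fill D G` need not be compact. Adapt the proof of `fillCap_one`
(FillCap.lean): `u` admissible for `G`, `f = (1 + ε) u`, `σ s = -θ (-s)`, `H` the union of the components of `Gᶜ` contained in `D`,
`g = 1 + σ (f - 1)` on `H`, `g = f` elsewhere: smooth, `g ≥ 1` on `fill D G`, `‖∇ g‖ ≤ (1 + ε) ‖∇ u‖`. NEW: take `r` with `tsupport u`, `G`, `K`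
in the ball `‖x‖ < r`, `c = 1 + σ (-1) ≥ 0`, `χ` from `parab` for `r + 1` and `ε / (c + 1) ^ (m + 1)`, and `h = χ g`. For `‖x‖ < r + 1`:
`∇ h = ∇ g`; for `‖x‖ ≥ r` (near `x`: `u = 0`, and `x` has a neighbourhood inside `H` or inside the complement of `fill D G`):
`h = c χ` or `h = 0` near `x`. So `‖∇ h‖ ^ (m+1) ≤ ((1 + ε) ‖∇ u‖) ^ (m+1) + (c ‖∇ χ‖) ^ (m+1)`, `h` is admissible for `K`
(`tsupport h ⊆ tsupport u ∪ fill D G`, `fill_closed`, `fill_sub`), `cap D K ≤ (1 + ε) ^ (m+1) * energy u + ε`; `ε → 0`, infimum over `u`.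
-/

set_option autoImplicit false

namespace Pool.Agent.H46.MM

open MeasureTheory Filter Topology

theorem fillUnb_one {m : ℕ} (hm : 1 ≤ m) (D C K : Set (E m)) (hC : IsCompact C) (hCD : C ⊆ D)
    (hK : IsCompact K) (hKf : K ⊆ fill D C) (u : E m → ℝ) (hu : Adm D C u) (ε : ℝ) (hε : 0 < ε) :
    cap D K ≤ (1 + ε) ^ (m + 1) * energy u + ε := by
  classical
  obtain ⟨θ, hθc, hθ1, _, hθ0, _, hθd0, hθd1⟩ := exists_cut (ε / 2) (by linarith)
  obtain ⟨σ, hσ⟩ : ∃ σ : ℝ → ℝ, σ = fun s => -θ (-s) := ⟨_, rfl⟩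
  have hσc : ContDiff ℝ (⊤ : ℕ∞) σ := by
    rw [hσ]
    exact (hθc.comp contDiff_neg).neg
  have hσ1 : ∀ s, ε / 2 ≤ s → σ s = s := by
    intro s hs
    rw [hσ]
    show -θ (-s) = s
    rw [hθ1 (-s) (by linarith), neg_neg]
  have hσ0 : ∀ s, 0 ≤ σ s := by
    intro s
    rw [hσ]
    show 0 ≤ -θ (-s)
    have := hθ0 (-s)
    linarith
  have hθdiff : ∀ s, HasDerivAt θ (deriv θ s) s := fun s =>
    ((hθc.differentiable (by simp)).differentiableAt).hasDerivAt
  have hσd : ∀ s, HasDerivAt σ (deriv θ (-s)) s := by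
    intro s
    rw [hσ]
    have h1 : HasDerivAt (fun s => θ (-s)) (deriv θ (-s) * (-1)) s :=
      (hθdiff (-s)).comp s (hasDerivAt_neg s)
    have h2 : HasDerivAt (fun s => -θ (-s)) (-(deriv θ (-s) * (-1))) s := h1.neg
    rwa [mul_neg_one, neg_neg] at h2
  obtain ⟨f, hfdef⟩ : ∃ f : E m → ℝ, f = fun x => (1 + ε) * u x := ⟨_, rfl⟩
  have hfc : ContDiff ℝ (⊤ : ℕ∞) f := by
    rw [hfdef]
    exact contDiff_const.mul hu.smooth
  have hfcs : HasCompactSupport f := by
    rw [hfdef]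
    exact hu.comp.mul_left
  have hfdiff : ∀ x, DifferentiableAt ℝ f x := fun x =>
    (hfc.differentiable (by simp)).differentiableAt
  obtain ⟨H, hH⟩ : ∃ H : Set (E m), H = {z | z ∉ C ∧ connectedComponentIn Cᶜ z ⊆ D} := ⟨_, rfl⟩
  have hHo : IsOpen H := by
    rw [hH]
    exact fillCap_open C hC.isClosed (fun S => S ⊆ D)
  have hOo : IsOpen {z : E m | z ∉ C ∧ ¬ connectedComponentIn Cᶜ z ⊆ D} :=
    fillCap_open C hC.isClosed (fun S => ¬ S ⊆ D)
  have hfill : fill D C = C ∪ H := by rw [hH]; rfl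
  obtain ⟨g, hg⟩ : ∃ g : E m → ℝ, g = fun x => if x ∈ H then 1 + σ (f x - 1) else f x := ⟨_, rfl⟩
  have hgH : ∀ x, x ∈ H → g x = 1 + σ (f x - 1) := fun x hx => by rw [hg]; exact if_pos hx
  have hgN : ∀ x, x ∉ H → g x = f x := fun x hx => by rw [hg]; exact if_neg hx
  have hloc : ∀ x, g =ᶠ[𝓝 x] f ∨ g =ᶠ[𝓝 x] fun y => 1 + σ (f y - 1) := by
    intro x
    by_cases hxC : x ∈ C
    · left
      have h1 : 1 + ε / 2 < f x := by
        have := hu.one x hxC
        rw [hfdef]
        show 1 + ε / 2 < (1 + ε) * u x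
        nlinarith
      have h2 : ∀ᶠ y in 𝓝 x, 1 + ε / 2 < f y := (hfc.continuous.continuousAt).eventually_const_lt h1
      filter_upwards [h2] with y hy
      by_cases hyH : y ∈ H
      · rw [hgH y hyH, hσ1 (f y - 1) (by linarith)]
        ring
      · exact hgN y hyH
    · by_cases hxH : x ∈ H
      · right
        filter_upwards [hHo.mem_nhds hxH] with y hy
        exact hgH y hy
      · left
        have hxO : x ∈ {z : E m | z ∉ C ∧ ¬ connectedComponentIn Cᶜ z ⊆ D} := by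
          refine ⟨hxC, fun h => hxH ?_⟩
          rw [hH]
          exact ⟨hxC, h⟩
        filter_upwards [hOo.mem_nhds hxO] with y hy
        refine hgN y fun h => ?_
        rw [hH] at h
        exact hy.2 h.2
  have hcomp : ContDiff ℝ (⊤ : ℕ∞) fun y => 1 + σ (f y - 1) :=
    contDiff_const.add (hσc.comp (hfc.sub contDiff_const))
  have hgc : ContDiff ℝ (⊤ : ℕ∞) g := by
    rw [contDiff_iff_contDiffAt]
    intro x
    rcases hloc x with h | h
    · exact hfc.contDiffAt.congr_of_eventuallyEq h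
    · exact hcomp.contDiffAt.congr_of_eventuallyEq h
  have hgd : ∀ x, ‖fderiv ℝ g x‖ ≤ ‖fderiv ℝ f x‖ := by
    intro x
    rcases hloc x with h | h
    · rw [h.fderiv_eq]
    · rw [h.fderiv_eq]
      have h1 : HasFDerivAt (fun y => f y - 1) (fderiv ℝ f x) x := (hfdiff x).hasFDerivAt.sub_const 1
      have h2 : HasFDerivAt (fun y => σ (f y - 1)) (deriv θ (-(f x - 1)) • fderiv ℝ f x) x :=
        (hσd (f x - 1)).comp_hasFDerivAt x h1
      have h3 : HasFDerivAt (fun y => 1 + σ (f y - 1)) (deriv θ (-(f x - 1)) • fderiv ℝ f x) x :=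
        h2.const_add 1
      rw [h3.fderiv, norm_smul, Real.norm_eq_abs, abs_of_nonneg (hθd0 _)]
      exact mul_le_of_le_one_left (norm_nonneg _) (hθd1 _)
  obtain ⟨r, hr⟩ := ((hu.comp.union (hC.union hK)).isBounded).subset_closedBall (0 : E m)
  have hr' : ∀ x, x ∈ tsupport u ∪ (C ∪ K) → ‖x‖ ≤ r := fun x hx => by
    have := hr hx
    rwa [Metric.mem_closedBall, dist_zero_right] at this
  obtain ⟨c, hc⟩ : ∃ c : ℝ, c = 1 + σ (-1) := ⟨_, rfl⟩
  have hc1 : 1 ≤ c := by
    rw [hc]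
    have := hσ0 (-1)
    linarith
  have hcp : 0 < c ^ (m + 1) := by positivity
  obtain ⟨χ, hχc, hχs, hχ1, hχ0, hχe⟩ := parab hm (r + 1) (ε / c ^ (m + 1)) (div_pos hε hcp)
  obtain ⟨h, hh⟩ : ∃ h : E m → ℝ, h = fun x => χ x * g x := ⟨_, rfl⟩
  have hhc : ContDiff ℝ (⊤ : ℕ∞) h := by
    rw [hh]
    exact hχc.mul hgc
  have hhcs : HasCompactSupport h := by
    rw [hh]
    exact hχs.mul_right
  have hhloc : ∀ x, h =ᶠ[𝓝 x] g ∨ (h =ᶠ[𝓝 x] fun y => c * χ y) ∨ h =ᶠ[𝓝 x] fun _ => 0 := by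
    intro x
    by_cases hx : ‖x‖ < r + 1
    · left
      have h1 : ∀ᶠ y in 𝓝 x, ‖y‖ < r + 1 := continuous_norm.continuousAt.eventually_lt_const hx
      filter_upwards [h1] with y hy
      rw [hh]
      show χ y * g y = g y
      rw [hχ1 y hy, one_mul]
    · right
      have hxn : x ∉ tsupport u ∪ (C ∪ K) := fun hm => hx (by linarith [hr' x hm])
      have hxu : u =ᶠ[𝓝 x] 0 := notMem_tsupport_iff_eventuallyEq.1 fun h1 => hxn (Or.inl h1)
      have hxC : x ∉ C := fun h1 => hxn (Or.inr (Or.inl h1))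
      by_cases hxH : x ∈ H
      · left
        filter_upwards [hHo.mem_nhds hxH, hxu] with y hy hy0
        rw [hh]
        show χ y * g y = c * χ y
        rw [hgH y hy, hfdef]
        show χ y * (1 + σ ((1 + ε) * u y - 1)) = c * χ y
        rw [hy0, hc]
        simp only [Pi.zero_apply, mul_zero, zero_sub]
        ring
      · right
        have hxO : x ∈ {z : E m | z ∉ C ∧ ¬ connectedComponentIn Cᶜ z ⊆ D} := by
          refine ⟨hxC, fun h => hxH ?_⟩
          rw [hH]
          exact ⟨hxC, h⟩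
        filter_upwards [hOo.mem_nhds hxO, hxu] with y hy hy0
        have hyH : y ∉ H := fun h => by
          rw [hH] at h
          exact hy.2 h.2
        rw [hh]
        show χ y * g y = 0
        rw [hgN y hyH, hfdef]
        show χ y * ((1 + ε) * u y) = 0
        rw [hy0]
        simp
  have hhd : ∀ x, ‖fderiv ℝ h x‖ ^ (m + 1) ≤ ‖fderiv ℝ f x‖ ^ (m + 1) + c ^ (m + 1) * ‖fderiv ℝ χ x‖ ^ (m + 1) := by
    intro x
    have p1 : 0 ≤ ‖fderiv ℝ f x‖ ^ (m + 1) := by positivity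
    have p2 : 0 ≤ c ^ (m + 1) * ‖fderiv ℝ χ x‖ ^ (m + 1) := by positivity
    rcases hhloc x with h1 | h1 | h1
    · rw [h1.fderiv_eq]
      have := pow_le_pow_left₀ (norm_nonneg _) (hgd x) (m + 1)
      linarith
    · rw [h1.fderiv_eq, fderiv_const_mul (hχc.differentiable (by simp)).differentiableAt, norm_smul, mul_pow,
        Real.norm_eq_abs, abs_of_nonneg (by linarith : 0 ≤ c)]
      linarith
    · rw [h1.fderiv_eq, fderiv_const_apply, norm_zero, zero_pow (by omega)]
      linarith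
  have hts : tsupport h ⊆ tsupport u ∪ fill D C := by
    refine closure_minimal ?_ ((isClosed_tsupport u).union (fill_closed D C hC.isClosed))
    intro x hx
    by_cases hxH : x ∈ H
    · right
      rw [hfill]
      exact Or.inr hxH
    · left
      apply subset_tsupport u
      intro h0
      apply hx
      rw [hh]
      show χ x * g x = 0
      rw [hgN x hxH, hfdef]
      show χ x * ((1 + ε) * u x) = 0
      rw [h0, mul_zero, mul_zero]
  have hadm : Adm D K h := by
    refine ⟨hhc, hhcs, hts.trans (Set.union_subset hu.sub (fill_sub D C hCD)), fun x hx => ?_⟩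
    have hxr : ‖x‖ < r + 1 := by linarith [hr' x (Or.inr (Or.inr hx))]
    rw [hh]
    show 1 ≤ χ x * g x
    rw [hχ1 x hxr, one_mul]
    by_cases hxH : x ∈ H
    · rw [hgH x hxH]
      have := hσ0 (f x - 1)
      linarith
    · have hx2 := hKf hx
      rw [hfill] at hx2
      have hxC : x ∈ C := hx2.resolve_right hxH
      rw [hgN x hxH, hfdef]
      show 1 ≤ (1 + ε) * u x
      have := hu.one x hxC
      nlinarith
  have h1 := cap_le D K h hadm
  have h2 : energy h ≤ energy f + c ^ (m + 1) * energy χ := by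
    unfold energy
    rw [← integral_const_mul, ← integral_add (integ f hfc hfcs) ((integ χ hχc hχs).const_mul _)]
    refine integral_mono (integ h hhc hhcs) ((integ f hfc hfcs).add ((integ χ hχc hχs).const_mul _)) fun x => ?_
    simp only
    rw [norm_grad, norm_grad, norm_grad]
    exact hhd x
  have h3 : energy f = (1 + ε) ^ (m + 1) * energy u := by
    rw [hfdef, energy_smul (1 + ε) u hu.smooth, abs_of_pos (by linarith)]
  have h4 : c ^ (m + 1) * energy χ ≤ ε := by
    have := mul_le_mul_of_nonneg_left hχe hcp.le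
    rwa [mul_div_cancel₀ _ hcp.ne'] at this
  rw [← h3]
  linarith

theorem fill_cap_sub {m : ℕ} (hm : 1 ≤ m) (D G K : Set (E m)) (hD : IsOpen D) (hG : IsCompact G) (hGD : G ⊆ D)
    (hK : IsCompact K) (hKf : K ⊆ fill D G) : cap D K ≤ cap D G := by
  obtain ⟨u0, hu0⟩ := exists_adm D G hD hG hGD
  refine le_csInf ⟨_, u0, hu0, rfl⟩ ?_
  rintro _ ⟨u, hu, rfl⟩
  have h1 : Tendsto (fun ε : ℝ => (1 + ε) ^ (m + 1) * energy u + ε) (𝓝[>] 0)
      (𝓝 ((1 + 0) ^ (m + 1) * energy u + 0)) := by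
    refine tendsto_nhdsWithin_of_tendsto_nhds ?_
    have : Continuous fun ε : ℝ => (1 + ε) ^ (m + 1) * energy u + ε := by fun_prop
    exact this.tendsto 0
  rw [add_zero, add_zero, one_pow, one_mul] at h1
  refine ge_of_tendsto h1 ?_
  filter_upwards [self_mem_nhdsWithin] with ε hε
  exact fillUnb_one hm D G K hG hGD hK hKf u hu ε hε

end Pool.Agent.H46.MM
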