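import Pool.Agent.H46.MM.Basic

/-!
The conformal capacity of balls in the whole space is zero. `χ₀` a `ContDiffBump` at `0` with `rIn = 1`, `rOut = 3/2`,
`R = max r 1`, `χ_j x = χ₀ ((2 ^ j * R)⁻¹ • x)`, `χ = (1 / N) ∑ j < N, χ_j`. Scale invariance: `energy χ_j = energy χ₀`
(`gradient (fun x => u (c • x)) x = c • gradient u (c • x)`, `MeasureTheory.Measure.integral_comp_smul`). If `gradient χ_j x ≠ 0`
then `1 ≤ ‖x‖ / (2 ^ j * R) ≤ 3/2` (`χ_j` is locally constant outside), which holds for at most one `j`; so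
`‖∇ χ‖ ^ (m+1) ≤ N ^ (-(m+1)) * ∑ j < N, ‖∇ χ_j‖ ^ (m+1)` and `energy χ ≤ N ^ (-m) * energy χ₀ → 0`.
-/

set_option autoImplicit false

namespace Pool.Agent.H46.MM

open MeasureTheory Metric

/-- the fixed bump function -/
private noncomputable def bp (m : ℕ) : ContDiffBump (0 : E m) := ⟨1, 3 / 2, one_pos, by norm_num⟩

private theorem bp_smooth (m : ℕ) : ContDiff ℝ (⊤ : ℕ∞) (bp m) := (bp m).contDiff

private theorem bp_grad {m : ℕ} {y : E m} (h : fderiv ℝ (bp m) y ≠ 0) : 1 ≤ ‖y‖ ∧ ‖y‖ ≤ 3 / 2 := by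
  constructor
  · by_contra h1
    have h2 : y ∈ ball (0 : E m) (bp m).rIn := by
      rw [mem_ball_zero_iff]
      exact not_le.1 h1
    have h3 := (bp m).eventuallyEq_one_of_mem_ball h2
    refine h ?_
    rw [h3.fderiv_eq]
    exact fderiv_const_apply 1
  · have h2 : y ∈ tsupport (bp m) := support_fderiv_subset ℝ h
    rw [(bp m).tsupport_eq, mem_closedBall_zero_iff] at h2
    exact h2

private theorem sc {m : ℕ} (c : ℝ) (hc : 0 < c) (u : E m → ℝ) : energy (fun x => u (c • x)) = energy u := by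
  unfold energy
  have h1 : ∀ x : E m, ‖gradient (fun x => u (c • x)) x‖ ^ (m + 1) =
      c ^ (m + 1) * (fun y => ‖gradient u y‖ ^ (m + 1)) (c • x) := by
    intro x
    simp only
    rw [norm_grad, norm_grad, fderiv_comp_smul, norm_smul, mul_pow, Real.norm_eq_abs, abs_of_pos hc]
  simp only [h1]
  rw [integral_const_mul, Measure.integral_comp_smul volume (fun y => ‖gradient u y‖ ^ (m + 1)) c]
  have h2 : Module.finrank ℝ (E m) = m + 1 := by
    simp
  have hp : 0 < c ^ (m + 1) := pow_pos hc _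
  rw [h2, abs_of_pos (inv_pos.2 hp), smul_eq_mul, ← mul_assoc, mul_inv_cancel₀ hp.ne', one_mul]

private theorem pw {m : ℕ} (N : ℕ) (f : ℕ → E m) (h : ∀ i j, f i ≠ 0 → f j ≠ 0 → i = j) :
    ‖∑ j ∈ Finset.range N, f j‖ ^ (m + 1) ≤ ∑ j ∈ Finset.range N, ‖f j‖ ^ (m + 1) := by
  by_cases h0 : ∃ j ∈ Finset.range N, f j ≠ 0
  · obtain ⟨j, hj, hj0⟩ := h0
    have h1 : ∑ j ∈ Finset.range N, f j = f j := by
      refine Finset.sum_eq_single j (fun i _ hi => ?_) (fun h2 => absurd hj h2)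
      by_contra h2
      exact hi (h i j h2 hj0)
    rw [h1]
    exact Finset.single_le_sum (f := fun j => ‖f j‖ ^ (m + 1)) (fun i _ => pow_nonneg (norm_nonneg _) _) hj
  · push Not at h0
    rw [Finset.sum_eq_zero h0, norm_zero, zero_pow (Nat.succ_ne_zero m)]
    exact Finset.sum_nonneg fun i _ => pow_nonneg (norm_nonneg _) _

theorem parab {m : ℕ} (hm : 1 ≤ m) (r ε : ℝ) (hε : 0 < ε) : ∃ χ : E m → ℝ, ContDiff ℝ (⊤ : ℕ∞) χ ∧
    HasCompactSupport χ ∧ (∀ x, ‖x‖ < r → χ x = 1) ∧ (∀ x, 0 ≤ χ x) ∧ energy χ ≤ ε := by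
  obtain ⟨R, hR⟩ : ∃ R, R = max r 1 := ⟨_, rfl⟩
  have hR1 : 1 ≤ R := hR ▸ le_max_right _ _
  have hRr : r ≤ R := hR ▸ le_max_left _ _
  have hc : ∀ j : ℕ, 0 < (2 ^ j * R)⁻¹ := fun j => by positivity
  have hsm : ∀ j : ℕ, ContDiff ℝ (⊤ : ℕ∞) (fun x : E m => bp m ((2 ^ j * R)⁻¹ • x)) := fun j =>
    (bp_smooth m).comp (contDiff_const_smul _)
  have hcs : ∀ j : ℕ, HasCompactSupport (fun x : E m => bp m ((2 ^ j * R)⁻¹ • x)) := fun j =>
    (bp m).hasCompactSupport.comp_smul (hc j).ne'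
  have hdf : ∀ j (x : E m), DifferentiableAt ℝ (fun x : E m => bp m ((2 ^ j * R)⁻¹ • x)) x := fun j x =>
    ((hsm j).differentiable (by simp)).differentiableAt
  obtain ⟨N, hN⟩ := exists_nat_gt (max (energy (bp m) / ε) 1)
  have hN1 : (1 : ℝ) < N := (le_max_right _ _).trans_lt hN
  have hN2 : energy (bp m) / ε < N := (le_max_left _ _).trans_lt hN
  have hN0 : (0 : ℝ) < N := by linarith
  have hsum : ContDiff ℝ (⊤ : ℕ∞) (fun x : E m => ∑ j ∈ Finset.range N, bp m ((2 ^ j * R)⁻¹ • x)) :=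
    ContDiff.sum fun j _ => hsm j
  have hcsum : HasCompactSupport (fun x : E m => ∑ j ∈ Finset.range N, bp m ((2 ^ j * R)⁻¹ • x)) := by
    refine HasCompactSupport.intro (isCompact_closedBall (0 : E m) (3 / 2 * (2 ^ N * R))) fun x hx => ?_
    rw [mem_closedBall_zero_iff, not_le] at hx
    refine Finset.sum_eq_zero fun j hj => ?_
    refine (bp m).zero_of_le_dist ?_
    rw [dist_zero_right, norm_smul, Real.norm_eq_abs, abs_of_pos (hc j), inv_mul_eq_div, le_div_iff₀ (by positivity)]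
    have h1 : (2 : ℝ) ^ j ≤ 2 ^ N := pow_le_pow_right₀ (by norm_num) (Finset.mem_range.1 hj).le
    have h2 : (bp m).rOut = 3 / 2 := rfl
    rw [h2]
    refine le_trans ?_ hx.le
    refine mul_le_mul_of_nonneg_left ?_ (by norm_num)
    exact mul_le_mul_of_nonneg_right h1 (by linarith)
  refine ⟨fun x => (1 / N : ℝ) * ∑ j ∈ Finset.range N, bp m ((2 ^ j * R)⁻¹ • x), contDiff_const.mul hsum,
    hcsum.mul_left, fun x hx => ?_, fun x => ?_, ?_⟩
  · have h1 : ∀ j ∈ Finset.range N, bp m ((2 ^ j * R)⁻¹ • x) = 1 := fun j _ => by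
      refine (bp m).one_of_mem_closedBall ?_
      rw [mem_closedBall_zero_iff, norm_smul, Real.norm_eq_abs, abs_of_pos (hc j), inv_mul_eq_div,
        div_le_iff₀ (by positivity)]
      have h2 : (bp m).rIn = 1 := rfl
      rw [h2, one_mul]
      have h3 : (1 : ℝ) ≤ 2 ^ j := one_le_pow₀ (by norm_num)
      nlinarith
    simp only
    rw [Finset.sum_congr rfl h1, Finset.sum_const, Finset.card_range, nsmul_eq_mul, mul_one, one_div,
      inv_mul_cancel₀ hN0.ne']
  · exact mul_nonneg (by positivity) (Finset.sum_nonneg fun j _ => (bp m).nonneg)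
  · rw [energy_smul (1 / N : ℝ) (fun x : E m => ∑ j ∈ Finset.range N, bp m ((2 ^ j * R)⁻¹ • x)) hsum,
      abs_of_pos (by positivity : (0 : ℝ) < 1 / N)]
    have h1 : energy (fun x : E m => ∑ j ∈ Finset.range N, bp m ((2 ^ j * R)⁻¹ • x)) ≤ N * energy (bp m) := by
      have h2 : ∑ j ∈ Finset.range N, energy (fun x : E m => bp m ((2 ^ j * R)⁻¹ • x)) = N * energy (bp m) := by
        rw [Finset.sum_congr rfl fun j _ => sc _ (hc j) (bp m), Finset.sum_const, Finset.card_range, nsmul_eq_mul]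
      rw [← h2]
      unfold energy
      rw [← integral_finsetSum _ fun j _ => integ _ (hsm j) (hcs j)]
      refine integral_mono (integ _ hsum hcsum) (integrable_finsetSum _ fun j _ => integ _ (hsm j) (hcs j)) fun x => ?_
      simp only
      have h3 : gradient (fun x : E m => ∑ j ∈ Finset.range N, bp m ((2 ^ j * R)⁻¹ • x)) x =
          ∑ j ∈ Finset.range N, gradient (fun x : E m => bp m ((2 ^ j * R)⁻¹ • x)) x := by
        unfold gradient
        rw [fderiv_fun_sum fun j _ => hdf j x, map_sum]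
      rw [h3]
      refine pw N (fun j => gradient (fun x : E m => bp m ((2 ^ j * R)⁻¹ • x)) x) ?_
      have h4 : ∀ j, gradient (fun x : E m => bp m ((2 ^ j * R)⁻¹ • x)) x ≠ 0 → 2 ^ j * R ≤ ‖x‖ ∧ ‖x‖ ≤ 3 / 2 * (2 ^ j * R) := by
        intro j hj
        have h5 : fderiv ℝ (bp m) ((2 ^ j * R)⁻¹ • x) ≠ 0 := by
          intro h6
          apply hj
          rw [← norm_eq_zero, norm_grad, fderiv_comp_smul, h6, smul_zero, norm_zero]
        have h6 := bp_grad h5
        rw [norm_smul, Real.norm_eq_abs, abs_of_pos (hc j), inv_mul_eq_div, le_div_iff₀ (by positivity),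
          div_le_iff₀ (by positivity), one_mul] at h6
        exact h6
      have h5 : ∀ i j, i < j → gradient (fun x : E m => bp m ((2 ^ i * R)⁻¹ • x)) x ≠ 0 →
          gradient (fun x : E m => bp m ((2 ^ j * R)⁻¹ • x)) x ≠ 0 → False := by
        intro i j hij hi hj
        have h6 := (h4 i hi).2
        have h7 := (h4 j hj).1
        have h8 : (2 : ℝ) ^ (i + 1) ≤ 2 ^ j := pow_le_pow_right₀ (by norm_num) hij
        have h9 : 2 ^ (i + 1) * R ≤ 2 ^ j * R := mul_le_mul_of_nonneg_right h8 (by linarith)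
        have h10 : 0 < 2 ^ i * R := by positivity
        rw [pow_succ] at h9
        linarith
      intro i j hi hj
      rcases lt_trichotomy i j with h | h | h
      · exact (h5 i j h hi hj).elim
      · exact h
      · exact (h5 j i h hj hi).elim
    have he := energy_nonneg (bp m)
    have h2 : (1 / N : ℝ) ^ (m + 1) ≤ (1 / N) ^ 2 :=
      pow_le_pow_of_le_one (by positivity) ((div_le_one hN0).2 hN1.le) (by omega)
    calc (1 / N : ℝ) ^ (m + 1) * energy (fun x : E m => ∑ j ∈ Finset.range N, bp m ((2 ^ j * R)⁻¹ • x))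
        ≤ (1 / N) ^ 2 * (N * energy (bp m)) := mul_le_mul h2 h1 (energy_nonneg _) (by positivity)
      _ = energy (bp m) / N := by
          field_simp
      _ ≤ ε := by
          rw [div_le_iff₀ hN0]
          rw [div_lt_iff₀ hε] at hN2
          linarith

end Pool.Agent.H46.MM
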