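import Pool.Agent.H46.MM.ThickDef
import Pool.Agent.H46.MM.Parab

/-!
A nonempty thick complement is infinite. Otherwise `w ∈ Dᶜ` is isolated: `closedBall w r \ D = {w}` for some `r > 0`. For `ε > 0` take `χ` from
`parab 1 ε` (`χ 0 = 1`, support in `closedBall 0 S`, `S > 0`), `u x = χ ((S / r) • (x - w))`: `energy u = energy χ ≤ ε` (scaling and translation; the
scaling lemma is `pa_scale`, private in Parab.lean), support in `closedBall w r ⊆ ball w (2 r)`, `u w = 1`: `cap ≤ ε` for all `ε`.
-/

set_option autoImplicit false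

namespace Pool.Agent.H46.MM

open MeasureTheory Set

private theorem ti_scale {m : ℕ} (c : ℝ) (hc : 0 < c) (u : E m → ℝ) : energy (fun x => u (c • x)) = energy u := by
  unfold energy
  have h1 : ∀ x : E m, ‖gradient (fun x => u (c • x)) x‖ ^ (m + 1) =
      c ^ (m + 1) * (fun y => ‖gradient u y‖ ^ (m + 1)) (c • x) := by
    intro x
    simp only
    rw [norm_grad, norm_grad, fderiv_comp_smul, norm_smul, mul_pow, Real.norm_eq_abs, abs_of_pos hc]
  simp only [h1]
  rw [integral_const_mul, Measure.integral_comp_smul volume (fun y => ‖gradient u y‖ ^ (m + 1)) c]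
  have h2 : Module.finrank ℝ (E m) = m + 1 := by
    simp
  have hp : 0 < c ^ (m + 1) := pow_pos hc _
  rw [h2, abs_of_pos (inv_pos.2 hp), smul_eq_mul, ← mul_assoc, mul_inv_cancel₀ hp.ne', one_mul]

private theorem ti_trans {m : ℕ} (w : E m) (u : E m → ℝ) : energy (fun x => u (x - w)) = energy u := by
  unfold energy
  have h1 : ∀ x : E m, ‖gradient (fun x => u (x - w)) x‖ ^ (m + 1) =
      (fun y => ‖gradient u y‖ ^ (m + 1)) (x - w) := by
    intro x
    simp only
    rw [norm_grad, norm_grad, fderiv_comp_sub]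
  simp only [h1]
  exact integral_sub_right_eq_self (fun y => ‖gradient u y‖ ^ (m + 1)) w

theorem thick_inf {m : ℕ} (hm : 1 ≤ m) (D : Set (E m)) (hT : Thick D) (hDu : D ≠ univ) : (Dᶜ).Infinite := by
  intro hfin
  obtain ⟨w, hw⟩ := (Set.ne_univ_iff_exists_notMem D).1 hDu
  -- isolated
  have hcl : IsClosed (Dᶜ \ {w}) := (hfin.subset sdiff_subset).isClosed
  have hnb : (Dᶜ \ {w})ᶜ ∈ nhds w := hcl.isOpen_compl.mem_nhds (by simp)
  obtain ⟨r, hr, hrs⟩ := Metric.nhds_basis_closedBall.mem_iff.1 hnb
  have hsub : Metric.closedBall w r \ D ⊆ {w} := by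
    intro x hx
    by_contra h
    exact hrs hx.1 ⟨hx.2, h⟩
  have hpos := hT w hw r hr
  refine absurd hpos (not_lt.2 (le_of_forall_pos_le_add fun ε hε => ?_))
  rw [zero_add]
  obtain ⟨χ, hχ, hχc, hχ1, -, hχe⟩ := parab (m := m) hm 1 ε hε
  obtain ⟨S, hS, hSs⟩ : ∃ S : ℝ, 0 < S ∧ tsupport χ ⊆ Metric.closedBall 0 S := by
    obtain ⟨S, hS⟩ := (hχc : IsCompact (tsupport χ)).isBounded.subset_closedBall (0 : E m)
    exact ⟨max S 1, by positivity, hS.trans (Metric.closedBall_subset_closedBall (le_max_left _ _))⟩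
  have hc : 0 < S / r := by positivity
  have hlin : ContDiff ℝ (⊤ : ℕ∞) fun x : E m => (S / r) • (x - w) :=
    (contDiff_id.sub contDiff_const).const_smul _
  have hzero : ∀ x : E m, x ∉ Metric.closedBall w r → χ ((S / r) • (x - w)) = 0 := by
    intro x hx
    refine image_eq_zero_of_notMem_tsupport fun h => ?_
    have h1 := hSs h
    rw [mem_closedBall_zero_iff, norm_smul, Real.norm_eq_abs, abs_of_pos hc, ← dist_eq_norm] at h1
    rw [Metric.mem_closedBall, not_le] at hx
    have h2 : S / r * r < S / r * dist x w := by gcongr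
    rw [div_mul_cancel₀ _ hr.ne'] at h2
    linarith
  have hsupp : tsupport (fun x : E m => χ ((S / r) • (x - w))) ⊆ Metric.closedBall w r := by
    refine closure_minimal (fun x hx => ?_) Metric.isClosed_closedBall
    by_contra h
    exact hx (hzero x h)
  refine (cap_le _ _ (fun x : E m => χ ((S / r) • (x - w))) ⟨hχ.comp hlin, ?_, ?_, ?_⟩).trans ?_
  · exact HasCompactSupport.intro (isCompact_closedBall w r) hzero
  · exact hsupp.trans (Metric.closedBall_subset_ball (by linarith))
  · intro x hx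
    have := hsub hx
    rw [mem_singleton_iff] at this
    rw [this, sub_self, smul_zero]
    exact (hχ1 0 (by simp)).ge
  · have e := ti_trans w (fun y => χ ((S / r) • y))
    rw [e, ti_scale _ hc χ]
    exact hχe

end Pool.Agent.H46.MM
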