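import Pool.Agent.H46.MM.Irr
import Pool.Agent.H46.MM.FillTop
import Pool.Agent.H46.MM.FillUnb
import Pool.Agent.H46.MM.Access
import Pool.Agent.H46.MM.ThickInf

/-!
Minimizers that contain a path.
-/

set_option autoImplicit false

namespace Pool.Agent.H46.MM

open MeasureTheory Filter Topology Set

/-- a path from `a` to `b` inside a connected open set: a compact connected set -/
theorem conn_path {m : ℕ} (V : Set (E m)) (hV : IsOpen V) (hVc : IsConnected V) (a b : E m) (ha : a ∈ V)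
    (hb : b ∈ V) : ∃ P : Set (E m), IsCompact P ∧ IsConnected P ∧ a ∈ P ∧ b ∈ P ∧ P ⊆ V := by
  have hp : IsPathConnected V := hV.isConnected_iff_isPathConnected.1 hVc
  obtain ⟨γ, hγ⟩ := hp.joinedIn a ha b hb
  refine ⟨range γ, isCompact_range γ.continuous, isConnected_range γ.continuous,
    ⟨0, γ.source⟩, ⟨1, γ.target⟩, ?_⟩
  rintro z ⟨t, rfl⟩
  exact hγ t

/-- the segment from `v` to `p` -/
theorem conn_seg {m : ℕ} (V : Set (E m)) (v p : E m)
    (h : ∀ t : ℝ, 0 ≤ t → t < 1 → v + t • (p - v) ∈ V) :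
    ∃ W : Set (E m), IsCompact W ∧ IsConnected W ∧ v ∈ W ∧ p ∈ W ∧ W ⊆ V ∪ {p} := by
  refine ⟨(fun t : ℝ => v + t • (p - v)) '' Icc 0 1, ?_, ?_, ?_, ?_, ?_⟩
  · exact isCompact_Icc.image (by fun_prop)
  · exact (isConnected_Icc zero_le_one).image _ (by fun_prop)
  · exact ⟨0, ⟨le_rfl, zero_le_one⟩, by simp⟩
  · exact ⟨1, ⟨zero_le_one, le_rfl⟩, by simp⟩
  · rintro z ⟨t, ht, rfl⟩
    rcases ht.2.lt_or_eq with h1 | h1
    · exact Or.inl (h t ht.1 h1)
    · right
      rw [h1]
      simp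

theorem frontier_comp {m : ℕ} (K : Set (E m)) (hK : IsClosed K) (q : E m) :
    frontier (connectedComponentIn (interior K) q) ⊆ frontier K := by
  intro p hp
  have hVo : IsOpen (connectedComponentIn (interior K) q) := isOpen_interior.connectedComponentIn
  have hpc : p ∈ closure (connectedComponentIn (interior K) q) := frontier_subset_closure hp
  have hpK : p ∈ K := by
    have h1 : connectedComponentIn (interior K) q ⊆ K :=
      (connectedComponentIn_subset _ _).trans interior_subset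
    exact hK.closure_subset_iff.2 h1 hpc
  rw [hK.frontier_eq]
  refine ⟨hpK, fun hpi => ?_⟩
  have hUo : IsOpen (connectedComponentIn (interior K) p) := isOpen_interior.connectedComponentIn
  have hpU : p ∈ connectedComponentIn (interior K) p := mem_connectedComponentIn hpi
  obtain ⟨w, hwU, hwV⟩ := mem_closure_iff.1 hpc _ hUo hpU
  have e1 := connectedComponentIn_eq hwU
  have e2 := connectedComponentIn_eq hwV
  have hpV : p ∈ connectedComponentIn (interior K) q := by
    rw [e2, ← e1]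
    exact hpU
  rw [frontier, hVo.interior_eq] at hp
  exact hp.2 hpV

/-- filling the holes of a path that is a minimizer gives no interior points -/
theorem no_int {m : ℕ} (hm : 1 ≤ m) (D : Set (E m)) (hD : IsOpen D) (hDu : D ≠ univ)
    (hT : Thick D) (x y : E m) (hxy : x ≠ y) (γ : ℝ → E m)
    (hγ : ContinuousOn γ (Icc 0 1)) (h0 : γ 0 = x) (h1 : γ 1 = y)
    (hG : IsMin D x y (γ '' Icc 0 1)) : interior (fill D (γ '' Icc 0 1)) = ∅ := by
  by_contra hne
  rw [← Ne, ← Set.nonempty_iff_ne_empty] at hne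
  obtain ⟨q, hq⟩ := hne
  have hGc : IsCompact (γ '' Icc 0 1) := hG.cont.compact
  set K := fill D (γ '' Icc 0 1) with hKdef
  have hKcl : IsClosed K := fill_closed D _ hGc.isClosed
  have hKD : K ⊆ D := fill_sub D _ hG.cont.sub
  have hγK : γ '' Icc 0 1 ⊆ K := subset_union_left
  have hfr : frontier K ⊆ γ '' Icc 0 1 := fill_front D _ hGc
  set V := connectedComponentIn (interior K) q with hVdef
  have hVo : IsOpen V := isOpen_interior.connectedComponentIn
  have hVc : IsConnected V := isConnected_connectedComponentIn_iff.2 hq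
  have hVK : V ⊆ K := (connectedComponentIn_subset _ _).trans interior_subset
  have hVb : (Vᶜ).Infinite := (thick_inf hm D hT hDu).mono (compl_subset_compl.2 (hVK.trans hKD))
  have hVf : frontier V ⊆ frontier K := frontier_comp K hKcl q
  have hinf := access hm V hVo ⟨q, mem_connectedComponentIn hq⟩ hVb
  set A := {p : E m | p ∈ frontier V ∧ ∃ v ∈ V, ∀ t : ℝ, 0 ≤ t → t < 1 → v + t • (p - v) ∈ V} with hA
  obtain ⟨s, hsub, hcard⟩ := hinf.exists_subset_card_eq 3
  -- times at which `γ` is at `p`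
  set T : E m → Set ℝ := fun p => Icc 0 1 ∩ γ ⁻¹' {p} with hTdef
  have hTc : ∀ p, IsCompact (T p) := fun p =>
    isCompact_Icc.of_isClosed_subset (hγ.preimage_isClosed_of_isClosed isClosed_Icc isClosed_singleton)
      inter_subset_left
  have hTn : ∀ p ∈ s, (T p).Nonempty := by
    intro p hp
    obtain ⟨t, ht, he⟩ := hfr (hVf (hsub hp).1)
    exact ⟨t, ht, he⟩
  have hinf_mem : ∀ p ∈ s, sInf (T p) ∈ T p := fun p hp => (hTc p).sInf_mem (hTn p hp)
  have hsup_mem : ∀ p ∈ s, sSup (T p) ∈ T p := fun p hp => (hTc p).sSup_mem (hTn p hp)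
  have hsne : s.Nonempty := by
    rw [← Finset.card_pos, hcard]
    norm_num
  obtain ⟨p1, hp1s, hmin⟩ := Finset.exists_min_image s (fun p => sInf (T p)) hsne
  obtain ⟨p3, hp3s, hmax⟩ := Finset.exists_max_image s (fun p => sSup (T p)) hsne
  obtain ⟨p2, hp2s, h21, h23⟩ : ∃ p2 ∈ s, p2 ≠ p1 ∧ p2 ≠ p3 := by
    by_contra hcon
    push Not at hcon
    have hss : s ⊆ {p1, p3} := by
      intro p hp
      by_cases he : p = p1
      · simp [he]
      · simp [hcon p hp he]
    have := Finset.card_le_card hss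
    have h2 : ({p1, p3} : Finset (E m)).card ≤ 2 := Finset.card_le_two
    omega
  obtain ⟨hf1, v1, hv1, hs1⟩ := hsub hp1s
  obtain ⟨hf2, -⟩ := hsub hp2s
  obtain ⟨hf3, v3, hv3, hs3⟩ := hsub hp3s
  obtain ⟨⟨h10, h11⟩, hγ1⟩ := hinf_mem p1 hp1s
  obtain ⟨⟨h30, h31⟩, hγ3⟩ := hsup_mem p3 hp3s
  have hγ1' : γ (sInf (T p1)) = p1 := hγ1
  have hγ3' : γ (sSup (T p3)) = p3 := hγ3
  set t1 := sInf (T p1) with ht1
  set t3 := sSup (T p3) with ht3
  have hno1 : ∀ t ∈ Icc (0 : ℝ) t1, γ t ≠ p2 := by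
    intro t ht he
    have hmem : t ∈ T p2 := ⟨⟨ht.1, ht.2.trans h11⟩, he⟩
    have h4 : sInf (T p2) ≤ t := csInf_le (hTc p2).bddBelow hmem
    have h5 := hmin p2 hp2s
    have h6 : t = t1 := le_antisymm ht.2 (h5.trans h4)
    rw [h6, hγ1'] at he
    exact h21 he.symm
  have hno3 : ∀ t ∈ Icc t3 (1 : ℝ), γ t ≠ p2 := by
    intro t ht he
    have hmem : t ∈ T p2 := ⟨⟨h30.trans ht.1, ht.2⟩, he⟩
    have h4 : t ≤ sSup (T p2) := le_csSup (hTc p2).bddAbove hmem
    have h5 := hmax p2 hp2s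
    have h6 : t = t3 := le_antisymm (h4.trans h5) ht.1
    rw [h6, hγ3'] at he
    exact h23 he.symm
  obtain ⟨P, hPc, hPn, hP1, hP3, hPV⟩ := conn_path V hVo hVc v1 v3 hv1 hv3
  obtain ⟨W1, hW1c, hW1n, hW1v, hW1p, hW1s⟩ := conn_seg V v1 p1 hs1
  obtain ⟨W3, hW3c, hW3n, hW3v, hW3p, hW3s⟩ := conn_seg V v3 p3 hs3
  have hsub1 : Icc (0 : ℝ) t1 ⊆ Icc 0 1 := Icc_subset_Icc le_rfl h11
  have hsub3 : Icc t3 (1 : ℝ) ⊆ Icc 0 1 := Icc_subset_Icc h30 le_rfl
  have hG1 : IsConnected (γ '' Icc 0 t1) := (isConnected_Icc h10).image _ (hγ.mono hsub1)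
  have hG3 : IsConnected (γ '' Icc t3 1) := (isConnected_Icc h31).image _ (hγ.mono hsub3)
  have hG1c : IsCompact (γ '' Icc 0 t1) := isCompact_Icc.image_of_continuousOn (hγ.mono hsub1)
  have hG3c : IsCompact (γ '' Icc t3 1) := isCompact_Icc.image_of_continuousOn (hγ.mono hsub3)
  set L := (((γ '' Icc 0 t1 ∪ W1) ∪ P) ∪ W3) ∪ γ '' Icc t3 1 with hL
  have hLc : IsCompact L := (((hG1c.union hW1c).union hPc).union hW3c).union hG3c
  have hLn : IsConnected L := by
    refine IsConnected.union ⟨p3, ?_, ?_⟩ (IsConnected.union ⟨v3, ?_, hW3v⟩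
      (IsConnected.union ⟨v1, ?_, hP1⟩ (IsConnected.union ⟨p1, ?_, hW1p⟩ hG1 hW1n) hPn) hW3n) hG3
    · exact Or.inr hW3p
    · exact ⟨t3, ⟨le_rfl, h31⟩, hγ3'⟩
    · exact Or.inr hP3
    · exact Or.inr hW1v
    · exact ⟨t1, ⟨h10, le_rfl⟩, hγ1'⟩
  have hγmem : ∀ t ∈ Icc (0 : ℝ) 1, γ t ∈ K := fun t ht => hγK ⟨t, ht, rfl⟩
  have hfK' : ∀ p ∈ frontier V, p ∈ K := fun p hp => hKcl.frontier_subset (hVf hp)
  have hLK : L ⊆ K := by
    rintro z ((((⟨t, ht, rfl⟩ | hz) | hz) | hz) | ⟨t, ht, rfl⟩)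
    · exact hγmem t (hsub1 ht)
    · rcases hW1s hz with h | h
      · exact hVK h
      · rw [mem_singleton_iff.1 h]
        exact hfK' p1 hf1
    · exact hVK (hPV hz)
    · rcases hW3s hz with h | h
      · exact hVK h
      · rw [mem_singleton_iff.1 h]
        exact hfK' p3 hf3
    · exact hγmem t (hsub3 ht)
  have hp2V : p2 ∉ V := by
    intro hV
    rw [frontier, hVo.interior_eq] at hf2
    exact hf2.2 hV
  have hp2 : p2 ∉ L := by
    rintro ((((⟨t, ht, he⟩ | hz) | hz) | hz) | ⟨t, ht, he⟩)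
    · exact hno1 t ht he
    · rcases hW1s hz with h | h
      · exact hp2V h
      · exact h21 (mem_singleton_iff.1 h)
    · exact hp2V (hPV hz)
    · rcases hW3s hz with h | h
      · exact hp2V h
      · exact h23 (mem_singleton_iff.1 h)
    · exact hno3 t ht he
  have hLCont : Cont D x y L := by
    refine ⟨hLc, hLn, hLK.trans hKD, ?_, ?_⟩
    · exact Or.inl (Or.inl (Or.inl (Or.inl ⟨0, ⟨le_rfl, h10⟩, h0⟩)))
    · exact Or.inr ⟨1, ⟨h31, le_rfl⟩, h1⟩
  have hMc : IsCompact (γ '' Icc 0 1 ∪ L) := hGc.union hLc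
  have hMK : γ '' Icc 0 1 ∪ L ⊆ K := union_subset hγK hLK
  have hMCont : Cont D x y (γ '' Icc 0 1 ∪ L) :=
    ⟨hMc, IsConnected.union ⟨x, hG.cont.memx, hLCont.memx⟩ hG.cont.conn hLn, hMK.trans hKD,
      Or.inl hG.cont.memx, Or.inl hG.cont.memy⟩
  have hM : IsMin D x y (γ '' Icc 0 1 ∪ L) := by
    refine ⟨hMCont, le_antisymm ?_ (modMetric_le D x y _ hMCont)⟩
    rw [← hG.eq]
    exact fill_cap_sub hm D _ _ hD hGc hG.cont.sub hMc hMK
  have hirr := irr hm D hD hT x y hxy _ hM L hLCont subset_union_right p2 (Or.inl (hfr (hVf hf2))) hp2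
  -- a point outside `K` close to `p2`
  have hfK : p2 ∈ frontier K := hVf hf2
  obtain ⟨r, hr, hball⟩ := Metric.isOpen_iff.1 hLc.isClosed.isOpen_compl p2 hp2
  have hcl : p2 ∈ closure Kᶜ := by
    have := frontier_compl K ▸ hfK
    exact frontier_subset_closure this
  obtain ⟨w, hw, hwd⟩ := Metric.mem_closure_iff.1 hcl r hr
  have hwball : w ∈ Metric.ball p2 r := by
    rw [Metric.mem_ball, dist_comm]
    exact hwd
  have hwc : w ∈ connectedComponentIn Lᶜ p2 :=
    (Metric.isPreconnected_ball).subset_connectedComponentIn (Metric.mem_ball_self hr) hball hwball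
  have heq := connectedComponentIn_eq hwc
  apply fill_out D _ hGc w hw
  have hmono : connectedComponentIn Kᶜ w ⊆ connectedComponentIn Lᶜ w :=
    connectedComponentIn_mono w (compl_subset_compl.2 hLK)
  rw [← heq] at hmono
  exact hmono.trans hirr

theorem sub_min {m : ℕ} (D : Set (E m)) (hD : IsOpen D) (x y : E m) (C : Set (E m)) (hC : IsMin D x y C)
    (G : Set (E m)) (hG : Cont D x y G) (hGC : G ⊆ C) : IsMin D x y G := by
  refine ⟨hG, le_antisymm ?_ (modMetric_le D x y G hG)⟩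
  rw [← hC.eq]
  exact cap_mono D G C hD hC.cont.compact hC.cont.sub hGC

theorem no_holes {m : ℕ} (D C : Set (E m)) (hC : IsCompact C) (hint : interior (fill D C) = ∅) :
    ∀ z, z ∉ C → ¬ connectedComponentIn Cᶜ z ⊆ D := by
  intro z hz hsub
  have hUo : IsOpen (connectedComponentIn Cᶜ z) := hC.isClosed.isOpen_compl.connectedComponentIn
  have hUK : connectedComponentIn Cᶜ z ⊆ fill D C := by
    intro w hw
    right
    refine ⟨connectedComponentIn_subset _ _ hw, ?_⟩
    rw [← connectedComponentIn_eq hw]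
    exact hsub
  have : z ∈ interior (fill D C) := interior_maximal hUK hUo (mem_connectedComponentIn hz)
  rw [hint] at this
  exact this

theorem path_min {m : ℕ} (hm : 1 ≤ m) (D : Set (E m)) (hD : IsOpen D) (hDu : D ≠ univ)
    (hT : Thick D) (x y : E m) (hxy : x ≠ y) (C : Set (E m)) (hC : IsMin D x y C)
    (γ : ℝ → E m) (hγ : ContinuousOn γ (Icc 0 1)) (h0 : γ 0 = x)
    (h1 : γ 1 = y) (hγC : γ '' Icc 0 1 ⊆ C) : C = γ '' Icc 0 1 ∧ interior (fill D C) = ∅ := by
  set G := γ '' Icc 0 1 with hG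
  have hGc : IsCompact G := isCompact_Icc.image_of_continuousOn hγ
  have hGn : IsConnected G := (isConnected_Icc zero_le_one).image _ hγ
  have hGD : G ⊆ D := hγC.trans hC.cont.sub
  have hGcont : Cont D x y G := ⟨hGc, hGn, hGD, ⟨0, ⟨le_rfl, zero_le_one⟩, h0⟩,
    ⟨1, ⟨zero_le_one, le_rfl⟩, h1⟩⟩
  have hGmin : IsMin D x y G := sub_min D hD x y C hC G hGcont hγC
  have hint := no_int hm D hD hDu hT x y hxy γ hγ h0 h1 hGmin
  have hCG : C = G := by
    refine Subset.antisymm ?_ hγC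
    intro z hz
    by_contra hzG
    exact no_holes D G hGc hint z hzG (irr hm D hD hT x y hxy C hC G hGcont hγC z hz hzG)
  exact ⟨hCG, by rw [hCG]; exact hint⟩

/-- a minimizer that contains a path between its endpoints is the image of every such path, has no
interior points, and is irreducible between its endpoints -/
theorem path_irr {m : ℕ} (hm : 1 ≤ m) (D : Set (E m)) (hD : IsOpen D) (hDu : D ≠ univ)
    (hT : Thick D) (x y : E m) (hxy : x ≠ y) (C : Set (E m)) (hC : IsMin D x y C)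
    (γ : ℝ → E m) (hγ : ContinuousOn γ (Icc 0 1)) (h0 : γ 0 = x)
    (h1 : γ 1 = y) (hγC : γ '' Icc 0 1 ⊆ C) (C' : Set (E m)) (h' : Cont D x y C') (hCC : C' ⊆ C) :
    C' = C := by
  obtain ⟨-, hint⟩ := path_min hm D hD hDu hT x y hxy C hC γ hγ h0 h1 hγC
  have hsub : fill D C' ⊆ fill D C := by
    intro z hz
    by_cases hzC : z ∈ C
    · exact Or.inl hzC
    · have hzC' : z ∉ C' := fun h => hzC (hCC h)
      exact Or.inr ⟨hzC, (connectedComponentIn_mono z (compl_subset_compl.2 hCC)).trans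
        (hz.resolve_left hzC').2⟩
  have hint' : interior (fill D C') = ∅ := by
    rw [← Set.subset_empty_iff, ← hint]
    exact interior_mono hsub
  refine Subset.antisymm hCC ?_
  intro z hz
  by_contra hz'
  exact no_holes D C' h'.compact hint' z hz' (irr hm D hD hT x y hxy C hC C' h' hCC z hz hz')

end Pool.Agent.H46.MM
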