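import Pool.Agent.H46.MM.Def

/-!
The barrier. `n = m + 1`, `m = j + 1`, `y = x - a`, `c = ρ²`,
`v x = 1 + κ (1 / (R⁴ + c²) - 1 / (‖y‖⁴ + c²))`, `κ = δ c²`. With `q = ‖y‖⁴ + c²`: `∇ v = 4 κ ‖y‖² / q² • y`,
`‖∇ v‖ ^ (m-1) ∇ v = F • y`, `F = (4 κ)^m ‖y‖ ^ (3 m - 1) / q ^ (2 m)`, with divergence
`4 m F (c² - ‖y‖⁴) / q`: bounded on the ball, at most zero outside. Integration by parts against `Λ` (compact support).
-/

set_option autoImplicit false

namespace Pool.Agent.H46.MM

open MeasureTheory Filter Topology Set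

namespace BarH

variable {V : Type*} [NormedAddCommGroup V] [InnerProductSpace ℝ V]

theorem normPow (k : ℕ) (x : V) :
    HasFDerivAt (fun x : V => ‖x‖ ^ (k + 2)) ((((k : ℝ) + 2) * ‖x‖ ^ k) • innerSL ℝ x) x := by
  have hk : (1 : ℝ) < ((k + 2 : ℕ) : ℝ) := by
    have := Nat.cast_nonneg (α := ℝ) k
    push_cast
    linarith
  have h := hasFDerivAt_norm_rpow x hk
  have e1 : (fun x : V => ‖x‖ ^ ((k + 2 : ℕ) : ℝ)) = fun x : V => ‖x‖ ^ (k + 2) := by
    funext x; exact Real.rpow_natCast _ _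
  have e2 : ((k + 2 : ℕ) : ℝ) - 2 = (k : ℝ) := by push_cast; ring
  rw [e1, e2, Real.rpow_natCast] at h
  have e3 : ((k + 2 : ℕ) : ℝ) = (k : ℝ) + 2 := by push_cast; ring
  rw [e3] at h
  exact h

theorem normPowSub (k : ℕ) (a x : V) :
    HasFDerivAt (fun x : V => ‖x - a‖ ^ (k + 2))
      ((((k : ℝ) + 2) * ‖x - a‖ ^ k) • innerSL ℝ (x - a)) x := by
  have h := (normPow k (x - a)).comp x ((hasFDerivAt_id x).sub_const a)
  simpa [Function.comp_def] using h

/-- the denominator -/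
noncomputable def q (c : ℝ) (a x : V) : ℝ := ‖x - a‖ ^ 4 + c ^ 2

omit [InnerProductSpace ℝ V] in
theorem q_pos {c : ℝ} (hc : 0 < c) (a x : V) : 0 < q c a x := by
  unfold q; positivity

theorem q_deriv (c : ℝ) (a x : V) :
    HasFDerivAt (q c a) ((4 * ‖x - a‖ ^ 2) • innerSL ℝ (x - a)) x := by
  have h := (normPowSub 2 a x).add_const (c ^ 2)
  have e : (((2 : ℕ) : ℝ) + 2) = 4 := by norm_num
  rw [e] at h
  exact h

omit [InnerProductSpace ℝ V] in
theorem q_cont (c : ℝ) (a : V) : Continuous (q c a) := by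
  unfold q; fun_prop

/-- the factor of the field -/
noncomputable def F (j : ℕ) (A c : ℝ) (a x : V) : ℝ :=
  A * ‖x - a‖ ^ (3 * j + 2) * (q c a x ^ (2 * j + 2))⁻¹

/-- the coefficient of its derivative -/
noncomputable def G (j : ℕ) (A c : ℝ) (a x : V) : ℝ :=
  A * ‖x - a‖ ^ (3 * j + 2) * (-((2 * j + 2) * q c a x ^ (2 * j + 1)) / (q c a x ^ (2 * j + 2)) ^ 2 *
    (4 * ‖x - a‖ ^ 2)) + (q c a x ^ (2 * j + 2))⁻¹ * (A * ((3 * j + 2) * ‖x - a‖ ^ (3 * j)))

omit [InnerProductSpace ℝ V] in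
theorem F_cont (j : ℕ) (A : ℝ) {c : ℝ} (hc : 0 < c) (a : V) : Continuous (F j A c a) := by
  unfold F
  refine Continuous.mul (by fun_prop) (Continuous.inv₀ ((q_cont c a).pow _) fun x => ?_)
  exact pow_ne_zero _ (q_pos hc a x).ne'

omit [InnerProductSpace ℝ V] in
theorem G_cont (j : ℕ) (A : ℝ) {c : ℝ} (hc : 0 < c) (a : V) : Continuous (G j A c a) := by
  unfold G
  have hq := q_cont c a
  refine Continuous.add (Continuous.mul (by fun_prop) (Continuous.mul (Continuous.div ?_ ?_ fun x => ?_)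
    (by fun_prop))) (Continuous.mul (Continuous.inv₀ (hq.pow _) fun x => ?_) (by fun_prop))
  · exact (continuous_const.mul (hq.pow _)).neg
  · exact (hq.pow _).pow _
  · exact pow_ne_zero _ (pow_ne_zero _ (q_pos hc a x).ne')
  · exact pow_ne_zero _ (q_pos hc a x).ne'

theorem F_deriv (j : ℕ) (A : ℝ) {c : ℝ} (hc : 0 < c) (a x : V) :
    HasFDerivAt (F j A c a) (G j A c a x • innerSL ℝ (x - a)) x := by
  have h1 := ((normPowSub (3 * j) a x).const_mul A)
  have hne : q c a x ^ (2 * j + 2) ≠ 0 := pow_ne_zero _ (q_pos hc a x).ne'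
  have h2 : HasDerivAt (fun t : ℝ => (t ^ (2 * j + 2))⁻¹)
      (-(((2 * j + 2 : ℕ) : ℝ) * q c a x ^ (2 * j + 2 - 1)) / (q c a x ^ (2 * j + 2)) ^ 2) (q c a x) :=
    (hasDerivAt_pow (2 * j + 2) (q c a x)).inv hne
  have h3 := h2.comp_hasFDerivAt x (q_deriv c a x)
  have h4 := h1.mul h3
  refine h4.congr_fderiv ?_
  rw [smul_smul, smul_smul, smul_smul, smul_smul, ← add_smul]
  congr 1
  unfold G
  simp only [Function.comp]
  have e : 2 * j + 2 - 1 = 2 * j + 1 := by omega
  rw [e]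
  push_cast
  ring

/-- the divergence -/
noncomputable def D (j : ℕ) (A c : ℝ) (a x : V) : ℝ := (j + 2) * F j A c a x + G j A c a x * ‖x - a‖ ^ 2

omit [InnerProductSpace ℝ V] in
theorem D_cont (j : ℕ) (A : ℝ) {c : ℝ} (hc : 0 < c) (a : V) : Continuous (D j A c a) := by
  have h1 := F_cont j A hc a
  have h2 := G_cont j A hc a
  unfold D
  fun_prop

omit [InnerProductSpace ℝ V] in
theorem D_eq (j : ℕ) (A : ℝ) {c : ℝ} (hc : 0 < c) (a x : V) :
    D j A c a x = 4 * (j + 1) * F j A c a x * (c ^ 2 - ‖x - a‖ ^ 4) / q c a x := by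
  have hq := (q_pos hc a x).ne'
  have hq2 : q c a x = ‖x - a‖ ^ 4 + c ^ 2 := rfl
  unfold D G F
  generalize hQ : q c a x = Q at *
  generalize ‖x - a‖ = r at *
  have e1 : r ^ (3 * j + 2) = r ^ (3 * j) * r ^ 2 := by ring
  have e2 : Q ^ (2 * j + 2) = Q ^ (2 * j + 1) * Q := by ring
  have h1 : Q ^ (2 * j + 1) ≠ 0 := pow_ne_zero _ hq
  rw [e1, e2]
  generalize Q ^ (2 * j + 1) = P at *
  generalize r ^ (3 * j) = s at *
  field_simp
  rw [hq2]
  ring

theorem parts (j : ℕ) (A : ℝ) {c : ℝ} (hc : 0 < c) (a : E (j + 1)) (Λ : E (j + 1) → ℝ)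
    (h1 : ContDiff ℝ (⊤ : ℕ∞) Λ) (h2 : HasCompactSupport Λ) :
    ∫ x, F j A c a x * fderiv ℝ Λ x (x - a) = - ∫ x, D j A c a x * Λ x := by
  have hd : Differentiable ℝ Λ := h1.differentiable (by simp)
  have hΛ : Continuous Λ := h1.continuous
  have hΛ' : Continuous (fderiv ℝ Λ) := h1.continuous_fderiv (by simp)
  have hcs' : HasCompactSupport (fderiv ℝ Λ) := h2.fderiv (𝕜 := ℝ)
  have hF := F_cont j A hc a
  have hG := G_cont j A hc a
  have i1 : ∀ i : Fin (j + 1 + 1), Integrable fun x : E (j + 1) =>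
      (F j A c a x * (x i - a i)) * fderiv ℝ Λ x (EuclideanSpace.single i 1) := by
    intro i
    refine Continuous.integrable_of_hasCompactSupport ?_ ?_
    · fun_prop
    · refine HasCompactSupport.mul_left (f' := fun x => fderiv ℝ Λ x (EuclideanSpace.single i 1)) ?_
      exact h2.fderiv_apply ℝ _
  have i2 : ∀ i : Fin (j + 1 + 1), Integrable fun x : E (j + 1) =>
      (F j A c a x + G j A c a x * (x i - a i) ^ 2) * Λ x := by
    intro i
    refine Continuous.integrable_of_hasCompactSupport ?_ ?_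
    · fun_prop
    · exact HasCompactSupport.mul_left h2
  have i3 : ∀ i : Fin (j + 1 + 1), Integrable fun x : E (j + 1) =>
      (F j A c a x * (x i - a i)) * Λ x := by
    intro i
    refine Continuous.integrable_of_hasCompactSupport ?_ ?_
    · fun_prop
    · exact HasCompactSupport.mul_left h2
  have key : ∀ i : Fin (j + 1 + 1), ∫ x : E (j + 1), (F j A c a x * (x i - a i)) *
      fderiv ℝ Λ x (EuclideanSpace.single i 1) =
      - ∫ x : E (j + 1), (F j A c a x + G j A c a x * (x i - a i) ^ 2) * Λ x := by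
    intro i
    have e1 : ∀ x : E (j + 1), (F j A c a x • (EuclideanSpace.proj i : E (j + 1) →L[ℝ] ℝ) +
        (x i - a i) • (G j A c a x • innerSL ℝ (x - a))) (EuclideanSpace.single i 1) =
        F j A c a x + G j A c a x * (x i - a i) ^ 2 := by
      intro x
      simp [EuclideanSpace.inner_single_right]
      ring
    have h := integral_bilinear_hasFDerivAt_right_eq_neg_left_of_integrable (μ := (volume : Measure (E (j + 1))))
      (B := ContinuousLinearMap.mul ℝ ℝ) (f := fun x => F j A c a x * (x i - a i))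
      (f' := fun x => F j A c a x • (EuclideanSpace.proj i : E (j + 1) →L[ℝ] ℝ) +
        (x i - a i) • (G j A c a x • innerSL ℝ (x - a))) (g := Λ) (g' := fderiv ℝ Λ)
      (v := EuclideanSpace.single i 1) ?_ ?_ ?_ ?_ ?_
    · simp only [ContinuousLinearMap.mul_apply', e1] at h
      exact h
    · simp only [ContinuousLinearMap.mul_apply', e1]
      exact i2 i
    · exact i1 i
    · exact i3 i
    · intro x _
      refine HasFDerivAt.mul (F_deriv j A hc a x) ?_
      exact ((EuclideanSpace.proj i : E (j + 1) →L[ℝ] ℝ).hasFDerivAt).sub_const _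
    · intro x _
      exact (hd x).hasFDerivAt
  have e2 : ∀ x : E (j + 1), F j A c a x * fderiv ℝ Λ x (x - a) =
      ∑ i, (F j A c a x * (x i - a i)) * fderiv ℝ Λ x (EuclideanSpace.single i 1) := by
    intro x
    have hx : x - a = ∑ i, (x i - a i) • EuclideanSpace.single i (1 : ℝ) := by
      have := (EuclideanSpace.basisFun (Fin (j + 1 + 1)) ℝ).sum_repr (x - a)
      simp only [EuclideanSpace.basisFun_repr, EuclideanSpace.basisFun_apply, PiLp.sub_apply] at this
      exact this.symm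
    conv_lhs => rw [hx]
    rw [map_sum, Finset.mul_sum]
    refine Finset.sum_congr rfl fun i _ => ?_
    rw [map_smul, smul_eq_mul]
    ring
  have e3 : ∀ x : E (j + 1), D j A c a x * Λ x =
      ∑ i : Fin (j + 1 + 1), (F j A c a x + G j A c a x * (x i - a i) ^ 2) * Λ x := by
    intro x
    rw [← Finset.sum_mul, Finset.sum_add_distrib, ← Finset.mul_sum]
    have hn : ‖x - a‖ ^ 2 = ∑ i, (x i - a i) ^ 2 := by
      rw [EuclideanSpace.real_norm_sq_eq]
      rfl
    rw [← hn]
    unfold D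
    rw [Finset.sum_const, Finset.card_univ, Fintype.card_fin, nsmul_eq_mul]
    push_cast
    ring
  simp only [e2, e3]
  rw [integral_finsetSum _ fun i _ => i1 i, integral_finsetSum _ fun i _ => i2 i,
    ← Finset.sum_neg_distrib]
  exact Finset.sum_congr rfl fun i _ => key i

end BarH

open BarH in
theorem barrier (m : ℕ) (hm : 1 ≤ m) (a : E m) (ρ ρ' R δ : ℝ) (h0 : 0 < ρ) (h1 : ρ < ρ') (h2 : ρ' < R)
    (hδ : 0 < δ) : ∃ v : E m → ℝ, ContDiff ℝ (⊤ : ℕ∞) v ∧ (∀ x, R ≤ dist x a → 1 ≤ v x) ∧ (∀ x, 1 - δ ≤ v x) ∧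
    (∃ δ' : ℝ, 0 < δ' ∧ ∀ x, dist x a < ρ' → v x ≤ 1 - δ') ∧
    ∃ C : ℝ, 0 ≤ C ∧ ∀ Λ : E m → ℝ, ContDiff ℝ (⊤ : ℕ∞) Λ → HasCompactSupport Λ → (∀ x, 0 ≤ Λ x) →
      -(∫ x, ‖gradient v x‖ ^ (m - 1) * inner ℝ (gradient v x) (gradient Λ x)) ≤
        C * ∫ x in Metric.ball a ρ, Λ x := by
  obtain ⟨j, rfl⟩ : ∃ j, m = j + 1 := ⟨m - 1, by omega⟩
  set c : ℝ := ρ ^ 2 with hc
  have hc0 : 0 < c := by positivity
  set κ : ℝ := δ * c ^ 2 with hκ
  have hκ0 : 0 < κ := by positivity
  have hR : 0 < R := by linarith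
  have hρ' : 0 < ρ' := by linarith
  have hRR : ρ' ^ 4 < R ^ 4 := pow_lt_pow_left₀ h2 hρ'.le (by norm_num)
  refine ⟨fun x => 1 + κ * (1 / (R ^ 4 + c ^ 2) - 1 / q c a x), ?_, ?_, ?_, ?_, ?_⟩
  · refine contDiff_const.add (contDiff_const.mul (contDiff_const.sub (contDiff_const.div ?_ fun x =>
      (q_pos hc0 a x).ne')))
    have : ContDiff ℝ (⊤ : ℕ∞) fun x : E (j + 1) => (‖x - a‖ ^ 2) ^ 2 + c ^ 2 := by
      exact ((((contDiff_id.sub contDiff_const).norm_sq ℝ)).pow 2).add contDiff_const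
    have e : (q c a : E (j + 1) → ℝ) = fun x => (‖x - a‖ ^ 2) ^ 2 + c ^ 2 := by
      funext x
      unfold q
      ring
    rw [← e] at this
    exact this
  · intro x hx
    have h3 : R ^ 4 ≤ ‖x - a‖ ^ 4 := by
      rw [dist_eq_norm] at hx
      exact pow_le_pow_left₀ hR.le hx 4
    have h4 : 1 / q c a x ≤ 1 / (R ^ 4 + c ^ 2) := by
      apply one_div_le_one_div_of_le (by positivity)
      unfold q
      linarith
    have := mul_nonneg hκ0.le (sub_nonneg.2 h4)
    linarith
  · intro x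
    have h4 : 1 / q c a x ≤ 1 / c ^ 2 := by
      apply one_div_le_one_div_of_le (by positivity)
      unfold q
      have : 0 ≤ ‖x - a‖ ^ 4 := by positivity
      linarith
    have h5 : 0 < 1 / (R ^ 4 + c ^ 2) := by positivity
    have h6 : κ * (1 / c ^ 2) = δ := by
      rw [hκ]
      field_simp
    have h7 := mul_le_mul_of_nonneg_left h4 hκ0.le
    have h8 := mul_pos hκ0 h5
    have h9 : κ * (1 / (R ^ 4 + c ^ 2) - 1 / q c a x) =
      κ * (1 / (R ^ 4 + c ^ 2)) - κ * (1 / q c a x) := by ring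
    beta_reduce
    rw [h9]
    linarith
  · refine ⟨κ * (1 / (ρ' ^ 4 + c ^ 2) - 1 / (R ^ 4 + c ^ 2)), ?_, ?_⟩
    · refine mul_pos hκ0 (sub_pos.2 ?_)
      apply one_div_lt_one_div_of_lt (by positivity)
      linarith
    · intro x hx
      have h3 : ‖x - a‖ ^ 4 ≤ ρ' ^ 4 := by
        rw [dist_eq_norm] at hx
        exact pow_le_pow_left₀ (norm_nonneg _) hx.le 4
      have h4 : 1 / (ρ' ^ 4 + c ^ 2) ≤ 1 / q c a x := by
        apply one_div_le_one_div_of_le (q_pos hc0 a x)
        unfold q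
        linarith
      have h7 := mul_le_mul_of_nonneg_left h4 hκ0.le
      have h9 : κ * (1 / (R ^ 4 + c ^ 2) - 1 / q c a x) =
        κ * (1 / (R ^ 4 + c ^ 2)) - κ * (1 / q c a x) := by ring
      have h10 : κ * (1 / (ρ' ^ 4 + c ^ 2) - 1 / (R ^ 4 + c ^ 2)) =
        κ * (1 / (ρ' ^ 4 + c ^ 2)) - κ * (1 / (R ^ 4 + c ^ 2)) := by ring
      beta_reduce
      rw [h9, h10]
      linarith
  · set A : ℝ := (4 * κ) ^ (j + 1) with hA
    have hA0 : 0 < A := by positivity
    obtain ⟨C, hC⟩ := (isCompact_closedBall a ρ).exists_bound_of_continuousOn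
      (D_cont j A hc0 a).continuousOn
    have hC0 : 0 ≤ C := (norm_nonneg _).trans (hC a (Metric.mem_closedBall_self h0.le))
    refine ⟨C, hC0, ?_⟩
    intro Λ l1 l2 l3
    have hgrad : ∀ x, gradient (fun x : E (j + 1) => 1 + κ * (1 / (R ^ 4 + c ^ 2) - 1 / q c a x)) x =
        (4 * κ * ‖x - a‖ ^ 2 / q c a x ^ 2) • (x - a) := by
      intro x
      apply HasGradientAt.gradient
      rw [hasGradientAt_iff_hasFDerivAt]
      have g1 : HasDerivAt (fun t : ℝ => 1 + κ * (1 / (R ^ 4 + c ^ 2) - 1 / t)) (κ / q c a x ^ 2)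
          (q c a x) := by
        have := ((hasDerivAt_inv (q_pos hc0 a x).ne').const_sub (1 / (R ^ 4 + c ^ 2))).const_mul κ
        have := this.const_add 1
        simp only [one_div] at this ⊢
        refine this.congr_deriv ?_
        ring
      have g2 := g1.comp_hasFDerivAt x (q_deriv c a x)
      refine g2.congr_fderiv ?_
      ext w
      simp [InnerProductSpace.toDual_apply_apply, innerSL_apply_apply]
      ring
    have hint : ∀ x, ‖gradient (fun x : E (j + 1) => 1 + κ * (1 / (R ^ 4 + c ^ 2) - 1 / q c a x)) x‖ ^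
        (j + 1 - 1) * inner ℝ (gradient (fun x : E (j + 1) => 1 + κ * (1 / (R ^ 4 + c ^ 2) - 1 / q c a x)) x)
        (gradient Λ x) = F j A c a x * fderiv ℝ Λ x (x - a) := by
      intro x
      rw [hgrad, Nat.add_sub_cancel, norm_smul, real_inner_smul_left, real_inner_comm]
      have e1 : inner ℝ (gradient Λ x) (x - a) = fderiv ℝ Λ x (x - a) := by
        unfold gradient
        exact InnerProductSpace.toDual_symm_apply
      rw [e1]
      have hq := (q_pos hc0 a x)
      have e2 : ‖4 * κ * ‖x - a‖ ^ 2 / q c a x ^ 2‖ = 4 * κ * ‖x - a‖ ^ 2 / q c a x ^ 2 := by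
        rw [Real.norm_eq_abs, abs_of_nonneg (by positivity)]
      rw [e2]
      unfold F
      have e3 : A * ‖x - a‖ ^ (3 * j + 2) * (q c a x ^ (2 * j + 2))⁻¹ =
          (4 * κ * ‖x - a‖ ^ 2 / q c a x ^ 2) ^ (j + 1) * ‖x - a‖ ^ j := by
        rw [hA, div_pow, mul_pow]
        have : (q c a x ^ 2) ^ (j + 1) = q c a x ^ (2 * j + 2) := by rw [← pow_mul]; ring_nf
        rw [this, div_eq_mul_inv]
        have : (‖x - a‖ ^ 2) ^ (j + 1) * ‖x - a‖ ^ j = ‖x - a‖ ^ (3 * j + 2) := by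
          rw [← pow_mul, ← pow_add]
          congr 1
          ring
        rw [← this]
        ring
      rw [e3, mul_pow, pow_succ]
      ring
    simp only [hint]
    rw [parts j A hc0 a Λ l1 l2, neg_neg]
    have hi : Integrable Λ := l1.continuous.integrable_of_hasCompactSupport l2
    have hDi : Integrable fun x => D j A c a x * Λ x := by
      refine Continuous.integrable_of_hasCompactSupport ((D_cont j A hc0 a).mul l1.continuous) ?_
      exact HasCompactSupport.mul_left l2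
    rw [← integral_const_mul, ← integral_indicator Metric.isOpen_ball.measurableSet]
    refine integral_mono hDi ((hi.const_mul C).indicator Metric.isOpen_ball.measurableSet) ?_
    intro x
    by_cases hx : x ∈ Metric.ball a ρ
    · rw [indicator_of_mem hx]
      exact mul_le_mul_of_nonneg_right ((le_abs_self _).trans (hC x (Metric.ball_subset_closedBall hx))) (l3 x)
    · rw [indicator_of_notMem hx]
      apply mul_nonpos_of_nonpos_of_nonneg _ (l3 x)
      rw [D_eq j A hc0 a x]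
      have h4 : ρ ^ 4 ≤ ‖x - a‖ ^ 4 := by
        rw [Metric.mem_ball, not_lt, dist_eq_norm] at hx
        exact pow_le_pow_left₀ h0.le hx 4
      have h5 : c ^ 2 - ‖x - a‖ ^ 4 ≤ 0 := by
        have : c ^ 2 = ρ ^ 4 := by rw [hc]; ring
        linarith
      have hq := (q_pos hc0 a x)
      have h6 : 0 ≤ F j A c a x := by
        unfold F
        positivity
      apply div_nonpos_of_nonpos_of_nonneg _ hq.le
      apply mul_nonpos_of_nonneg_of_nonpos _ h5
      positivity

end Pool.Agent.H46.MM
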