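import Pool.Agent.H46.MM.Defs

/-!
# [H46 MM BAS] Elementary properties of `Zs` (40 min)

All by the definition.
* `Zs_drop`: a sublist of a sublist is a sublist.
* `Zs_subset`: the empty list.
* `Zs_cons`: `l` is a sublist of `w :: ws` iff `l` is a sublist of `ws` or `l = w :: l'` with `l'` a sublist
  of `ws` (`List.sublist_cons_iff`); `(1 + w) (∏ l') z`.
* `Zs_append`: `Zs (Zs Z l1) l2 = Zs Z (l1 ++ l2)` (`List.sublist_append_iff`).
* `Zs_closed`: an intersection of preimages of `Z` under continuous maps (right multiplication is not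
  changed; `z ↦ A z` is continuous).
* `Zs_inv`: nonempty closed; units act on the right; for `a ∈ S'`: `diagonal a` commutes with every `w ∈ ws`
  (`w i j ≠ 0 → a i = a j`), so it commutes with the product, and `diagonal a` preserves `Z`.
* `base_change`: if `w * v = 0` for all `w ∈ ws` and `z ∈ Zs Z (v :: ws)` then
  `(1 + v) z ∈ Zs Z (ws.map fun w => w + v * w)`: `(1 + (w + v w)) (1 + v) = (1 + v) (1 + w)`, so for a sublist `l` of
  `ws`: `(∏ (1 + w + v w)) (1 + v) z = (1 + v) (∏ (1 + w)) z` (induction on `l`) and `v :: l` is a sublist of `v :: ws`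
  (`List.sublist_map_iff` for the sublists of the mapped list).
-/

set_option autoImplicit false

namespace Pool.Agent.H46.MM

open Matrix Filter Topology Pool.Agent.H89.CSD Pool.Agent.H46.RG

variable {d : ℕ}

theorem Zs_drop {Z : Set (Matrix (Fin d) (Fin d) ℝ)} {l l' : List (Matrix (Fin d) (Fin d) ℝ)}
    (h : l.Sublist l') : Zs Z l' ⊆ Zs Z l :=
  fun _ hz m hm => hz m (hm.trans h)

theorem Zs_subset {Z : Set (Matrix (Fin d) (Fin d) ℝ)} {ws : List (Matrix (Fin d) (Fin d) ℝ)} :
    Zs Z ws ⊆ Z := by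
  intro z hz
  have h := hz [] (List.nil_sublist _)
  simpa using h

theorem Zs_mono {Z Z' : Set (Matrix (Fin d) (Fin d) ℝ)} {ws : List (Matrix (Fin d) (Fin d) ℝ)}
    (h : Z ⊆ Z') : Zs Z ws ⊆ Zs Z' ws :=
  fun _ hz m hm => h (hz m hm)

theorem mem_Zs_one {Z : Set (Matrix (Fin d) (Fin d) ℝ)} {w z : Matrix (Fin d) (Fin d) ℝ} :
    z ∈ Zs Z [w] ↔ z ∈ Z ∧ (1 + w) * z ∈ Z := by
  constructor
  · intro h
    refine ⟨Zs_subset h, ?_⟩
    have h1 := h [w] (List.Sublist.refl _)
    simpa using h1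
  · rintro ⟨h1, h2⟩ l hl
    rcases List.sublist_cons_iff.1 hl with hl | ⟨r, rfl, hr⟩
    · rw [List.sublist_nil] at hl
      subst hl
      simpa using h1
    · rw [List.sublist_nil] at hr
      subst hr
      simpa using h2

theorem Zs_cons (Z : Set (Matrix (Fin d) (Fin d) ℝ)) (w : Matrix (Fin d) (Fin d) ℝ)
    (ws : List (Matrix (Fin d) (Fin d) ℝ)) : Zs (Zs Z [w]) ws = Zs Z (w :: ws) := by
  ext z
  constructor
  · intro h l hl
    rcases List.sublist_cons_iff.1 hl with hl | ⟨r, rfl, hr⟩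
    · exact (mem_Zs_one.1 (h l hl)).1
    · rw [List.map_cons, List.prod_cons, Matrix.mul_assoc]
      exact (mem_Zs_one.1 (h r hr)).2
  · intro h l hl
    rw [mem_Zs_one]
    refine ⟨h l (hl.trans (List.sublist_cons_self _ _)), ?_⟩
    have h1 := h (w :: l) (hl.cons_cons w)
    rw [List.map_cons, List.prod_cons, Matrix.mul_assoc] at h1
    exact h1

private theorem bas_comm {a : Fin d → ℝ} (l : List (Matrix (Fin d) (Fin d) ℝ))
    (h : ∀ w ∈ l, ∀ i j, w i j ≠ 0 → a i = a j) :
    diagonal a * (l.map fun w => 1 + w).prod = (l.map fun w => 1 + w).prod * diagonal a := by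
  induction l with
  | nil => simp
  | cons w l ih =>
    have h1 : diagonal a * w = w * diagonal a := by
      ext i j
      rw [Matrix.diagonal_mul, Matrix.mul_diagonal]
      by_cases h0 : w i j = 0
      · rw [h0]; ring
      · rw [h w List.mem_cons_self i j h0]; ring
    rw [List.map_cons, List.prod_cons, ← Matrix.mul_assoc, Matrix.mul_add, h1, Matrix.mul_one,
      Matrix.mul_assoc (1 + w), ← ih fun u hu => h u (List.mem_cons_of_mem _ hu),
      ← Matrix.mul_assoc, Matrix.add_mul 1 w (diagonal a), Matrix.one_mul]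

theorem Zs_inv {S S' : Set (Fin d → ℝ)} {Z : Set (Matrix (Fin d) (Fin d) ℝ)}
    (hinv : IsInv S Z) (hS : S' ⊆ S) {ws : List (Matrix (Fin d) (Fin d) ℝ)}
    (hw : ∀ w ∈ ws, ∀ i j, w i j ≠ 0 → ∀ a ∈ S', a i = a j) (hne : (Zs Z ws).Nonempty) :
    IsInv S' (Zs Z ws) := by
  refine ⟨hne, ?_, ?_, ?_⟩
  · have h1 : Zs Z ws = ⋂ l : {l : List (Matrix (Fin d) (Fin d) ℝ) // l.Sublist ws},
        (fun z => ((l : List (Matrix (Fin d) (Fin d) ℝ)).map fun w => 1 + w).prod * z) ⁻¹' Z := by
      ext z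
      simp only [Set.mem_iInter, Set.mem_preimage, Subtype.forall]
      rfl
    rw [h1]
    exact isClosed_iInter fun l => hinv.closed.preimage
      (continuous_const.matrix_mul continuous_id)
  · intro z hz γ hγ l hl
    rw [← Matrix.mul_assoc]
    exact hinv.units _ (hz l hl) γ hγ
  · intro a ha z hz l hl
    rw [← Matrix.mul_assoc, ← bas_comm l fun w hw' i j hij => hw w (hl.subset hw') i j hij a ha,
      Matrix.mul_assoc]
    exact hinv.diag a (hS ha) _ (hz l hl)

private theorem bas_conj {v : Matrix (Fin d) (Fin d) ℝ} (l : List (Matrix (Fin d) (Fin d) ℝ))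
    (h : ∀ w ∈ l, w * v = 0) :
    ((l.map fun w => w + v * w).map fun w => 1 + w).prod * (1 + v) =
      (1 + v) * (l.map fun w => 1 + w).prod := by
  induction l with
  | nil => simp
  | cons w l ih =>
    have h1 : w * v = 0 := h w List.mem_cons_self
    have h2 : (1 + (w + v * w)) * (1 + v) = (1 + v) * (1 + w) := by
      have h3 : v * w * v = 0 := by rw [Matrix.mul_assoc, h1, Matrix.mul_zero]
      simp only [Matrix.add_mul, Matrix.mul_add, Matrix.one_mul, Matrix.mul_one, h1, h3]
      abel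
    rw [List.map_cons, List.map_cons, List.prod_cons, Matrix.mul_assoc,
      ih fun u hu => h u (List.mem_cons_of_mem _ hu), ← Matrix.mul_assoc, h2, Matrix.mul_assoc,
      List.map_cons, List.prod_cons]

theorem base_change {Z : Set (Matrix (Fin d) (Fin d) ℝ)} {v : Matrix (Fin d) (Fin d) ℝ}
    {ws : List (Matrix (Fin d) (Fin d) ℝ)} (hwv : ∀ w ∈ ws, w * v = 0)
    (hne : (Zs Z (v :: ws)).Nonempty) : (Zs Z (ws.map fun w => w + v * w)).Nonempty := by
  obtain ⟨z, hz⟩ := hne
  refine ⟨(1 + v) * z, ?_⟩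
  intro l hl
  obtain ⟨l', hl', rfl⟩ := List.sublist_map_iff.1 hl
  rw [← Matrix.mul_assoc, bas_conj l' fun w hw => hwv w (hl'.subset hw), Matrix.mul_assoc]
  have h1 := hz (v :: l') (hl'.cons_cons v)
  rw [List.map_cons, List.prod_cons, Matrix.mul_assoc] at h1
  exact h1

end Pool.Agent.H46.MM
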