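import Pool.Agent.H46.MM.Pw

/-!
Basic facts on the energy and the capacity.
`integ`: continuous with compact support. `energy_smul`: `∇ (c u) = c ∇ u`.
`exists_adm`: `exists_contDiff_tsupport_subset`-type bump function (`D` open, `K` compact).
`near`: `(u + w)/2` is admissible, integrate `clark` with `A = ∇ u`, `B = ∇ w`.
-/

set_option autoImplicit false

namespace Pool.Agent.H46.MM

open MeasureTheory

variable {m : ℕ}

open scoped Manifold ContDiff in
theorem exists_adm (D K : Set (E m)) (hD : IsOpen D) (hK : IsCompact K) (hKD : K ⊆ D) : ∃ u, Adm D K u := by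
  obtain ⟨L, hL, hKL, hLD⟩ := exists_compact_between hK hD hKD
  obtain ⟨f, hf, hr, hs, h1⟩ := exists_contMDiff_support_eq_eq_one_iff (n := (⊤ : ℕ∞))
    (𝓘(ℝ, E m)) (isOpen_interior (s := L)) hK.isClosed hKL
  have hts : tsupport f ⊆ L := by
    rw [tsupport, hs]
    exact (closure_mono interior_subset).trans hL.isClosed.closure_subset
  refine ⟨f, hf.contDiff, ?_, hts.trans hLD, fun x hx => ?_⟩
  · exact hL.of_isClosed_subset (isClosed_tsupport f) hts
  · exact ((h1 x).1 hx).ge

theorem energy_nonneg (u : E m → ℝ) : 0 ≤ energy u :=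
  integral_nonneg fun _ => pow_nonneg (norm_nonneg _) _

theorem norm_grad (u : E m → ℝ) (x : E m) : ‖gradient u x‖ = ‖fderiv ℝ u x‖ := by
  unfold gradient
  rw [LinearIsometryEquiv.norm_map]

theorem grad_smul (c : ℝ) (u : E m → ℝ) (x : E m) (h : DifferentiableAt ℝ u x) :
    gradient (fun y => c * u y) x = c • gradient u x := by
  unfold gradient
  rw [fderiv_const_mul h, map_smulₛₗ]
  rfl

theorem grad_add (u w : E m → ℝ) (x : E m) (h : DifferentiableAt ℝ u x)
    (h' : DifferentiableAt ℝ w x) :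
    gradient (fun y => u y + w y) x = gradient u x + gradient w x := by
  unfold gradient
  have : fderiv ℝ (fun y => u y + w y) x = fderiv ℝ u x + fderiv ℝ w x := fderiv_add h h'
  rw [this, map_add]

theorem grad_sub (u w : E m → ℝ) (x : E m) (h : DifferentiableAt ℝ u x)
    (h' : DifferentiableAt ℝ w x) :
    gradient (fun y => u y - w y) x = gradient u x - gradient w x := by
  unfold gradient
  have : fderiv ℝ (fun y => u y - w y) x = fderiv ℝ u x - fderiv ℝ w x := fderiv_sub h h'
  rw [this, map_sub]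

theorem integ (u : E m → ℝ) (h : ContDiff ℝ (⊤ : ℕ∞) u) (hc : HasCompactSupport u) :
    Integrable fun x => ‖gradient u x‖ ^ (m + 1) := by
  have e : (fun x => ‖gradient u x‖ ^ (m + 1)) = fun x => ‖fderiv ℝ u x‖ ^ (m + 1) := by
    funext x
    rw [norm_grad]
  rw [e]
  have hcont : Continuous fun x => ‖fderiv ℝ u x‖ ^ (m + 1) :=
    ((h.continuous_fderiv (by simp)).norm).pow _
  have hcs : HasCompactSupport fun x => ‖fderiv ℝ u x‖ ^ (m + 1) :=
    (hc.fderiv (𝕜 := ℝ)).comp_left (g := fun L : E m →L[ℝ] ℝ => ‖L‖ ^ (m + 1)) (by simp)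
  exact hcont.integrable_of_hasCompactSupport hcs

theorem energy_smul (c : ℝ) (u : E m → ℝ) (h : ContDiff ℝ (⊤ : ℕ∞) u) :
    energy (fun x => c * u x) = |c| ^ (m + 1) * energy u := by
  unfold energy
  rw [← integral_const_mul]
  refine integral_congr_ae (Filter.Eventually.of_forall fun x => ?_)
  have hd : DifferentiableAt ℝ u x := (h.differentiable (by simp)).differentiableAt
  simp only
  rw [grad_smul c u x hd, norm_smul, mul_pow, Real.norm_eq_abs]

theorem cap_set_bdd (D K : Set (E m)) : BddBelow {e | ∃ u, Adm D K u ∧ e = energy u} := by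
  refine ⟨0, ?_⟩
  rintro _ ⟨u, _, rfl⟩
  exact energy_nonneg u

theorem cap_le (D K : Set (E m)) (u : E m → ℝ) (h : Adm D K u) : cap D K ≤ energy u :=
  csInf_le (cap_set_bdd D K) ⟨u, h, rfl⟩

theorem cap_nonneg (D K : Set (E m)) : 0 ≤ cap D K := by
  refine Real.sInf_nonneg ?_
  rintro _ ⟨u, _, rfl⟩
  exact energy_nonneg u

theorem exists_lt (D K : Set (E m)) (hD : IsOpen D) (hK : IsCompact K) (hKD : K ⊆ D) (ε : ℝ) (hε : 0 < ε) :
    ∃ u, Adm D K u ∧ energy u < cap D K + ε := by
  obtain ⟨u0, hu0⟩ := exists_adm D K hD hK hKD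
  obtain ⟨_, ⟨u, hu, rfl⟩, h⟩ := exists_lt_of_csInf_lt
    (s := {e | ∃ u, Adm D K u ∧ e = energy u}) ⟨_, u0, hu0, rfl⟩ (b := cap D K + ε)
    (show cap D K < cap D K + ε by linarith)
  exact ⟨u, hu, h⟩

theorem cap_mono (D K' K : Set (E m)) (hD : IsOpen D) (hK : IsCompact K) (hKD : K ⊆ D) (h : K' ⊆ K) :
    cap D K' ≤ cap D K := by
  obtain ⟨u0, hu0⟩ := exists_adm D K hD hK hKD
  refine csInf_le_csInf (cap_set_bdd D K') ⟨_, u0, hu0, rfl⟩ ?_
  rintro _ ⟨u, hu, rfl⟩
  exact ⟨u, ⟨hu.smooth, hu.comp, hu.sub, fun x hx => hu.one x (h hx)⟩, rfl⟩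

theorem near (hm : 1 ≤ m) (D K : Set (E m)) (u w : E m → ℝ) (hu : Adm D K u) (hw : Adm D K w) :
    energy (fun x => u x - w x) ≤ 2 ^ (m + 1) * ((energy u + energy w) / 2 - cap D K) := by
  have hdu : ∀ x, DifferentiableAt ℝ u x := fun x =>
    (hu.smooth.differentiable (by simp)).differentiableAt
  have hdw : ∀ x, DifferentiableAt ℝ w x := fun x =>
    (hw.smooth.differentiable (by simp)).differentiableAt
  have hadd : ContDiff ℝ (⊤ : ℕ∞) (fun x => u x + w x) := hu.smooth.add hw.smooth
  have hsub : ContDiff ℝ (⊤ : ℕ∞) (fun x => u x - w x) := hu.smooth.sub hw.smooth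
  have hcadd : HasCompactSupport (fun x => u x + w x) := hu.comp.add hw.comp
  have hcsub : HasCompactSupport (fun x => u x - w x) := hu.comp.sub hw.comp
  have hsa : ContDiff ℝ (⊤ : ℕ∞) (fun x => (1 / 2 : ℝ) * (u x + w x)) := contDiff_const.mul hadd
  have hss : ContDiff ℝ (⊤ : ℕ∞) (fun x => (1 / 2 : ℝ) * (u x - w x)) := contDiff_const.mul hsub
  have hca : HasCompactSupport (fun x => (1 / 2 : ℝ) * (u x + w x)) := hcadd.mul_left
  have hcs : HasCompactSupport (fun x => (1 / 2 : ℝ) * (u x - w x)) := hcsub.mul_left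
  have hadm : Adm D K (fun x => (1 / 2 : ℝ) * (u x + w x)) := by
    refine ⟨hsa, hca, ?_, fun x hx => ?_⟩
    · have h1 : tsupport (fun x => (1 / 2 : ℝ) * (u x + w x)) ⊆ tsupport (fun x => u x + w x) :=
        tsupport_mul_subset_right
      have h2 : tsupport (fun x => u x + w x) ⊆ tsupport u ∪ tsupport w := tsupport_add u w
      exact h1.trans (h2.trans (Set.union_subset hu.sub hw.sub))
    · have h1 := hu.one x hx
      have h2 := hw.one x hx
      linarith
  have hcap := cap_le D K _ hadm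
  have hga : ∀ x, gradient (fun x => (1 / 2 : ℝ) * (u x + w x)) x =
      (1 / 2 : ℝ) • (gradient u x + gradient w x) := by
    intro x
    rw [grad_smul (1 / 2) (fun x => u x + w x) x ((hdu x).add (hdw x)),
      grad_add u w x (hdu x) (hdw x)]
  have hgs : ∀ x, gradient (fun x => (1 / 2 : ℝ) * (u x - w x)) x =
      (1 / 2 : ℝ) • (gradient u x - gradient w x) := by
    intro x
    rw [grad_smul (1 / 2) (fun x => u x - w x) x ((hdu x).sub (hdw x)),
      grad_sub u w x (hdu x) (hdw x)]
  have hsum : energy (fun x => (1 / 2 : ℝ) * (u x + w x)) +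
      energy (fun x => (1 / 2 : ℝ) * (u x - w x)) ≤ (energy u + energy w) / 2 := by
    unfold energy
    rw [← integral_add (integ _ hsa hca) (integ _ hss hcs),
      ← integral_add (integ u hu.smooth hu.comp) (integ w hw.smooth hw.comp), ← integral_div]
    refine integral_mono ((integ _ hsa hca).add (integ _ hss hcs))
      (((integ u hu.smooth hu.comp).add (integ w hw.smooth hw.comp)).div_const 2) fun x => ?_
    simp only
    rw [hga x, hgs x]
    exact clark m hm (gradient u x) (gradient w x)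
  have hscale : energy (fun x => u x - w x) =
      2 ^ (m + 1) * energy (fun x => (1 / 2 : ℝ) * (u x - w x)) := by
    rw [energy_smul (1 / 2) _ hsub, ← mul_assoc, ← mul_pow]
    have : (2 : ℝ) * |(1 / 2 : ℝ)| = 1 := by
      rw [abs_of_pos (by norm_num)]
      norm_num
    rw [this, one_pow, one_mul]
  rw [hscale]
  refine mul_le_mul_of_nonneg_left ?_ (by positivity)
  linarith

end Pool.Agent.H46.MM
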