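import Pool.Agent.H46.MM.Basic

/-!
Poincaré inequality with a constant on a ball `B = ball a R`, `n = m + 1`. For `x, y ∈ B`:
`|g x - g y|^n ≤ (2 R)^n ∫ t in 0..1, ‖∇ g (x + t (y - x))‖^n` (fundamental theorem on the segment and Jensen / Hölder). Integrate over
`x, y ∈ B`; for `t ≥ 1/2` substitute `z = x + t (y - x)` in `y` (Jacobian `t^n ≥ 2^(-n)`, `z ∈ B` by convexity), for `t ≤ 1/2` in `x`: the double
integral is `≤ (2 R)^n 2^n |B| ∫_B ‖∇ g‖^n`. So there is `y ∈ B` with `∫_B |g x - g y|^n dx ≤ (2 R)^n 2^n ∫_B ‖∇ g‖^n`: `c = g y`.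
-/

set_option autoImplicit false

namespace Pool.Agent.H46.MM

open MeasureTheory ENNReal

private theorem sub_comp {m : ℕ} (h : E m → ℝ≥0∞) (hh : Measurable h) (c : E m) (t : ℝ) (ht : 1 / 2 ≤ t) :
    ∫⁻ y, h (c + t • y) ≤ ENNReal.ofReal (2 ^ (m + 1)) * ∫⁻ y, h y := by
  have ht0 : t ≠ 0 := by linarith
  have ht1 : 0 < t := by linarith
  have e1 : ∫⁻ y, h (c + t • y) = ∫⁻ z, h (c + z) ∂(Measure.map (t • ·) (volume : Measure (E m))) :=
    (lintegral_map (f := fun z => h (c + z)) (hh.comp (measurable_const_add c))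
      (measurable_const_smul t)).symm
  rw [e1, Measure.map_addHaar_smul volume ht0, lintegral_smul_measure,
    lintegral_add_left_eq_self h c, smul_eq_mul]
  gcongr
  have hfr : Module.finrank ℝ (E m) = m + 1 := by simp [E]
  rw [hfr, abs_of_pos (by positivity)]
  rw [← inv_pow]
  gcongr
  rw [inv_le_comm₀ ht1 (by norm_num)]
  linarith

private theorem seg {m : ℕ} (a : E m) (R : ℝ) (hR : 0 < R) (g : E m → ℝ) (hg : ContDiff ℝ (⊤ : ℕ∞) g)
    (x y : E m) (hx : x ∈ Metric.ball a R) (hy : y ∈ Metric.ball a R) :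
    ENNReal.ofReal (|g x - g y| ^ (m + 1)) ≤ ENNReal.ofReal ((2 * R) ^ (m + 1)) *
      ∫⁻ t in Set.Ioc (0 : ℝ) 1, (Metric.ball a R).indicator
        (fun z => ENNReal.ofReal (‖fderiv ℝ g z‖ ^ (m + 1))) (x + t • (y - x)) := by
  have hd : Differentiable ℝ g := hg.differentiable (by simp)
  have hc : Continuous (fderiv ℝ g) := hg.continuous_fderiv (by simp)
  set φ : ℝ → ℝ := fun t => ‖fderiv ℝ g (x + t • (y - x))‖ with hφ
  have hφc : Continuous φ := (hc.comp (by fun_prop)).norm
  have hnn : ‖y - x‖ ≤ 2 * R := by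
    rw [Metric.mem_ball] at hx hy
    have := dist_triangle_right y x a
    rw [← dist_eq_norm]
    linarith
  have f1 : ∫ t in (0 : ℝ)..1, fderiv ℝ g (x + t • (y - x)) (y - x) = g y - g x := by
    have hder : ∀ t ∈ Set.uIcc (0 : ℝ) 1, HasDerivAt (fun t : ℝ => g (x + t • (y - x)))
        (fderiv ℝ g (x + t • (y - x)) (y - x)) t := by
      intro t _
      have h1 : HasDerivAt (fun t : ℝ => x + t • (y - x)) (y - x) t := by
        have := ((hasDerivAt_id t).smul_const (y - x)).const_add x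
        simpa using this
      exact (hd (x + t • (y - x))).hasFDerivAt.comp_hasDerivAt t h1
    rw [intervalIntegral.integral_eq_sub_of_hasDerivAt hder]
    · simp
    · apply Continuous.intervalIntegrable
      exact (hc.comp (by fun_prop)).clm_apply continuous_const
  have f2 : |g x - g y| ≤ (2 * R) * ∫ t in (0 : ℝ)..1, φ t := by
    rw [abs_sub_comm, ← f1, ← Real.norm_eq_abs]
    calc ‖∫ t in (0 : ℝ)..1, fderiv ℝ g (x + t • (y - x)) (y - x)‖
        ≤ ∫ t in (0 : ℝ)..1, ‖fderiv ℝ g (x + t • (y - x)) (y - x)‖ :=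
          intervalIntegral.norm_integral_le_integral_norm zero_le_one
      _ ≤ ∫ t in (0 : ℝ)..1, (2 * R) * φ t := by
          apply intervalIntegral.integral_mono_on zero_le_one
          · exact ((hc.comp (by fun_prop)).clm_apply continuous_const).norm.intervalIntegrable _ _
          · exact (continuous_const.mul hφc).intervalIntegrable _ _
          · intro t _
            calc ‖fderiv ℝ g (x + t • (y - x)) (y - x)‖ ≤ ‖fderiv ℝ g (x + t • (y - x))‖ * ‖y - x‖ :=
                  ContinuousLinearMap.le_opNorm _ _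
              _ ≤ (2 * R) * φ t := by
                  rw [mul_comm]
                  exact mul_le_mul_of_nonneg_right hnn (norm_nonneg _)
      _ = _ := intervalIntegral.integral_const_mul _ _
  rw [intervalIntegral.integral_of_le zero_le_one] at f2
  have hprob : IsProbabilityMeasure (volume.restrict (Set.Ioc (0 : ℝ) 1)) := ⟨by simp⟩
  have f3 : (∫ t in Set.Ioc (0 : ℝ) 1, φ t) ^ (m + 1) ≤ ∫ t in Set.Ioc (0 : ℝ) 1, φ t ^ (m + 1) := by
    refine (convexOn_pow (𝕜 := ℝ) (m + 1)).map_integral_le (by fun_prop) isClosed_Ici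
      (Filter.Eventually.of_forall fun t => norm_nonneg _) ?_ ?_
    · exact (hφc.continuousOn.integrableOn_Icc (a := 0) (b := 1)).mono_set Set.Ioc_subset_Icc_self
    · exact ((hφc.pow (m + 1)).continuousOn.integrableOn_Icc (a := 0) (b := 1)).mono_set Set.Ioc_subset_Icc_self
  have f4 : |g x - g y| ^ (m + 1) ≤ (2 * R) ^ (m + 1) * ∫ t in Set.Ioc (0 : ℝ) 1, φ t ^ (m + 1) := by
    calc |g x - g y| ^ (m + 1) ≤ ((2 * R) * ∫ t in Set.Ioc (0 : ℝ) 1, φ t) ^ (m + 1) :=
          pow_le_pow_left₀ (abs_nonneg _) f2 _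
      _ = (2 * R) ^ (m + 1) * (∫ t in Set.Ioc (0 : ℝ) 1, φ t) ^ (m + 1) := mul_pow _ _ _
      _ ≤ _ := mul_le_mul_of_nonneg_left f3 (by positivity)
  refine (ENNReal.ofReal_le_ofReal f4).trans ?_
  rw [ENNReal.ofReal_mul (by positivity)]
  gcongr
  have hI : Integrable (fun t => φ t ^ (m + 1)) (volume.restrict (Set.Ioc (0 : ℝ) 1)) :=
    ((hφc.pow (m + 1)).continuousOn.integrableOn_Icc (a := 0) (b := 1)).mono_set Set.Ioc_subset_Icc_self
  rw [ofReal_integral_eq_lintegral_ofReal hI
    (Filter.Eventually.of_forall fun t => by positivity)]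
  refine le_of_eq (setLIntegral_congr_fun measurableSet_Ioc fun t ht => ?_)
  have hmem : x + t • (y - x) ∈ Metric.ball a R := by
    have := (convex_ball a R).add_smul_sub_mem hx hy ⟨ht.1.le, ht.2⟩
    exact this
  simp only [hφ]
  rw [Set.indicator_of_mem hmem]

private theorem dbl {m : ℕ} (B : Set (E m)) (h : E m → ℝ≥0∞) (hh : Measurable h)
    (t : ℝ) (ht : 1 / 2 ≤ t) :
    ∫⁻ x in B, ∫⁻ y in B, h (x + t • (y - x)) ≤ ENNReal.ofReal (2 ^ (m + 1)) * volume B * ∫⁻ y, h y := by
  calc ∫⁻ x in B, ∫⁻ y in B, h (x + t • (y - x))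
      ≤ ∫⁻ x in B, ENNReal.ofReal (2 ^ (m + 1)) * ∫⁻ y, h y := by
        refine lintegral_mono fun x => ?_
        refine (setLIntegral_le_lintegral _ _).trans ?_
        have := sub_comp h hh (x - t • x) t ht
        refine le_trans (le_of_eq (lintegral_congr fun y => ?_)) this
        congr 1
        rw [smul_sub]; abel
    _ = _ := by
        rw [setLIntegral_const]
        ring

theorem mpoin {m : ℕ} (a : E m) (R : ℝ) (hR : 0 < R) : ∃ C : ℝ, 0 ≤ C ∧
    ∀ g : E m → ℝ, ContDiff ℝ (⊤ : ℕ∞) g → ∃ c : ℝ,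
      ∫ x in Metric.ball a R, |g x - c| ^ (m + 1) ≤ C * ∫ x in Metric.ball a R, ‖gradient g x‖ ^ (m + 1) := by
  refine ⟨(2 * R) ^ (m + 1) * 2 ^ (m + 1), by positivity, fun g hg => ?_⟩
  set B := Metric.ball a R with hB
  have hBm : MeasurableSet B := Metric.isOpen_ball.measurableSet
  have hc : Continuous (fderiv ℝ g) := hg.continuous_fderiv (by simp)
  have hgc : Continuous g := hg.continuous
  set h : E m → ℝ≥0∞ := B.indicator (fun z => ENNReal.ofReal (‖fderiv ℝ g z‖ ^ (m + 1))) with hh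
  have hhm : Measurable h :=
    ((hc.norm.pow (m + 1)).measurable.ennreal_ofReal).indicator hBm
  have hB0 : volume B ≠ 0 := (Metric.measure_ball_pos volume a hR).ne'
  have hBt : volume B ≠ ⊤ := measure_ball_lt_top.ne
  -- bound for every t
  have hG : ∀ t ∈ Set.Ioc (0 : ℝ) 1, ∫⁻ x in B, ∫⁻ y in B, h (x + t • (y - x)) ≤
      ENNReal.ofReal (2 ^ (m + 1)) * volume B * ∫⁻ y, h y := by
    intro t ht
    rcases le_total (1 / 2) t with h1 | h1
    · exact dbl B h hhm t h1
    · rw [lintegral_lintegral_swap]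
      · refine le_trans (le_of_eq ?_) (dbl B h hhm (1 - t) (by linarith))
        refine lintegral_congr fun x => lintegral_congr fun y => ?_
        congr 1
        module
      · refine Measurable.aemeasurable ?_
        exact hhm.comp (by fun_prop)
  have hD : ∫⁻ x in B, ∫⁻ y in B, ENNReal.ofReal (|g x - g y| ^ (m + 1)) ≤
      ENNReal.ofReal ((2 * R) ^ (m + 1)) * (ENNReal.ofReal (2 ^ (m + 1)) * volume B * ∫⁻ y, h y) := by
    calc ∫⁻ x in B, ∫⁻ y in B, ENNReal.ofReal (|g x - g y| ^ (m + 1))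
        ≤ ∫⁻ x in B, ∫⁻ y in B, ENNReal.ofReal ((2 * R) ^ (m + 1)) *
            ∫⁻ t in Set.Ioc (0 : ℝ) 1, h (x + t • (y - x)) := by
          refine setLIntegral_mono' hBm fun x hx => setLIntegral_mono' hBm fun y hy => ?_
          exact seg a R hR g hg x y hx hy
      _ = ENNReal.ofReal ((2 * R) ^ (m + 1)) * ∫⁻ x in B, ∫⁻ y in B,
            ∫⁻ t in Set.Ioc (0 : ℝ) 1, h (x + t • (y - x)) := by
          rw [← lintegral_const_mul' _ _ ENNReal.ofReal_ne_top]
          refine lintegral_congr fun x => ?_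
          rw [← lintegral_const_mul' _ _ ENNReal.ofReal_ne_top]
      _ = ENNReal.ofReal ((2 * R) ^ (m + 1)) * ∫⁻ t in Set.Ioc (0 : ℝ) 1, ∫⁻ x in B, ∫⁻ y in B,
            h (x + t • (y - x)) := by
          congr 1
          have q1 : ∫⁻ x in B, ∫⁻ y in B, ∫⁻ t in Set.Ioc (0 : ℝ) 1, h (x + t • (y - x)) =
              ∫⁻ x in B, ∫⁻ t in Set.Ioc (0 : ℝ) 1, ∫⁻ y in B, h (x + t • (y - x)) := by
            refine lintegral_congr fun x => ?_
            exact lintegral_lintegral_swap (hhm.comp (by fun_prop)).aemeasurable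
          have q2 : ∫⁻ x in B, ∫⁻ t in Set.Ioc (0 : ℝ) 1, ∫⁻ y in B, h (x + t • (y - x)) =
              ∫⁻ t in Set.Ioc (0 : ℝ) 1, ∫⁻ x in B, ∫⁻ y in B, h (x + t • (y - x)) := by
            refine lintegral_lintegral_swap (Measurable.aemeasurable ?_)
            have : Measurable (fun p : (E m × ℝ) × E m => h (p.1.1 + p.1.2 • (p.2 - p.1.1))) :=
              hhm.comp (by fun_prop)
            exact this.lintegral_prod_right'
          rw [q1, q2]
      _ ≤ ENNReal.ofReal ((2 * R) ^ (m + 1)) * ∫⁻ t in Set.Ioc (0 : ℝ) 1,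
            (ENNReal.ofReal (2 ^ (m + 1)) * volume B * ∫⁻ y, h y) := by
          exact mul_le_mul' le_rfl (setLIntegral_mono' measurableSet_Ioc hG)
      _ = _ := by
          rw [setLIntegral_const]
          simp
  have hmeas : Measurable fun x => ∫⁻ y in B, ENNReal.ofReal (|g x - g y| ^ (m + 1)) := by
    have : Measurable (fun p : E m × E m => ENNReal.ofReal (|g p.1 - g p.2| ^ (m + 1))) := by
      refine Measurable.ennreal_ofReal ?_
      exact Continuous.measurable (by fun_prop)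
    exact this.lintegral_prod_right'
  obtain ⟨x0, hx0, hx⟩ := exists_le_setLAverage hB0 hBt hmeas.aemeasurable
  rw [setLAverage_eq] at hx
  have hfin : ∫⁻ y in B, ENNReal.ofReal (|g x0 - g y| ^ (m + 1)) ≤
      ENNReal.ofReal ((2 * R) ^ (m + 1)) * ENNReal.ofReal (2 ^ (m + 1)) * ∫⁻ y, h y := by
    refine hx.trans ?_
    rw [ENNReal.div_le_iff hB0 hBt]
    refine hD.trans (le_of_eq ?_)
    ring
  refine ⟨g x0, ?_⟩
  have hI1 : Integrable (fun x => |g x - g x0| ^ (m + 1)) (volume.restrict B) := by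
    have : Continuous (fun x => |g x - g x0| ^ (m + 1)) := by fun_prop
    exact ((this.continuousOn.integrableOn_compact (isCompact_closedBall a R))).mono_set
      Metric.ball_subset_closedBall
  have hI2 : Integrable (fun x => ‖fderiv ℝ g x‖ ^ (m + 1)) (volume.restrict B) := by
    have : Continuous (fun x => ‖fderiv ℝ g x‖ ^ (m + 1)) := hc.norm.pow _
    exact ((this.continuousOn.integrableOn_compact (isCompact_closedBall a R))).mono_set
      Metric.ball_subset_closedBall
  have e1 : ENNReal.ofReal (∫ x in B, |g x - g x0| ^ (m + 1)) =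
      ∫⁻ y in B, ENNReal.ofReal (|g x0 - g y| ^ (m + 1)) := by
    rw [ofReal_integral_eq_lintegral_ofReal hI1 (Filter.Eventually.of_forall fun t => by positivity)]
    refine lintegral_congr fun y => ?_
    rw [abs_sub_comm]
  have e2 : ∫⁻ y, h y = ENNReal.ofReal (∫ x in B, ‖fderiv ℝ g x‖ ^ (m + 1)) := by
    rw [ofReal_integral_eq_lintegral_ofReal hI2 (Filter.Eventually.of_forall fun t => by positivity),
      hh, lintegral_indicator hBm]
  have e3 : ∫ x in B, ‖gradient g x‖ ^ (m + 1) = ∫ x in B, ‖fderiv ℝ g x‖ ^ (m + 1) := by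
    refine integral_congr_ae (Filter.Eventually.of_forall fun x => ?_)
    simp only [norm_grad]
  rw [e3]
  rw [← e1, e2, ← ENNReal.ofReal_mul (by positivity), ← ENNReal.ofReal_mul (by positivity)] at hfin
  exact (ENNReal.ofReal_le_ofReal_iff (mul_nonneg (by positivity)
    (integral_nonneg fun x => by positivity))).mp hfin

end Pool.Agent.H46.MM
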