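import Pool.Agent.H46.MM.ThickDef
import Pool.Agent.H46.MM.MPoin

/-!
`n = m + 1`, `B = ball w (2 R)`, `A = ∫_B ‖∇ ψ‖^n`, `c` and `C_P` from `mpoin w (2 R)`: `∫_B |ψ - c|^n ≤ C_P A`. With bounds `|η| ≤ S`,
`‖∇ η‖ ≤ T` (compact support): `energy (η (ψ - c)) ≤ 2^n (S^n A + T^n C_P A) = C₁ A` (`(a + b)^n ≤ 2^n (a^n + b^n)`; `∇ (η (ψ - c)) = 0` off
`tsupport η ⊆ B`). If `c ≠ 0` then `Λ = η (1 - ψ / c)` is admissible for `(B, closedBall w R \ D)` (`= 1` there, as `ψ = 0` off `D`), so
`cap ≤ energy Λ = |c|^(-n) energy (η (ψ - c))`, i.e. `|c|^n ≤ C₁ A / cap`. Finally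
`energy (η ψ) ≤ 2^n (energy (η (ψ - c)) + |c|^n energy η)`.
-/

set_option autoImplicit false

namespace Pool.Agent.H46.MM

open MeasureTheory Metric

private theorem cint {m : ℕ} (w : E m) (R : ℝ) {f : E m → ℝ} (hf : Continuous f) : IntegrableOn f (ball w R) :=
  (hf.locallyIntegrable.integrableOn_isCompact (isCompact_closedBall w R)).mono_set ball_subset_closedBall

private theorem grad_mul {m : ℕ} (u g : E m → ℝ) (x : E m) (hu : DifferentiableAt ℝ u x) (hg : DifferentiableAt ℝ g x) :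
    gradient (fun y => u y * g y) x = u x • gradient g x + g x • gradient u x := by
  unfold gradient
  have h : fderiv ℝ (fun y => u y * g y) x = u x • fderiv ℝ g x + g x • fderiv ℝ u x := fderiv_fun_mul hu hg
  rw [h, map_add, map_smulₛₗ, map_smulₛₗ]
  rfl

private theorem grad_off {m : ℕ} (η g : E m → ℝ) (x : E m) (hx : x ∉ tsupport η) :
    ‖gradient (fun y => η y * g y) x‖ = 0 := by
  rw [norm_grad, norm_eq_zero]
  have h : x ∉ tsupport (fun y => η y * g y) := fun h => hx (tsupport_mul_subset_left h)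
  by_contra h1
  exact h (support_fderiv_subset ℝ h1)

private theorem cgrad {m : ℕ} {g : E m → ℝ} (hg : ContDiff ℝ (⊤ : ℕ∞) g) :
    Continuous fun x => ‖gradient g x‖ ^ (m + 1) := by
  have e : (fun x => ‖gradient g x‖ ^ (m + 1)) = fun x => ‖fderiv ℝ g x‖ ^ (m + 1) := by
    funext x
    rw [norm_grad]
  rw [e]
  exact ((hg.continuous_fderiv (by simp)).norm).pow _

private theorem prod_le {m : ℕ} (w : E m) (R : ℝ) (η : E m → ℝ) (hη : ContDiff ℝ (⊤ : ℕ∞) η)
    (hc : HasCompactSupport η) (hηs : tsupport η ⊆ ball w R) : ∃ S T : ℝ, 0 ≤ S ∧ 0 ≤ T ∧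
    ∀ g : E m → ℝ, ContDiff ℝ (⊤ : ℕ∞) g → energy (fun x => η x * g x) ≤
      S * (∫ x in ball w R, ‖gradient g x‖ ^ (m + 1)) + T * ∫ x in ball w R, |g x| ^ (m + 1) := by
  obtain ⟨S, hS⟩ := hη.continuous.bounded_above_of_compact_support hc
  obtain ⟨T, hT⟩ := (hη.continuous_fderiv (by simp)).bounded_above_of_compact_support (hc.fderiv (𝕜 := ℝ))
  have hS0 : 0 ≤ S := (norm_nonneg _).trans (hS w)
  have hT0 : 0 ≤ T := (norm_nonneg _).trans (hT w)
  refine ⟨2 ^ m * S ^ (m + 1), 2 ^ m * T ^ (m + 1), by positivity, by positivity, fun g hg => ?_⟩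
  have hd : ∀ x, DifferentiableAt ℝ g x := fun x => (hg.differentiable (by simp)).differentiableAt
  have hdη : ∀ x, DifferentiableAt ℝ η x := fun x => (hη.differentiable (by simp)).differentiableAt
  have h1 : energy (fun x => η x * g x) = ∫ x in ball w R, ‖gradient (fun x => η x * g x) x‖ ^ (m + 1) := by
    unfold energy
    refine (setIntegral_eq_integral_of_forall_compl_eq_zero fun x hx => ?_).symm
    rw [grad_off η g x (fun h => hx (hηs h)), zero_pow (Nat.succ_ne_zero m)]
  have hca : Continuous fun x => |g x| ^ (m + 1) := (hg.continuous.abs).pow (m + 1)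
  have hi1 : IntegrableOn (fun x => 2 ^ m * S ^ (m + 1) * ‖gradient g x‖ ^ (m + 1)) (ball w R) :=
    cint w R (continuous_const.mul (cgrad hg))
  have hi2 : IntegrableOn (fun x => 2 ^ m * T ^ (m + 1) * |g x| ^ (m + 1)) (ball w R) :=
    cint w R (continuous_const.mul hca)
  rw [h1, ← integral_const_mul, ← integral_const_mul, ← integral_add hi1 hi2]
  refine setIntegral_mono (cint w R (cgrad (hη.mul hg))) (hi1.add hi2) fun x => ?_
  simp only
  have h2 : ‖gradient (fun x => η x * g x) x‖ ≤ S * ‖gradient g x‖ + T * |g x| := by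
    rw [grad_mul η g x (hdη x) (hd x)]
    refine (norm_add_le _ _).trans ?_
    rw [norm_smul, norm_smul, norm_grad η]
    refine add_le_add (mul_le_mul_of_nonneg_right (hS x) (norm_nonneg _)) ?_
    rw [mul_comm, Real.norm_eq_abs]
    exact mul_le_mul_of_nonneg_right (hT x) (abs_nonneg _)
  calc ‖gradient (fun x => η x * g x) x‖ ^ (m + 1) ≤ (S * ‖gradient g x‖ + T * |g x|) ^ (m + 1) :=
        pow_le_pow_left₀ (norm_nonneg _) h2 _
    _ ≤ 2 ^ m * ((S * ‖gradient g x‖) ^ (m + 1) + (T * |g x|) ^ (m + 1)) :=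
        add_pow_le (by positivity) (by positivity) (m + 1)
    _ = 2 ^ m * S ^ (m + 1) * ‖gradient g x‖ ^ (m + 1) + 2 ^ m * T ^ (m + 1) * |g x| ^ (m + 1) := by
        rw [mul_pow, mul_pow]
        ring

theorem bnd {m : ℕ} (w : E m) (R : ℝ) (hR : 0 < R) (D : Set (E m))
    (hc : 0 < cap (Metric.ball w (2 * R)) (Metric.closedBall w R \ D)) (η : E m → ℝ) (hη : ContDiff ℝ (⊤ : ℕ∞) η)
    (hη1 : ∀ x ∈ Metric.closedBall w R, η x = 1) (hηs : tsupport η ⊆ Metric.ball w (2 * R)) :
    ∃ C : ℝ, 0 ≤ C ∧ ∀ ψ : E m → ℝ, ContDiff ℝ (⊤ : ℕ∞) ψ → (∀ x, x ∉ D → ψ x = 0) →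
      energy (fun x => η x * ψ x) ≤ C * ∫ x in Metric.ball w (2 * R), ‖gradient ψ x‖ ^ (m + 1) := by
  have hcs : HasCompactSupport η := (isCompact_closedBall w (2 * R)).of_isClosed_subset (isClosed_tsupport η)
    (hηs.trans ball_subset_closedBall)
  obtain ⟨S, T, hS, hT, hST⟩ := prod_le w (2 * R) η hη hcs hηs
  obtain ⟨P, hP, hmp⟩ := mpoin w (2 * R) (by positivity)
  obtain ⟨k, hk⟩ : ∃ k, k = cap (Metric.ball w (2 * R)) (Metric.closedBall w R \ D) := ⟨_, rfl⟩
  rw [← hk] at hc
  have he := energy_nonneg η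
  refine ⟨2 ^ m * ((S + T * P) + (S + T * P) / k * energy η), by positivity, fun ψ hψ hψ0 => ?_⟩
  obtain ⟨A, hA⟩ : ∃ A, A = ∫ x in ball w (2 * R), ‖gradient ψ x‖ ^ (m + 1) := ⟨_, rfl⟩
  have hA0 : 0 ≤ A := by
    rw [hA]
    exact integral_nonneg fun _ => pow_nonneg (norm_nonneg _) _
  obtain ⟨c, hcc⟩ := hmp ψ hψ
  rw [← hA] at hcc ⊢
  have hg : ContDiff ℝ (⊤ : ℕ∞) (fun x => ψ x - c) := hψ.sub contDiff_const
  have hgr : ∀ x, gradient (fun x => ψ x - c) x = gradient ψ x := fun x => by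
    unfold gradient
    rw [fderiv_sub_const]
  have hdη : ∀ x, DifferentiableAt ℝ η x := fun x => (hη.differentiable (by simp)).differentiableAt
  have hdg : ∀ x, DifferentiableAt ℝ (fun x => η x * (ψ x - c)) x := fun x =>
    ((hη.mul hg).differentiable (by simp)).differentiableAt
  have h1 : energy (fun x => η x * (ψ x - c)) ≤ (S + T * P) * A := by
    have h2 := hST _ hg
    simp only [hgr] at h2
    rw [← hA] at h2
    have h3 := mul_le_mul_of_nonneg_left hcc hT
    nlinarith
  have h4 : |c| ^ (m + 1) ≤ (S + T * P) / k * A := by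
    rcases eq_or_ne c 0 with h0 | h0
    · rw [h0, abs_zero, zero_pow (Nat.succ_ne_zero m)]
      positivity
    · have hadm : Adm (ball w (2 * R)) (closedBall w R \ D) (fun x => (-(1 / c)) * (η x * (ψ x - c))) := by
        refine ⟨contDiff_const.mul (hη.mul hg), ?_, ?_, fun x hx => ?_⟩
        · exact (hcs.mul_right).mul_left
        · have h5 : tsupport (fun x => (-(1 / c)) * (η x * (ψ x - c))) ⊆ tsupport (fun x => η x * (ψ x - c)) :=
            tsupport_mul_subset_right
          exact (h5.trans tsupport_mul_subset_left).trans hηs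
        · rw [hη1 x hx.1, hψ0 x hx.2]
          have : -(1 / c) * (1 * (0 - c)) = 1 := by
            field_simp
            ring
          rw [this]
      have h5 := cap_le _ _ _ hadm
      rw [← hk, energy_smul _ (fun x => η x * (ψ x - c)) (hη.mul hg), abs_neg, abs_div, abs_one, div_pow, one_pow] at h5
      have h6 : 0 < |c| ^ (m + 1) := pow_pos (abs_pos.2 h0) _
      have h7 : |c| ^ (m + 1) * k ≤ energy (fun x => η x * (ψ x - c)) := by
        have h8 := mul_le_mul_of_nonneg_left h5 h6.le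
        rw [← mul_assoc, mul_one_div_cancel h6.ne', one_mul] at h8
        exact h8
      rw [div_mul_eq_mul_div, le_div_iff₀ hc]
      exact h7.trans h1
  have h5 : energy (fun x => η x * ψ x) ≤ 2 ^ m * (energy (fun x => η x * (ψ x - c)) + |c| ^ (m + 1) * energy η) := by
    rw [← energy_smul c η hη]
    unfold energy
    have hi1 := integ _ (hη.mul hg) hcs.mul_right
    have hi2 := integ _ (contDiff_const.mul hη : ContDiff ℝ (⊤ : ℕ∞) fun x => c * η x) hcs.mul_left
    rw [← integral_add hi1 hi2, ← integral_const_mul]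
    refine integral_mono (integ _ (hη.mul hψ) hcs.mul_right) ((hi1.add hi2).const_mul _) fun x => ?_
    simp only
    have h6 : gradient (fun x => η x * ψ x) x =
        gradient (fun x => η x * (ψ x - c)) x + gradient (fun x => c * η x) x := by
      have h7 : (fun x => η x * ψ x) = fun x => η x * (ψ x - c) + c * η x := by
        funext y
        ring
      rw [h7, grad_add _ _ x (hdg x) ((hdη x).const_mul c)]
    rw [h6]
    refine (pow_le_pow_left₀ (norm_nonneg _) (norm_add_le _ _) _).trans ?_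
    exact add_pow_le (norm_nonneg _) (norm_nonneg _) (m + 1)
  refine h5.trans ?_
  rw [mul_assoc]
  refine mul_le_mul_of_nonneg_left ?_ (by positivity)
  have h6 := mul_le_mul_of_nonneg_right h4 he
  have h7 : ((S + T * P) + (S + T * P) / k * energy η) * A = (S + T * P) * A + (S + T * P) / k * A * energy η := by
    ring
  rw [h7]
  exact add_le_add h1 h6

end Pool.Agent.H46.MM
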