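import Pool.Agent.H46.MM.Def

/-!
Poincare: for smooth functions that vanish outside a ball of radius `R`. Mathlib's Gagliardo-Nirenberg-Sobolev
(`MeasureTheory.eLpNorm_le_eLpNorm_fderiv_of_le`, exponent 1 and 1, bounded support) and Hoelder on the ball.
`‖gradient Λ x‖ = ‖fderiv ℝ Λ x‖`. Also `integ`: the energy integrand is integrable.
-/

set_option autoImplicit false

namespace Pool.Agent.H46.MM

open MeasureTheory

private theorem jensen_pow {m : ℕ} (a : E m) (R : ℝ) (hR : 0 < R) (n : ℕ) (g : E m → ℝ) (hg : Continuous g)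
    (h0 : ∀ x, 0 ≤ g x) :
    (∫ x in Metric.closedBall a R, g x) ^ (n + 1) ≤
      (volume.real (Metric.closedBall a R)) ^ n * ∫ x in Metric.closedBall a R, g x ^ (n + 1) := by
  set B := Metric.closedBall a R with hB
  have hBc : IsCompact B := isCompact_closedBall a R
  have hV : 0 < volume.real B := by
    rw [Measure.real, ENNReal.toReal_pos_iff]
    exact ⟨Metric.measure_closedBall_pos volume a hR, hBc.measure_lt_top⟩
  have hfin : IsFiniteMeasure (volume.restrict B) := ⟨by
    rw [Measure.restrict_apply_univ]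
    exact hBc.measure_lt_top⟩
  have hne : NeZero (volume.restrict B) := ⟨by
    intro h
    have h1 : (volume.restrict B) Set.univ = 0 := by rw [h]; simp
    rw [Measure.restrict_apply_univ] at h1
    exact (Metric.measure_closedBall_pos volume a hR).ne' h1⟩
  have hi1 : Integrable g (volume.restrict B) := hg.continuousOn.integrableOn_compact hBc
  have hi2 : Integrable ((fun y : ℝ => y ^ (n + 1)) ∘ g) (volume.restrict B) :=
    (hg.pow (n + 1)).continuousOn.integrableOn_compact hBc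
  have hJ := (convexOn_pow (𝕜 := ℝ) (n + 1)).map_average_le (μ := volume.restrict B) (f := g)
    (by fun_prop) isClosed_Ici (Filter.Eventually.of_forall h0) hi1 hi2
  rw [average_eq, average_eq] at hJ
  have hreal : (volume.restrict B).real Set.univ = volume.real B := by
    rw [Measure.real, Measure.restrict_apply_univ, Measure.real]
  rw [hreal] at hJ
  simp only [smul_eq_mul] at hJ
  rw [mul_pow] at hJ
  have h1 : (volume.real B) ^ (n + 1) * ((volume.real B)⁻¹ ^ (n + 1) * (∫ x in B, g x) ^ (n + 1)) ≤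
      (volume.real B) ^ (n + 1) * ((volume.real B)⁻¹ * ∫ x in B, g x ^ (n + 1)) := by
    gcongr
  have h2 : (volume.real B) ^ (n + 1) * ((volume.real B)⁻¹ ^ (n + 1) * (∫ x in B, g x) ^ (n + 1)) =
      (∫ x in B, g x) ^ (n + 1) := by
    rw [← mul_assoc, ← mul_pow, mul_inv_cancel₀ hV.ne', one_pow, one_mul]
  have h3 : (volume.real B) ^ (n + 1) * ((volume.real B)⁻¹ * ∫ x in B, g x ^ (n + 1)) =
      (volume.real B) ^ n * ∫ x in B, g x ^ (n + 1) := by
    rw [pow_succ]
    field_simp
  rw [h2, h3] at h1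
  exact h1

theorem poincare (m : ℕ) (hm : 1 ≤ m) (a : E m) (R : ℝ) (hR : 0 < R) : ∃ C : ℝ, 0 ≤ C ∧
    ∀ Λ : E m → ℝ, ContDiff ℝ (⊤ : ℕ∞) Λ → (∀ x, R ≤ dist x a → Λ x = 0) →
      (∫ x, |Λ x|) ^ (m + 1) ≤ C * energy Λ := by
  set B := Metric.closedBall a R with hB
  have hBc : IsCompact B := isCompact_closedBall a R
  have hfr : Module.finrank ℝ (E m) = m + 1 := by simp [E]
  set C0 : NNReal := eLpNormLESNormFDerivOfLeConst ℝ (volume : Measure (E m)) B 1 1 with hC0
  refine ⟨(C0 : ℝ) ^ (m + 1) * (volume.real B) ^ m, by positivity, ?_⟩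
  intro Λ hΛ hz
  have hΛ1 : ContDiff ℝ 1 Λ := hΛ.of_le (by exact_mod_cast le_top)
  have hsupp : Function.support Λ ⊆ B := by
    intro x hx
    by_contra h
    rw [hB, Metric.mem_closedBall, not_le] at h
    exact hx (hz x h.le)
  have hcont : Continuous Λ := hΛ.continuous
  have hfc : Continuous (fderiv ℝ Λ) := hΛ1.continuous_fderiv (by norm_num)
  have hf0 : ∀ x, x ∉ B → fderiv ℝ Λ x = 0 := by
    intro x hx
    rw [hB, Metric.mem_closedBall, not_le] at hx
    have h1 : Λ =ᶠ[nhds x] fun _ => 0 := by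
      have h0 : IsOpen {y : E m | R < dist y a} :=
        isOpen_lt continuous_const (continuous_id.dist continuous_const)
      have h2 : {y : E m | R < dist y a} ∈ nhds x := h0.mem_nhds (Set.mem_ofPred_eq ▸ hx)
      filter_upwards [h2] with y hy
      exact hz y (le_of_lt hy)
    rw [h1.fderiv_eq]
    simp
  have hcs : HasCompactSupport (fderiv ℝ Λ) := HasCompactSupport.intro hBc hf0
  -- Gagliardo, Nirenberg, Sobolev
  have hGNS : eLpNorm Λ (1 : NNReal) volume ≤ C0 * eLpNorm (fderiv ℝ Λ) (1 : NNReal) volume := by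
    refine eLpNorm_le_eLpNorm_fderiv_of_le (μ := volume) hΛ1 hsupp le_rfl ?_ ?_ hBc.isBounded
    · rw [hfr]
      exact_mod_cast (by omega : 1 < m + 1)
    · rw [hfr]
      have : (0 : ℝ) ≤ ((m + 1 : ℕ) : ℝ)⁻¹ := by positivity
      simp only [NNReal.coe_one, inv_one]
      linarith
  have hfint : Integrable (fderiv ℝ Λ) volume := hfc.integrable_of_hasCompactSupport hcs
  have h1 : ∫ x, |Λ x| ≤ C0 * ∫ x, ‖fderiv ℝ Λ x‖ := by
    have e1 : ∫ x, |Λ x| = (eLpNorm Λ (1 : NNReal) volume).toReal := by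
      have := integral_norm_eq_lintegral_enorm (μ := volume) (f := Λ) hcont.aestronglyMeasurable
      rw [← eLpNorm_one_eq_lintegral_enorm] at this
      simpa using this
    have e2 : ∫ x, ‖fderiv ℝ Λ x‖ = (eLpNorm (fderiv ℝ Λ) (1 : NNReal) volume).toReal := by
      have := integral_norm_eq_lintegral_enorm (μ := volume) (f := fderiv ℝ Λ) hfc.aestronglyMeasurable
      rw [← eLpNorm_one_eq_lintegral_enorm] at this
      simpa using this
    have hfin : eLpNorm (fderiv ℝ Λ) (1 : NNReal) volume ≠ ⊤ := by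
      have := (memLp_one_iff_integrable.2 hfint).2.ne
      simpa using this
    rw [e1, e2]
    have h2 := ENNReal.toReal_mono (ENNReal.mul_ne_top ENNReal.coe_ne_top hfin) hGNS
    rw [ENNReal.toReal_mul] at h2
    simpa using h2
  have h2 : ∫ x, ‖fderiv ℝ Λ x‖ = ∫ x in B, ‖fderiv ℝ Λ x‖ := by
    rw [setIntegral_eq_integral_of_forall_compl_eq_zero]
    intro x hx
    rw [hf0 x hx, norm_zero]
  have h3 := jensen_pow a R hR m (fun x => ‖fderiv ℝ Λ x‖) hfc.norm (fun x => norm_nonneg _)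
  have h4 : energy Λ = ∫ x in B, ‖fderiv ℝ Λ x‖ ^ (m + 1) := by
    unfold energy
    rw [setIntegral_eq_integral_of_forall_compl_eq_zero]
    · refine integral_congr_ae (Filter.Eventually.of_forall fun x => ?_)
      simp only [gradient, LinearIsometryEquiv.norm_map]
    · intro x hx
      rw [hf0 x hx, norm_zero, zero_pow (by omega)]
  have h5 : 0 ≤ ∫ x, |Λ x| := integral_nonneg fun x => abs_nonneg _
  calc (∫ x, |Λ x|) ^ (m + 1) ≤ (C0 * ∫ x, ‖fderiv ℝ Λ x‖) ^ (m + 1) := by gcongr
    _ = (C0 : ℝ) ^ (m + 1) * (∫ x in B, ‖fderiv ℝ Λ x‖) ^ (m + 1) := by rw [mul_pow, h2]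
    _ ≤ (C0 : ℝ) ^ (m + 1) * ((volume.real B) ^ m * ∫ x in B, ‖fderiv ℝ Λ x‖ ^ (m + 1)) := by
      gcongr
    _ = (C0 : ℝ) ^ (m + 1) * (volume.real B) ^ m * energy Λ := by rw [h4]; ring

end Pool.Agent.H46.MM
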