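import Pool.Agent.H46.MM.Step
import Pool.Agent.H46.MM.Poin

/-!
`low_step`: from `step` and `poincare`: `max (u k x - (1 - δ')) 0 ≤ Λ k x` on the ball, `∫ |Λ k| → 0`.
`chain`: the set of the `p ∈ U` for which there are `ρ, δ > 0` with `Low u (ball p ρ) δ` is open (smaller balls, `Low` is monotone
in the set), contains `b`, and is relatively closed: if `ball a (4 r) ⊆ U` and `p` in
the set with `dist p a < r`, use `low_step` at `p` with small `ρ`, `ρ' = 2 r`, `R = 3 r`. `U` preconnected.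
-/

set_option autoImplicit false

namespace Pool.Agent.H46.MM

open MeasureTheory Filter Topology Set

private theorem low_mono {m : ℕ} {D K' K : Set (E m)} {u : ℕ → E m → ℝ} (hu : MinSeq D K' K u) {B : Set (E m)} {p : E m}
    {ρ δ : ℝ} (hB : B ⊆ Metric.ball p ρ) (h : Low u (Metric.ball p ρ) δ) : Low u B δ := by
  unfold Low at h ⊢
  refine squeeze_zero (fun k => integral_nonneg fun x => le_max_right _ _) (fun k => ?_) h
  refine setIntegral_mono_set ?_ (Eventually.of_forall fun x => le_max_right _ _) hB.eventuallyLE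
  have hc : Continuous fun x => max (u k x - (1 - δ)) 0 :=
    ((hu.adm k).smooth.continuous.sub continuous_const).max continuous_const
  exact (hc.continuousOn.integrableOn_compact (isCompact_closedBall p ρ)).mono_set
    Metric.ball_subset_closedBall

theorem low_step {m : ℕ} (hm : 1 ≤ m) (D K' K : Set (E m)) (u : ℕ → E m → ℝ) (hu : MinSeq D K' K u) (a : E m)
    (ρ ρ' R δ : ℝ) (h0 : 0 < ρ) (h1 : ρ < ρ') (h2 : ρ' < R) (hδ : 0 < δ)
    (hK : ∀ x ∈ K', R ≤ dist x a) (hL : Low u (Metric.ball a ρ) δ) :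
    ∃ δ' : ℝ, 0 < δ' ∧ Low u (Metric.ball a ρ') δ' := by
  obtain ⟨δ', Λ, hδ', hs, hn, hz, hE, hev⟩ := step hm D K' K u hu a ρ ρ' R δ h0 h1 h2 hδ hK hL
  have hR : 0 < R := by linarith
  obtain ⟨C, hC, hP⟩ := poincare m hm a R hR
  have hint : ∀ k, Integrable (fun x => |Λ k x|) := by
    intro k
    have hcs : HasCompactSupport (Λ k) := by
      refine HasCompactSupport.of_support_subset_isCompact (isCompact_closedBall a R) ?_
      intro x hx
      by_contra h3
      rw [Metric.mem_closedBall, not_le] at h3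
      exact hx (hz k x h3.le)
    exact ((hs k).continuous.integrable_of_hasCompactSupport hcs).abs
  have hnn : ∀ k, 0 ≤ ∫ x, |Λ k x| := fun k => integral_nonneg fun x => abs_nonneg _
  have hpow : Tendsto (fun k => (∫ x, |Λ k x|) ^ (m + 1)) atTop (𝓝 0) := by
    refine squeeze_zero (fun k => pow_nonneg (hnn k) _) (fun k => hP (Λ k) (hs k) (hz k)) ?_
    simpa using hE.const_mul C
  have hlim : Tendsto (fun k => ∫ x, |Λ k x|) atTop (𝓝 0) := by
    rw [Metric.tendsto_atTop] at hpow ⊢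
    intro ε hε
    obtain ⟨N, hN⟩ := hpow (ε ^ (m + 1)) (by positivity)
    refine ⟨N, fun k hk => ?_⟩
    have h3 := hN k hk
    rw [Real.dist_eq, sub_zero, abs_of_nonneg (pow_nonneg (hnn k) _)] at h3
    rw [Real.dist_eq, sub_zero, abs_of_nonneg (hnn k)]
    exact lt_of_pow_lt_pow_left₀ (m + 1) hε.le h3
  refine ⟨δ', hδ', ?_⟩
  unfold Low
  refine squeeze_zero' (Eventually.of_forall fun k => integral_nonneg fun x => le_max_right _ _) ?_ hlim
  filter_upwards [hev] with k hk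
  calc ∫ x in Metric.ball a ρ', max (u k x - (1 - δ')) 0
      ≤ ∫ x in Metric.ball a ρ', |Λ k x| := by
        refine integral_mono_of_nonneg (Eventually.of_forall fun x => le_max_right _ _)
          (hint k).integrableOn ?_
        refine (ae_restrict_iff' Metric.isOpen_ball.measurableSet).2 (Eventually.of_forall fun x hx => ?_)
        have h3 := hk x hx
        have h4 := hn k x
        simp only [abs_of_nonneg h4]
        exact max_le (by linarith) h4
    _ ≤ ∫ x, |Λ k x| := setIntegral_le_integral (hint k) (Eventually.of_forall fun x => abs_nonneg _)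

theorem chain {m : ℕ} (hm : 1 ≤ m) (D K' K : Set (E m)) (u : ℕ → E m → ℝ) (hu : MinSeq D K' K u)
    (U : Set (E m)) (hU : IsOpen U) (hc : IsPreconnected U) (hUK : Disjoint U K') (b : E m) (hb : b ∈ U)
    (hbL : ∃ ρ δ : ℝ, 0 < ρ ∧ 0 < δ ∧ Low u (Metric.ball b ρ) δ) :
    ∀ p ∈ U, ∃ ρ δ : ℝ, 0 < ρ ∧ 0 < δ ∧ Low u (Metric.ball p ρ) δ := by
  have hS : IsOpen {p : E m | ∃ ρ δ : ℝ, 0 < ρ ∧ 0 < δ ∧ Low u (Metric.ball p ρ) δ} := by
    rw [Metric.isOpen_iff]
    rintro p ⟨ρ, δ, hρ, hδ, hL⟩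
    refine ⟨ρ / 2, half_pos hρ, fun q hq => ⟨ρ / 2, δ, half_pos hρ, hδ, low_mono hu ?_ hL⟩⟩
    intro x hx
    rw [Metric.mem_ball] at hq hx ⊢
    linarith [dist_triangle x q p]
  have hne : (U ∩ {p : E m | ∃ ρ δ : ℝ, 0 < ρ ∧ 0 < δ ∧ Low u (Metric.ball p ρ) δ}).Nonempty := ⟨b, hb, hbL⟩
  have hcl : closure {p : E m | ∃ ρ δ : ℝ, 0 < ρ ∧ 0 < δ ∧ Low u (Metric.ball p ρ) δ} ∩ U ⊆
      {p : E m | ∃ ρ δ : ℝ, 0 < ρ ∧ 0 < δ ∧ Low u (Metric.ball p ρ) δ} := by
    rintro a ⟨ha, haU⟩
    obtain ⟨r', hr', hball⟩ := Metric.isOpen_iff.1 hU a haU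
    obtain ⟨r, hr, rfl⟩ : ∃ r, 0 < r ∧ r' = 4 * r := ⟨r' / 4, by linarith, by ring⟩
    obtain ⟨p, ⟨ρ, δ, hρ, hδ, hL⟩, hpa⟩ := Metric.mem_closure_iff.1 ha r hr
    have hL' : Low u (Metric.ball p (min ρ r)) δ :=
      low_mono hu (Metric.ball_subset_ball (min_le_left _ _)) hL
    have hm1 : min ρ r ≤ r := min_le_right _ _
    obtain ⟨δ', hδ', hL2⟩ := low_step hm D K' K u hu p (min ρ r) (2 * r) (3 * r) δ (lt_min hρ hr)
      (by linarith) (by linarith) hδ (fun x hx => by
        have h3 : x ∉ Metric.ball a (4 * r) := fun h4 => (Set.disjoint_left.1 hUK (hball h4)) hx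
        rw [Metric.mem_ball, not_lt] at h3
        have h5 := dist_triangle x p a
        rw [dist_comm] at hpa
        linarith) hL'
    refine ⟨r, δ', hr, hδ', low_mono hu ?_ hL2⟩
    intro x hx
    rw [Metric.mem_ball] at hx ⊢
    have h5 := dist_triangle x a p
    linarith
  exact fun p hp => hc.subset_of_closure_inter_subset hS hne hcl hp

end Pool.Agent.H46.MM
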