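import Pool.Agent.H46.MM.Defs

/-!
# [H46 MM CHL] Elementary properties of chains (45 min)

All by induction on `ws` (cases `[]`, `[w]`, `w :: w' :: ws`) generalizing `P` and `X`.
* `Chn_mono`: `P.erase p ⊆ P'.erase p` (`Finset.erase_subset_erase`).
* `Chn_cols`: the columns of the head are `p.1` or `p.2`, `p ∈ P` (in `idx P`), or `c ∉ J`; the tail is a chain for
  `P.erase p`, `idx (P.erase p) ⊆ idx P`.
* `Chn_rows`: for `u :: w' :: ws`: the rows of `w'` are `p.1` or `p.2`, in `idx P`; the later ones are in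
  `idx (P.erase p)` by induction.
* `Chn_head`: cases on the list; in the case `u :: w' :: ws` `u' * w' = 0` by `h3`.
-/

set_option autoImplicit false

namespace Pool.Agent.H46.MM

open Matrix Filter Topology Pool.Agent.H89.CSD Pool.Agent.H46.RG

variable {d : ℕ}

theorem idx_mono {P P' : Finset (Fin d × Fin d)} (h : P ⊆ P') : idx P ⊆ idx P' :=
  Finset.union_subset_union (Finset.image_subset_image h) (Finset.image_subset_image h)

theorem mem_idx {P : Finset (Fin d × Fin d)} {i : Fin d} :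
    i ∈ idx P ↔ ∃ p ∈ P, i = p.1 ∨ i = p.2 := by
  unfold idx
  rw [Finset.mem_union, Finset.mem_image, Finset.mem_image]
  constructor
  · rintro (⟨p, hp, h⟩ | ⟨p, hp, h⟩)
    · exact ⟨p, hp, Or.inl h.symm⟩
    · exact ⟨p, hp, Or.inr h.symm⟩
  · rintro ⟨p, hp, h | h⟩
    · exact Or.inl ⟨p, hp, h.symm⟩
    · exact Or.inr ⟨p, hp, h.symm⟩

private theorem Chn_mono_aux (J : Finset (Fin d)) (ws : List (Matrix (Fin d) (Fin d) ℝ)) :
    ∀ (P P' : Finset (Fin d × Fin d)) (X X' : Fin d → Prop), P ⊆ P' → (∀ i, X i → X' i) →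
      Chn J P X ws → Chn J P' X' ws := by
  induction ws with
  | nil =>
    intro P P' X X' _ _ h
    exact h
  | cons w ws ih =>
    intro P P' X X' hP hX h
    cases ws with
    | nil =>
      obtain ⟨h0, c, hc, h1⟩ := h
      exact ⟨h0, c, hc, fun i j hij => ⟨hX i (h1 i j hij).1, (h1 i j hij).2⟩⟩
    | cons w' ws =>
      obtain ⟨h0, h1, p, hp, h2, h3⟩ := h
      refine ⟨h0, h1, p, hP hp, fun i j hij => ⟨hX i (h2 i j hij).1, (h2 i j hij).2⟩, ?_⟩
      exact ih _ _ _ _ (Finset.erase_subset_erase p hP) (fun i hi => hi) h3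

theorem Chn_mono {J : Finset (Fin d)} {P P' : Finset (Fin d × Fin d)} {X X' : Fin d → Prop}
    {ws : List (Matrix (Fin d) (Fin d) ℝ)} (hP : P ⊆ P') (hX : ∀ i, X i → X' i)
    (h : Chn J P X ws) : Chn J P' X' ws :=
  Chn_mono_aux J ws P P' X X' hP hX h

private theorem Chn_cols_aux (J : Finset (Fin d)) (ws : List (Matrix (Fin d) (Fin d) ℝ)) :
    ∀ (P : Finset (Fin d × Fin d)) (X : Fin d → Prop), Chn J P X ws →
      ∀ w ∈ ws, ∀ i j : Fin d, w i j ≠ 0 → j ∈ idx P ∨ j ∉ J := by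
  induction ws with
  | nil =>
    intro P X _ w hw
    exact absurd hw List.not_mem_nil
  | cons u ws ih =>
    intro P X h w hw i j hij
    cases ws with
    | nil =>
      obtain ⟨h0, c, hc, h1⟩ := h
      rw [List.mem_singleton] at hw
      rw [hw] at hij
      right
      rw [(h1 i j hij).2]
      exact hc
    | cons w' ws =>
      obtain ⟨h0, h1, p, hp, h2, h3⟩ := h
      rcases List.mem_cons.mp hw with hw | hw
      · rw [hw] at hij
        left
        rw [mem_idx]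
        exact ⟨p, hp, (h2 i j hij).2⟩
      · rcases ih _ _ h3 w hw i j hij with h4 | h4
        · exact Or.inl (idx_mono (Finset.erase_subset p P) h4)
        · exact Or.inr h4

theorem Chn_cols {J : Finset (Fin d)} {P : Finset (Fin d × Fin d)} {X : Fin d → Prop}
    {ws : List (Matrix (Fin d) (Fin d) ℝ)} (h : Chn J P X ws) {w : Matrix (Fin d) (Fin d) ℝ}
    (hw : w ∈ ws) {i j : Fin d} (hij : w i j ≠ 0) : j ∈ idx P ∨ j ∉ J :=
  Chn_cols_aux J ws P X h w hw i j hij

/-- the rows of the head of a chain -/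
private theorem Chn_row_head (J : Finset (Fin d)) (w : Matrix (Fin d) (Fin d) ℝ)
    (ws : List (Matrix (Fin d) (Fin d) ℝ)) (P : Finset (Fin d × Fin d)) (X : Fin d → Prop)
    (h : Chn J P X (w :: ws)) (i j : Fin d) (hij : w i j ≠ 0) : X i := by
  cases ws with
  | nil =>
    obtain ⟨h0, c, hc, h1⟩ := h
    exact (h1 i j hij).1
  | cons w' ws =>
    obtain ⟨h0, h1, p, hp, h2, h3⟩ := h
    exact (h2 i j hij).1

private theorem Chn_rows_aux (J : Finset (Fin d)) (ws : List (Matrix (Fin d) (Fin d) ℝ)) :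
    ∀ (P : Finset (Fin d × Fin d)) (X : Fin d → Prop) (u : Matrix (Fin d) (Fin d) ℝ),
      Chn J P X (u :: ws) → ∀ w ∈ ws, ∀ i j : Fin d, w i j ≠ 0 → i ∈ idx P := by
  induction ws with
  | nil =>
    intro P X u _ w hw
    exact absurd hw List.not_mem_nil
  | cons w' ws ih =>
    intro P X u h w hw i j hij
    obtain ⟨h0, h1, p, hp, h2, h3⟩ := h
    rcases List.mem_cons.mp hw with hw | hw
    · rw [hw] at hij
      rw [mem_idx]
      exact ⟨p, hp, Chn_row_head J w' ws _ _ h3 i j hij⟩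
    · exact idx_mono (Finset.erase_subset p P) (ih _ _ _ h3 w hw i j hij)

theorem Chn_rows {J : Finset (Fin d)} {P : Finset (Fin d × Fin d)} {X : Fin d → Prop}
    {u : Matrix (Fin d) (Fin d) ℝ} {ws : List (Matrix (Fin d) (Fin d) ℝ)}
    (h : Chn J P X (u :: ws)) {w : Matrix (Fin d) (Fin d) ℝ} (hw : w ∈ ws) {i j : Fin d}
    (hij : w i j ≠ 0) : i ∈ idx P :=
  Chn_rows_aux J ws P X u h w hw i j hij

theorem Chn_head {J : Finset (Fin d)} {P : Finset (Fin d × Fin d)} {X X' : Fin d → Prop}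
    {u u' : Matrix (Fin d) (Fin d) ℝ} {ws : List (Matrix (Fin d) (Fin d) ℝ)}
    (h : Chn J P X (u :: ws)) (h1 : u' ≠ 0)
    (h2 : ∀ i j, u' i j ≠ 0 → X' i ∧ ∃ i', u i' j ≠ 0)
    (h3 : ∀ w : Matrix (Fin d) (Fin d) ℝ, u * w = 0 → u' * w = 0) : Chn J P X' (u' :: ws) := by
  cases ws with
  | nil =>
    obtain ⟨h0, c, hc, h4⟩ := h
    refine ⟨h1, c, hc, fun i j hij => ⟨(h2 i j hij).1, ?_⟩⟩
    obtain ⟨i', hi'⟩ := (h2 i j hij).2
    exact (h4 i' j hi').2
  | cons w' ws =>
    obtain ⟨h0, h4, p, hp, h5, h6⟩ := h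
    refine ⟨h1, h3 w' h4, p, hp, fun i j hij => ⟨(h2 i j hij).1, ?_⟩, h6⟩
    obtain ⟨i', hi'⟩ := (h2 i j hij).2
    exact (h5 i' j hi').2

end Pool.Agent.H46.MM
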