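import Pool.Agent.H46.MM.Defs

/-!
# [H46 MM LIM] Degeneration (60 min)

`degen`.  Compare `isolate` in `H66/RL/Isl.lean` (the same proof for one matrix).  Let `μ` be the mean of `α`,
`a n i = exp (n (α i - μ)) ∈ S`.  `diagonal (a n) * (1 + w) = (1 + V n w) * diagonal (a n)` with
`V n w i j = a n i / a n j * w i j = exp (n (α i - α j)) w i j`, which tends to `part α w` because `w i j ≠ 0 → α i ≤ α j`.
`subseq` for `diagonal (a n) * z ∈ Z` (`z ∈ Zs Z ws ⊆ Z`, use the empty sublist) gives `w₀ ∈ Z`, `φ` and units `U n` with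
`diagonal (a (φ n)) * z * im (U n) → w₀`.  A sublist of `ws.map (part α)` is `l.map (part α)` with `l` a sublist of
`ws` (`List.sublist_map_iff`).  For `l` a sublist of `ws`
`(∏_{w ∈ l} (1 + V (φ n) w)) (diagonal (a (φ n)) z im (U n)) = diagonal (a (φ n)) ((∏ (1 + w)) z) im (U n) ∈ Z`, and the left side
tends to `(∏_{w ∈ l} (1 + part α w)) w₀` (the product of the list by induction on `l`; state a lemma
`Tendsto (fun n => (l.map fun w => 1 + V n w).prod) atTop (𝓝 (l.map fun w => 1 + part α w).prod)`).  `Z` is closed.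

`exp_mem_G`: the product of the `exp (n (α i - μ))` is `exp (n (∑ α - d μ)) = exp 0 = 1` (`d ≠ 0`; for `d = 0` the
product is empty).
-/

set_option autoImplicit false

namespace Pool.Agent.H46.MM

open Matrix Filter Topology Pool.Agent.H89.CSD Pool.Agent.H46.RG

variable {d : ℕ}

theorem exp_mem_G {M : Finset (Fin d × Fin d)} {I : Finset (Fin d)} {α : Fin d → ℝ}
    (hM : ∀ p ∈ M, α p.1 = α p.2) (hI : ∀ i ∈ I, ∀ j ∈ I, α i = α j) (n : ℕ) :
    (fun i => Real.exp (n * (α i - (∑ k, α k) / d))) ∈ G M I := by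
  refine ⟨⟨fun i => Real.exp_pos _, ?_⟩, fun p hp => ?_, fun i hi j hj => ?_⟩
  · rw [← Real.exp_sum, ← Finset.mul_sum, Finset.sum_sub_distrib, Finset.sum_const,
      Finset.card_univ, Fintype.card_fin, nsmul_eq_mul]
    rcases Nat.eq_zero_or_pos d with h | h
    · subst h
      simp
    · have h1 : (d : ℝ) ≠ 0 := by exact_mod_cast h.ne'
      rw [mul_div_cancel₀ _ h1, sub_self, mul_zero, Real.exp_zero]
  · show Real.exp _ = Real.exp _
    rw [hM p hp]
  · show Real.exp _ = Real.exp _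
    rw [hI i hi j hj]

theorem degen {g : Matrix (Fin d) (Fin d) ℝ} (hg : g.det ≠ 0) {c : ℝ} (hc : 0 < c)
    (hp : Pos c g) {S : Set (Fin d → ℝ)} {Z : Set (Matrix (Fin d) (Fin d) ℝ)} (hZ : Z ⊆ Om g)
    (hinv : IsInv S Z) (α : Fin d → ℝ)
    (hS : ∀ n : ℕ, (fun i => Real.exp (n * (α i - (∑ k, α k) / d))) ∈ S)
    (ws : List (Matrix (Fin d) (Fin d) ℝ)) (hw : ∀ w ∈ ws, ∀ i j, w i j ≠ 0 → α i ≤ α j)
    (hne : (Zs Z ws).Nonempty) : (Zs Z (ws.map (part α))).Nonempty := by
  obtain ⟨z, hz⟩ := hne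
  classical
  obtain ⟨μ, hμ⟩ : ∃ μ, μ = (∑ j, α j) / d := ⟨_, rfl⟩
  rw [← hμ] at hS
  obtain ⟨a, ha⟩ : ∃ a : ℕ → Fin d → ℝ, a = fun (n : ℕ) i => Real.exp ((n : ℝ) * (α i - μ)) := ⟨_, rfl⟩
  have ha0 : ∀ n i, 0 < a n i := by
    intro n i
    rw [ha]
    exact Real.exp_pos _
  have haS : ∀ n, a n ∈ S := by
    intro n
    rw [ha]
    exact hS n
  obtain ⟨V, hV⟩ : ∃ V : ℕ → Matrix (Fin d) (Fin d) ℝ → Matrix (Fin d) (Fin d) ℝ,
      V = fun n w => Matrix.of fun p l => a n p / a n l * w p l := ⟨_, rfl⟩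
  have hcomm : ∀ n w, diagonal (a n) * (1 + w) = (1 + V n w) * diagonal (a n) := by
    intro n w
    rw [Matrix.mul_add, Matrix.add_mul, Matrix.mul_one, Matrix.one_mul]
    congr 1
    ext p l
    rw [Matrix.diagonal_mul, Matrix.mul_diagonal, hV]
    show a n p * w p l = a n p / a n l * w p l * a n l
    have := (ha0 n l).ne'
    field_simp
  have hprod : ∀ n (l : List (Matrix (Fin d) (Fin d) ℝ)),
      diagonal (a n) * (l.map fun w => 1 + w).prod =
        (l.map fun w => 1 + V n w).prod * diagonal (a n) := by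
    intro n l
    induction l with
    | nil => simp
    | cons w l ih =>
      rw [List.map_cons, List.prod_cons, List.map_cons, List.prod_cons, ← Matrix.mul_assoc, hcomm,
        Matrix.mul_assoc, ih, Matrix.mul_assoc]
  have hVt : ∀ w ∈ ws, Tendsto (fun n => V n w) atTop (𝓝 (part α w)) := by
    intro w hws
    refine tendsto_pi_nhds.2 fun p => tendsto_pi_nhds.2 fun l => ?_
    rw [hV]
    show Tendsto (fun n => a n p / a n l * w p l) atTop (𝓝 (if α p = α l then w p l else 0))
    have hq : ∀ n, a n p / a n l = Real.exp ((n : ℝ) * (α p - α l)) := by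
      intro n
      rw [ha]
      show Real.exp _ / Real.exp _ = _
      rw [← Real.exp_sub]
      congr 1
      ring
    simp only [hq]
    by_cases h0 : w p l = 0
    · rw [h0]
      simp only [mul_zero, ite_self]
      exact tendsto_const_nhds
    · rcases (hw w hws p l h0).lt_or_eq with h | h
      · rw [if_neg h.ne, ← zero_mul (w p l)]
        refine Tendsto.mul_const _ ?_
        refine Real.tendsto_exp_atBot.comp ?_
        refine (tendsto_natCast_atTop_atTop (R := ℝ)).atTop_mul_const_of_neg ?_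
        linarith
      · rw [if_pos h]
        simp only [h, sub_self, mul_zero, Real.exp_zero, one_mul]
        exact tendsto_const_nhds
  obtain ⟨w0, hw0, φ, U, hφ, hlim⟩ := subseq hg hc hp hZ hinv (fun n => diagonal (a n) * z)
    (fun n => hinv.diag _ (haS n) _ (by
      have := hz [] (List.nil_sublist _)
      simpa using this))
  refine ⟨w0, fun l' hl' => ?_⟩
  obtain ⟨l, hl, rfl⟩ := List.sublist_map_iff.1 hl'
  have h1 : Tendsto (fun n => (l.map fun w => 1 + V (φ n) w).prod *
      (diagonal (a (φ n)) * z * im (U n : Matrix (Fin d) (Fin d) ℤ))) atTop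
      (𝓝 (((l.map (part α)).map fun w => 1 + w).prod * w0)) := by
    refine Tendsto.mul ?_ hlim
    rw [List.map_map]
    refine tendsto_list_prod l fun w hwl => ?_
    exact tendsto_const_nhds.add ((hVt w (hl.subset hwl)).comp hφ.tendsto_atTop)
  refine hinv.closed.mem_of_tendsto h1 (Filter.Eventually.of_forall fun n => ?_)
  have h3 : (l.map fun w => 1 + V (φ n) w).prod *
      (diagonal (a (φ n)) * z * im (U n : Matrix (Fin d) (Fin d) ℤ)) =
      (diagonal (a (φ n)) * ((l.map fun w => 1 + w).prod * z)) *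
        im (U n : Matrix (Fin d) (Fin d) ℤ) := by
    rw [← Matrix.mul_assoc, ← Matrix.mul_assoc, ← hprod, Matrix.mul_assoc (diagonal (a (φ n)))]
  rw [h3]
  exact hinv.im (hinv.diag _ (haS _) _ (hz l hl)) (U n)

end Pool.Agent.H46.MM
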