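import Pool.Agent.H46.MM.Bas
import Pool.Agent.H46.MM.Lim

/-!
# [H46 MM GRO] A shear from a set to a block (45 min)

`Flow I ⊆ G M I` (`flow I t` is constant on `I` and constant outside `I`, and the pairs of `M` are outside `I`;
`flow_mem_A1`).  `block_shear` (H46/RG/Sth) gives `z ∈ Z`, `v ≠ 0`, `Blk I v`, `(1 + v) z ∈ Z`.  Take `v p l ≠ 0`, so
`p ∈ I`, `l ∉ I`.  If `l ∉ idx M` let `α = 0` on `I ∪ {l}` and `1` elsewhere: constant on the pairs of `M` (both
indices outside `I ∪ {l}`) and on `I`; `exp_mem_G`, `degen` with the list `[v]` (`α i = 0` for the rows `i ∈ I`) give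
`part α v`: its nonzero entries have the row in `I` and the column `j ∉ I` with `α j = 0`, so `j = l`; its entry at
`(p, l)` is `v p l ≠ 0`.  If `l ∈ idx M`, `l` is an index of a pair `q ∈ M`: `α = 0` on `I ∪ {q.1, q.2}` and `1`
elsewhere; it is constant on the pairs of `M` by `Dis M`.  The same conclusion with the columns `q.1, q.2`.
-/

set_option autoImplicit false

namespace Pool.Agent.H46.MM

open Matrix Filter Topology Pool.Agent.H89.CSD Pool.Agent.H46.RG

variable {d : ℕ}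

theorem mem_idx_left {M : Finset (Fin d × Fin d)} {p : Fin d × Fin d} (hp : p ∈ M) :
    p.1 ∈ idx M :=
  Finset.mem_union_left _ (Finset.mem_image_of_mem _ hp)

theorem mem_idx_right {M : Finset (Fin d × Fin d)} {p : Fin d × Fin d} (hp : p ∈ M) :
    p.2 ∈ idx M :=
  Finset.mem_union_right _ (Finset.mem_image_of_mem _ hp)

theorem Flow_subset_G {M : Finset (Fin d × Fin d)} {I : Finset (Fin d)}
    (hIM : Disjoint I (idx M)) : Pool.Agent.H46.RG.Flow I ⊆ G M I := by
  rintro _ ⟨t, rfl⟩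
  refine ⟨flow_mem_A1 I t, ?_, ?_⟩
  · intro p hp
    have h1 : p.1 ∉ I := fun h => Finset.disjoint_left.mp hIM h (mem_idx_left hp)
    have h2 : p.2 ∉ I := fun h => Finset.disjoint_left.mp hIM h (mem_idx_right hp)
    simp only [flow, h1, h2]
  · intro i hi j hj
    simp only [flow, hi, hj]

theorem grow_aux {g : Matrix (Fin d) (Fin d) ℝ} (hg : g.det ≠ 0) {c : ℝ} (hc : 0 < c)
    (hp : Pos c g) {M : Finset (Fin d × Fin d)} {I : Finset (Fin d)}
    {Z : Set (Matrix (Fin d) (Fin d) ℝ)} (hZ : Z ⊆ Om g) (hinv : IsInv (G M I) Z)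
    {z v : Matrix (Fin d) (Fin d) ℝ} (hz : z ∈ Z) (hb : Blk I v) (hvz : (1 + v) * z ∈ Z)
    {p l : Fin d} (hpl : v p l ≠ 0) (T : Finset (Fin d)) (hlT : l ∈ T)
    (hT : ∀ q ∈ M, (q.1 ∈ I ∨ q.1 ∈ T) ↔ (q.2 ∈ I ∨ q.2 ∈ T)) :
    ∃ w : Matrix (Fin d) (Fin d) ℝ, w ≠ 0 ∧ (∀ i j, w i j ≠ 0 → i ∈ I ∧ j ∈ T) ∧
      (Zs Z [w]).Nonempty := by
  classical
  set α : Fin d → ℝ := fun i => if i ∈ I ∨ i ∈ T then 0 else 1 with hα
  have hα0 : ∀ i, 0 ≤ α i := by
    intro i
    simp only [hα]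
    split_ifs
    · exact le_refl _
    · exact zero_le_one
  have hαI : ∀ i ∈ I, α i = 0 := by
    intro i hi
    simp only [hα]
    rw [if_pos (Or.inl hi)]
  have hαM : ∀ q ∈ M, α q.1 = α q.2 := by
    intro q hq
    simp only [hα]
    rw [if_congr (hT q hq) rfl rfl]
  have h := degen hg hc hp hZ hinv α
    (fun n => exp_mem_G hαM (fun i hi j hj => by rw [hαI i hi, hαI j hj]) n) [v]
    (by
      intro w hw i j hij
      rw [List.mem_singleton] at hw
      subst hw
      rw [hαI i (hb i j hij).1]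
      exact hα0 j)
    ⟨z, mem_Zs_one.mpr ⟨hz, hvz⟩⟩
  refine ⟨part α v, ?_, ?_, h⟩
  · intro h0
    apply hpl
    have h1 : part α v p l = 0 := by rw [h0, Matrix.zero_apply]
    rw [part, Matrix.of_apply, if_pos] at h1
    · exact h1
    · rw [hαI p (hb p l hpl).1]
      simp only [hα]
      rw [if_pos (Or.inr hlT)]
  · intro i j hij
    rw [part, Matrix.of_apply] at hij
    by_cases he : α i = α j
    · rw [if_pos he] at hij
      obtain ⟨hi, hj⟩ := hb i j hij
      refine ⟨hi, ?_⟩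
      by_contra hjT
      rw [hαI i hi] at he
      simp only [hα] at he
      rw [if_neg (by
        rintro (h2 | h2)
        · exact hj h2
        · exact hjT h2)] at he
      exact zero_ne_one he
    · rw [if_neg he] at hij
      exact absurd rfl hij

theorem grow (hd : 3 ≤ d) {g : Matrix (Fin d) (Fin d) ℝ} (hg : g.det ≠ 0) {c : ℝ} (hc : 0 < c)
    (hp : Pos c g) (hn : ¬ IntForm g) {M : Finset (Fin d × Fin d)} (hM : Dis M)
    {I : Finset (Fin d)} (hI : I.card.Coprime d) (hIM : Disjoint I (idx M))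
    {Z : Set (Matrix (Fin d) (Fin d) ℝ)} (hZ : Z ⊆ Om g) (hinv : IsInv (G M I) Z) :
    (∃ k, k ∉ I ∧ k ∉ idx M ∧ ∃ w : Matrix (Fin d) (Fin d) ℝ, w ≠ 0 ∧
      (∀ i j, w i j ≠ 0 → i ∈ I ∧ j = k) ∧ (Zs Z [w]).Nonempty) ∨
    ∃ p ∈ M, ∃ w : Matrix (Fin d) (Fin d) ℝ, w ≠ 0 ∧
      (∀ i j, w i j ≠ 0 → i ∈ I ∧ (j = p.1 ∨ j = p.2)) ∧ (Zs Z [w]).Nonempty := by
  classical
  obtain ⟨z, hz, v, hv, hb, hvz⟩ := block_shear hd hg hc hp hn I hI hZ
    (hinv.mono (Flow_subset_G hIM))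
  obtain ⟨p, l, hpl⟩ : ∃ p l, v p l ≠ 0 := by
    by_contra hcon
    push Not at hcon
    apply hv
    ext i j
    rw [hcon i j, Matrix.zero_apply]
  have hl : l ∉ I := (hb p l hpl).2
  by_cases hlM : l ∈ idx M
  · right
    obtain ⟨q, hq, hlq⟩ : ∃ q ∈ M, l = q.1 ∨ l = q.2 := by
      rcases Finset.mem_union.mp hlM with h | h
      · obtain ⟨q, hq, hq1⟩ := Finset.mem_image.mp h
        exact ⟨q, hq, Or.inl hq1.symm⟩
      · obtain ⟨q, hq, hq1⟩ := Finset.mem_image.mp h
        exact ⟨q, hq, Or.inr hq1.symm⟩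
    obtain ⟨w, hw0, hw, hne⟩ := grow_aux hg hc hp hZ hinv hz hb hvz hpl {q.1, q.2}
      (by
        rw [Finset.mem_insert, Finset.mem_singleton]
        exact hlq)
      (by
        intro r hr
        have h1 : r.1 ∉ I := fun h => Finset.disjoint_left.mp hIM h (mem_idx_left hr)
        have h2 : r.2 ∉ I := fun h => Finset.disjoint_left.mp hIM h (mem_idx_right hr)
        by_cases hrq : r = q
        · subst hrq
          simp
        · obtain ⟨ha, hb', hc', hd'⟩ := hM.2 r hr q hq hrq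
          simp [h1, h2, ha, hb', hc', hd'])
    refine ⟨q, hq, w, hw0, ?_, hne⟩
    intro i j hij
    obtain ⟨h1, h2⟩ := hw i j hij
    rw [Finset.mem_insert, Finset.mem_singleton] at h2
    exact ⟨h1, h2⟩
  · left
    obtain ⟨w, hw0, hw, hne⟩ := grow_aux hg hc hp hZ hinv hz hb hvz hpl {l}
      (Finset.mem_singleton_self l)
      (by
        intro r hr
        have h1 : r.1 ∉ I := fun h => Finset.disjoint_left.mp hIM h (mem_idx_left hr)
        have h2 : r.2 ∉ I := fun h => Finset.disjoint_left.mp hIM h (mem_idx_right hr)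
        have h3 : r.1 ≠ l := fun h => hlM (h ▸ mem_idx_left hr)
        have h4 : r.2 ≠ l := fun h => hlM (h ▸ mem_idx_right hr)
        simp [h1, h2, h3, h4])
    refine ⟨l, hl, hlM, w, hw0, ?_, hne⟩
    intro i j hij
    obtain ⟨h1, h2⟩ := hw i j hij
    exact ⟨h1, Finset.mem_singleton.mp h2⟩

end Pool.Agent.H46.MM
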