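import Pool.Agent.H46.MM.Poin
import Pool.Agent.H46.MM.Cut
import Pool.Agent.H46.MM.Basic

/-!
If `u k < 1 - δ` on the surface of a cube of radius `s k` around `w` then `u k` is asymptotically `≤ 1 - δ/2` inside. `N x = dist x.ofLp w.ofLp`
(sup norm, continuous), `θ` from `exists_cut (δ/2)`, `φ s = s - θ s`: smooth, `φ s = 0` for `s ≤ -δ/2`, `φ s ≥ s`, `φ s ≥ 0`, `0 ≤ φ' ≤ 1`.
`Λ k x = φ (u k x - (1 - δ/2))` if `N x < s k`, else `0`: smooth (near a point with `N x = s k` both formulas vanish, as `u k < 1 - δ` there),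
zero for large `x`, zero where `u k x = 0`; `u k - Λ k` is admissible for `(D, K')` (`Λ k = 0` on `K'`). Pointwise
`‖∇ (u - Λ)‖^(m+1) + ‖∇ Λ‖^(m+1) ≤ ‖∇ u‖^(m+1)` (`(1-a)^n + a^n ≤ 1`), so `energy (Λ k) ≤ energy (u k) - cap D K' → 0`; `poincare`:
`∫ |Λ k| → 0`, and `max (u k x - (1 - δ/2)) 0 ≤ Λ k x` on `ball w r1` (there `N x ≤ dist x w < r1 < s k`). See the proof of `low_step` in Chain.lean for
the last part.
-/

set_option autoImplicit false

namespace Pool.Agent.H46.MM

open MeasureTheory Filter Topology Set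

/-- the truncation of one function -/
private theorem cut_one {m : ℕ} (D K' : Set (E m)) (u : E m → ℝ) (hu : Adm D K' u) (w : E m)
    (r2 δ s : ℝ) (hδ : 0 < δ) (hδ1 : δ ≤ 1) (h2 : s < r2)
    (hK : ∀ x ∈ K', r2 ≤ dist x.ofLp w.ofLp)
    (hs : ∀ x : E m, dist x.ofLp w.ofLp = s → u x < 1 - δ) :
    ∃ Λ : E m → ℝ, ContDiff ℝ (⊤ : ℕ∞) Λ ∧ (∀ x : E m, r2 ≤ dist x.ofLp w.ofLp → Λ x = 0) ∧
      energy Λ ≤ energy u - cap D K' ∧ (∀ x, 0 ≤ Λ x) ∧
      ∀ x : E m, dist x.ofLp w.ofLp < s → u x - (1 - δ / 2) ≤ Λ x := by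
  classical
  obtain ⟨θ, hθ, t1, t2, t3, t4, t5, t6⟩ := exists_cut (δ / 2) (by linarith)
  have hN : Continuous fun x : E m => dist x.ofLp w.ofLp :=
    (PiLp.continuous_ofLp 2 (fun _ : Fin (m + 1) => ℝ)).dist continuous_const
  have hud : ∀ x, DifferentiableAt ℝ u x := fun x =>
    (hu.smooth.differentiable (by simp)).differentiableAt
  obtain ⟨c, hc⟩ : ∃ c : ℝ, c = 1 - δ / 2 := ⟨_, rfl⟩
  obtain ⟨g, hg⟩ : ∃ g : E m → ℝ, g = fun x => (u x - c) - θ (u x - c) := ⟨_, rfl⟩
  have hgs : ContDiff ℝ (⊤ : ℕ∞) g := by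
    rw [hg]
    exact (hu.smooth.sub contDiff_const).sub (hθ.comp (hu.smooth.sub contDiff_const))
  have hgz : ∀ x, u x ≤ 1 - δ → g x = 0 := by
    intro x hx
    rw [hg]
    show (u x - c) - θ (u x - c) = 0
    rw [t1 _ (by rw [hc]; linarith), sub_self]
  obtain ⟨Λ, hΛ⟩ : ∃ Λ : E m → ℝ, Λ = fun x => if dist x.ofLp w.ofLp < s then g x else 0 :=
    ⟨_, rfl⟩
  have hΛ1 : ∀ x : E m, dist x.ofLp w.ofLp < s → Λ x = g x := by
    intro x hx
    rw [hΛ]
    exact if_pos hx
  have hΛ2 : ∀ x : E m, ¬ dist x.ofLp w.ofLp < s → Λ x = 0 := by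
    intro x hx
    rw [hΛ]
    exact if_neg hx
  have hloc : ∀ x, Λ =ᶠ[𝓝 x] g ∨ Λ =ᶠ[𝓝 x] fun _ => 0 := by
    intro x
    rcases lt_trichotomy (dist x.ofLp w.ofLp) s with h | h | h
    · left
      filter_upwards [hN.continuousAt.eventually_lt continuousAt_const h] with y hy
      exact hΛ1 y hy
    · right
      filter_upwards [hu.smooth.continuous.continuousAt.eventually_lt continuousAt_const (hs x h)]
        with y hy
      by_cases h3 : dist y.ofLp w.ofLp < s
      · rw [hΛ1 y h3]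
        exact hgz y hy.le
      · exact hΛ2 y h3
    · right
      filter_upwards [continuousAt_const.eventually_lt hN.continuousAt h] with y hy
      exact hΛ2 y (not_lt.2 (le_of_lt hy))
  have hΛs : ContDiff ℝ (⊤ : ℕ∞) Λ := by
    rw [contDiff_iff_contDiffAt]
    intro x
    rcases hloc x with h | h
    · exact hgs.contDiffAt.congr_of_eventuallyEq h
    · exact contDiffAt_const.congr_of_eventuallyEq h
  have hder : ∀ x, ∃ a : ℝ, 0 ≤ a ∧ a ≤ 1 ∧ HasFDerivAt Λ (a • fderiv ℝ u x) x := by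
    intro x
    rcases hloc x with h | h
    · refine ⟨1 - deriv θ (u x - c), by linarith [t6 (u x - c)], by linarith [t5 (u x - c)], ?_⟩
      have e1 : HasFDerivAt (fun y => u y - c) (fderiv ℝ u x) x := (hud x).hasFDerivAt.sub_const c
      have hθd : DifferentiableAt ℝ θ (u x - c) := (hθ.differentiable (by simp)).differentiableAt
      have e2 : HasDerivAt (fun s => s - θ s) (1 - deriv θ (u x - c)) (u x - c) :=
        (hasDerivAt_id _).sub hθd.hasDerivAt
      have e3 : HasFDerivAt ((fun s => s - θ s) ∘ fun y => u y - c)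
          ((1 - deriv θ (u x - c)) • fderiv ℝ u x) x :=
        HasDerivAt.comp_hasFDerivAt x e2 e1
      refine HasFDerivAt.congr_of_eventuallyEq e3 ?_
      filter_upwards [h] with y hy
      rw [hy, hg]
      rfl
    · refine ⟨0, le_rfl, zero_le_one, ?_⟩
      rw [zero_smul]
      exact (hasFDerivAt_const (0 : ℝ) x).congr_of_eventuallyEq h
  have hΛ0 : ∀ x, 0 ≤ Λ x := by
    intro x
    by_cases h : dist x.ofLp w.ofLp < s
    · rw [hΛ1 x h, hg]
      exact sub_nonneg.2 (t4 _)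
    · rw [hΛ2 x h]
  have hΛu : ∀ x, u x = 0 → Λ x = 0 := by
    intro x hx
    by_cases h : dist x.ofLp w.ofLp < s
    · rw [hΛ1 x h]
      exact hgz x (by rw [hx]; linarith)
    · exact hΛ2 x h
  have hΛc : HasCompactSupport Λ := by
    refine hu.comp.mono fun x hx => ?_
    rw [Function.mem_support] at hx ⊢
    exact fun h => hx (hΛu x h)
  have hsub : Function.support (fun x => u x - Λ x) ⊆ Function.support u := fun x hx => by
    rw [Function.mem_support] at hx ⊢
    intro h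
    apply hx
    rw [h, hΛu x h, sub_zero]
  have hadm : Adm D K' fun x => u x - Λ x := by
    refine ⟨hu.smooth.sub hΛs, hu.comp.mono hsub, (closure_mono hsub).trans hu.sub, fun x hx => ?_⟩
    have h3 := hK x hx
    rw [hΛ2 x (not_lt.2 (by linarith)), sub_zero]
    exact hu.one x hx
  have hen : energy (fun x => u x - Λ x) + energy Λ ≤ energy u := by
    unfold energy
    rw [← integral_add (integ _ hadm.smooth hadm.comp) (integ _ hΛs hΛc)]
    refine integral_mono ((integ _ hadm.smooth hadm.comp).add (integ _ hΛs hΛc))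
      (integ _ hu.smooth hu.comp) fun x => ?_
    obtain ⟨a, ha0, ha1, ha⟩ := hder x
    show ‖gradient (fun x => u x - Λ x) x‖ ^ (m + 1) + ‖gradient Λ x‖ ^ (m + 1) ≤
      ‖gradient u x‖ ^ (m + 1)
    rw [norm_grad, norm_grad, norm_grad, ha.fderiv]
    have e1 : HasFDerivAt (fun x => u x - Λ x) (fderiv ℝ u x - a • fderiv ℝ u x) x :=
      (hud x).hasFDerivAt.sub ha
    have e2 : fderiv ℝ u x - a • fderiv ℝ u x = (1 - a) • fderiv ℝ u x := by
      rw [sub_smul, one_smul]
    rw [e1.fderiv, e2, norm_smul, norm_smul, mul_pow, mul_pow, Real.norm_eq_abs,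
      Real.norm_eq_abs, abs_of_nonneg ha0, abs_of_nonneg (by linarith : 0 ≤ 1 - a), ← add_mul]
    have e3 : (1 - a) ^ (m + 1) ≤ 1 - a := by
      calc (1 - a) ^ (m + 1) ≤ (1 - a) ^ 1 :=
            pow_le_pow_of_le_one (by linarith) (by linarith) (by omega)
        _ = 1 - a := pow_one _
    have e4 : a ^ (m + 1) ≤ a := by
      calc a ^ (m + 1) ≤ a ^ 1 := pow_le_pow_of_le_one ha0 ha1 (by omega)
        _ = a := pow_one _
    calc ((1 - a) ^ (m + 1) + a ^ (m + 1)) * ‖fderiv ℝ u x‖ ^ (m + 1)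
        ≤ 1 * ‖fderiv ℝ u x‖ ^ (m + 1) :=
          mul_le_mul_of_nonneg_right (by linarith) (by positivity)
      _ = ‖fderiv ℝ u x‖ ^ (m + 1) := one_mul _
  refine ⟨Λ, hΛs, fun x hx => hΛ2 x (not_lt.2 (by linarith)), ?_, hΛ0, ?_⟩
  · have h3 := cap_le D K' _ hadm
    linarith
  · intro x hx
    rw [hΛ1 x hx, hg, ← hc]
    have h3 := t3 (u x - c)
    show u x - c ≤ (u x - c) - θ (u x - c)
    linarith

theorem cut_in {m : ℕ} (hm : 1 ≤ m) (D K' K : Set (E m)) (u : ℕ → E m → ℝ) (hu : MinSeq D K' K u) (w : E m)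
    (r1 r2 δ : ℝ) (h1 : 0 < r1) (h2 : r1 < r2) (hδ : 0 < δ) (hδ1 : δ ≤ 1)
    (hK : ∀ x ∈ K', r2 ≤ dist x.ofLp w.ofLp) (s : ℕ → ℝ)
    (hs : ∀ᶠ k in atTop, r1 < s k ∧ s k < r2 ∧ ∀ x : E m, dist x.ofLp w.ofLp = s k → u k x < 1 - δ) :
    Low u (Metric.ball w r1) (δ / 2) := by
  -- the two norms
  have hlip : ∀ x : E m, dist x.ofLp w.ofLp ≤ dist x w := by
    intro x
    have h := (PiLp.lipschitzWith_ofLp 2 (fun _ : Fin (m + 1) => ℝ)).dist_le_mul x w
    simpa using h
  obtain ⟨A, hA⟩ : ∃ A : NNReal, ∀ x : E m, dist x w ≤ A * dist x.ofLp w.ofLp :=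
    ⟨_, fun x => (PiLp.antilipschitzWith_ofLp 2 (fun _ : Fin (m + 1) => ℝ)).le_mul_dist x w⟩
  have hr2 : 0 < r2 := h1.trans h2
  obtain ⟨C, hC, hP⟩ := poincare m hm w (A * r2 + 1) (by positivity)
  have hR : ∀ x : E m, A * r2 + 1 ≤ dist x w → r2 ≤ dist x.ofLp w.ofLp := by
    intro x hx
    by_contra h
    rw [not_le] at h
    have h3 := hA x
    have h4 : (A : ℝ) * dist x.ofLp w.ofLp ≤ A * r2 := mul_le_mul_of_nonneg_left h.le A.2
    linarith
  have hnn : ∀ k, 0 ≤ ∫ x in Metric.ball w r1, max (u k x - (1 - δ / 2)) 0 := fun k =>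
    integral_nonneg fun x => le_max_right _ _
  have hev : ∀ᶠ k in atTop, (∫ x in Metric.ball w r1, max (u k x - (1 - δ / 2)) 0) ^ (m + 1) ≤
      C * (energy (u k) - cap D K') := by
    filter_upwards [hs] with k hk
    obtain ⟨hk1, hk2, hk3⟩ := hk
    obtain ⟨Λ, l1, l2, l3, l4, l5⟩ := cut_one D K' (u k) (hu.adm' k) w r2 δ (s k) hδ hδ1 hk2 hK hk3
    have lz : ∀ x, A * r2 + 1 ≤ dist x w → Λ x = 0 := fun x hx => l2 x (hR x hx)
    have lint : Integrable fun x => |Λ x| := by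
      have hcs : HasCompactSupport Λ := by
        refine HasCompactSupport.of_support_subset_isCompact
          (isCompact_closedBall w (A * r2 + 1)) ?_
        intro x hx
        by_contra h3
        rw [Metric.mem_closedBall, not_le] at h3
        exact hx (lz x h3.le)
      exact (l1.continuous.integrable_of_hasCompactSupport hcs).abs
    have e1 : ∫ x in Metric.ball w r1, max (u k x - (1 - δ / 2)) 0 ≤ ∫ x, |Λ x| := by
      calc ∫ x in Metric.ball w r1, max (u k x - (1 - δ / 2)) 0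
          ≤ ∫ x in Metric.ball w r1, |Λ x| := by
            refine integral_mono_of_nonneg (Eventually.of_forall fun x => le_max_right _ _)
              lint.integrableOn ?_
            refine (ae_restrict_iff' Metric.isOpen_ball.measurableSet).2
              (Eventually.of_forall fun x hx => ?_)
            rw [Metric.mem_ball] at hx
            have h3 := l5 x (by linarith [hlip x])
            have h4 := l4 x
            simp only [abs_of_nonneg h4]
            exact max_le h3 h4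
        _ ≤ ∫ x, |Λ x| := setIntegral_le_integral lint (Eventually.of_forall fun x => abs_nonneg _)
    calc (∫ x in Metric.ball w r1, max (u k x - (1 - δ / 2)) 0) ^ (m + 1)
        ≤ (∫ x, |Λ x|) ^ (m + 1) := pow_le_pow_left₀ (hnn k) e1 _
      _ ≤ C * energy Λ := hP Λ l1 lz
      _ ≤ C * (energy (u k) - cap D K') := mul_le_mul_of_nonneg_left l3 hC
  have hpow : Tendsto (fun k => (∫ x in Metric.ball w r1, max (u k x - (1 - δ / 2)) 0) ^ (m + 1))
      atTop (𝓝 0) := by
    refine squeeze_zero' (Eventually.of_forall fun k => pow_nonneg (hnn k) _) hev ?_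
    have h3 := (hu.lim.sub_const (cap D K')).const_mul C
    simpa using h3
  unfold Low
  rw [Metric.tendsto_atTop] at hpow ⊢
  intro ε hε
  obtain ⟨N, hN⟩ := hpow (ε ^ (m + 1)) (by positivity)
  refine ⟨N, fun k hk => ?_⟩
  have h3 := hN k hk
  rw [Real.dist_eq, sub_zero, abs_of_nonneg (pow_nonneg (hnn k) _)] at h3
  rw [Real.dist_eq, sub_zero, abs_of_nonneg (hnn k)]
  exact lt_of_pow_lt_pow_left₀ (m + 1) hε.le h3

end Pool.Agent.H46.MM
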