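import Mathlib

/-!
# Conformal capacity and the modulus metric: definitions

`E m` is Euclidean space of dimension `m + 1`.
-/

set_option autoImplicit false

namespace Pool.Agent.H46.MM

open MeasureTheory Filter Topology Set

/-- Euclidean space of dimension `m + 1` -/
abbrev E (m : ℕ) := EuclideanSpace ℝ (Fin (m + 1))

/-- the conformal energy `∫ |∇ u| ^ n`, `n = m + 1` -/
noncomputable def energy {m : ℕ} (u : E m → ℝ) : ℝ := ∫ x, ‖gradient u x‖ ^ (m + 1)

/-- `u` is a smooth function with compact support in `D` and `u ≥ 1` on `K` -/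
structure Adm {m : ℕ} (D K : Set (E m)) (u : E m → ℝ) : Prop where
  smooth : ContDiff ℝ (⊤ : ℕ∞) u
  comp : HasCompactSupport u
  sub : tsupport u ⊆ D
  one : ∀ x ∈ K, 1 ≤ u x

/-- the conformal capacity of the condenser `(D, K)` -/
noncomputable def cap {m : ℕ} (D K : Set (E m)) : ℝ := sInf {e | ∃ u, Adm D K u ∧ e = energy u}

/-- `C` is a continuum in `D` with `x, y ∈ C` (for `x ≠ y` it has more than one point) -/
structure Cont {m : ℕ} (D : Set (E m)) (x y : E m) (C : Set (E m)) : Prop where
  compact : IsCompact C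
  conn : IsConnected C
  sub : C ⊆ D
  memx : x ∈ C
  memy : y ∈ C

/-- the modulus metric for `x ≠ y` -/
noncomputable def modMetric {m : ℕ} (D : Set (E m)) (x y : E m) : ℝ :=
  sInf {c | ∃ C, Cont D x y C ∧ c = cap D C}

/-- `C` is a minimizer with endpoints `x, y` -/
structure IsMin {m : ℕ} (D : Set (E m)) (x y : E m) (C : Set (E m)) : Prop where
  cont : Cont D x y C
  eq : cap D C = modMetric D x y

/-- asymptotically `u k ≤ 1 - δ` on `B` -/
def Low {m : ℕ} (u : ℕ → E m → ℝ) (B : Set (E m)) (δ : ℝ) : Prop :=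
  Tendsto (fun k => ∫ x in B, max (u k x - (1 - δ)) 0) atTop (𝓝 0)

/-- a minimizing sequence for `(D, K')` of admissible functions for the larger set `K` -/
structure MinSeq {m : ℕ} (D K' K : Set (E m)) (u : ℕ → E m → ℝ) : Prop where
  adm : ∀ k, Adm D K (u k)
  adm' : ∀ k, Adm D K' (u k)
  le : ∀ k x, u k x ≤ 1 + 1 / (k + 1)
  lim : Tendsto (fun k => energy (u k)) atTop (𝓝 (cap D K'))

end Pool.Agent.H46.MM
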