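import Pool.Agent.H46.RG.Comp
import Pool.Agent.H46.RG.Sth

/-!
# All roots and matchings (MP_edeaa2_an): definitions

`Y` is a closed set of lattices (matrices), invariant under `GL_d(ℤ)` on the right and under the
positive diagonal matrices of determinant one.  `Zs Z ws` is the set of the `z` such that for all
`e_i ∈ {0, 1}` the product `(1 + w_1)^(e_1) ⋯ (1 + w_q)^(e_q) z` is in `Z` (`ws = [w_1, …, w_q]`; the last factor acts
first).  `Zm Y M s` (`M` a finite set of pairs of indices) is the set of the `z` such that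
`(1 + ∑_{p ∈ Q} s p E_p) z ∈ Y` for all `Q ⊆ M`.

Two theorems, for a form `F` with positive minimum which is not proportional to an integral form, `Y` in
the closed orbit of `F`:
* `all_roots` (`d` prime): for all `k ≠ l` there is `z ∈ Y` with `(1 + E_kl) z ∈ Y`;
* `matching`: if `2 m ≤ d` and all odd numbers `n < 2 m` are prime to `d` (`d` prime: `m = (d - 1) / 2`; `d` a
  power of two: `m = d / 2`) there are `m` disjoint pairs `M` and `z` with `(1 + ∑_{p ∈ Q} E_p) z ∈ Y` for all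
  `Q ⊆ M`.

A chain `Chn J P X ws` (`J` a set of indices, `P` a finite set of pairs, the matched pairs which the chain
may use, `X` a set of indices): `ws = [w_1, …, w_q]`, all `w_i ≠ 0`, consecutive products `w_i w_(i+1)` vanish,
`w_1` has its nonzero entries in the rows `X`, `w_i` in the columns of a pair `p_i ∈ P`, `w_(i+1)` in the rows of
`p_i`, and `w_q` in one column `c ∉ J`.
-/

set_option autoImplicit false

namespace Pool.Agent.H46.MM

open Matrix Filter Topology Pool.Agent.H89.CSD Pool.Agent.H46.RG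

variable {d : ℕ}

/-- All products `(1 + w_1)^(e_1) ⋯ (1 + w_q)^(e_q) z` are in `Z`. -/
def Zs (Z : Set (Matrix (Fin d) (Fin d) ℝ)) (ws : List (Matrix (Fin d) (Fin d) ℝ)) :
    Set (Matrix (Fin d) (Fin d) ℝ) :=
  {z | ∀ l : List (Matrix (Fin d) (Fin d) ℝ), l.Sublist ws → (l.map fun w => 1 + w).prod * z ∈ Z}

/-- The positive diagonal matrices of determinant one which are constant on the pairs in `M` and on the
set `I`. -/
def G (M : Finset (Fin d × Fin d)) (I : Finset (Fin d)) : Set (Fin d → ℝ) :=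
  {a | a ∈ A1 d ∧ (∀ p ∈ M, a p.1 = a p.2) ∧ ∀ i ∈ I, ∀ j ∈ I, a i = a j}

/-- `1 + ∑_{p ∈ Q} s p E_p`. -/
def sh (Q : Finset (Fin d × Fin d)) (s : Fin d × Fin d → ℝ) : Matrix (Fin d) (Fin d) ℝ :=
  1 + ∑ p ∈ Q, Matrix.single p.1 p.2 (s p)

/-- All `(1 + ∑_{p ∈ Q} s p E_p) z`, `Q ⊆ M`, are in `Y`. -/
def Zm (Y : Set (Matrix (Fin d) (Fin d) ℝ)) (M : Finset (Fin d × Fin d)) (s : Fin d × Fin d → ℝ) :
    Set (Matrix (Fin d) (Fin d) ℝ) :=
  {z | ∀ Q ⊆ M, sh Q s * z ∈ Y}

/-- The indices of the pairs in `M`. -/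
def idx (M : Finset (Fin d × Fin d)) : Finset (Fin d) := M.image Prod.fst ∪ M.image Prod.snd

/-- The pairs in `M` consist of different indices and are disjoint. -/
def Dis (M : Finset (Fin d × Fin d)) : Prop :=
  (∀ p ∈ M, p.1 ≠ p.2) ∧ ∀ p ∈ M, ∀ q ∈ M, p ≠ q → p.1 ≠ q.1 ∧ p.1 ≠ q.2 ∧ p.2 ≠ q.1 ∧ p.2 ≠ q.2

/-- The part of `v` in the places `(i, j)` with `α i = α j`. -/
noncomputable def part (α : Fin d → ℝ) (v : Matrix (Fin d) (Fin d) ℝ) : Matrix (Fin d) (Fin d) ℝ :=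
  Matrix.of fun i j => if α i = α j then v i j else 0

/-- Chains. -/
def Chn (J : Finset (Fin d)) : Finset (Fin d × Fin d) → (Fin d → Prop) →
    List (Matrix (Fin d) (Fin d) ℝ) → Prop
  | _, _, [] => False
  | _, X, [w] => w ≠ 0 ∧ ∃ c, c ∉ J ∧ ∀ i j, w i j ≠ 0 → X i ∧ j = c
  | P, X, w :: w' :: ws => w ≠ 0 ∧ w * w' = 0 ∧ ∃ p ∈ P,
      (∀ i j, w i j ≠ 0 → X i ∧ (j = p.1 ∨ j = p.2)) ∧
      Chn J (P.erase p) (fun i => i = p.1 ∨ i = p.2) (w' :: ws)

end Pool.Agent.H46.MM
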