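import Pool.Agent.H46.MM.Basic

/-!
Filling the holes of a compact set: definition.
-/

set_option autoImplicit false

namespace Pool.Agent.H46.MM

/-- `C` together with the components of its complement that are contained in `D` -/
def fill {m : ℕ} (D C : Set (E m)) : Set (E m) := C ∪ {z | z ∉ C ∧ connectedComponentIn Cᶜ z ⊆ D}

end Pool.Agent.H46.MM
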