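import Pool.Agent.H46.MM.NullCut

/-!
Removable points do not change the capacity. `u` admissible for `(hull D, C)`, `|u| ≤ B` (compact support); `A = tsupport u \ D` compact, `⊆ hull D`;
`χ` from `null_cut` with `O = Cᶜ`; `v = (1 - χ) u` is admissible for `(D, C)` (`tsupport v ⊆ D`: `v = 0` near `A`; `v = u` on `C`).
`‖a + b‖^n ≤ (1 - λ)^(-m) ‖a‖^n + λ^(-m) ‖b‖^n` (`0 < λ < 1`, convexity) gives `energy v ≤ (1 - λ)^(-m) energy u + λ^(-m) B^n energy χ`; first
`energy χ → 0`, then `λ → 0`. (`le_csInf`; nonempty by `exists_adm` for `D`, or `sub_hull`-free: `Adm D C u → Adm (hull D) C u` is not needed.)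
The set of admissible functions for `(hull D, C)` is nonempty: take one from `exists_adm D C` and `D ⊆ hull D` (hypothesis `hDH`).
-/

set_option autoImplicit false

namespace Pool.Agent.H46.MM

open MeasureTheory Filter Topology

private theorem hcp_conv (m : ℕ) (a b l : ℝ) (ha : 0 ≤ a) (hb : 0 ≤ b) (h0 : 0 < l) (h1 : l < 1) :
    (a + b) ^ (m + 1) ≤ ((1 - l) ^ m)⁻¹ * a ^ (m + 1) + (l ^ m)⁻¹ * b ^ (m + 1) := by
  have h2 : 0 < 1 - l := by linarith
  have hc := (convexOn_pow (𝕜 := ℝ) (m + 1)).2 (x := a / (1 - l)) (y := b / l)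
    (Set.mem_Ici.2 (by positivity)) (Set.mem_Ici.2 (by positivity)) h2.le h0.le (by ring)
  simp only [smul_eq_mul] at hc
  have e1 : (1 - l) * (a / (1 - l)) + l * (b / l) = a + b := by
    field_simp
  rw [e1] at hc
  refine hc.trans (le_of_eq ?_)
  rw [div_pow, div_pow]
  field_simp
  ring

private theorem hcp_grad {m : ℕ} (u χ : E m → ℝ) (x : E m) (hu : DifferentiableAt ℝ u x)
    (hχ : DifferentiableAt ℝ χ x) (h0 : 0 ≤ χ x) (h1 : χ x ≤ 1) (B : ℝ) (hB : |u x| ≤ B) :
    ‖gradient (fun y => (1 - χ y) * u y) x‖ ≤ ‖gradient u x‖ + B * ‖gradient χ x‖ := by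
  rw [norm_grad, norm_grad, norm_grad]
  have hd : DifferentiableAt ℝ (fun y => 1 - χ y) x := (differentiableAt_const _).sub hχ
  have e1 : fderiv ℝ (fun y => (1 - χ y) * u y) x =
      (1 - χ x) • fderiv ℝ u x + u x • fderiv ℝ (fun y => 1 - χ y) x := fderiv_fun_mul hd hu
  have e2 : fderiv ℝ (fun y => 1 - χ y) x = - fderiv ℝ χ x := by
    rw [fderiv_const_sub]
  rw [e1, e2]
  calc ‖(1 - χ x) • fderiv ℝ u x + u x • -fderiv ℝ χ x‖
      ≤ ‖(1 - χ x) • fderiv ℝ u x‖ + ‖u x • -fderiv ℝ χ x‖ := norm_add_le _ _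
    _ = |1 - χ x| * ‖fderiv ℝ u x‖ + |u x| * ‖fderiv ℝ χ x‖ := by
        rw [norm_smul, norm_smul, norm_neg, Real.norm_eq_abs, Real.norm_eq_abs]
    _ ≤ 1 * ‖fderiv ℝ u x‖ + B * ‖fderiv ℝ χ x‖ := by
        have : |1 - χ x| ≤ 1 := by
          rw [abs_le]
          constructor <;> linarith
        gcongr
    _ = _ := by rw [one_mul]

theorem hull_cap {m : ℕ} (D : Set (E m)) (hD : IsOpen D) (hDH : D ⊆ hull D) (C : Set (E m)) (hC : IsCompact C)
    (hCD : C ⊆ D) : cap D C ≤ cap (hull D) C := by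
  obtain ⟨u0, hu0⟩ := exists_adm D C hD hC hCD
  refine le_csInf ⟨_, u0, ⟨hu0.smooth, hu0.comp, hu0.sub.trans hDH, hu0.one⟩, rfl⟩ ?_
  rintro _ ⟨u, hu, rfl⟩
  have hdu : ∀ x, DifferentiableAt ℝ u x := fun x =>
    (hu.smooth.differentiable (by simp)).differentiableAt
  obtain ⟨B, hB⟩ : ∃ B : ℝ, ∀ x, |u x| ≤ B := by
    obtain ⟨B, hB⟩ := hu.comp.exists_bound_of_continuous hu.smooth.continuous
    exact ⟨B, fun x => by simpa [Real.norm_eq_abs] using hB x⟩
  have hB0 : 0 ≤ B := (abs_nonneg _).trans (hB 0)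
  set A : Set (E m) := tsupport u \ D with hAdef
  have hA : IsCompact A := hu.comp.diff hD
  have hAH : A ⊆ hull D := Set.sdiff_subset.trans hu.sub
  have hAD : Disjoint A D := Set.disjoint_sdiff_left
  have hAO : A ⊆ Cᶜ := fun x hx hxC => hx.2 (hCD hxC)
  -- the main estimate
  have main : ∀ l : ℝ, 0 < l → l < 1 → ∀ ε : ℝ, 0 < ε →
      cap D C ≤ ((1 - l) ^ m)⁻¹ * energy u + (l ^ m)⁻¹ * (B ^ (m + 1) * ε) := by
    intro l h0 h1 ε hε
    obtain ⟨χ, hs, hcs, hts, hχ0, hχ1, hen, hnear⟩ :=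
      null_cut D hD A hA hAH hAD Cᶜ hC.isClosed.isOpen_compl hAO ε hε
    have hdχ : ∀ x, DifferentiableAt ℝ χ x := fun x =>
      (hs.differentiable (by simp)).differentiableAt
    have hvs : ContDiff ℝ (⊤ : ℕ∞) (fun y => (1 - χ y) * u y) :=
      (contDiff_const.sub hs).mul hu.smooth
    have hvc : HasCompactSupport (fun y => (1 - χ y) * u y) := hu.comp.mul_left
    have hsub : tsupport (fun y => (1 - χ y) * u y) ⊆ tsupport u := by
      apply closure_mono
      intro x hx h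
      apply hx
      have : u x = 0 := by simpa using h
      simp [this]
    have hadm : Adm D C (fun y => (1 - χ y) * u y) := by
      refine ⟨hvs, hvc, ?_, ?_⟩
      · intro x hx
        by_contra hxD
        have hxA : x ∈ A := ⟨hsub hx, hxD⟩
        have h2 : (fun y => (1 - χ y) * u y) =ᶠ[𝓝 x] 0 := by
          filter_upwards [hnear x hxA] with y hy
          simp [hy]
        exact (notMem_tsupport_iff_eventuallyEq.2 h2) hx
      · intro x hx
        have : χ x = 0 := by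
          by_contra hne
          exact hts (subset_tsupport χ hne) hx
        rw [this, sub_zero, one_mul]
        exact hu.one x hx
    refine (cap_le D C _ hadm).trans ?_
    have hl1 : 0 < 1 - l := by linarith
    calc energy (fun y => (1 - χ y) * u y)
        ≤ ∫ x, (((1 - l) ^ m)⁻¹ * ‖gradient u x‖ ^ (m + 1) +
            (l ^ m)⁻¹ * (B ^ (m + 1) * ‖gradient χ x‖ ^ (m + 1))) := by
          refine integral_mono (integ _ hvs hvc)
            (((integ u hu.smooth hu.comp).const_mul _).add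
              (((integ χ hs hcs).const_mul _).const_mul _)) fun x => ?_
          have g1 := hcp_grad u χ x (hdu x) (hdχ x) (hχ0 x) (hχ1 x) B (hB x)
          have g2 := hcp_conv m ‖gradient u x‖ (B * ‖gradient χ x‖) l (norm_nonneg _)
            (by positivity) h0 h1
          rw [mul_pow] at g2
          exact (pow_le_pow_left₀ (norm_nonneg _) g1 _).trans g2
      _ = ((1 - l) ^ m)⁻¹ * energy u + (l ^ m)⁻¹ * (B ^ (m + 1) * energy χ) := by
          rw [integral_add ((integ u hu.smooth hu.comp).const_mul _)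
            (((integ χ hs hcs).const_mul _).const_mul _), integral_const_mul, integral_const_mul,
            integral_const_mul]
          rfl
      _ ≤ _ := by gcongr
  have main2 : ∀ l : ℝ, 0 < l → l < 1 → cap D C ≤ ((1 - l) ^ m)⁻¹ * energy u := by
    intro l h0 h1
    refine le_of_forall_pos_le_add fun δ hδ => ?_
    have hP : 0 ≤ (l ^ m)⁻¹ * B ^ (m + 1) := by positivity
    have h2 := main l h0 h1 (δ / ((l ^ m)⁻¹ * B ^ (m + 1) + 1)) (by positivity)
    refine h2.trans ?_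
    have h3 : (l ^ m)⁻¹ * (B ^ (m + 1) * (δ / ((l ^ m)⁻¹ * B ^ (m + 1) + 1))) ≤ δ := by
      have h4 : (l ^ m)⁻¹ * (B ^ (m + 1) * (δ / ((l ^ m)⁻¹ * B ^ (m + 1) + 1))) =
          ((l ^ m)⁻¹ * B ^ (m + 1)) * δ / ((l ^ m)⁻¹ * B ^ (m + 1) + 1) := by ring
      rw [h4, div_le_iff₀ (by positivity)]
      nlinarith
    linarith
  have hlim : Tendsto (fun l : ℝ => ((1 - l) ^ m)⁻¹ * energy u) (𝓝[>] 0) (𝓝 (energy u)) := by
    have hc : ContinuousAt (fun l : ℝ => ((1 - l) ^ m)⁻¹ * energy u) 0 := by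
      have h1 : ContinuousAt (fun l : ℝ => ((1 - l) ^ m)⁻¹) 0 := by
        apply ContinuousAt.inv₀
        · fun_prop
        · simp
      exact h1.mul continuousAt_const
    have h2 := hc.tendsto
    simp only [sub_zero, one_pow, inv_one, one_mul] at h2
    exact h2.mono_left nhdsWithin_le_nhds
  refine ge_of_tendsto hlim ?_
  have h1 : Set.Ioo (0 : ℝ) 1 ∈ 𝓝[>] (0 : ℝ) := Ioo_mem_nhdsGT one_pos
  filter_upwards [h1] with l hl
  exact main2 l hl.1 hl.2

end Pool.Agent.H46.MM
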