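import Pool.Agent.H46.MM.NullCut

/-!
Removable points have no interior: if `ball p ρ ∩ D = ∅`, take `χ` from `null_cut` for `closedBall p (ρ/2)` (compact, `⊆ hull D`, disjoint from `D`), `O = ball p ρ`:
`χ = 1` on it, so by `lpoin p ρ` the volume of `closedBall p (ρ/2)` is `≤ ∫ |χ|^(m+1) ≤ C energy χ ≤ C ε` for all `ε > 0`.
-/

set_option autoImplicit false

namespace Pool.Agent.H46.MM

open MeasureTheory Filter Topology Set

theorem hull_dens {m : ℕ} (D : Set (E m)) (hD : IsOpen D) (p : E m) (ρ : ℝ) (hρ : 0 < ρ)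
    (hH : Metric.closedBall p ρ ⊆ hull D) : (Metric.ball p ρ ∩ D).Nonempty := by
  by_contra hcon
  rw [Set.not_nonempty_iff_eq_empty] at hcon
  have hsub : Metric.closedBall p (ρ / 2) ⊆ Metric.ball p ρ := Metric.closedBall_subset_ball (by linarith)
  have hdis : Disjoint (Metric.closedBall p (ρ / 2)) D := by
    rw [Set.disjoint_left]
    intro x hx hxD
    have h1 : x ∈ Metric.ball p ρ ∩ D := ⟨hsub hx, hxD⟩
    rw [hcon] at h1
    exact h1
  obtain ⟨C, hC, hP⟩ := lpoin p ρ hρ
  obtain ⟨V, hV⟩ : ∃ V, V = volume.real (Metric.closedBall p (ρ / 2)) := ⟨_, rfl⟩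
  have hV0 : 0 < V := by
    rw [hV, Measure.real, ENNReal.toReal_pos_iff]
    exact ⟨Metric.measure_closedBall_pos volume p (by linarith), measure_closedBall_lt_top⟩
  obtain ⟨χ, h1, h2, h3, h4, -, h6, h7⟩ := null_cut D hD (Metric.closedBall p (ρ / 2)) (isCompact_closedBall _ _)
    (hsub.trans (Metric.ball_subset_closedBall.trans hH)) hdis (Metric.ball p ρ) Metric.isOpen_ball hsub
    (V / (2 * (C + 1))) (by positivity)
  have h8 : ∫ x, |χ x| ^ (m + 1) ≤ C * energy χ := hP χ h1 fun x hx => by
    have h9 : x ∉ tsupport χ := fun h => by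
      have h10 := h3 h
      rw [Metric.mem_ball] at h10
      linarith
    exact image_eq_zero_of_notMem_tsupport h9
  have hint : Integrable fun x => |χ x| ^ (m + 1) := by
    have hc : Continuous fun x => |χ x| ^ (m + 1) := (h1.continuous.abs).pow _
    exact hc.integrable_of_hasCompactSupport (h2.comp_left (g := fun t : ℝ => |t| ^ (m + 1)) (by simp))
  have h9 : V ≤ ∫ x, |χ x| ^ (m + 1) := by
    have h10 : ∫ x in Metric.closedBall p (ρ / 2), |χ x| ^ (m + 1) = V := by
      have h11 : ∫ x in Metric.closedBall p (ρ / 2), |χ x| ^ (m + 1) = ∫ _x in Metric.closedBall p (ρ / 2), (1 : ℝ) := by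
        refine setIntegral_congr_fun measurableSet_closedBall fun x hx => ?_
        rw [(h7 x hx).self_of_nhds, abs_one, one_pow]
      rw [h11, hV]
      simp
    rw [← h10]
    exact setIntegral_le_integral hint (Eventually.of_forall fun x => by positivity)
  have h10 : C * energy χ ≤ C * (V / (2 * (C + 1))) := mul_le_mul_of_nonneg_left h6 hC
  have h11 : C * (V / (2 * (C + 1))) ≤ V / 2 := by
    have h12 : C * (V / (2 * (C + 1))) = V / 2 * (C / (C + 1)) := by
      field_simp
    have h13 : C / (C + 1) ≤ 1 := (div_le_one (by linarith)).2 (by linarith)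
    rw [h12]
    exact mul_le_of_le_one_right (by linarith) h13
  linarith

end Pool.Agent.H46.MM
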