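import Pool.Agent.H46.MM.HullLoc
import Pool.Agent.H46.MM.HullDens

/-!
Removable points do not disconnect. If `O ∩ D ⊆ U ∪ V` (open, both meeting `O ∩ D`, `O ∩ D ∩ U ∩ V = ∅`) then the points of `O` with a ball that misses
`U ∩ D ∩ O`, resp. `V ∩ D ∩ O`, form two open sets that cover `O` (`hull_loc`), are disjoint in `O` (`hull_dens`) and both nonempty: contradiction to `hOc`.
-/

set_option autoImplicit false

namespace Pool.Agent.H46.MM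

open MeasureTheory Filter Topology Set

private theorem hc_open {m : ℕ} (B : Set (E m)) :
    IsOpen {p : E m | ∃ ρ : ℝ, 0 < ρ ∧ Metric.ball p ρ ∩ B = ∅} := by
  rw [Metric.isOpen_iff]
  rintro p ⟨ρ, hρ, h⟩
  refine ⟨ρ / 2, half_pos hρ, fun q hq => ⟨ρ / 2, half_pos hρ, ?_⟩⟩
  rw [← Set.subset_empty_iff, ← h]
  refine inter_subset_inter_left _ fun z hz => ?_
  rw [Metric.mem_ball] at hq hz ⊢
  linarith [dist_triangle z q p]

private theorem hc_self {m : ℕ} (A B : Set (E m)) (hA : IsOpen A) (hAB : Disjoint A B) (a : E m) (ha : a ∈ A) :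
    ∃ ρ : ℝ, 0 < ρ ∧ Metric.ball a ρ ∩ B = ∅ := by
  obtain ⟨ρ, hρ, hb⟩ := Metric.isOpen_iff.1 hA a ha
  exact ⟨ρ, hρ, Set.disjoint_iff_inter_eq_empty.1 (hAB.mono_left hb)⟩

theorem hull_conn {m : ℕ} (D : Set (E m)) (hD : IsOpen D) (O : Set (E m)) (hO : IsOpen O) (hOc : IsPreconnected O)
    (hOH : O ⊆ hull D) : IsPreconnected (O ∩ D) := by
  rintro U V hU hV hcov ⟨a, haOD, haU⟩ ⟨b, hbOD, hbV⟩
  by_contra hne
  rw [Set.not_nonempty_iff_eq_empty] at hne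
  have hA : IsOpen (O ∩ D ∩ U) := (hO.inter hD).inter hU
  have hB : IsOpen (O ∩ D ∩ V) := (hO.inter hD).inter hV
  have hAB : Disjoint (O ∩ D ∩ U) (O ∩ D ∩ V) := by
    rw [Set.disjoint_left]
    rintro z ⟨hz, hzU⟩ ⟨-, hzV⟩
    have : z ∈ O ∩ D ∩ (U ∩ V) := ⟨hz, hzU, hzV⟩
    rw [hne] at this
    exact this
  have hco : ∀ z, z ∈ O → z ∈ D → z ∈ O ∩ D ∩ U ∪ O ∩ D ∩ V := fun z h1 h2 => by
    rcases hcov ⟨h1, h2⟩ with h | h
    · exact Or.inl ⟨⟨h1, h2⟩, h⟩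
    · exact Or.inr ⟨⟨h1, h2⟩, h⟩
  have hcov2 : O ⊆ {p : E m | ∃ ρ : ℝ, 0 < ρ ∧ Metric.ball p ρ ∩ (O ∩ D ∩ V) = ∅} ∪
      {p : E m | ∃ ρ : ℝ, 0 < ρ ∧ Metric.ball p ρ ∩ (O ∩ D ∩ U) = ∅} := by
    intro p hp
    obtain ⟨r, hr, hb⟩ := Metric.isOpen_iff.1 hO p hp
    have hsub : Metric.closedBall p (2 * (r / 4)) ⊆ O :=
      (Metric.closedBall_subset_ball (by linarith)).trans hb
    rcases hull_loc D hD p (r / 4) (by linarith) (hsub.trans hOH) _ _ hA hB hAB (fun z hz => hz.1.2)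
      (fun z hz => hz.1.2) (fun z hz => hco z (hsub (Metric.ball_subset_closedBall hz.1)) hz.2) with h | h
    · exact Or.inr ⟨r / 4, by linarith, h⟩
    · exact Or.inl ⟨r / 4, by linarith, h⟩
  obtain ⟨p, hpO, ⟨ρ1, hρ1, e1⟩, ρ2, hρ2, e2⟩ := hOc _ _ (hc_open _) (hc_open _) hcov2
    ⟨a, haOD.1, hc_self _ _ hA hAB a ⟨haOD, haU⟩⟩ ⟨b, hbOD.1, hc_self _ _ hB hAB.symm b ⟨hbOD, hbV⟩⟩
  obtain ⟨r, hr, hb⟩ := Metric.isOpen_iff.1 hO p hpO
  set ρ := min (min ρ1 ρ2) (r / 2) with hρ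
  have hρ0 : 0 < ρ := lt_min (lt_min hρ1 hρ2) (half_pos hr)
  have q1 : ρ ≤ ρ1 := (min_le_left _ _).trans (min_le_left _ _)
  have q2 : ρ ≤ ρ2 := (min_le_left _ _).trans (min_le_right _ _)
  have q3 : ρ ≤ r / 2 := min_le_right _ _
  have hsub : Metric.closedBall p ρ ⊆ O := (Metric.closedBall_subset_ball (by linarith)).trans hb
  obtain ⟨z, hz, hzD⟩ := hull_dens D hD p ρ hρ0 (hsub.trans hOH)
  rcases hco z (hsub (Metric.ball_subset_closedBall hz)) hzD with h | h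
  · have h2 : z ∈ Metric.ball p ρ2 ∩ (O ∩ D ∩ U) := ⟨Metric.ball_subset_ball q2 hz, h⟩
    rw [e2] at h2
    exact h2
  · have h2 : z ∈ Metric.ball p ρ1 ∩ (O ∩ D ∩ V) := ⟨Metric.ball_subset_ball q1 hz, h⟩
    rw [e1] at h2
    exact h2

end Pool.Agent.H46.MM
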