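import Pool.Agent.H46.MM.ThickDef

/-!
An open set together with its removable boundary points.
-/

set_option autoImplicit false

namespace Pool.Agent.H46.MM

/-- the points near which the complement of `D` has capacity zero -/
def hull {m : ℕ} (D : Set (E m)) : Set (E m) :=
  {w | ∃ r : ℝ, 0 < r ∧ cap (Metric.ball w (2 * r)) (Metric.closedBall w r \ D) = 0}

end Pool.Agent.H46.MM
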