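import Pool.Agent.H46.MM.NullCut

/-!
Removable points do not disconnect a ball. Suppose both `ball p ρ ∩ A` and `ball p ρ ∩ B` are nonempty (open), of volumes `a, b > 0`. `χ` from `null_cut` for
the compact set `closedBall p (2 ρ) \ D` with `O = ball p (3 ρ)`, energy `≤ ε`; `η` a `ContDiffBump` at `p`, `= 1` on `closedBall p ρ`, `tsupport` in
`closedBall p (3 ρ / 2)`; `g = (indicator A 1) * (1 - χ) * η` is smooth (near `x ∈ tsupport η \ D` it is `0` as `χ = 1` near `x`; near `x ∈ tsupport η ∩ D` the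
indicator is constant as `x ∈ A` or `x ∈ B`, both open and disjoint; off `tsupport η` it is `0`). On `ball p ρ`: `‖∇ g‖ ≤ ‖∇ χ‖`, so `mpoin p ρ`:
`∫_{ball p ρ} |g - c|^n ≤ C ε`. Hence `|c|^n b ≤ C ε` (`g = 0` on `B`) and `∫_{ball p ρ ∩ A} |1 - χ - c|^n ≤ C ε`; `∫ |χ|^n ≤ C' ε` (`lpoin p (3 ρ)`); so
`a = ∫_{ball p ρ ∩ A} 1 ≤ 3^n (C ε + C' ε + |c|^n a)`; `ε → 0` contradicts `a, b > 0`.
-/

set_option autoImplicit false

namespace Pool.Agent.H46.MM

open MeasureTheory Filter Topology Set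

private theorem three (n : ℕ) (x y z : ℝ) (hx : 0 ≤ x) (hy : 0 ≤ y) (hz : 0 ≤ z) (h : 1 ≤ x + y + z) :
    (1 : ℝ) ≤ 3 ^ n * (x ^ n + y ^ n + z ^ n) := by
  have key : ∀ w : ℝ, 1 / 3 ≤ w → w ^ n ≤ x ^ n + y ^ n + z ^ n →
      (1 : ℝ) ≤ 3 ^ n * (x ^ n + y ^ n + z ^ n) := by
    intro w hw h1
    have h2 : (1 / 3 : ℝ) ^ n ≤ w ^ n := pow_le_pow_left₀ (by norm_num) hw n
    have h3 : (3 : ℝ) ^ n * (1 / 3) ^ n = 1 := by
      rw [← mul_pow]
      norm_num
    calc (1 : ℝ) = 3 ^ n * (1 / 3) ^ n := h3.symm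
      _ ≤ 3 ^ n * (x ^ n + y ^ n + z ^ n) := by
        refine mul_le_mul_of_nonneg_left (h2.trans h1) (by positivity)
  have px : 0 ≤ x ^ n := pow_nonneg hx n
  have py : 0 ≤ y ^ n := pow_nonneg hy n
  have pz : 0 ≤ z ^ n := pow_nonneg hz n
  by_cases h1 : 1 / 3 ≤ x
  · exact key x h1 (by linarith)
  by_cases h2 : 1 / 3 ≤ y
  · exact key y h2 (by linarith)
  push Not at h1 h2
  exact key z (by linarith) (by linarith)

/-- one cut-off of energy `≤ ε` -/
private theorem one_eps {m : ℕ} (D : Set (E m)) (hD : IsOpen D) (p : E m) (ρ : ℝ) (hρ : 0 < ρ)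
    (hH : Metric.closedBall p (2 * ρ) ⊆ hull D) (A B : Set (E m)) (hA : IsOpen A) (hB : IsOpen B)
    (hAB : Disjoint A B) (hcov : Metric.ball p (2 * ρ) ∩ D ⊆ A ∪ B)
    (C1 : ℝ) (hC1 : 0 ≤ C1) (h1 : ∀ g : E m → ℝ, ContDiff ℝ (⊤ : ℕ∞) g → ∃ c : ℝ,
      ∫ x in Metric.ball p ρ, |g x - c| ^ (m + 1) ≤ C1 * ∫ x in Metric.ball p ρ, ‖gradient g x‖ ^ (m + 1))
    (C2 : ℝ) (hC2 : 0 ≤ C2) (h2 : ∀ Λ : E m → ℝ, ContDiff ℝ (⊤ : ℕ∞) Λ → (∀ x, 3 * ρ ≤ dist x p → Λ x = 0) →
      ∫ x, |Λ x| ^ (m + 1) ≤ C2 * energy Λ)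
    (hb : 0 < volume.real (Metric.ball p ρ ∩ B)) (ε : ℝ) (hε : 0 < ε) :
    volume.real (Metric.ball p ρ ∩ A) ≤ 3 ^ (m + 1) * (C1 * ε + C2 * ε +
      volume.real (Metric.ball p ρ ∩ A) * (C1 * ε / volume.real (Metric.ball p ρ ∩ B))) := by
  classical
  have hK : IsCompact (Metric.closedBall p (2 * ρ) \ D) :=
    (isCompact_closedBall p (2 * ρ)).diff hD
  obtain ⟨χ, χs, χc, χt, χ0, χ1, χe, χA⟩ := null_cut D hD (Metric.closedBall p (2 * ρ) \ D) hK
    (fun x hx => hH hx.1) (Set.disjoint_left.2 fun x hx hxD => hx.2 hxD) (Metric.ball p (3 * ρ))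
    Metric.isOpen_ball (fun x hx => by
      have := Metric.mem_closedBall.1 hx.1
      rw [Metric.mem_ball]
      linarith) ε hε
  let η : ContDiffBump p := ⟨ρ, 3 * ρ / 2, hρ, by linarith⟩
  have ηs : ContDiff ℝ (⊤ : ℕ∞) (η : E m → ℝ) := η.contDiff
  have ηt : tsupport (η : E m → ℝ) = Metric.closedBall p (3 * ρ / 2) := η.tsupport_eq
  have η1 : ∀ x ∈ Metric.ball p ρ, (η : E m → ℝ) =ᶠ[𝓝 x] 1 := fun x hx =>
    η.eventuallyEq_one_of_mem_ball hx
  obtain ⟨g, hg⟩ : ∃ g : E m → ℝ, g = fun x => (A.indicator (fun _ => (1 : ℝ)) x * (1 - χ x)) * η x := ⟨_, rfl⟩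
  have gA : ∀ x ∈ A, g =ᶠ[𝓝 x] fun y => (1 - χ y) * η y := by
    intro x hx
    filter_upwards [hA.mem_nhds hx] with y hy
    rw [hg]
    simp only
    rw [Set.indicator_of_mem hy, one_mul]
  have gB : ∀ x ∈ B, g =ᶠ[𝓝 x] fun _ => (0 : ℝ) := by
    intro x hx
    filter_upwards [hB.mem_nhds hx] with y hy
    rw [hg]
    simp only
    rw [Set.indicator_of_notMem (fun h => Set.disjoint_left.1 hAB h hy), zero_mul, zero_mul]
  have gK : ∀ x ∈ Metric.closedBall p (2 * ρ) \ D, g =ᶠ[𝓝 x] fun _ => (0 : ℝ) := by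
    intro x hx
    filter_upwards [χA x hx] with y hy
    rw [hg]
    simp only
    rw [hy, sub_self, mul_zero, zero_mul]
  have gη : ∀ x, x ∉ tsupport (η : E m → ℝ) → g =ᶠ[𝓝 x] fun _ => (0 : ℝ) := by
    intro x hx
    filter_upwards [notMem_tsupport_iff_eventuallyEq.1 hx] with y hy
    rw [hg]
    simp only
    rw [hy, Pi.zero_apply, mul_zero]
  have gs : ContDiff ℝ (⊤ : ℕ∞) g := by
    refine contDiff_iff_contDiffAt.2 fun x => ?_
    by_cases hx : x ∈ tsupport (η : E m → ℝ)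
    · have hx2 : x ∈ Metric.ball p (2 * ρ) := by
        rw [ηt, Metric.mem_closedBall] at hx
        rw [Metric.mem_ball]
        linarith
      by_cases hxD : x ∈ D
      · rcases hcov ⟨hx2, hxD⟩ with hxA | hxB
        · exact (((contDiff_const.sub χs).mul ηs).contDiffAt).congr_of_eventuallyEq (gA x hxA)
        · exact contDiffAt_const.congr_of_eventuallyEq (gB x hxB)
      · exact contDiffAt_const.congr_of_eventuallyEq
          (gK x ⟨Metric.ball_subset_closedBall hx2, hxD⟩)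
    · exact contDiffAt_const.congr_of_eventuallyEq (gη x hx)
  have gc : HasCompactSupport g := by
    rw [hg]
    exact η.hasCompactSupport.mul_left
  have hgrad : ∀ x ∈ Metric.ball p ρ, ‖gradient g x‖ ≤ ‖gradient χ x‖ := by
    intro x hx
    have hx2 : x ∈ Metric.ball p (2 * ρ) := by
      rw [Metric.mem_ball] at hx ⊢
      linarith
    rw [norm_grad, norm_grad]
    by_cases hxD : x ∈ D
    · rcases hcov ⟨hx2, hxD⟩ with hxA | hxB
      · have e : g =ᶠ[𝓝 x] fun y => 1 - χ y := by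
          filter_upwards [gA x hxA, η1 x hx] with y hy hy1
          rw [hy, hy1, Pi.one_apply, mul_one]
        rw [e.fderiv_eq, fderiv_const_sub, norm_neg]
      · rw [(gB x hxB).fderiv_eq, fderiv_fun_const, Pi.zero_apply, norm_zero]
        exact norm_nonneg _
    · rw [(gK x ⟨Metric.ball_subset_closedBall hx2, hxD⟩).fderiv_eq, fderiv_fun_const, Pi.zero_apply,
        norm_zero]
      exact norm_nonneg _
  have hint : ∫ x in Metric.ball p ρ, ‖gradient g x‖ ^ (m + 1) ≤ ε := by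
    calc ∫ x in Metric.ball p ρ, ‖gradient g x‖ ^ (m + 1)
        ≤ ∫ x in Metric.ball p ρ, ‖gradient χ x‖ ^ (m + 1) := by
          refine setIntegral_mono_on (integ g gs gc).integrableOn (integ χ χs χc).integrableOn
            Metric.isOpen_ball.measurableSet fun x hx => ?_
          exact pow_le_pow_left₀ (norm_nonneg _) (hgrad x hx) _
      _ ≤ ∫ x, ‖gradient χ x‖ ^ (m + 1) :=
          setIntegral_le_integral (integ χ χs χc)
            (Filter.Eventually.of_forall fun x => pow_nonneg (norm_nonneg _) _)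
      _ ≤ ε := χe
  obtain ⟨c, hc⟩ := h1 g gs
  have hc' : ∫ x in Metric.ball p ρ, |g x - c| ^ (m + 1) ≤ C1 * ε :=
    hc.trans (mul_le_mul_of_nonneg_left hint hC1)
  have hcont : Continuous fun x => |g x - c| ^ (m + 1) :=
    ((gs.continuous.sub continuous_const).abs).pow _
  have hgi : IntegrableOn (fun x => |g x - c| ^ (m + 1)) (Metric.ball p ρ) :=
    (hcont.continuousOn.integrableOn_compact (isCompact_closedBall p ρ)).mono_set
      Metric.ball_subset_closedBall
  have hχi : Integrable fun x => |χ x| ^ (m + 1) := by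
    have : Continuous fun x => |χ x| ^ (m + 1) := (χs.continuous.abs).pow _
    refine this.integrable_of_hasCompactSupport ?_
    exact χc.comp_left (g := fun t : ℝ => |t| ^ (m + 1)) (by simp)
  have hχ2 : ∫ x, |χ x| ^ (m + 1) ≤ C2 * ε := by
    refine (h2 χ χs fun x hx => ?_).trans (mul_le_mul_of_nonneg_left χe hC2)
    refine image_eq_zero_of_notMem_tsupport fun h => ?_
    have := Metric.mem_ball.1 (χt h)
    linarith
  set SA := Metric.ball p ρ ∩ A with hSA
  set SB := Metric.ball p ρ ∩ B with hSB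
  have mA : MeasurableSet SA := Metric.isOpen_ball.measurableSet.inter hA.measurableSet
  have mB : MeasurableSet SB := Metric.isOpen_ball.measurableSet.inter hB.measurableSet
  have fA : volume SA ≠ ⊤ := ((measure_mono Set.inter_subset_left).trans_lt measure_ball_lt_top).ne
  have fB : volume SB ≠ ⊤ := ((measure_mono Set.inter_subset_left).trans_lt measure_ball_lt_top).ne
  have hcB : volume.real SB * |c| ^ (m + 1) ≤ C1 * ε := by
    have e1 : ∫ x in SB, |g x - c| ^ (m + 1) = volume.real SB * |c| ^ (m + 1) := by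
      have e2 : ∫ x in SB, |g x - c| ^ (m + 1) = ∫ x in SB, |c| ^ (m + 1) := by
        refine setIntegral_congr_fun mB fun x hx => ?_
        have := (gB x hx.2).eq_of_nhds
        rw [this, zero_sub, abs_neg]
      rw [e2, setIntegral_const, smul_eq_mul]
    rw [← e1]
    refine le_trans (setIntegral_mono_set hgi ?_ ?_) hc'
    · exact Filter.Eventually.of_forall fun x => pow_nonneg (abs_nonneg _) _
    · exact (Set.inter_subset_left : SB ⊆ Metric.ball p ρ).eventuallyLE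
  have hcA : ∫ x in SA, |g x - c| ^ (m + 1) ≤ C1 * ε := by
    refine le_trans (setIntegral_mono_set hgi ?_ ?_) hc'
    · exact Filter.Eventually.of_forall fun x => pow_nonneg (abs_nonneg _) _
    · exact (Set.inter_subset_left : SA ⊆ Metric.ball p ρ).eventuallyLE
  have hχA : ∫ x in SA, |χ x| ^ (m + 1) ≤ C2 * ε :=
    (setIntegral_le_integral hχi (Filter.Eventually.of_forall fun x => pow_nonneg (abs_nonneg _) _)).trans hχ2
  have hcb : |c| ^ (m + 1) ≤ C1 * ε / volume.real SB := by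
    rw [le_div_iff₀ hb]
    linarith
  have i1 : IntegrableOn (fun x => |g x - c| ^ (m + 1)) SA := hgi.mono_set Set.inter_subset_left
  have i2 : IntegrableOn (fun x => |χ x| ^ (m + 1)) SA := hχi.integrableOn
  have i3 : IntegrableOn (fun _ : E m => |c| ^ (m + 1)) SA := integrableOn_const fA
  have hmain : volume.real SA ≤ 3 ^ (m + 1) * ((∫ x in SA, |g x - c| ^ (m + 1)) +
      (∫ x in SA, |χ x| ^ (m + 1)) + volume.real SA * |c| ^ (m + 1)) := by
    have e1 : ∫ x in SA, (1 : ℝ) = volume.real SA := by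
      rw [setIntegral_const, smul_eq_mul, mul_one]
    have e3 : ∫ x in SA, ((|g x - c| ^ (m + 1) + |χ x| ^ (m + 1)) + |c| ^ (m + 1)) =
        (∫ x in SA, (|g x - c| ^ (m + 1) + |χ x| ^ (m + 1))) + ∫ x in SA, |c| ^ (m + 1) :=
      integral_add (i1.add i2) i3
    have e2 : ∫ x in SA, 3 ^ (m + 1) * ((|g x - c| ^ (m + 1) + |χ x| ^ (m + 1)) + |c| ^ (m + 1)) =
        3 ^ (m + 1) * ((∫ x in SA, |g x - c| ^ (m + 1)) + (∫ x in SA, |χ x| ^ (m + 1)) +
          volume.real SA * |c| ^ (m + 1)) := by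
      rw [integral_const_mul, e3, integral_add i1 i2, setIntegral_const, smul_eq_mul]
    rw [← e2]
    calc volume.real SA = ∫ x in SA, (1 : ℝ) := e1.symm
      _ ≤ ∫ x in SA, 3 ^ (m + 1) * ((|g x - c| ^ (m + 1) + |χ x| ^ (m + 1)) + |c| ^ (m + 1)) := by
        refine setIntegral_mono_on (integrableOn_const fA) (((i1.add i2).add i3).const_mul _) mA
          fun x hx => ?_
        have hgx : g x = 1 - χ x := by
          have q1 := (gA x hx.2).eq_of_nhds
          have q2 := (η1 x hx.1).eq_of_nhds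
          rw [q1, q2, Pi.one_apply, mul_one]
        refine three (m + 1) _ _ _ (abs_nonneg _) (abs_nonneg _) (abs_nonneg _) ?_
        have q3 : (g x - c) + χ x + c = 1 := by
          rw [hgx]
          ring
        calc (1 : ℝ) = |(g x - c) + χ x + c| := by rw [q3, abs_one]
          _ ≤ |g x - c| + |χ x| + |c| := abs_add_three _ _ _
  refine hmain.trans (mul_le_mul_of_nonneg_left ?_ (by positivity))
  have := mul_le_mul_of_nonneg_left hcb (measureReal_nonneg : 0 ≤ volume.real SA)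
  linarith

theorem hull_loc {m : ℕ} (D : Set (E m)) (hD : IsOpen D) (p : E m) (ρ : ℝ) (hρ : 0 < ρ)
    (hH : Metric.closedBall p (2 * ρ) ⊆ hull D) (A B : Set (E m)) (hA : IsOpen A) (hB : IsOpen B)
    (hAB : Disjoint A B) (hAD : A ⊆ D) (hBD : B ⊆ D) (hcov : Metric.ball p (2 * ρ) ∩ D ⊆ A ∪ B) :
    Metric.ball p ρ ∩ A = ∅ ∨ Metric.ball p ρ ∩ B = ∅ := by
  by_contra hcon
  rw [not_or, ← Ne, ← Ne, ← Set.nonempty_iff_ne_empty, ← Set.nonempty_iff_ne_empty] at hcon
  obtain ⟨hAn, hBn⟩ := hcon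
  obtain ⟨C1, hC1, h1⟩ := mpoin p ρ hρ
  obtain ⟨C2, hC2, h2⟩ := lpoin p (3 * ρ) (by positivity)
  have fA : volume (Metric.ball p ρ ∩ A) ≠ ⊤ :=
    ((measure_mono Set.inter_subset_left).trans_lt measure_ball_lt_top).ne
  have fB : volume (Metric.ball p ρ ∩ B) ≠ ⊤ :=
    ((measure_mono Set.inter_subset_left).trans_lt measure_ball_lt_top).ne
  have ha : 0 < volume.real (Metric.ball p ρ ∩ A) :=
    ENNReal.toReal_pos ((Metric.isOpen_ball.inter hA).measure_pos volume hAn).ne' fA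
  have hb : 0 < volume.real (Metric.ball p ρ ∩ B) :=
    ENNReal.toReal_pos ((Metric.isOpen_ball.inter hB).measure_pos volume hBn).ne' fB
  set a := volume.real (Metric.ball p ρ ∩ A) with hadef
  set b := volume.real (Metric.ball p ρ ∩ B) with hbdef
  set M : ℝ := 3 ^ (m + 1) * (C1 + C2 + a * (C1 / b)) with hM
  have hM0 : 0 ≤ M := by positivity
  have key := one_eps D hD p ρ hρ hH A B hA hB hAB hcov C1 hC1 h1 C2 hC2 h2 hb (a / (M + 1))
    (by positivity)
  rw [← hadef, ← hbdef] at key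
  have e : 3 ^ (m + 1) * (C1 * (a / (M + 1)) + C2 * (a / (M + 1)) + a * (C1 * (a / (M + 1)) / b)) =
      M * (a / (M + 1)) := by
    rw [hM]
    ring
  rw [e, ← mul_div_assoc, le_div_iff₀ (by positivity)] at key
  nlinarith

end Pool.Agent.H46.MM
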