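import Pool.Agent.H46.MM.NullCut

/-!
`sub_hull`: `w ∈ D`: small `r` with `closedBall w r ⊆ D`, the capacity of `∅` is `0`. `hull_open`: `w ∈ hull D` with `r`; for `p ∈ ball w r` take
`ρ > 0` with `closedBall p ρ ⊆ closedBall w r`, then `cap (ball p ρ) (closedBall p (ρ/2) \ D) ≤ ε` for all `ε` by `loc_cut`, so `p ∈ hull D` with radius
`ρ / 2`. `hull_thick`: if `cap (ball w (2 r)) (closedBall w r \ hull D) = 0` then `w ∈ hull D` (contradiction): for `ε > 0` take `u` admissible,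
`0 ≤ u ≤ 1`, `energy u ≤ ε` (`exists_lt`, `trunc`), `A = (closedBall w r \ D) \ {u > 1/2}` compact, `⊆ hull D`, disjoint from `D`, `χ` from `null_cut` with
`O = ball w (2 r)`; `v = χ + (1 - χ) 2 u` is `≥ 1` on `closedBall w r \ D`, `energy v ≤ 4^n (energy χ + energy u)` (`|1 - 2 u| ≤ 1`).
-/

set_option autoImplicit false

namespace Pool.Agent.H46.MM

open MeasureTheory Filter Topology Set

theorem sub_hull {m : ℕ} (D : Set (E m)) (hD : IsOpen D) : D ⊆ hull D := by
  intro w hw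
  obtain ⟨r, hr, hb⟩ := Metric.isOpen_iff.1 hD w hw
  refine ⟨r / 2, half_pos hr, ?_⟩
  have h1 : Metric.closedBall w (r / 2) \ D = ∅ :=
    Set.diff_eq_empty.2 ((Metric.closedBall_subset_ball (half_lt_self hr)).trans hb)
  rw [h1]
  refine le_antisymm ?_ (cap_nonneg _ _)
  have h2 : Adm (Metric.ball w (2 * (r / 2))) ∅ (fun _ => 0) :=
    ⟨contDiff_const, HasCompactSupport.zero, by simp [tsupport], fun x hx => hx.elim⟩
  refine (cap_le _ _ _ h2).trans (le_of_eq ?_)
  simp [energy, norm_grad]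

theorem hull_open {m : ℕ} (D : Set (E m)) (hD : IsOpen D) : IsOpen (hull D) := by
  refine Metric.isOpen_iff.2 ?_
  rintro w ⟨r, hr, h0⟩
  refine ⟨r, hr, fun p hp => ?_⟩
  have hdist : dist p w < r := Metric.mem_ball.1 hp
  have hρ : 0 < r - dist p w := sub_pos.2 hdist
  refine ⟨(r - dist p w) / 2, half_pos hρ, ?_⟩
  have hsub : Metric.closedBall p (r - dist p w) ⊆ Metric.closedBall w r :=
    Metric.closedBall_subset_closedBall' (by linarith)
  refine le_antisymm (le_of_forall_pos_le_add fun ε hε => ?_) (cap_nonneg _ _)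
  rw [zero_add]
  obtain ⟨χ, hχ, hχs, -, -, hχe, hχ1⟩ := loc_cut D hD w r hr h0 p (r - dist p w) hρ hsub ε hε
  have hadm : Adm (Metric.ball p (2 * ((r - dist p w) / 2))) (Metric.closedBall p ((r - dist p w) / 2) \ D) χ := by
    refine ⟨hχ, ?_, ?_, fun x hx => ?_⟩
    · exact (isCompact_closedBall p (r - dist p w)).of_isClosed_subset (isClosed_tsupport χ)
        (hχs.trans Metric.ball_subset_closedBall)
    · rwa [mul_div_cancel₀ _ (two_ne_zero : (2 : ℝ) ≠ 0)]
    · exact (hχ1 x hx.1 hx.2).self_of_nhds.ge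
  exact (cap_le _ _ _ hadm).trans hχe

private theorem ht_pow (n : ℕ) (a b : ℝ) (ha : 0 ≤ a) (hb : 0 ≤ b) :
    (a + 2 * b) ^ n ≤ 4 ^ n * (a ^ n + b ^ n) := by
  have h1 : a + 2 * b ≤ 4 * max a b := by
    have h2 := le_max_left a b
    have h3 := le_max_right a b
    linarith
  have h4 : (a + 2 * b) ^ n ≤ (4 * max a b) ^ n := pow_le_pow_left₀ (by positivity) h1 n
  rw [mul_pow] at h4
  refine h4.trans (mul_le_mul_of_nonneg_left ?_ (by positivity))
  rcases max_cases a b with h | h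
  · rw [h.1]
    exact le_add_of_nonneg_right (pow_nonneg hb n)
  · rw [h.1]
    exact le_add_of_nonneg_left (pow_nonneg ha n)

private theorem ht_energy {m : ℕ} (χ u : E m → ℝ) (hχ : ContDiff ℝ (⊤ : ℕ∞) χ) (hχc : HasCompactSupport χ)
    (hu : ContDiff ℝ (⊤ : ℕ∞) u) (huc : HasCompactSupport u) (hχ0 : ∀ x, 0 ≤ χ x) (hχ1 : ∀ x, χ x ≤ 1)
    (hu0 : ∀ x, 0 ≤ u x) (hu1 : ∀ x, u x ≤ 1) (hv : ContDiff ℝ (⊤ : ℕ∞) fun x => χ x + (1 - χ x) * (2 * u x))
    (hvc : HasCompactSupport fun x => χ x + (1 - χ x) * (2 * u x)) :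
    energy (fun x => χ x + (1 - χ x) * (2 * u x)) ≤ 4 ^ (m + 1) * (energy χ + energy u) := by
  unfold energy
  rw [← integral_add (integ χ hχ hχc) (integ u hu huc), ← integral_const_mul]
  refine integral_mono (integ _ hv hvc) (((integ χ hχ hχc).add (integ u hu huc)).const_mul _) fun x => ?_
  simp only [Pi.add_apply]
  rw [norm_grad, norm_grad, norm_grad]
  have hdχ : HasFDerivAt χ (fderiv ℝ χ x) x := ((hχ.differentiable (by simp)) x).hasFDerivAt
  have hdu : HasFDerivAt u (fderiv ℝ u x) x := ((hu.differentiable (by simp)) x).hasFDerivAt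
  have hd := hdχ.add ((hdχ.const_sub 1).mul (hdu.const_mul 2))
  have he : fderiv ℝ (fun x => χ x + (1 - χ x) * (2 * u x)) x =
      (1 - 2 * u x) • fderiv ℝ χ x + (2 * (1 - χ x)) • fderiv ℝ u x := by
    refine (HasFDerivAt.fderiv (f := fun x => χ x + (1 - χ x) * (2 * u x)) hd).trans ?_
    module
  rw [he]
  have hn : ‖(1 - 2 * u x) • fderiv ℝ χ x + (2 * (1 - χ x)) • fderiv ℝ u x‖ ≤ ‖fderiv ℝ χ x‖ + 2 * ‖fderiv ℝ u x‖ := by
    refine (norm_add_le _ _).trans (add_le_add ?_ ?_)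
    · rw [norm_smul, Real.norm_eq_abs]
      have h1 : |1 - 2 * u x| ≤ 1 := abs_le.2 ⟨by linarith [hu1 x], by linarith [hu0 x]⟩
      calc |1 - 2 * u x| * ‖fderiv ℝ χ x‖ ≤ 1 * ‖fderiv ℝ χ x‖ := mul_le_mul_of_nonneg_right h1 (norm_nonneg _)
        _ = ‖fderiv ℝ χ x‖ := one_mul _
    · rw [norm_smul, Real.norm_eq_abs]
      have h1 : |2 * (1 - χ x)| ≤ 2 := abs_le.2 ⟨by linarith [hχ1 x], by linarith [hχ0 x]⟩
      exact mul_le_mul_of_nonneg_right h1 (norm_nonneg _)
  exact (pow_le_pow_left₀ (norm_nonneg _) hn _).trans (ht_pow _ _ _ (norm_nonneg _) (norm_nonneg _))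

theorem hull_thick {m : ℕ} (D : Set (E m)) (hD : IsOpen D) : Thick (hull D) := by
  intro w hw r hr
  by_contra hcap
  have h0 : cap (Metric.ball w (2 * r)) (Metric.closedBall w r \ hull D) = 0 :=
    le_antisymm (not_lt.1 hcap) (cap_nonneg _ _)
  refine hw ⟨r, hr, le_antisymm (le_of_forall_pos_le_add fun ε hε => ?_) (cap_nonneg _ _)⟩
  rw [zero_add]
  obtain ⟨C, hC, htr⟩ := trunc m
  have hpos : 0 < 4 ^ (m + 1) * (1 + C) := by positivity
  obtain ⟨u0, hu0, hu0e⟩ := exists_lt (Metric.ball w (2 * r)) (Metric.closedBall w r \ hull D) Metric.isOpen_ball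
    ((isCompact_closedBall w r).diff (hull_open D hD))
    (sdiff_subset.trans (Metric.closedBall_subset_ball (by linarith))) (ε / (4 ^ (m + 1) * (1 + C))) (by positivity)
  rw [h0, zero_add] at hu0e
  obtain ⟨u, hu, hun, hu1, hue⟩ := htr _ _ u0 hu0
  have hopen : IsOpen {x | 1 / 2 < u x} := isOpen_lt continuous_const hu.smooth.continuous
  have hAc : IsCompact ((Metric.closedBall w r \ D) \ {x | 1 / 2 < u x}) :=
    ((isCompact_closedBall w r).diff hD).diff hopen
  obtain ⟨χ, hχ, hχc, hχs, hχ0, hχ1, hχe, hχA⟩ := null_cut D hD ((Metric.closedBall w r \ D) \ {x | 1 / 2 < u x}) hAc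
    (fun x hx => by
      by_contra hnot
      have h1 := hu.one x ⟨hx.1.1, hnot⟩
      exact hx.2 (show (1 : ℝ) / 2 < u x by linarith))
    (Set.disjoint_left.2 fun x hx hxD => hx.1.2 hxD) (Metric.ball w (2 * r)) Metric.isOpen_ball
    ((sdiff_subset.trans sdiff_subset).trans (Metric.closedBall_subset_ball (by linarith)))
    (ε / (4 ^ (m + 1) * (1 + C))) (by positivity)
  have hv : ContDiff ℝ (⊤ : ℕ∞) fun x => χ x + (1 - χ x) * (2 * u x) :=
    hχ.add ((contDiff_const.sub hχ).mul (contDiff_const.mul hu.smooth))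
  have hzero : ∀ x, x ∉ tsupport χ ∪ tsupport u → χ x + (1 - χ x) * (2 * u x) = 0 := by
    intro x hx
    rw [image_eq_zero_of_notMem_tsupport fun h => hx (Or.inl h),
      image_eq_zero_of_notMem_tsupport fun h => hx (Or.inr h)]
    ring
  have hvs : tsupport (fun x => χ x + (1 - χ x) * (2 * u x)) ⊆ tsupport χ ∪ tsupport u := by
    refine closure_minimal (fun x hx => ?_) ((isClosed_tsupport χ).union (isClosed_tsupport u))
    by_contra h
    exact hx (hzero x h)
  have hvc : HasCompactSupport fun x => χ x + (1 - χ x) * (2 * u x) :=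
    (IsCompact.union hχc hu.comp).of_isClosed_subset (isClosed_tsupport _) hvs
  have hadm : Adm (Metric.ball w (2 * r)) (Metric.closedBall w r \ D) fun x => χ x + (1 - χ x) * (2 * u x) := by
    refine ⟨hv, hvc, hvs.trans (union_subset hχs hu.sub), fun x hx => ?_⟩
    by_cases hux : 1 / 2 < u x
    · have h1 : 0 ≤ (1 - χ x) * (2 * u x - 1) := mul_nonneg (by linarith [hχ1 x]) (by linarith)
      linarith
    · have h1 : χ x = 1 := (hχA x ⟨hx, hux⟩).self_of_nhds
      rw [h1]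
      simp
  refine (cap_le _ _ _ hadm).trans
    ((ht_energy χ u hχ hχc hu.smooth hu.comp hχ0 hχ1 hun hu1 hv hvc).trans ?_)
  have h1 : energy u ≤ C * (ε / (4 ^ (m + 1) * (1 + C))) := hue.trans (mul_le_mul_of_nonneg_left hu0e.le hC)
  calc 4 ^ (m + 1) * (energy χ + energy u)
      ≤ 4 ^ (m + 1) * (ε / (4 ^ (m + 1) * (1 + C)) + C * (ε / (4 ^ (m + 1) * (1 + C)))) :=
        mul_le_mul_of_nonneg_left (add_le_add hχe h1) (by positivity)
    _ = ε := by
      field_simp

end Pool.Agent.H46.MM
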