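import Mathlib

/-!
A continuous strictly monotone function on a compact connected set with a linear order (given by an injective `τ`) whose closed
rays are closed. For `f ≥ 0` continuous and bounded by 1 put `F f p = sSup (f '' {w ∈ G | τ w ≤ τ p})`.
`F f` is continuous on `G`: lower: take `w` in the ray of `p` with `f w > F f p - ε`; if `w ≠ p` then `p` is in the open set
`{q | τ q > τ w}` (complement of a closed ray), where `F f ≥ f w`; if `w = p` use `F f q ≥ f q`. Upper: `K = {w ∈ G | f w ≥ F f p + ε}` is compact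
and misses the ray of `p`; if it is nonempty it has a `τ`-smallest point `w0` (finite intersection property for the closed rays; a compact set in which
every closed ray is closed), and on the open set `{q | τ q < τ w0}`, which contains `p`, `F f ≤ F f p + ε`.
`φ p = ∑' k, (1/2)^k F (f_k) p`, `f_k` running through the functions `min 1 (max 0 (r - dist w d))`, `r > 0` rational, `d` in a countable dense set of
`G`: for `τ p < τ q` the point `q` is not in the (closed) ray of `p`, so some `f_k` has `f_k q > 0` and `f_k = 0` on the ray of `p`.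
-/

set_option autoImplicit false

namespace Pool.Agent.H46.MM

open Set Topology

private theorem ord_open {Y : Type*} [TopologicalSpace Y] (t : Y → ℝ)
    (hU : ∀ m, IsOpen {w | t w < t m}) (hV : ∀ m, IsOpen {w | t m < t w}) (p q : Y) (h : t p < t q) :
    ∀ᶠ z : Y × Y in 𝓝 (p, q), t z.1 < t z.2 := by
  by_cases hm : ∃ m, t p < t m ∧ t m < t q
  · obtain ⟨m, h1, h2⟩ := hm
    have h3 : {w | t w < t m} ×ˢ {w | t m < t w} ∈ 𝓝 (p, q) :=
      ((hU m).prod (hV m)).mem_nhds ⟨h1, h2⟩
    filter_upwards [h3] with z hz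
    exact lt_trans hz.1 hz.2
  · have h3 : {w | t w < t q} ×ˢ {w | t p < t w} ∈ 𝓝 (p, q) :=
      ((hU q).prod (hV p)).mem_nhds ⟨h, h⟩
    filter_upwards [h3] with z hz
    have h4 : t z.1 ≤ t p := by
      by_contra hc
      exact hm ⟨z.1, not_le.1 hc, hz.1⟩
    exact lt_of_le_of_lt h4 hz.2

private noncomputable def FF {Y : Type*} (t f : Y → ℝ) (p : Y) : ℝ := sSup (f '' {w | t w ≤ t p})

private theorem le_FF {Y : Type*} [TopologicalSpace Y] [CompactSpace Y] (t : Y → ℝ) {f : Y → ℝ}
    (hf : Continuous f) {p w : Y} (h : t w ≤ t p) : f w ≤ FF t f p := by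
  refine le_csSup ?_ ⟨w, h, rfl⟩
  exact (isCompact_range hf).bddAbove.mono (image_subset_range _ _)

private theorem exists_FF {Y : Type*} [TopologicalSpace Y] [CompactSpace Y] (t : Y → ℝ)
    (hlo : ∀ p, IsClosed {w | t w ≤ t p}) {f : Y → ℝ}
    (hf : Continuous f) (p : Y) : ∃ w, t w ≤ t p ∧ f w = FF t f p := by
  obtain ⟨w, hw, h1⟩ := (hlo p).isCompact.exists_sSup_image_eq ⟨p, le_refl (t p)⟩ hf.continuousOn
  exact ⟨w, hw, h1.symm⟩

private theorem FF_cont {Y : Type*} [TopologicalSpace Y] [CompactSpace Y] (t : Y → ℝ)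
    (ht : Function.Injective t) (hlo : ∀ p, IsClosed {w | t w ≤ t p})
    (hU : ∀ m, IsOpen {w | t w < t m}) (hV : ∀ m, IsOpen {w | t m < t w}) {f : Y → ℝ}
    (hf : Continuous f) : Continuous (FF t f) := by
  rw [continuous_iff_continuousAt]
  intro p
  refine tendsto_order.2 ⟨fun a ha => ?_, fun a ha => ?_⟩
  · obtain ⟨w, hw, h1⟩ := exists_FF t hlo hf p
    rw [← h1] at ha
    rcases lt_or_eq_of_le hw with h2 | h2
    · filter_upwards [(hV w).mem_nhds h2] with q hq
      exact lt_of_lt_of_le ha (le_FF t hf (le_of_lt hq))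
    · have h3 : w = p := ht h2
      rw [h3] at ha
      filter_upwards [hf.continuousAt.eventually (lt_mem_nhds ha)] with q hq
      exact lt_of_lt_of_le hq (le_FF t hf le_rfl)
  · have hK : IsCompact {w | a ≤ f w} := (isClosed_le continuous_const hf).isCompact
    have h1 : ∀ w ∈ {w | a ≤ f w}, ∀ᶠ z : Y × Y in 𝓝 (p, w), t z.1 < t z.2 := by
      intro w hw
      apply ord_open t hU hV
      by_contra hc
      have h2 := le_FF t hf (not_lt.1 hc)
      have h3 : a ≤ f w := hw
      linarith
    have h2 := hK.eventually_forall_of_forall_eventually (P := fun x w => t x < t w) h1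
    filter_upwards [h2] with q hq
    obtain ⟨w, hw, h3⟩ := exists_FF t hlo hf q
    rw [← h3]
    by_contra hc
    exact absurd (hq w (not_lt.1 hc)) (not_lt.2 hw)

private theorem core {Y : Type*} [MetricSpace Y] [CompactSpace Y] (t : Y → ℝ)
    (ht : Function.Injective t) (hlo : ∀ p, IsClosed {w | t w ≤ t p})
    (hhi : ∀ p, IsClosed {w | t p ≤ t w}) :
    ∃ φ : Y → ℝ, Continuous φ ∧ ∀ p q, t p < t q → φ p < φ q := by
  have hU : ∀ m, IsOpen {w | t w < t m} := by
    intro m
    have h := (hhi m).isOpen_compl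
    have h2 : {w | t m ≤ t w}ᶜ = {w | t w < t m} := by
      ext w
      simp only [mem_compl_iff, mem_ofPred_eq, not_le]
    rwa [h2] at h
  have hV : ∀ m, IsOpen {w | t m < t w} := by
    intro m
    have h := (hlo m).isOpen_compl
    have h2 : {w | t w ≤ t m}ᶜ = {w | t m < t w} := by
      ext w
      simp only [mem_compl_iff, mem_ofPred_eq, not_le]
    rwa [h2] at h
  rcases isEmpty_or_nonempty Y with hY | hY
  · exact ⟨fun _ => 0, continuous_const, fun p => (hY.false p).elim⟩
  let D := TopologicalSpace.denseSeq Y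
  have hD : DenseRange D := TopologicalSpace.denseRange_denseSeq Y
  let r : ℕ → ℝ := fun n => 1 / ((n : ℝ) + 1)
  have hr : ∀ n, 0 < r n := fun n => by positivity
  have hr1 : ∀ n, r n ≤ 1 := by
    intro n
    have h : (0 : ℝ) ≤ n := Nat.cast_nonneg n
    show 1 / ((n : ℝ) + 1) ≤ 1
    rw [div_le_one (by positivity)]
    linarith
  let f : ℕ → Y → ℝ := fun k w => max 0 (r k.unpair.2 - dist w (D k.unpair.1))
  have hf : ∀ k, Continuous (f k) := by
    intro k
    exact continuous_const.max (continuous_const.sub (continuous_id.dist continuous_const))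
  have hf0 : ∀ k w, 0 ≤ f k w := fun k w => le_max_left _ _
  have hf1 : ∀ k w, f k w ≤ 1 := by
    intro k w
    refine max_le zero_le_one ?_
    have h1 := hr1 k.unpair.2
    have h2 : 0 ≤ dist w (D k.unpair.1) := dist_nonneg
    linarith
  have hF0 : ∀ k p, 0 ≤ FF t (f k) p := fun k p => (hf0 k p).trans (le_FF t (hf k) le_rfl)
  have hF1 : ∀ k p, FF t (f k) p ≤ 1 := by
    intro k p
    obtain ⟨w, -, h⟩ := exists_FF t hlo (hf k) p
    rw [← h]
    exact hf1 k w
  have hb : ∀ k p, ‖(1 / 2 : ℝ) ^ k * FF t (f k) p‖ ≤ (1 / 2 : ℝ) ^ k := by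
    intro k p
    rw [norm_mul, Real.norm_of_nonneg (by positivity), Real.norm_of_nonneg (hF0 k p)]
    exact mul_le_of_le_one_right (by positivity) (hF1 k p)
  have hs : Summable fun k : ℕ => (1 / 2 : ℝ) ^ k := summable_geometric_of_lt_one (by norm_num) (by norm_num)
  have hsp : ∀ p, Summable fun k : ℕ => (1 / 2 : ℝ) ^ k * FF t (f k) p := fun p =>
    Summable.of_norm_bounded hs (fun k => hb k p)
  refine ⟨fun p => ∑' k : ℕ, (1 / 2 : ℝ) ^ k * FF t (f k) p, ?_, ?_⟩
  · exact continuous_tsum (fun k => continuous_const.mul (FF_cont t ht hlo hU hV (hf k))) hs hb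
  · intro p q hpq
    have hmono : ∀ k, FF t (f k) p ≤ FF t (f k) q := by
      intro k
      obtain ⟨w, h1, h2⟩ := exists_FF t hlo (hf k) p
      rw [← h2]
      exact le_FF t (hf k) (h1.trans hpq.le)
    obtain ⟨ε, hε, hball⟩ := Metric.isOpen_iff.1 (hV p) q hpq
    obtain ⟨n, hn⟩ := exists_nat_one_div_lt (show 0 < ε / 2 by linarith)
    obtain ⟨d, hd⟩ := hD.exists_dist_lt q (hr n)
    have hk1 : (Nat.pair d n).unpair.1 = d := by rw [Nat.unpair_pair]
    have hk2 : (Nat.pair d n).unpair.2 = n := by rw [Nat.unpair_pair]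
    have hfk : ∀ w, f (Nat.pair d n) w = max 0 (r n - dist w (D d)) := by
      intro w
      show max 0 (r (Nat.pair d n).unpair.2 - dist w (D (Nat.pair d n).unpair.1)) = _
      rw [hk1, hk2]
    have hstrict : FF t (f (Nat.pair d n)) p < FF t (f (Nat.pair d n)) q := by
      have h1 : FF t (f (Nat.pair d n)) p = 0 := by
        obtain ⟨w, h1, h2⟩ := exists_FF t hlo (hf (Nat.pair d n)) p
        rw [← h2, hfk w]
        apply max_eq_left
        by_contra hc
        have h3 : dist w (D d) < r n := by linarith [not_le.1 hc]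
        have h4 : dist w q < ε := by
          have h5 := dist_triangle w (D d) q
          rw [dist_comm (D d) q] at h5
          have h6 : r n < ε / 2 := hn
          linarith
        have h7 : t p < t w := hball h4
        linarith
      rw [h1]
      have h2 : 0 < f (Nat.pair d n) q := by
        rw [hfk q]
        exact lt_max_of_lt_right (by linarith)
      exact lt_of_lt_of_le h2 (le_FF t (hf _) le_rfl)
    refine Summable.tsum_lt_tsum (i := Nat.pair d n) ?_ ?_ (hsp p) (hsp q)
    · intro k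
      exact mul_le_mul_of_nonneg_left (hmono k) (by positivity)
    · exact mul_lt_mul_of_pos_left hstrict (by positivity)

theorem lin_fun {X : Type*} [MetricSpace X] (G : Set X) (hG : IsCompact G) (τ : X → ℝ)
    (hinj : InjOn τ G) (hlo : ∀ p ∈ G, IsClosed {w | w ∈ G ∧ τ w ≤ τ p})
    (hhi : ∀ p ∈ G, IsClosed {w | w ∈ G ∧ τ p ≤ τ w}) :
    ∃ φ : X → ℝ, ContinuousOn φ G ∧ ∀ p ∈ G, ∀ q ∈ G, τ p < τ q → φ p < φ q := by
  classical
  have hc : CompactSpace G := isCompact_iff_compactSpace.1 hG
  obtain ⟨φ, h1, h2⟩ := core (Y := G) (fun p => τ p) (fun p q h => Subtype.ext (hinj p.2 q.2 h))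
    (by
      intro p
      have h := (hlo p p.2).preimage (continuous_subtype_val (p := fun x => x ∈ G))
      have h2 : (Subtype.val : G → X) ⁻¹' {w | w ∈ G ∧ τ w ≤ τ p} = {w : G | τ w ≤ τ p} := by
        ext w
        exact ⟨fun h => h.2, fun h => ⟨w.2, h⟩⟩
      rwa [h2] at h)
    (by
      intro p
      have h := (hhi p p.2).preimage (continuous_subtype_val (p := fun x => x ∈ G))
      have h2 : (Subtype.val : G → X) ⁻¹' {w | w ∈ G ∧ τ p ≤ τ w} = {w : G | τ p ≤ τ w} := by
        ext w
        exact ⟨fun h => h.2, fun h => ⟨w.2, h⟩⟩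
      rwa [h2] at h)
  refine ⟨fun x => if h : x ∈ G then φ ⟨x, h⟩ else 0, ?_, ?_⟩
  · rw [continuousOn_iff_continuous_domRestrict]
    have h3 : G.domRestrict (fun x => if h : x ∈ G then φ ⟨x, h⟩ else 0) = φ := by
      ext x
      rw [domRestrict_apply, dif_pos x.2]
    rw [h3]
    exact h1
  · intro p hp q hq hpq
    show (if h : p ∈ G then φ ⟨p, h⟩ else 0) < (if h : q ∈ G then φ ⟨q, h⟩ else 0)
    rw [dif_pos hp, dif_pos hq]
    exact h2 ⟨p, hp⟩ ⟨q, hq⟩ hpq

end Pool.Agent.H46.MM
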