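import Mathlib

/-!
A compact connected set with a continuous injective real function is an arc. `φ '' G = Icc (φ x) (φ y)`
(`eq_Icc_of_connected_compact`), the inverse is continuous (`G` compact), compose with the affine map from `[0,1]`.
-/

set_option autoImplicit false

namespace Pool.Agent.H46.MM

open Set

theorem par {X : Type*} [MetricSpace X] (G : Set X) (hG : IsCompact G) (hc : IsConnected G) (φ : X → ℝ)
    (hφ : ContinuousOn φ G) (hinj : InjOn φ G) (x y : X) (hx : x ∈ G) (hy : y ∈ G) (hxy : x ≠ y)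
    (hmin : ∀ p ∈ G, φ x ≤ φ p) (hmax : ∀ p ∈ G, φ p ≤ φ y) :
    ∃ η : ℝ → X, ContinuousOn η (Icc 0 1) ∧ InjOn η (Icc 0 1) ∧ η 0 = x ∧ η 1 = y ∧
      η '' Icc 0 1 = G := by
  have hab : φ x < φ y := lt_of_le_of_ne (hmin y hy) fun h => hxy (hinj hx hy h)
  have hba : 0 < φ y - φ x := sub_pos.2 hab
  have himg : Icc (φ x) (φ y) ⊆ φ '' G :=
    (hc.isPreconnected.image φ hφ).Icc_subset ⟨x, hx, rfl⟩ ⟨y, hy, rfl⟩
  have hex : ∀ t : Icc (0 : ℝ) 1, ∃ g : G, φ g = φ x + t * (φ y - φ x) := by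
    rintro ⟨t, ht0, ht1⟩
    obtain ⟨g, hg, hgt⟩ := himg (show φ x + t * (φ y - φ x) ∈ Icc (φ x) (φ y) from
      ⟨by nlinarith, by nlinarith⟩)
    exact ⟨⟨g, hg⟩, hgt⟩
  choose ψ hψ using hex
  have hGc : CompactSpace G := isCompact_iff_compactSpace.1 hG
  have hr : Continuous (G.domRestrict φ) := continuousOn_iff_continuous_domRestrict.1 hφ
  have hri : Function.Injective (G.domRestrict φ) := injOn_iff_injective.1 hinj
  have hemb := hr.isClosedEmbedding hri
  have hψc : Continuous ψ := by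
    rw [hemb.isEmbedding.isInducing.continuous_iff]
    have e : G.domRestrict φ ∘ ψ = fun t : Icc (0 : ℝ) 1 => φ x + t * (φ y - φ x) := by
      ext t
      exact hψ t
    rw [e]
    fun_prop
  refine ⟨fun t => if h : t ∈ Icc (0 : ℝ) 1 then (ψ ⟨t, h⟩ : X) else x, ?_, ?_, ?_, ?_, ?_⟩
  · rw [continuousOn_iff_continuous_domRestrict]
    have e : (Icc (0 : ℝ) 1).domRestrict (fun t => if h : t ∈ Icc (0 : ℝ) 1 then (ψ ⟨t, h⟩ : X) else x) =
        fun t => (ψ t : X) := by
      ext t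
      simp only [domRestrict_apply, dif_pos t.2]
    rw [e]
    exact continuous_subtype_val.comp hψc
  · intro s hs t ht hst
    simp only [dif_pos hs, dif_pos ht] at hst
    have h1 := hψ ⟨s, hs⟩
    have h2 := hψ ⟨t, ht⟩
    rw [hst, h2] at h1
    have h3 : (t - s) * (φ y - φ x) = 0 := by
      simp only at h1
      linarith
    rcases mul_eq_zero.1 h3 with h4 | h4
    · linarith
    · exact absurd h4 hba.ne'
  · have h0 : (0 : ℝ) ∈ Icc (0 : ℝ) 1 := ⟨le_rfl, zero_le_one⟩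
    simp only [dif_pos h0]
    refine hinj (ψ ⟨0, h0⟩).2 hx ?_
    rw [hψ ⟨0, h0⟩]
    simp
  · have h0 : (1 : ℝ) ∈ Icc (0 : ℝ) 1 := ⟨zero_le_one, le_rfl⟩
    simp only [dif_pos h0]
    refine hinj (ψ ⟨1, h0⟩).2 hy ?_
    rw [hψ ⟨1, h0⟩]
    simp
  · ext g
    constructor
    · rintro ⟨t, ht, rfl⟩
      simp only [dif_pos ht]
      exact (ψ ⟨t, ht⟩).2
    · intro hg
      have ht : (φ g - φ x) / (φ y - φ x) ∈ Icc (0 : ℝ) 1 := by
        constructor
        · exact div_nonneg (sub_nonneg.2 (hmin g hg)) hba.le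
        · rw [div_le_one hba]
          linarith [hmax g hg]
      refine ⟨(φ g - φ x) / (φ y - φ x), ht, ?_⟩
      simp only [dif_pos ht]
      refine hinj (ψ ⟨_, ht⟩).2 hg ?_
      rw [hψ ⟨_, ht⟩]
      simp only
      rw [div_mul_cancel₀ _ hba.ne']
      ring

end Pool.Agent.H46.MM
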