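import Mathlib

/-!
First times on an irreducible path. `T p = Icc 0 1 ∩ γ ⁻¹' {p}` (compact, nonempty for `p ∈ G`), `τ p = sInf (T p)`,
`σ p = sSup (T p)`. `{w ∈ G | τ w ≤ τ p} = γ '' Icc 0 (τ p)`. `{w ∈ G | τ p ≤ τ w} = γ '' Icc (σ p) 1`:
the union of `γ '' Icc 0 (τ p)` and `γ '' Icc (σ p) 1` is a continuum (they meet in `p`) that contains `x, y`, so it is `G`: a `w` with `τ w > τ p`
is in the second. If `w = γ t`, `t ≥ σ p`, has `τ w < τ p`, then `t > σ p` and `γ '' Icc 0 (τ w) ∪ γ '' Icc t 1` (meeting in `w`) is a continuum with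
`x, y` that misses `p`: contradiction. `τ x = 0`. `τ p ≤ τ y`: otherwise `γ '' Icc 0 (τ y)` misses `p`.
-/

set_option autoImplicit false

namespace Pool.Agent.H46.MM

open Set

theorem first_times {X : Type*} [MetricSpace X] (G : Set X) (γ : ℝ → X) (hγ : ContinuousOn γ (Icc 0 1))
    (hG : G = γ '' Icc 0 1) (x y : X) (h0 : γ 0 = x) (h1 : γ 1 = y)
    (hirr : ∀ C' : Set X, IsCompact C' → IsConnected C' → x ∈ C' → y ∈ C' → C' ⊆ G → C' = G) :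
    ∃ τ : X → ℝ, InjOn τ G ∧ (∀ p ∈ G, IsClosed {w | w ∈ G ∧ τ w ≤ τ p}) ∧
      (∀ p ∈ G, IsClosed {w | w ∈ G ∧ τ p ≤ τ w}) ∧ ∀ p ∈ G, τ x ≤ τ p ∧ τ p ≤ τ y := by
  obtain ⟨T, hT⟩ : ∃ T : X → Set ℝ, T = fun p => Icc 0 1 ∩ γ ⁻¹' {p} := ⟨_, rfl⟩
  have hTm : ∀ p t, t ∈ T p ↔ (0 ≤ t ∧ t ≤ 1) ∧ γ t = p := by
    intro p t
    rw [hT]
    exact Iff.rfl
  have hTc : ∀ p, IsCompact (T p) := by
    intro p
    rw [hT]
    exact isCompact_Icc.of_isClosed_subset (hγ.preimage_isClosed_of_isClosed isClosed_Icc isClosed_singleton)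
      inter_subset_left
  have hTn : ∀ p ∈ G, (T p).Nonempty := by
    intro p hp
    rw [hG] at hp
    obtain ⟨t, ht, rfl⟩ := hp
    exact ⟨t, (hTm _ _).2 ⟨ht, rfl⟩⟩
  obtain ⟨τ, hτ⟩ : ∃ τ : X → ℝ, τ = fun p => sInf (T p) := ⟨_, rfl⟩
  obtain ⟨σ, hσ⟩ : ∃ σ : X → ℝ, σ = fun p => sSup (T p) := ⟨_, rfl⟩
  have hτm : ∀ p ∈ G, (0 ≤ τ p ∧ τ p ≤ 1) ∧ γ (τ p) = p := by
    intro p hp
    rw [← hTm, hτ]
    exact (hTc p).sInf_mem (hTn p hp)
  have hσm : ∀ p ∈ G, (0 ≤ σ p ∧ σ p ≤ 1) ∧ γ (σ p) = p := by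
    intro p hp
    rw [← hTm, hσ]
    exact (hTc p).sSup_mem (hTn p hp)
  have hτle : ∀ t, 0 ≤ t → t ≤ 1 → τ (γ t) ≤ t := by
    intro t ht0 ht1
    rw [hτ]
    exact csInf_le (hTc _).bddBelow ((hTm _ _).2 ⟨⟨ht0, ht1⟩, rfl⟩)
  have hσge : ∀ t, 0 ≤ t → t ≤ 1 → t ≤ σ (γ t) := by
    intro t ht0 ht1
    rw [hσ]
    exact le_csSup (hTc _).bddAbove ((hTm _ _).2 ⟨⟨ht0, ht1⟩, rfl⟩)
  have hsub : ∀ a b : ℝ, 0 ≤ a → b ≤ 1 → γ '' Icc a b ⊆ G := by
    intro a b ha hb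
    rw [hG]
    exact image_mono (Icc_subset_Icc ha hb)
  have hcomp : ∀ a b : ℝ, 0 ≤ a → b ≤ 1 → IsCompact (γ '' Icc a b) := fun a b ha hb =>
    isCompact_Icc.image_of_continuousOn (hγ.mono (Icc_subset_Icc ha hb))
  have hconn : ∀ a b : ℝ, 0 ≤ a → b ≤ 1 → a ≤ b → IsConnected (γ '' Icc a b) := fun a b ha hb hab =>
    (isConnected_Icc hab).image γ (hγ.mono (Icc_subset_Icc ha hb))
  have hxG : x ∈ G := by
    rw [hG, ← h0]
    exact mem_image_of_mem γ ⟨le_rfl, zero_le_one⟩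
  have hyG : y ∈ G := by
    rw [hG, ← h1]
    exact mem_image_of_mem γ ⟨zero_le_one, le_rfl⟩
  -- a point of an initial piece
  have hini : ∀ p ∈ G, ∀ s, s ≤ 1 → p ∈ γ '' Icc 0 s → τ p ≤ s := by
    rintro p hp s hs ⟨t, ht, rfl⟩
    exact (hτle t ht.1 (ht.2.trans hs)).trans ht.2
  have hfin : ∀ p ∈ G, ∀ s, 0 ≤ s → p ∈ γ '' Icc s 1 → s ≤ σ p := by
    rintro p hp s hs ⟨t, ht, rfl⟩
    exact ht.1.trans (hσge t (hs.trans ht.1) ht.2)
  -- two pieces which meet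
  have htwo : ∀ a b : ℝ, 0 ≤ a → a ≤ 1 → 0 ≤ b → b ≤ 1 → γ a = γ b → γ '' Icc 0 a ∪ γ '' Icc b 1 = G := by
    intro a b ha ha1 hb hb1 hab
    refine hirr _ ((hcomp 0 a le_rfl ha1).union (hcomp b 1 hb le_rfl)) ?_ ?_ ?_ ?_
    · refine IsConnected.union ⟨γ a, ?_⟩ (hconn 0 a le_rfl ha1 ha) (hconn b 1 hb le_rfl hb1)
      refine ⟨mem_image_of_mem γ ⟨ha, le_rfl⟩, ?_⟩
      rw [hab]
      exact mem_image_of_mem γ ⟨le_rfl, hb1⟩
    · left
      rw [← h0]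
      exact mem_image_of_mem γ ⟨le_rfl, ha⟩
    · right
      rw [← h1]
      exact mem_image_of_mem γ ⟨hb1, le_rfl⟩
    · exact union_subset (hsub 0 a le_rfl ha1) (hsub b 1 hb le_rfl)
  have hτx : τ x ≤ 0 := by
    have := hτle 0 le_rfl zero_le_one
    rwa [h0] at this
  refine ⟨τ, ?_, ?_, ?_, ?_⟩
  · intro p hp q hq hpq
    rw [← (hτm p hp).2, ← (hτm q hq).2, hpq]
  · intro p hp
    have e : {w | w ∈ G ∧ τ w ≤ τ p} = γ '' Icc 0 (τ p) := by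
      ext w
      constructor
      · rintro ⟨hw, hwp⟩
        exact ⟨τ w, ⟨(hτm w hw).1.1, hwp⟩, (hτm w hw).2⟩
      · intro hw
        have hwG := hsub 0 (τ p) le_rfl (hτm p hp).1.2 hw
        exact ⟨hwG, hini w hwG _ (hτm p hp).1.2 hw⟩
    rw [e]
    exact (hcomp 0 _ le_rfl (hτm p hp).1.2).isClosed
  · intro p hp
    have e : {w | w ∈ G ∧ τ p ≤ τ w} = γ '' Icc (σ p) 1 := by
      ext w
      constructor
      · rintro ⟨hw, hwp⟩
        rcases hwp.lt_or_eq with hlt | heq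
        · have hU := htwo (τ p) (σ p) (hτm p hp).1.1 (hτm p hp).1.2 (hσm p hp).1.1 (hσm p hp).1.2
            ((hτm p hp).2.trans (hσm p hp).2.symm)
          have hwU : w ∈ γ '' Icc 0 (τ p) ∪ γ '' Icc (σ p) 1 := by
            rw [hU]
            exact hw
          rcases hwU with h | h
          · exact absurd (hini w hw _ (hτm p hp).1.2 h) (not_le.2 hlt)
          · exact h
        · have hwp' : w = p := by
            rw [← (hτm w hw).2, ← (hτm p hp).2, heq]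
          rw [hwp']
          exact ⟨σ p, ⟨le_rfl, (hσm p hp).1.2⟩, (hσm p hp).2⟩
      · rintro ⟨t, ht, rfl⟩
        have ht0 : 0 ≤ t := (hσm p hp).1.1.trans ht.1
        have hwG : γ t ∈ G := hsub (σ p) 1 (hσm p hp).1.1 le_rfl (mem_image_of_mem γ ht)
        refine ⟨hwG, ?_⟩
        by_contra hcon
        have hcon := not_le.1 hcon
        have hne : t ≠ σ p := by
          intro he
          rw [he, (hσm p hp).2] at hcon
          exact lt_irrefl _ hcon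
        have hlt : σ p < t := lt_of_le_of_ne ht.1 (Ne.symm hne)
        have hU := htwo (τ (γ t)) t (hτm _ hwG).1.1 (hτm _ hwG).1.2 ht0 ht.2 (hτm _ hwG).2
        have hpU : p ∈ γ '' Icc 0 (τ (γ t)) ∪ γ '' Icc t 1 := by
          rw [hU]
          exact hp
        rcases hpU with h | h
        · exact absurd (hini p hp _ (hτm _ hwG).1.2 h) (not_le.2 hcon)
        · exact absurd (hfin p hp _ ht0 h) (not_le.2 hlt)
    rw [e]
    exact (hcomp _ 1 (hσm p hp).1.1 le_rfl).isClosed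
  · intro p hp
    refine ⟨hτx.trans (hτm p hp).1.1, ?_⟩
    by_contra hcon
    have hcon := not_le.1 hcon
    have hy := hτm y hyG
    have hU : γ '' Icc 0 (τ y) = G := by
      refine hirr _ (hcomp 0 _ le_rfl hy.1.2) (hconn 0 _ le_rfl hy.1.2 hy.1.1) ?_ ?_ (hsub 0 _ le_rfl hy.1.2)
      · rw [← h0]
        exact mem_image_of_mem γ ⟨le_rfl, hy.1.1⟩
      · exact ⟨τ y, ⟨hy.1.1, le_rfl⟩, hy.2⟩
    have hpU : p ∈ γ '' Icc 0 (τ y) := by
      rw [hU]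
      exact hp
    exact absurd (hini p hp _ hy.1.2 hpU) (not_le.2 hcon)

end Pool.Agent.H46.MM
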