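import Pool.Agent.H46.MM.ArcEnd
import Pool.Agent.H46.MM.Lin
import Pool.Agent.H46.MM.Par
import Pool.Agent.H46.MM.Tau

/-!
Minimizers that contain a path between their endpoints are Jordan arcs.
-/

set_option autoImplicit false

namespace Pool.Agent.H46.MM

open Set

theorem jordan {m : ℕ} (hm : 1 ≤ m) (D : Set (E m)) (hD : IsOpen D) (hDu : D ≠ univ)
    (hT : Thick D) (x y : E m) (hxy : x ≠ y) (C : Set (E m)) (hC : IsMin D x y C)
    (hj : JoinedIn C x y) :
    (∃ η : ℝ → E m, ContinuousOn η (Icc 0 1) ∧ InjOn η (Icc 0 1) ∧ η 0 = x ∧ η 1 = y ∧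
      η '' Icc 0 1 = C) ∧ interior C = ∅ ∧
    ∀ C' : Set (E m), Cont D x y C' → C' ⊆ C → C' = C := by
  obtain ⟨γ0, hγ0⟩ := hj
  have hγ : ContinuousOn γ0.extend (Icc 0 1) := γ0.continuous_extend.continuousOn
  have h0 : γ0.extend 0 = x := γ0.extend_zero
  have h1 : γ0.extend 1 = y := γ0.extend_one
  have hγC : γ0.extend '' Icc 0 1 ⊆ C := by
    rintro z ⟨t, ht, rfl⟩
    rw [γ0.extend_apply ht]
    exact hγ0 _
  obtain ⟨hCG, hint⟩ := path_min hm D hD hDu hT x y hxy C hC _ hγ h0 h1 hγC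
  have hirr := path_irr hm D hD hDu hT x y hxy C hC _ hγ h0 h1 hγC
  have hint' : interior C = ∅ := by
    rw [← Set.subset_empty_iff, ← hint]
    exact interior_mono subset_union_left
  refine ⟨?_, hint', hirr⟩
  obtain ⟨τ, hτi, hlo, hhi, hend⟩ := first_times C _ hγ hCG x y h0 h1
    (fun C' h1 h2 h3 h4 h5 => hirr C' ⟨h1, h2, h5.trans hC.cont.sub, h3, h4⟩ h5)
  obtain ⟨φ, hφ, hmono⟩ := lin_fun C hC.cont.compact τ hτi hlo hhi
  have hle : ∀ p ∈ C, ∀ q ∈ C, τ p ≤ τ q → φ p ≤ φ q := by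
    intro p hp q hq h
    rcases h.lt_or_eq with h | h
    · exact (hmono p hp q hq h).le
    · rw [hτi hp hq h]
  refine par C hC.cont.compact hC.cont.conn φ hφ ?_ x y hC.cont.memx hC.cont.memy hxy
    (fun p hp => hle x hC.cont.memx p hp (hend p hp).1) (fun p hp => hle p hp y hC.cont.memy (hend p hp).2)
  intro p hp q hq h
  rcases lt_trichotomy (τ p) (τ q) with h2 | h2 | h2
  · have := hmono p hp q hq h2
    linarith
  · exact hτi hp hq h2
  · have := hmono q hq p hp h2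
    linarith

end Pool.Agent.H46.MM
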