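import Pool.Agent.H46.MM.HullConn
import Pool.Agent.H46.MM.HullCap
import Pool.Agent.H46.MM.HullTop
import Pool.Agent.H46.MM.Jor

/-!
A minimizer for `D` is a minimizer for `hull D`; minimizers that contain a path are Jordan arcs, for all `D`.
-/

set_option autoImplicit false

namespace Pool.Agent.H46.MM

open MeasureTheory Filter Topology Set

theorem hull_min {m : ℕ} (D : Set (E m)) (hD : IsOpen D) (x y : E m) (C : Set (E m)) (hC : IsMin D x y C) :
    IsMin (hull D) x y C := by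
  have hDH := sub_hull D hD
  have hHo := hull_open D hD
  have hCont : Cont (hull D) x y C := ⟨hC.cont.compact, hC.cont.conn, hC.cont.sub.trans hDH, hC.cont.memx, hC.cont.memy⟩
  have h1 : cap (hull D) C ≤ cap D C := by
    obtain ⟨u0, hu0⟩ := exists_adm D C hD hC.cont.compact hC.cont.sub
    refine le_csInf ⟨_, u0, hu0, rfl⟩ ?_
    rintro _ ⟨u, hu, rfl⟩
    exact cap_le _ _ u ⟨hu.smooth, hu.comp, hu.sub.trans hDH, hu.one⟩
  refine ⟨hCont, le_antisymm ?_ (modMetric_le _ _ _ _ hCont)⟩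
  refine h1.trans (le_csInf ⟨_, C, hCont, rfl⟩ ?_)
  rintro _ ⟨C1, hC1, rfl⟩
  obtain ⟨u0, hu0⟩ := exists_adm (hull D) C1 hHo hC1.compact hC1.sub
  refine le_csInf ⟨_, u0, hu0, rfl⟩ ?_
  rintro _ ⟨u, hu, rfl⟩
  have key : ∀ δ : ℝ, 0 < δ → δ < 1 → cap D C ≤ (1 - δ)⁻¹ ^ (m + 1) * energy u := by
    intro δ hδ0 hδ1
    have hS : IsOpen {z : E m | 1 - δ < u z} := isOpen_lt continuous_const hu.smooth.continuous
    have hC1S : C1 ⊆ {z : E m | 1 - δ < u z} := fun z hz => by
      have := hu.one z hz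
      show 1 - δ < u z
      linarith
    have hOS : connectedComponentIn {z : E m | 1 - δ < u z} x ⊆ {z : E m | 1 - δ < u z} :=
      connectedComponentIn_subset _ _
    have hOo : IsOpen (connectedComponentIn {z : E m | 1 - δ < u z} x) := hS.connectedComponentIn
    have hOH : connectedComponentIn {z : E m | 1 - δ < u z} x ⊆ hull D := by
      intro z hz
      have h2 : 1 - δ < u z := hOS hz
      exact hu.sub (subset_tsupport _ (by rw [Function.mem_support]; linarith))
    have hconn := hull_conn D hD _ hOo isPreconnected_connectedComponentIn hOH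
    have hC1O := hC1.conn.isPreconnected.subset_connectedComponentIn hC1.memx hC1S
    have hxO : x ∈ connectedComponentIn {z : E m | 1 - δ < u z} x ∩ D := ⟨hC1O hC1.memx, hC.cont.sub hC.cont.memx⟩
    have hyO : y ∈ connectedComponentIn {z : E m | 1 - δ < u z} x ∩ D := ⟨hC1O hC1.memy, hC.cont.sub hC.cont.memy⟩
    obtain ⟨P, hPc, hPn, hPx, hPy, hPs⟩ := conn_path _ (hOo.inter hD) ⟨⟨x, hxO⟩, hconn⟩ x y hxO hyO
    have hPD : P ⊆ D := hPs.trans inter_subset_right
    have hPC : Cont D x y P := ⟨hPc, hPn, hPD, hPx, hPy⟩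
    have h2 : cap D C ≤ cap D P := by
      rw [hC.eq]
      exact modMetric_le D x y P hPC
    have h3 := hull_cap D hD hDH P hPc hPD
    have hpos : 0 < 1 - δ := by linarith
    have hadm : Adm (hull D) P (fun z => (1 - δ)⁻¹ * u z) := by
      refine ⟨contDiff_const.mul hu.smooth, hu.comp.mul_left, ?_, fun z hz => ?_⟩
      · exact (closure_mono fun z hz => by
          rw [Function.mem_support] at hz ⊢
          intro h0
          apply hz
          rw [h0, mul_zero]).trans hu.sub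
      · have h4 : 1 - δ < u z := hOS (hPs hz).1
        rw [inv_mul_eq_div, le_div_iff₀ hpos]
        linarith
    have h4 := cap_le (hull D) P _ hadm
    rw [energy_smul _ u hu.smooth, abs_of_pos (inv_pos.2 hpos)] at h4
    exact (h2.trans h3).trans h4
  have hlim : Tendsto (fun δ : ℝ => (1 - δ)⁻¹ ^ (m + 1) * energy u) (𝓝[>] 0) (𝓝 ((1 - 0)⁻¹ ^ (m + 1) * energy u)) := by
    refine tendsto_nhdsWithin_of_tendsto_nhds ?_
    have hc : ContinuousAt (fun δ : ℝ => (1 - δ)⁻¹ ^ (m + 1) * energy u) 0 := by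
      refine ContinuousAt.mul ((ContinuousAt.inv₀ (by fun_prop) (by norm_num)).pow _) continuousAt_const
    exact hc.tendsto
  rw [sub_zero, inv_one, one_pow, one_mul] at hlim
  refine ge_of_tendsto hlim ?_
  have h5 : Ioo (0 : ℝ) 1 ∈ 𝓝[>] (0 : ℝ) := Ioo_mem_nhdsGT one_pos
  filter_upwards [h5] with δ hδ using key δ hδ.1 hδ.2

theorem jordan_hull {m : ℕ} (hm : 1 ≤ m) (D : Set (E m)) (hD : IsOpen D) (hDu : hull D ≠ univ)
    (x y : E m) (hxy : x ≠ y) (C : Set (E m)) (hC : IsMin D x y C) (hj : JoinedIn C x y) :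
    (∃ η : ℝ → E m, ContinuousOn η (Icc 0 1) ∧ InjOn η (Icc 0 1) ∧ η 0 = x ∧ η 1 = y ∧
      η '' Icc 0 1 = C) ∧ interior C = ∅ ∧
    ∀ C' : Set (E m), Cont D x y C' → C' ⊆ C → C' = C := by
  obtain ⟨h1, h2, h3⟩ := jordan hm (hull D) (hull_open D hD) hDu (hull_thick D hD) x y hxy C (hull_min D hD x y C hC) hj
  exact ⟨h1, h2, fun C' h' => h3 C' ⟨h'.compact, h'.conn, h'.sub.trans (sub_hull D hD), h'.memx, h'.memy⟩⟩

end Pool.Agent.H46.MM
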