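import Pool.Agent.H46.MM.NullCut

/-!
If all points are removable, the boundary has capacity zero.
-/

set_option autoImplicit false

namespace Pool.Agent.H46.MM

open MeasureTheory Filter Topology Set

theorem hull_pos {m : ℕ} (D : Set (E m)) (hD : IsOpen D) (K B : Set (E m)) (hK : IsCompact K) (hKD : Disjoint K D)
    (hB : IsOpen B) (hKB : K ⊆ B) (hc : 0 < cap B K) : hull D ≠ univ := by
  intro h
  obtain ⟨χ, h1, h2, h3, -, -, h6, h7⟩ := null_cut D hD K hK (by rw [h]; exact subset_univ _) hKD B hB hKB
    (cap B K / 2) (half_pos hc)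
  have h8 := cap_le B K χ ⟨h1, h2, h3, fun x hx => (h7 x hx).self_of_nhds.ge⟩
  linarith

end Pool.Agent.H46.MM
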