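import Pool.Agent.H46.MM.Basic
import Pool.Agent.H46.MM.Cut

/-!
The energy inequality. `u` smooth with compact support, `v` smooth, `θ` as in `exists_cut`,
`Λ x = (u x - v x) - θ (u x - v x)` (assumed to have compact support), `w = u - Λ`:
`∇ Λ = (1 - θ' (u - v)) (∇ u - ∇ v)`, `∇ w = ∇ u - λ (∇ u - ∇ v)`, `λ = 1 - θ' (u - v)` in `[0,1]`; integrate `conv` with
`A = ∇ u`, `B = ∇ v`: `λ ⟪B, A - B⟫ = ⟪∇ v, ∇ Λ⟫`.
-/

set_option autoImplicit false

namespace Pool.Agent.H46.MM

open MeasureTheory

private theorem iq_grad {m : ℕ} (u v : E m → ℝ) (θ : ℝ → ℝ) (x : E m) (hu : DifferentiableAt ℝ u x)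
    (hv : DifferentiableAt ℝ v x) (hθ : DifferentiableAt ℝ θ (u x - v x)) :
    gradient (fun y => (u y - v y) - θ (u y - v y)) x =
      (1 - deriv θ (u x - v x)) • (gradient u x - gradient v x) := by
  have h1 : HasFDerivAt (fun y => u y - v y) (fderiv ℝ u x - fderiv ℝ v x) x :=
    hu.hasFDerivAt.sub hv.hasFDerivAt
  have h2 : HasDerivAt (fun s => s - θ s) (1 - deriv θ (u x - v x)) (u x - v x) :=
    (hasDerivAt_id _).sub hθ.hasDerivAt
  have h3 : HasFDerivAt ((fun s => s - θ s) ∘ fun y => u y - v y)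
      ((1 - deriv θ (u x - v x)) • (fderiv ℝ u x - fderiv ℝ v x)) x :=
    HasDerivAt.comp_hasFDerivAt x h2 h1
  have h4 : fderiv ℝ (fun y => (u y - v y) - θ (u y - v y)) x =
      (1 - deriv θ (u x - v x)) • (fderiv ℝ u x - fderiv ℝ v x) := h3.fderiv
  unfold gradient
  rw [h4, map_smulₛₗ, (InnerProductSpace.toDual ℝ (E m)).symm.map_sub]
  rfl

private theorem iq_int {m : ℕ} (v L : E m → ℝ) (hv : ContDiff ℝ (⊤ : ℕ∞) v) (hL : ContDiff ℝ (⊤ : ℕ∞) L)
    (hc : HasCompactSupport L) :
    Integrable fun x => ‖gradient v x‖ ^ (m - 1) * inner ℝ (gradient v x) (gradient L x) := by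
  have c1 : Continuous (gradient v) := by
    unfold gradient
    exact (InnerProductSpace.toDual ℝ (E m)).symm.continuous.comp (hv.continuous_fderiv (by simp))
  have c2 : Continuous (gradient L) := by
    unfold gradient
    exact (InnerProductSpace.toDual ℝ (E m)).symm.continuous.comp (hL.continuous_fderiv (by simp))
  have hcs : HasCompactSupport (gradient L) := by
    have := (hc.fderiv (𝕜 := ℝ)).comp_left (g := (InnerProductSpace.toDual ℝ (E m)).symm) (map_zero _)
    exact this
  refine Continuous.integrable_of_hasCompactSupport ?_ ?_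
  · exact (c1.norm.pow _).mul (c1.inner c2)
  · refine hcs.mono fun x hx => ?_
    rw [Function.mem_support] at hx ⊢
    intro h
    rw [h, inner_zero_right, mul_zero] at hx
    exact hx rfl

theorem ineq {m : ℕ} (hm : 1 ≤ m) (u v : E m → ℝ) (hu : ContDiff ℝ (⊤ : ℕ∞) u) (hc : HasCompactSupport u)
    (hv : ContDiff ℝ (⊤ : ℕ∞) v) (θ : ℝ → ℝ) (hθ : ContDiff ℝ (⊤ : ℕ∞) θ) (h0 : ∀ s, 0 ≤ deriv θ s)
    (h1 : ∀ s, deriv θ s ≤ 1) (hΛ : HasCompactSupport fun x => (u x - v x) - θ (u x - v x)) :
    energy (fun x => u x - ((u x - v x) - θ (u x - v x))) ≤ energy u -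
      (m + 1) * ∫ x, ‖gradient v x‖ ^ (m - 1) *
        inner ℝ (gradient v x) (gradient (fun y => (u y - v y) - θ (u y - v y)) x) := by
  obtain ⟨L, hL⟩ : ∃ L : E m → ℝ, L = fun x => (u x - v x) - θ (u x - v x) := ⟨_, rfl⟩
  have hLs : ContDiff ℝ (⊤ : ℕ∞) L := by
    rw [hL]
    exact (hu.sub hv).sub (hθ.comp (hu.sub hv))
  have hLc : HasCompactSupport L := by rw [hL]; exact hΛ
  have hg : ∀ x, gradient L x = (1 - deriv θ (u x - v x)) • (gradient u x - gradient v x) := fun x => by
    rw [hL]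
    exact iq_grad u v θ x (hu.differentiable (by simp)).differentiableAt
      (hv.differentiable (by simp)).differentiableAt (hθ.differentiable (by simp)).differentiableAt
  have e1 : (fun x => u x - ((u x - v x) - θ (u x - v x))) = fun x => u x - L x := by rw [hL]
  have hws : ContDiff ℝ (⊤ : ℕ∞) (fun x => u x - L x) := hu.sub hLs
  have hwc : HasCompactSupport (fun x => u x - L x) := by
    exact hc.sub hLc
  have i1 := integ _ hws hwc
  have i2 := integ u hu hc
  have i3 := iq_int v L hv hLs hLc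
  rw [e1, ← hL]
  unfold energy
  rw [← integral_const_mul, ← integral_sub i2 (i3.const_mul _)]
  refine integral_mono i1 (i2.sub (i3.const_mul _)) fun x => ?_
  have hc1 := conv m hm (gradient u x) (gradient v x) (1 - deriv θ (u x - v x)) (by linarith [h1 (u x - v x)])
    (by linarith [h0 (u x - v x)])
  have e2 : gradient (fun y => u y - L y) x = gradient u x - (1 - deriv θ (u x - v x)) •
      (gradient u x - gradient v x) := by
    rw [grad_sub u L x (hu.differentiable (by simp)).differentiableAt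
      (hLs.differentiable (by simp)).differentiableAt, hg]
  simp only
  rw [e2, hg, inner_smul_right]
  refine hc1.trans (le_of_eq ?_)
  ring

end Pool.Agent.H46.MM
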