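import Pool.Agent.H46.MM.Strict

/-!
Minimizers are irreducible up to filling holes.
-/

set_option autoImplicit false

namespace Pool.Agent.H46.MM

open MeasureTheory Filter Topology Set

theorem modMetric_le {m : ℕ} (D : Set (E m)) (x y : E m) (C : Set (E m)) (h : Cont D x y C) :
    modMetric D x y ≤ cap D C := by
  refine csInf_le ⟨0, ?_⟩ ⟨C, h, rfl⟩
  rintro c ⟨C, _, rfl⟩
  exact cap_nonneg D C

/-- the part outside `D` of a component of the complement of `C'` that meets `C` is locally of capacity zero -/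
theorem irr_loc {m : ℕ} (hm : 1 ≤ m) (D : Set (E m)) (hD : IsOpen D)
    (x y : E m) (hxy : x ≠ y) (C : Set (E m)) (hC : IsMin D x y C) (C' : Set (E m)) (h' : Cont D x y C')
    (hCC : C' ⊆ C) (z : E m) (hz : z ∈ C) (hz' : z ∉ C') (w : E m) (hw : w ∈ connectedComponentIn C'ᶜ z) :
    ∃ r : ℝ, 0 < r ∧ cap (Metric.ball w (2 * r)) (Metric.closedBall w r \ D) = 0 := by
  by_contra hcon
  push Not at hcon
  have hT : ∀ r : ℝ, 0 < r → 0 < cap (Metric.ball w (2 * r)) (Metric.closedBall w r \ D) := fun r hr =>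
    lt_of_le_of_ne (cap_nonneg _ _) (Ne.symm (hcon r hr))
  have hU : IsOpen (connectedComponentIn C'ᶜ z) := h'.compact.isClosed.isOpen_compl.connectedComponentIn
  have hle : cap D C ≤ cap D C' := by
    rw [hC.eq]
    exact modMetric_le D x y C' h'
  have hdis := strict hm D C' C hD hC.cont.compact hC.cont.sub hC.cont.conn.isPreconnected
    ⟨x, hC.cont.memx, y, hC.cont.memy, hxy⟩ hCC hle (connectedComponentIn C'ᶜ z) hU
    isPreconnected_connectedComponentIn
    (Set.disjoint_left.2 fun t ht => connectedComponentIn_subset _ _ ht) w hw hT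
  exact Set.disjoint_left.1 hdis (mem_connectedComponentIn hz') hz

theorem irr {m : ℕ} (hm : 1 ≤ m) (D : Set (E m)) (hD : IsOpen D) (hT : Thick D)
    (x y : E m) (hxy : x ≠ y) (C : Set (E m)) (hC : IsMin D x y C) (C' : Set (E m)) (h' : Cont D x y C')
    (hCC : C' ⊆ C) (z : E m) (hz : z ∈ C) (hz' : z ∉ C') : connectedComponentIn C'ᶜ z ⊆ D := by
  intro w hw
  by_contra hwD
  obtain ⟨r, hr, h0⟩ := irr_loc hm D hD x y hxy C hC C' h' hCC z hz hz' w hw
  have := hT w hwD r hr
  linarith

end Pool.Agent.H46.MM
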