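import Pool.Agent.H46.MM.MPoin

/-!
Poincaré inequality in `L^n` for functions with support in a fixed ball: `mpoin a (2 R)` gives `c` with
`∫_{ball a (2 R)} |Λ - c|^n ≤ C energy Λ`; on `ball a (2 R) \ ball a R` we have `Λ = 0`, so `|c|^n ≤ C' energy Λ`, and
`∫ |Λ|^n ≤ 2^n (∫_{ball a (2 R)} |Λ - c|^n + |c|^n |ball a (2 R)|)`.
-/

set_option autoImplicit false

namespace Pool.Agent.H46.MM

open MeasureTheory

theorem lpoin {m : ℕ} (a : E m) (R : ℝ) (hR : 0 < R) : ∃ C : ℝ, 0 ≤ C ∧
    ∀ Λ : E m → ℝ, ContDiff ℝ (⊤ : ℕ∞) Λ → (∀ x, R ≤ dist x a → Λ x = 0) →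
      ∫ x, |Λ x| ^ (m + 1) ≤ C * energy Λ := by
  obtain ⟨C, hC, hmp⟩ := mpoin a (2 * R) (by linarith)
  obtain ⟨p, hp⟩ : ∃ p : E m, dist p a = 3 * R / 2 := by
    refine ⟨a + (3 * R / 2) • EuclideanSpace.single 0 (1 : ℝ), ?_⟩
    rw [dist_eq_norm, add_sub_cancel_left, norm_smul, Real.norm_eq_abs, abs_of_pos (by linarith)]
    simp
  set B : Set (E m) := Metric.ball a (2 * R) with hB
  set S : Set (E m) := Metric.ball p (R / 2) with hS
  have hSB : S ⊆ B := by
    intro x hx
    rw [hS, Metric.mem_ball] at hx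
    rw [hB, Metric.mem_ball]
    have := dist_triangle x p a
    linarith
  have hSd : ∀ x ∈ S, R ≤ dist x a := by
    intro x hx
    rw [hS, Metric.mem_ball] at hx
    have := dist_triangle_left p a x
    linarith
  have hSt : volume S ≠ ⊤ := measure_ball_lt_top.ne
  have hBt : volume B ≠ ⊤ := measure_ball_lt_top.ne
  have hS0 : 0 < volume.real S := by
    rw [Measure.real, ENNReal.toReal_pos_iff]
    exact ⟨Metric.measure_ball_pos volume p (by linarith), measure_ball_lt_top⟩
  refine ⟨2 ^ m * (C + volume.real B * (C / volume.real S)), by positivity, ?_⟩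
  intro Λ hΛ hz
  obtain ⟨c, hc⟩ := hmp Λ hΛ
  have hcomp : HasCompactSupport Λ := HasCompactSupport.intro (isCompact_closedBall a R) (fun x hx => by
    rw [Metric.mem_closedBall, not_le] at hx
    exact hz x hx.le)
  have h1 : ∫ x in B, ‖gradient Λ x‖ ^ (m + 1) ≤ energy Λ :=
    setIntegral_le_integral (integ Λ hΛ hcomp) (Filter.Eventually.of_forall fun x => by positivity)
  have hcont : Continuous Λ := hΛ.continuous
  have hI : ∀ f : E m → ℝ, Continuous f → IntegrableOn f B := fun f hf =>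
    (hf.continuousOn.integrableOn_compact (isCompact_closedBall a (2 * R))).mono_set
      Metric.ball_subset_closedBall
  have hf1 : Continuous fun x => |Λ x - c| ^ (m + 1) := by fun_prop
  have hf2 : Continuous fun x => |Λ x| ^ (m + 1) := by fun_prop
  have h2 : ∫ x in S, |Λ x - c| ^ (m + 1) ≤ ∫ x in B, |Λ x - c| ^ (m + 1) :=
    setIntegral_mono_set (hI _ hf1) (Filter.Eventually.of_forall fun x => by positivity)
      (LE.le.eventuallyLE hSB)
  have h3 : ∫ x in S, |Λ x - c| ^ (m + 1) = volume.real S * |c| ^ (m + 1) := by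
    have e : ∫ x in S, |Λ x - c| ^ (m + 1) = ∫ x in S, |c| ^ (m + 1) := by
      refine setIntegral_congr_fun measurableSet_ball fun x hx => ?_
      have h4 := hz x (hSd x hx)
      simp only [h4, zero_sub, abs_neg]
    rw [e, setIntegral_const, smul_eq_mul]
  have h4 : ∫ x, |Λ x| ^ (m + 1) = ∫ x in B, |Λ x| ^ (m + 1) := by
    rw [setIntegral_eq_integral_of_forall_compl_eq_zero]
    intro x hx
    rw [hB, Metric.mem_ball, not_lt] at hx
    rw [hz x (by linarith), abs_zero, zero_pow (by omega)]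
  have h5 : ∫ x in B, |Λ x| ^ (m + 1) ≤ ∫ x in B, 2 ^ m * (|Λ x - c| ^ (m + 1) + |c| ^ (m + 1)) := by
    refine setIntegral_mono (hI _ hf2) (hI _ (by fun_prop)) fun x => ?_
    have g1 : |Λ x| ≤ |Λ x - c| + |c| := by
      have := abs_add_le (Λ x - c) c
      rwa [sub_add_cancel] at this
    have g2 := add_pow_le (abs_nonneg (Λ x - c)) (abs_nonneg c) (m + 1)
    rw [Nat.add_sub_cancel] at g2
    exact (pow_le_pow_left₀ (abs_nonneg _) g1 _).trans g2
  have h6 : ∫ x in B, 2 ^ m * (|Λ x - c| ^ (m + 1) + |c| ^ (m + 1)) =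
      2 ^ m * ((∫ x in B, |Λ x - c| ^ (m + 1)) + volume.real B * |c| ^ (m + 1)) := by
    rw [integral_const_mul, integral_add (hI _ hf1) (hI _ (by fun_prop)), setIntegral_const, smul_eq_mul]
  have h7 : ∫ x in B, |Λ x - c| ^ (m + 1) ≤ C * energy Λ :=
    hc.trans (mul_le_mul_of_nonneg_left h1 hC)
  have h8 : |c| ^ (m + 1) ≤ C * energy Λ / volume.real S := by
    rw [le_div_iff₀ hS0, mul_comm, ← h3]
    exact h2.trans h7
  rw [h4]
  refine h5.trans ?_
  rw [h6, mul_assoc]
  refine mul_le_mul_of_nonneg_left ?_ (by positivity)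
  have h9 : volume.real B * |c| ^ (m + 1) ≤ volume.real B * (C * energy Λ / volume.real S) :=
    mul_le_mul_of_nonneg_left h8 measureReal_nonneg
  have e : (C + volume.real B * (C / volume.real S)) * energy Λ =
      C * energy Λ + volume.real B * (C * energy Λ / volume.real S) := by ring
  rw [e]
  exact add_le_add h7 h9

end Pool.Agent.H46.MM
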