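import Pool.Agent.H46.MM.Basic

/-!
Truncation: `v = σ ∘ u`, `σ s = Real.smoothTransition (2 s - 1)`: `0 ≤ σ ≤ 1`, `σ s = 1` for `s ≥ 1`, `σ s = 0` for `s ≤ 1/2`, `|σ'| ≤ S`
(continuous with compact support); `C = S ^ (m + 1)`. (Compare `seq_step` in Seq.lean.)
-/

set_option autoImplicit false

namespace Pool.Agent.H46.MM

open MeasureTheory

theorem trunc (m : ℕ) : ∃ C : ℝ, 0 ≤ C ∧ ∀ (D K : Set (E m)) (u : E m → ℝ), Adm D K u →
    ∃ v : E m → ℝ, Adm D K v ∧ (∀ x, 0 ≤ v x) ∧ (∀ x, v x ≤ 1) ∧ energy v ≤ C * energy u := by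
  obtain ⟨σ, hσ⟩ : ∃ σ : ℝ → ℝ, σ = fun s => Real.smoothTransition (2 * s - 1) := ⟨_, rfl⟩
  have hσs : ContDiff ℝ (⊤ : ℕ∞) σ := by
    rw [hσ]
    exact Real.smoothTransition.contDiff.comp ((contDiff_const.mul contDiff_id).sub contDiff_const)
  have hσ0 : ∀ s, s ≤ 1 / 2 → σ s = 0 := fun s hs => by
    rw [hσ]
    exact Real.smoothTransition.zero_of_nonpos (by linarith)
  have hσ1 : ∀ s, 1 ≤ s → σ s = 1 := fun s hs => by
    rw [hσ]
    exact Real.smoothTransition.one_of_one_le (by linarith)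
  have hσn : ∀ s, 0 ≤ σ s := fun s => by
    rw [hσ]
    exact Real.smoothTransition.nonneg _
  have hσl : ∀ s, σ s ≤ 1 := fun s => by
    rw [hσ]
    exact Real.smoothTransition.le_one _
  have hσd : ∀ s, HasDerivAt σ (deriv σ s) s := fun s =>
    (hσs.differentiable (by simp)).differentiableAt.hasDerivAt
  have hcont : Continuous (deriv σ) := hσs.continuous_deriv (by simp)
  obtain ⟨S, hS⟩ := (isCompact_Icc (a := (0 : ℝ)) (b := 2)).exists_bound_of_continuousOn
    hcont.continuousOn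
  have hS0 : 0 ≤ S := (norm_nonneg _).trans (hS 0 (by norm_num))
  have hSd : ∀ s, ‖deriv σ s‖ ≤ S := by
    intro s
    by_cases h0 : s < 0
    · have h1 : deriv σ s = deriv (fun _ : ℝ => (0 : ℝ)) s := by
        apply Filter.EventuallyEq.deriv_eq
        filter_upwards [Iio_mem_nhds h0] with r hr
        exact hσ0 r (by have : r < 0 := hr; linarith)
      rw [h1, deriv_const, norm_zero]
      exact hS0
    · by_cases h2 : 2 < s
      · have h1 : deriv σ s = deriv (fun _ : ℝ => (1 : ℝ)) s := by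
          apply Filter.EventuallyEq.deriv_eq
          filter_upwards [Ioi_mem_nhds h2] with r hr
          exact hσ1 r (by have : 2 < r := hr; linarith)
        rw [h1, deriv_const, norm_zero]
        exact hS0
      · exact hS s ⟨not_lt.1 h0, not_lt.1 h2⟩
  refine ⟨S ^ (m + 1), pow_nonneg hS0 _, fun D K u hu => ?_⟩
  have hz : σ 0 = 0 := hσ0 0 (by norm_num)
  have hus : ContDiff ℝ (⊤ : ℕ∞) (σ ∘ u) := hσs.comp hu.smooth
  have huc : HasCompactSupport (σ ∘ u) := hu.comp.comp_left hz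
  refine ⟨σ ∘ u, ⟨hus, huc, ?_, fun x hx => (hσ1 _ (hu.one x hx)).ge⟩, fun x => hσn _, fun x => hσl _, ?_⟩
  · exact (closure_mono (Function.support_comp_subset hz u)).trans hu.sub
  unfold energy
  rw [← integral_const_mul]
  refine integral_mono (integ _ hus huc) ((integ _ hu.smooth hu.comp).const_mul _) fun x => ?_
  show ‖gradient (σ ∘ u) x‖ ^ (m + 1) ≤ S ^ (m + 1) * ‖gradient u x‖ ^ (m + 1)
  rw [← mul_pow]
  refine pow_le_pow_left₀ (norm_nonneg _) ?_ _
  rw [norm_grad, norm_grad]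
  have hfd : HasFDerivAt u (fderiv ℝ u x) x :=
    ((hu.smooth.differentiable (by simp)) x).hasFDerivAt
  have h8 : HasFDerivAt (σ ∘ u) (deriv σ (u x) • fderiv ℝ u x) x := (hσd (u x)).comp_hasFDerivAt x hfd
  rw [h8.fderiv, norm_smul]
  exact mul_le_mul_of_nonneg_right (hSd _) (norm_nonneg _)

end Pool.Agent.H46.MM
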