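import Pool.Agent.H46.MM.HullDef
import Pool.Agent.H46.MM.Trunc
import Pool.Agent.H46.MM.LPoin

/-!
Local cut-offs of small energy. `η` a `ContDiffBump` at `p` (`rIn = ρ/2`, `rOut = 3 ρ / 4`); `cap = 0` gives `u` admissible for
`(ball w (2 r), closedBall w r \ D)` with energy as small as we like (`exists_lt`), by `trunc` with `0 ≤ u ≤ 1`. `χ = σ (η u)`,
`σ s = Real.smoothTransition (4 s - 1)` (`= 1` for `s ≥ 1/2`, `= 0` for `s ≤ 1/4`, `|σ'| ≤ S`): `energy χ ≤ S^n 2^n (energy u + T^n ∫ |u|^n)`,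
`T` a bound of `‖∇ η‖`, and `∫ |u|^n ≤ C energy u` (`lpoin w (2 r)`). Near `x ∈ closedBall p (ρ/2) \ D` we have `η u > 1/2` (`u x ≥ 1`, `η x = 1`).
-/

set_option autoImplicit false

namespace Pool.Agent.H46.MM

open MeasureTheory Filter Topology

/-- the cut-off of the values -/
private theorem lc_sigma : ∃ (σ : ℝ → ℝ) (S : ℝ), 0 ≤ S ∧ ContDiff ℝ (⊤ : ℕ∞) σ ∧ σ 0 = 0 ∧ (∀ s, 0 ≤ σ s) ∧
    (∀ s, σ s ≤ 1) ∧ (∀ s, 1 / 2 ≤ s → σ s = 1) ∧ ∀ s, |deriv σ s| ≤ S := by
  obtain ⟨σ, hσ⟩ : ∃ σ : ℝ → ℝ, σ = fun s => Real.smoothTransition (4 * s - 1) := ⟨_, rfl⟩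
  have hs : ContDiff ℝ (⊤ : ℕ∞) σ := by
    rw [hσ]
    exact Real.smoothTransition.contDiff.comp ((contDiff_const.mul contDiff_id).sub contDiff_const)
  have h1 : ∀ s, 1 / 2 ≤ s → σ s = 1 := fun s hs => by
    rw [hσ]
    exact Real.smoothTransition.one_of_one_le (by linarith)
  have h0 : ∀ s, s ≤ 1 / 4 → σ s = 0 := fun s hs => by
    rw [hσ]
    exact Real.smoothTransition.zero_of_nonpos (by linarith)
  have hc : Continuous (deriv σ) := hs.continuous_deriv (by simp)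
  have hcs : HasCompactSupport (deriv σ) := by
    refine HasCompactSupport.intro (K := Set.Icc (1 / 4 : ℝ) (1 / 2)) isCompact_Icc fun s hs' => ?_
    rcases lt_or_ge s (1 / 4) with h | h
    · have h2 : σ =ᶠ[𝓝 s] fun _ => (0 : ℝ) := by
        filter_upwards [Iio_mem_nhds h] with t ht using h0 t (le_of_lt ht)
      rw [h2.deriv_eq]
      simp
    · have h3 : 1 / 2 < s := by
        by_contra hcon
        exact hs' ⟨h, not_lt.1 hcon⟩
      have h2 : σ =ᶠ[𝓝 s] fun _ => (1 : ℝ) := by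
        filter_upwards [Ioi_mem_nhds h3] with t ht using h1 t (le_of_lt ht)
      rw [h2.deriv_eq]
      simp
  obtain ⟨S, hS⟩ := hc.bounded_above_of_compact_support hcs
  refine ⟨σ, S, (norm_nonneg _).trans (hS 0), hs, h0 0 (by norm_num), fun s => ?_, fun s => ?_, h1, hS⟩
  · rw [hσ]
    exact Real.smoothTransition.nonneg _
  · rw [hσ]
    exact Real.smoothTransition.le_one _

theorem loc_cut {m : ℕ} (D : Set (E m)) (hD : IsOpen D) (w : E m) (r : ℝ) (hr : 0 < r)
    (h0 : cap (Metric.ball w (2 * r)) (Metric.closedBall w r \ D) = 0) (p : E m) (ρ : ℝ) (hρ : 0 < ρ)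
    (hsub : Metric.closedBall p ρ ⊆ Metric.closedBall w r) (ε : ℝ) (hε : 0 < ε) :
    ∃ χ : E m → ℝ, ContDiff ℝ (⊤ : ℕ∞) χ ∧ tsupport χ ⊆ Metric.ball p ρ ∧ (∀ x, 0 ≤ χ x) ∧ (∀ x, χ x ≤ 1) ∧
      energy χ ≤ ε ∧ ∀ x ∈ Metric.closedBall p (ρ / 2), x ∉ D → ∀ᶠ y in 𝓝 x, χ y = 1 := by
  obtain ⟨σ, S, hS0, hσs, hσ0, hσn, hσ1, hσh, hσd⟩ := lc_sigma
  obtain ⟨Ct, hCt, htr⟩ := trunc m
  obtain ⟨Cp, hCp, hlp⟩ := lpoin w (2 * r) (by positivity)
  let B : ContDiffBump p := ⟨ρ / 2, 3 * ρ / 4, by positivity, by linarith⟩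
  obtain ⟨η, hη⟩ : ∃ η : E m → ℝ, η = B := ⟨_, rfl⟩
  have hηs : ContDiff ℝ (⊤ : ℕ∞) η := by
    rw [hη]
    exact B.contDiff
  have hηc : HasCompactSupport η := by
    rw [hη]
    exact B.hasCompactSupport
  have hηt : tsupport η ⊆ Metric.ball p ρ := by
    rw [hη, B.tsupport_eq]
    exact Metric.closedBall_subset_ball (by show 3 * ρ / 4 < ρ; linarith)
  have hη1 : ∀ x ∈ Metric.closedBall p (ρ / 2), η x = 1 := fun x hx => by
    rw [hη]
    exact B.one_of_mem_closedBall hx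
  have hηn : ∀ x, 0 ≤ η x := fun x => by
    rw [hη]
    exact B.nonneg
  have hηl : ∀ x, η x ≤ 1 := fun x => by
    rw [hη]
    exact B.le_one
  obtain ⟨T, hT⟩ := (hηs.continuous_fderiv (by simp)).bounded_above_of_compact_support
    (hηc.fderiv (𝕜 := ℝ))
  have hT0 : 0 ≤ T := (norm_nonneg _).trans (hT p)
  obtain ⟨M, hM⟩ : ∃ M : ℝ, M = S ^ (m + 1) * 2 ^ m * (1 + T ^ (m + 1) * Cp) * Ct := ⟨_, rfl⟩
  have hM0 : 0 ≤ M := by
    rw [hM]
    positivity
  have hε' : 0 < ε / (M + 1) := by positivity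
  have hK : IsCompact (Metric.closedBall w r \ D) := (isCompact_closedBall w r).diff hD
  have hKD : Metric.closedBall w r \ D ⊆ Metric.ball w (2 * r) :=
    Set.sdiff_subset.trans (Metric.closedBall_subset_ball (by linarith))
  obtain ⟨u0, hu0, hu0e⟩ := exists_lt _ _ Metric.isOpen_ball hK hKD _ hε'
  rw [h0, zero_add] at hu0e
  obtain ⟨u, hu, hun, hul, hue⟩ := htr _ _ u0 hu0
  obtain ⟨χ, hχ⟩ : ∃ χ : E m → ℝ, χ = fun x => σ (η x * u x) := ⟨_, rfl⟩
  have hprod : ContDiff ℝ (⊤ : ℕ∞) (fun x => η x * u x) := hηs.mul hu.smooth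
  have hχs : ContDiff ℝ (⊤ : ℕ∞) χ := by
    rw [hχ]
    exact hσs.comp hprod
  have hsupp : Function.support χ ⊆ Function.support η := by
    intro x hx hx0
    apply hx
    rw [hχ]
    show σ (η x * u x) = 0
    rw [hx0, zero_mul, hσ0]
  have hχc : HasCompactSupport χ := hηc.mono hsupp
  have hηd : ∀ x, DifferentiableAt ℝ η x := fun x => (hηs.differentiable (by simp)).differentiableAt
  have hud : ∀ x, DifferentiableAt ℝ u x := fun x => (hu.smooth.differentiable (by simp)).differentiableAt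
  have hgrad : ∀ x, ‖gradient χ x‖ ≤ S * (‖gradient u x‖ + T * |u x|) := by
    intro x
    have hd : HasFDerivAt (fun x => η x * u x) (η x • fderiv ℝ u x + u x • fderiv ℝ η x) x :=
      (hηd x).hasFDerivAt.mul (hud x).hasFDerivAt
    have hs : HasDerivAt σ (deriv σ (η x * u x)) (η x * u x) :=
      (hσs.differentiable (by simp)).differentiableAt.hasDerivAt
    have hd2 : HasFDerivAt χ (deriv σ (η x * u x) • (η x • fderiv ℝ u x + u x • fderiv ℝ η x)) x := by
      rw [hχ]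
      exact hs.comp_hasFDerivAt x hd
    rw [norm_grad, norm_grad, hd2.fderiv, norm_smul, Real.norm_eq_abs]
    refine mul_le_mul (hσd _) ?_ (norm_nonneg _) hS0
    refine (norm_add_le _ _).trans ?_
    rw [norm_smul, norm_smul, Real.norm_eq_abs, Real.norm_eq_abs, abs_of_nonneg (hηn x)]
    refine add_le_add (mul_le_of_le_one_left (norm_nonneg _) (hηl x)) ?_
    rw [mul_comm]
    exact mul_le_mul_of_nonneg_right (hT x) (abs_nonneg _)
  have hui : Integrable fun x => |u x| ^ (m + 1) := by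
    have h1 : Continuous fun x => |u x| ^ (m + 1) := hu.smooth.continuous.abs.pow _
    have h2 : HasCompactSupport fun x => |u x| ^ (m + 1) :=
      hu.comp.comp_left (g := fun s : ℝ => |s| ^ (m + 1)) (by simp)
    exact h1.integrable_of_hasCompactSupport h2
  have hu0' : ∀ x, 2 * r ≤ dist x w → u x = 0 := by
    intro x hx
    by_contra hne
    have h1 : x ∈ Metric.ball w (2 * r) := hu.sub (subset_tsupport u hne)
    rw [Metric.mem_ball] at h1
    linarith
  have hpo := hlp u hu.smooth hu0'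
  have hen : energy χ ≤ S ^ (m + 1) * 2 ^ m * (energy u + T ^ (m + 1) * ∫ x, |u x| ^ (m + 1)) := by
    have h1 : energy χ ≤ ∫ x, S ^ (m + 1) * 2 ^ m * (‖gradient u x‖ ^ (m + 1) + T ^ (m + 1) * |u x| ^ (m + 1)) := by
      unfold energy
      refine integral_mono (integ _ hχs hχc)
        (((integ _ hu.smooth hu.comp).add (hui.const_mul _)).const_mul _) fun x => ?_
      show ‖gradient χ x‖ ^ (m + 1) ≤
        S ^ (m + 1) * 2 ^ m * (‖gradient u x‖ ^ (m + 1) + T ^ (m + 1) * |u x| ^ (m + 1))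
      refine (pow_le_pow_left₀ (norm_nonneg _) (hgrad x) _).trans ?_
      rw [mul_pow, mul_assoc]
      refine mul_le_mul_of_nonneg_left ?_ (by positivity)
      have h2 := add_pow_le (norm_nonneg (gradient u x)) (mul_nonneg hT0 (abs_nonneg (u x))) (m + 1)
      rw [Nat.add_sub_cancel, mul_pow T] at h2
      exact h2
    refine h1.trans (le_of_eq ?_)
    rw [integral_const_mul, integral_add (integ _ hu.smooth hu.comp) (hui.const_mul _), integral_const_mul]
    rfl
  have heu : 0 ≤ energy u0 := energy_nonneg u0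
  have hfin : energy χ ≤ ε := by
    have h1 : energy χ ≤ S ^ (m + 1) * 2 ^ m * (energy u + T ^ (m + 1) * (Cp * energy u)) :=
      hen.trans (mul_le_mul_of_nonneg_left (add_le_add le_rfl
        (mul_le_mul_of_nonneg_left hpo (by positivity))) (by positivity))
    have h2 : S ^ (m + 1) * 2 ^ m * (energy u + T ^ (m + 1) * (Cp * energy u)) =
        S ^ (m + 1) * 2 ^ m * (1 + T ^ (m + 1) * Cp) * energy u := by ring
    have h3 : S ^ (m + 1) * 2 ^ m * (1 + T ^ (m + 1) * Cp) * energy u ≤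
        S ^ (m + 1) * 2 ^ m * (1 + T ^ (m + 1) * Cp) * (Ct * energy u0) :=
      mul_le_mul_of_nonneg_left hue (by positivity)
    have h4 : S ^ (m + 1) * 2 ^ m * (1 + T ^ (m + 1) * Cp) * (Ct * energy u0) = M * energy u0 := by
      rw [hM]
      ring
    have h5 : M * energy u0 ≤ M * (ε / (M + 1)) := mul_le_mul_of_nonneg_left hu0e.le hM0
    have h6 : M * (ε / (M + 1)) ≤ ε := by
      rw [mul_div_assoc', div_le_iff₀ (by positivity)]
      nlinarith
    linarith
  refine ⟨χ, hχs, (closure_mono hsupp).trans hηt, fun x => ?_, fun x => ?_, hfin, fun x hx hxD => ?_⟩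
  · rw [hχ]
    exact hσn _
  · rw [hχ]
    exact hσ1 _
  · have h1 : x ∈ Metric.closedBall w r :=
      hsub (Metric.closedBall_subset_closedBall (by linarith) hx)
    have h2 : 1 ≤ u x := hu.one x ⟨h1, hxD⟩
    have h3 : (1 / 2 : ℝ) < η x * u x := by
      rw [hη1 x hx, one_mul]
      linarith
    have h4 : ∀ᶠ y in 𝓝 x, (1 / 2 : ℝ) < η y * u y :=
      hprod.continuous.continuousAt.eventually (lt_mem_nhds h3)
    filter_upwards [h4] with y hy
    rw [hχ]
    exact hσh _ hy.le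

end Pool.Agent.H46.MM
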