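import Pool.Agent.H46.MM.Basic

/-!
The logarithmic energy estimate for almost minimizers. `n = m + 1`, `G s = (1+ε-s)⁻¹ ^ m - (1+ε)⁻¹ ^ m`, `G 0 = 0`,
`G' s = m (1+ε-s)⁻¹ ^ (m+1) > 0` on `s ≤ 1 + ε/2`. Take `t > 0` with `t * m * (2/ε) ^ (m+1) ≤ 1` and compare `u` with
`u' = u - t η^(m+1) G(u)`: smooth (`1 + ε - u ≥ ε/2 > 0`), support in that of `u`, `u' = u` on `K'`: admissible for `(D, K')`, so
`cap D K' ≤ energy u'`. Pointwise `∇ u' = (1 - λ) ∇ u - b`, `λ = t η^(m+1) G'(u) ∈ [0, 1]`, `b = t (m+1) η^m G(u) ∇ η`. Where `η ≠ 0`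
(`λ > 0`) convexity of `‖·‖^n` gives `‖∇ u'‖^n ≤ (1 - λ) ‖∇ u‖^n + λ ‖b / λ‖^n`, and
`λ ‖b/λ‖^n = t n^n (|G|^n / G'^m) ‖∇ η‖^n ≤ t n^n 2^(m n) ‖∇ η‖^n`, because `|G(s)| ≤ 2^m (1+ε-s)⁻¹^m` for `-1/2 ≤ s ≤ 1 + ε/2`
(for `s ≥ 0` even with `1`; for `s < 0`: `|G| ≤ (1+ε)⁻¹^m ≤ 1`, `1 + ε - s ≤ 2`). Where `η = 0`: `b = 0`, `λ = 0`. Integrate:
`cap D K' ≤ energy u - t ∫ η^n G'(u) ‖∇ u‖^n + t n^n 2^(m n) energy η`, and `G'(u) ≥ (1+ε-u)⁻¹ ^ n`. `M = n^n 2^(m n) energy η`.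
(All integrands are continuous with compact support.)
-/

set_option autoImplicit false

namespace Pool.Agent.H46.MM

open MeasureTheory

/-- scalar inequality -/
private theorem le_scal (m : ℕ) (hm : 1 ≤ m) (g r t X h Gs Gp : ℝ) (hg : 0 < g) (hg1 : g ≤ 1) (hr : 0 < r)
    (ht : 0 < t) (hX : 0 ≤ X) (hh : 0 ≤ h) (hGp : Gp = m * r ^ (m + 1)) (hGs : |Gs| ≤ (2 * r) ^ m)
    (htG : t * Gp ≤ 1) :
    ((1 - t * g ^ (m + 1) * Gp) * X + t * ((m + 1) * g ^ m) * |Gs| * h) ^ (m + 1) + t * g ^ (m + 1) * (r * X) ^ (m + 1) ≤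
      X ^ (m + 1) + t * (((m : ℝ) + 1) ^ (m + 1) * 2 ^ (m * (m + 1))) * h ^ (m + 1) := by
  have hm1 : (1 : ℝ) ≤ m := by exact_mod_cast hm
  have hGp0 : 0 < Gp := by rw [hGp]; positivity
  have hGpr : r ^ (m + 1) ≤ Gp := by
    rw [hGp]
    have : 0 < r ^ (m + 1) := by positivity
    nlinarith
  set lam := t * g ^ (m + 1) * Gp with hlam
  have hlam0 : 0 ≤ lam := by positivity
  have hlam1 : lam ≤ 1 := by
    have h1 : g ^ (m + 1) ≤ 1 := pow_le_one₀ hg.le hg1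
    calc lam = g ^ (m + 1) * (t * Gp) := by rw [hlam]; ring
      _ ≤ 1 * 1 := mul_le_mul h1 htG (by positivity) (by norm_num)
      _ = 1 := one_mul _
  set Y := (m + 1) * |Gs| / (g * Gp) * h with hY
  have hY0 : 0 ≤ Y := by positivity
  have e1 : t * ((m + 1) * g ^ m) * |Gs| * h = lam * Y := by
    rw [hlam, hY]
    field_simp
    ring
  have hconv := (convexOn_pow (𝕜 := ℝ) (m + 1)).2 (Set.mem_Ici.2 hX) (Set.mem_Ici.2 hY0)
    (show 0 ≤ 1 - lam by linarith) hlam0 (by ring)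
  simp only [smul_eq_mul] at hconv
  have e2 : lam * Y ^ (m + 1) ≤ t * (((m : ℝ) + 1) ^ (m + 1) * 2 ^ (m * (m + 1))) * h ^ (m + 1) := by
    have h1 : lam * Y ^ (m + 1) = t * ((m : ℝ) + 1) ^ (m + 1) * h ^ (m + 1) * (|Gs| ^ (m + 1) / Gp ^ m) := by
      have hYp : Y ^ (m + 1) = (((m : ℝ) + 1) ^ (m + 1) * |Gs| ^ (m + 1) * h ^ (m + 1)) /
          (g ^ (m + 1) * (Gp ^ m * Gp)) := by
        rw [hY, div_mul_eq_mul_div, div_pow, mul_pow, mul_pow, mul_pow, pow_succ Gp m]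
      rw [hYp, hlam]
      field_simp
    have h2 : |Gs| ^ (m + 1) / Gp ^ m ≤ 2 ^ (m * (m + 1)) := by
      rw [div_le_iff₀ (by positivity)]
      have h3 : |Gs| ^ (m + 1) ≤ ((2 * r) ^ m) ^ (m + 1) := pow_le_pow_left₀ (abs_nonneg _) hGs _
      have h4 : (r ^ (m + 1)) ^ m ≤ Gp ^ m := pow_le_pow_left₀ (by positivity) hGpr _
      have h5 : ((2 * r) ^ m) ^ (m + 1) = 2 ^ (m * (m + 1)) * (r ^ (m + 1)) ^ m := by
        rw [← pow_mul, ← pow_mul, mul_pow]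
        congr 2
        ring
      rw [h5] at h3
      refine h3.trans ?_
      gcongr
    rw [h1]
    have h6 : 0 ≤ t * ((m : ℝ) + 1) ^ (m + 1) * h ^ (m + 1) := by positivity
    calc t * ((m : ℝ) + 1) ^ (m + 1) * h ^ (m + 1) * (|Gs| ^ (m + 1) / Gp ^ m)
        ≤ t * ((m : ℝ) + 1) ^ (m + 1) * h ^ (m + 1) * 2 ^ (m * (m + 1)) := mul_le_mul_of_nonneg_left h2 h6
      _ = _ := by ring
  have e3 : t * g ^ (m + 1) * (r * X) ^ (m + 1) ≤ lam * X ^ (m + 1) := by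
    rw [mul_pow, hlam]
    have h1 : 0 ≤ t * g ^ (m + 1) * X ^ (m + 1) := by positivity
    calc t * g ^ (m + 1) * (r ^ (m + 1) * X ^ (m + 1)) = t * g ^ (m + 1) * X ^ (m + 1) * r ^ (m + 1) := by ring
      _ ≤ t * g ^ (m + 1) * X ^ (m + 1) * Gp := mul_le_mul_of_nonneg_left hGpr h1
      _ = t * g ^ (m + 1) * Gp * X ^ (m + 1) := by ring
  rw [e1]
  linarith

/-- bound of `G` -/
private theorem le_G (m : ℕ) (ε s : ℝ) (hε : 0 < ε) (hε1 : ε ≤ 1 / 2) (h1 : -(1 / 2) ≤ s) (h2 : s ≤ 1 + ε / 2) :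
    |(1 + ε - s)⁻¹ ^ m - (1 + ε)⁻¹ ^ m| ≤ (2 * (1 + ε - s)⁻¹) ^ m := by
  have hp : 0 < 1 + ε - s := by linarith
  have hr : 0 < (1 + ε - s)⁻¹ := inv_pos.2 hp
  have hr0 : 0 < (1 + ε)⁻¹ := inv_pos.2 (by linarith)
  have hr1 : (1 + ε)⁻¹ ≤ 1 := inv_le_one_of_one_le₀ (by linarith)
  have hr2 : 1 / 2 ≤ (1 + ε - s)⁻¹ := by
    rw [one_div]
    exact inv_anti₀ hp (by linarith)
  have a1 : (1 + ε - s)⁻¹ ^ m ≤ (2 * (1 + ε - s)⁻¹) ^ m := pow_le_pow_left₀ hr.le (by linarith) m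
  have a2 : (1 + ε)⁻¹ ^ m ≤ (2 * (1 + ε - s)⁻¹) ^ m := pow_le_pow_left₀ hr0.le (by linarith) m
  have a3 : 0 < (1 + ε - s)⁻¹ ^ m := by positivity
  have a4 : 0 < (1 + ε)⁻¹ ^ m := by positivity
  rw [abs_le]
  constructor <;> linarith

/-- the gradient of the comparison function -/
private theorem le_grad {m : ℕ} (η u : E m → ℝ) (ε : ℝ) (x : E m) (hη : DifferentiableAt ℝ η x)
    (hu : DifferentiableAt ℝ u x) (hne : 1 + ε - u x ≠ 0) :
    gradient (fun y => η y ^ (m + 1) * ((1 + ε - u y)⁻¹ ^ m - (1 + ε)⁻¹ ^ m)) x =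
      (η x ^ (m + 1) * (m * (1 + ε - u x)⁻¹ ^ (m + 1))) • gradient u x +
      (((1 + ε - u x)⁻¹ ^ m - (1 + ε)⁻¹ ^ m) * ((m + 1) * η x ^ m)) • gradient η x := by
  have d1 : HasDerivAt (fun s : ℝ => s ^ (m + 1)) ((m + 1) * η x ^ m) (η x) := by
    have := hasDerivAt_pow (m + 1) (η x)
    simpa using this
  have f1 : HasFDerivAt (fun y => η y ^ (m + 1)) (((m + 1) * η x ^ m) • fderiv ℝ η x) x :=
    HasDerivAt.comp_hasFDerivAt (f := η) x d1 hη.hasFDerivAt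
  have d2 : HasDerivAt (fun s : ℝ => (1 + ε - s)⁻¹ ^ m - (1 + ε)⁻¹ ^ m) (m * (1 + ε - u x)⁻¹ ^ (m + 1)) (u x) := by
    have a1 : HasDerivAt (fun s : ℝ => 1 + ε - s) (-1) (u x) := by
      simpa using (hasDerivAt_id (u x)).const_sub (1 + ε)
    have a2 : HasDerivAt (fun s : ℝ => (1 + ε - s)⁻¹) (((1 + ε - u x)⁻¹) ^ 2) (u x) := by
      have this := a1.inv hne
      have e : -(-1 : ℝ) / (1 + ε - u x) ^ 2 = ((1 + ε - u x)⁻¹) ^ 2 := by
        rw [neg_neg, inv_pow, one_div]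
      rw [← e]
      exact this
    have a3 : HasDerivAt (fun s : ℝ => (1 + ε - s)⁻¹ ^ m - (1 + ε)⁻¹ ^ m)
        (m * (1 + ε - u x)⁻¹ ^ (m - 1) * ((1 + ε - u x)⁻¹) ^ 2) (u x) :=
      (a2.pow m).sub_const ((1 + ε)⁻¹ ^ m)
    have e : (m : ℝ) * (1 + ε - u x)⁻¹ ^ (m + 1) =
        m * (1 + ε - u x)⁻¹ ^ (m - 1) * ((1 + ε - u x)⁻¹) ^ 2 := by
      rcases Nat.eq_zero_or_pos m with h0 | h0
      · subst h0
        simp
      · obtain ⟨k, rfl⟩ : ∃ k, m = k + 1 := ⟨m - 1, by omega⟩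
        rw [Nat.add_sub_cancel]
        ring
    rw [e]
    exact a3
  have f2 : HasFDerivAt (fun y => (1 + ε - u y)⁻¹ ^ m - (1 + ε)⁻¹ ^ m)
      ((m * (1 + ε - u x)⁻¹ ^ (m + 1)) • fderiv ℝ u x) x :=
    HasDerivAt.comp_hasFDerivAt (f := u) x d2 hu.hasFDerivAt
  have f3 := f1.mul f2
  have f4 := f3.fderiv
  unfold gradient
  have e : (fun y => η y ^ (m + 1) * ((1 + ε - u y)⁻¹ ^ m - (1 + ε)⁻¹ ^ m)) =
      ((fun y => η y ^ (m + 1)) * fun y => (1 + ε - u y)⁻¹ ^ m - (1 + ε)⁻¹ ^ m) := rfl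
  first
    | rw [f4]
    | rw [e, f4]
  rw [map_add, map_smulₛₗ, map_smulₛₗ, map_smulₛₗ, map_smulₛₗ, smul_smul, smul_smul]
  rfl

theorem logE {m : ℕ} (hm : 1 ≤ m) (η : E m → ℝ) (hη : ContDiff ℝ (⊤ : ℕ∞) η) (hηc : HasCompactSupport η)
    (h0 : ∀ x, 0 ≤ η x) (h1 : ∀ x, η x ≤ 1) : ∃ M : ℝ, 0 ≤ M ∧ ∀ ε : ℝ, 0 < ε → ε ≤ 1 / 2 →
      ∃ t : ℝ, 0 < t ∧ ∀ (D K' : Set (E m)) (u : E m → ℝ), Adm D K' u → (∀ x ∈ K', η x = 0) →
        (∀ x, -(1 / 2) ≤ u x) → (∀ x, u x ≤ 1 + ε / 2) →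
        ∫ x, η x ^ (m + 1) * (‖gradient u x‖ / (1 + ε - u x)) ^ (m + 1) ≤ M + (energy u - cap D K') / t := by
  have hm1 : (1 : ℝ) ≤ m := by exact_mod_cast hm
  set M0 : ℝ := ((m : ℝ) + 1) ^ (m + 1) * 2 ^ (m * (m + 1)) with hM0
  have hM0p : 0 ≤ M0 := by positivity
  refine ⟨M0 * energy η, mul_nonneg hM0p (energy_nonneg η), ?_⟩
  intro ε hε hε1
  refine ⟨(m * (2 / ε) ^ (m + 1))⁻¹, by positivity, ?_⟩
  intro D K' u hu hK hlow hup
  set t : ℝ := (m * (2 / ε) ^ (m + 1))⁻¹ with ht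
  have ht0 : 0 < t := by positivity
  have hpos : ∀ x, 0 < 1 + ε - u x := fun x => by have := hup x; linarith
  set φ : E m → ℝ := fun y => η y ^ (m + 1) * ((1 + ε - u y)⁻¹ ^ m - (1 + ε)⁻¹ ^ m) with hφ
  have hφs : ContDiff ℝ (⊤ : ℕ∞) φ := by
    rw [hφ]
    refine (hη.pow _).mul ((ContDiff.pow ?_ m).sub contDiff_const)
    exact (contDiff_const.sub hu.smooth).inv fun x => (hpos x).ne'
  have hus : ContDiff ℝ (⊤ : ℕ∞) (fun x => u x - t * φ x) := hu.smooth.sub (contDiff_const.mul hφs)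
  have hsupp : Function.support (fun x => u x - t * φ x) ⊆ Function.support u := by
    intro x hx
    rw [Function.mem_support] at hx ⊢
    intro h
    apply hx
    simp only [hφ]
    rw [h]
    simp
  have huc : HasCompactSupport (fun x => u x - t * φ x) := hu.comp.mono hsupp
  have hadm : Adm D K' (fun x => u x - t * φ x) := by
    refine ⟨hus, huc, (closure_mono hsupp).trans hu.sub, fun x hx => ?_⟩
    have h2 := hu.one x hx
    have h3 : φ x = 0 := by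
      simp only [hφ]
      rw [hK x hx]
      simp
    show 1 ≤ u x - t * φ x
    rw [h3]
    simpa using h2
  have hcap := cap_le D K' _ hadm
  have hpt : ∀ x, t * (η x ^ (m + 1) * (‖gradient u x‖ / (1 + ε - u x)) ^ (m + 1)) ≤
      ‖gradient u x‖ ^ (m + 1) - ‖gradient (fun x => u x - t * φ x) x‖ ^ (m + 1) +
        t * M0 * ‖gradient η x‖ ^ (m + 1) := by
    intro x
    have dη : DifferentiableAt ℝ η x := (hη.differentiable (by simp)).differentiableAt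
    have du : DifferentiableAt ℝ u x := (hu.smooth.differentiable (by simp)).differentiableAt
    have dφ : DifferentiableAt ℝ φ x := (hφs.differentiable (by simp)).differentiableAt
    have g1 : gradient (fun x => u x - t * φ x) x = gradient u x - t • gradient φ x := by
      rw [grad_sub u (fun y => t * φ y) x du (dφ.const_mul t), grad_smul t φ x dφ]
    have g2 := le_grad η u ε x dη du (hpos x).ne'
    have g3 : gradient φ x = _ := g2
    rw [g1, g3]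
    set r := (1 + ε - u x)⁻¹ with hr
    have hr0 : 0 < r := inv_pos.2 (hpos x)
    have hGs := le_G m ε (u x) hε hε1 (hlow x) (hup x)
    rw [← hr] at hGs
    have htG : t * (m * r ^ (m + 1)) ≤ 1 := by
      have h2 : r ≤ 2 / ε := by
        rw [hr, ← inv_div]
        exact inv_anti₀ (by positivity) (by have := hup x; linarith)
      have h3 : (m : ℝ) * r ^ (m + 1) ≤ m * (2 / ε) ^ (m + 1) := by gcongr
      calc t * (m * r ^ (m + 1)) ≤ t * (m * (2 / ε) ^ (m + 1)) := by gcongr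
        _ = 1 := by rw [ht]; exact inv_mul_cancel₀ (by positivity)
    have hdiv : ‖gradient u x‖ / (1 + ε - u x) = r * ‖gradient u x‖ := by
      rw [hr, div_eq_inv_mul]
    rw [hdiv]
    rcases (h0 x).eq_or_lt with hz | hz
    · rw [← hz]
      have hm0 : m ≠ 0 := by omega
      simp [hm0]
      positivity
    · have hs := le_scal m hm (η x) r t ‖gradient u x‖ ‖gradient η x‖ (r ^ m - (1 + ε)⁻¹ ^ m) (m * r ^ (m + 1)) hz
        (h1 x) hr0 ht0 (norm_nonneg _) (norm_nonneg _) rfl hGs htG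
      have hn : ‖gradient u x - t • ((η x ^ (m + 1) * (m * r ^ (m + 1))) • gradient u x +
          ((r ^ m - (1 + ε)⁻¹ ^ m) * ((m + 1) * η x ^ m)) • gradient η x)‖ ≤
          (1 - t * η x ^ (m + 1) * (m * r ^ (m + 1))) * ‖gradient u x‖ +
          t * ((m + 1) * η x ^ m) * |r ^ m - (1 + ε)⁻¹ ^ m| * ‖gradient η x‖ := by
        have e1 : gradient u x - t • ((η x ^ (m + 1) * (m * r ^ (m + 1))) • gradient u x +
          ((r ^ m - (1 + ε)⁻¹ ^ m) * ((m + 1) * η x ^ m)) • gradient η x) =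
          (1 - t * η x ^ (m + 1) * (m * r ^ (m + 1))) • gradient u x -
          (t * ((r ^ m - (1 + ε)⁻¹ ^ m) * ((m + 1) * η x ^ m))) • gradient η x := by
          module
        rw [e1]
        refine (norm_sub_le _ _).trans ?_
        rw [norm_smul, norm_smul, Real.norm_eq_abs, Real.norm_eq_abs]
        have h5 : η x ^ (m + 1) ≤ 1 := pow_le_one₀ (h0 x) (h1 x)
        have h6 : 0 ≤ 1 - t * η x ^ (m + 1) * (m * r ^ (m + 1)) := by
          have h7 : 0 ≤ t * (m * r ^ (m + 1)) := by positivity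
          nlinarith
        rw [abs_of_nonneg h6, abs_mul, abs_mul, abs_of_pos ht0,
          abs_of_nonneg (show 0 ≤ (m + 1) * η x ^ m by have := h0 x; positivity)]
        refine le_of_eq ?_
        ring
      have hn2 := pow_le_pow_left₀ (norm_nonneg _) hn (m + 1)
      have e2 : t * M0 * ‖gradient η x‖ ^ (m + 1) =
        t * (((m : ℝ) + 1) ^ (m + 1) * 2 ^ (m * (m + 1))) * ‖gradient η x‖ ^ (m + 1) := by rw [hM0]
      rw [e2]
      have e3 : t * (η x ^ (m + 1) * (r * ‖gradient u x‖) ^ (m + 1)) =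
        t * η x ^ (m + 1) * (r * ‖gradient u x‖) ^ (m + 1) := by ring
      rw [e3]
      linarith
  have i1 := integ u hu.smooth hu.comp
  have i2 := integ _ hus huc
  have i3 := integ η hη hηc
  have i12 : Integrable fun x => ‖gradient u x‖ ^ (m + 1) - ‖gradient (fun x => u x - t * φ x) x‖ ^ (m + 1) :=
    i1.sub i2
  have hint : ∫ x, t * (η x ^ (m + 1) * (‖gradient u x‖ / (1 + ε - u x)) ^ (m + 1)) ≤
      ∫ x, (‖gradient u x‖ ^ (m + 1) - ‖gradient (fun x => u x - t * φ x) x‖ ^ (m + 1) +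
        t * M0 * ‖gradient η x‖ ^ (m + 1)) := by
    refine integral_mono_of_nonneg (Filter.Eventually.of_forall fun x => ?_)
      (i12.add (i3.const_mul _)) (Filter.Eventually.of_forall hpt)
    have h2 := h0 x
    have h3 := hpos x
    simp only [Pi.zero_apply]
    positivity
  rw [integral_const_mul] at hint
  have hrhs : ∫ x, (‖gradient u x‖ ^ (m + 1) - ‖gradient (fun x => u x - t * φ x) x‖ ^ (m + 1) +
        t * M0 * ‖gradient η x‖ ^ (m + 1)) = energy u - energy (fun x => u x - t * φ x) + t * M0 * energy η := by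
    unfold energy
    rw [integral_add i12 (i3.const_mul _), integral_sub i1 i2, integral_const_mul]
  rw [hrhs] at hint
  have hfin : (∫ x, η x ^ (m + 1) * (‖gradient u x‖ / (1 + ε - u x)) ^ (m + 1)) ≤
      (energy u - cap D K' + t * M0 * energy η) / t := by
    rw [le_div_iff₀ ht0]
    linarith
  refine hfin.trans (le_of_eq ?_)
  field_simp
  ring

end Pool.Agent.H46.MM
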