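import Pool.Agent.H46.MM.Defs

/-!
# [H46 MM NRM] The coefficients can be changed to one (50 min)

`Dis M`, all `s p ≠ 0`, `z ∈ Zm Y M s`.  For `p, q ∈ M` (also `p = q`) `single p.1 p.2 a * single q.1 q.2 b = 0`, because
`p.2 ≠ q.1` (`Dis`); so `sh Q s * sh Q' s' = 1 + ∑_Q + ∑_Q'` for `Q, Q' ⊆ M`.

Signs: `N = M.filter (s p < 0)`, `z' = sh N s * z`.  For `Q ⊆ M`:
`sh Q |s| * sh N s = 1 + ∑_{Q} |s p| E_p + ∑_{N} s p E_p = sh (symmDiff Q N) s` (a pair in `Q ∩ N` has
`|s p| + s p = 0`, a pair in `Q \ N` has `|s p| = s p`), and `symmDiff Q N ⊆ M`.  So `z' ∈ Zm Y M |s|`.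

Scaling: there is `a ∈ A1 d` with `a p.1 * |s p| = a p.2` for `p ∈ M`: `a i = ∏_{p ∈ M} b p i`,
`b p i = |s p| ^ (- 1 / 2)` for `i = p.1`, `|s p| ^ (1 / 2)` for `i = p.2`, `1` otherwise (real powers; every `b p` has
the product `1` over `i`, and for `p ∈ M` `a p.1 = b p p.1` by `Dis`, `Finset.prod_eq_single`).
`sh Q 1 * diagonal a = diagonal a * sh Q |s|` (entrywise: `a p.2 = a p.1 * |s p|`), so `diagonal a * z' ∈ Zm Y M 1`.
-/

set_option autoImplicit false

namespace Pool.Agent.H46.MM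

open Matrix Filter Topology Pool.Agent.H89.CSD Pool.Agent.H46.RG

variable {d : ℕ}

theorem single_mul_single_of_dis {M : Finset (Fin d × Fin d)} (hM : Dis M) {p q : Fin d × Fin d}
    (hp : p ∈ M) (hq : q ∈ M) (a b : ℝ) :
    (Matrix.single p.1 p.2 a : Matrix (Fin d) (Fin d) ℝ) * Matrix.single q.1 q.2 b = 0 := by
  have h : p.2 ≠ q.1 := by
    by_cases hpq : p = q
    · subst hpq
      exact fun h => hM.1 p hp h.symm
    · exact (hM.2 p hp q hq hpq).2.2.1
  exact Matrix.single_mul_single_of_ne _ _ _ _ h _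

theorem sh_mul_sh {M : Finset (Fin d × Fin d)} (hM : Dis M) {Q Q' : Finset (Fin d × Fin d)}
    (hQ : Q ⊆ M) (hQ' : Q' ⊆ M) (s s' : Fin d × Fin d → ℝ) :
    sh Q s * sh Q' s' = 1 + (∑ p ∈ Q, Matrix.single p.1 p.2 (s p) +
      ∑ p ∈ Q', Matrix.single p.1 p.2 (s' p)) := by
  have h0 : (∑ p ∈ Q, (Matrix.single p.1 p.2 (s p) : Matrix (Fin d) (Fin d) ℝ)) *
      ∑ p ∈ Q', Matrix.single p.1 p.2 (s' p) = 0 := by
    rw [Finset.sum_mul]
    refine Finset.sum_eq_zero fun p hp => ?_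
    rw [Finset.mul_sum]
    exact Finset.sum_eq_zero fun q hq => single_mul_single_of_dis hM (hQ hp) (hQ' hq) _ _
  unfold sh
  rw [add_mul, one_mul, mul_add, mul_one, h0, add_zero]
  abel

theorem sum_eq_ite {M Q : Finset (Fin d × Fin d)} [DecidablePred (· ∈ Q)] (hQ : Q ⊆ M)
    (f : Fin d × Fin d → Matrix (Fin d) (Fin d) ℝ) :
    ∑ p ∈ Q, f p = ∑ p ∈ M, if p ∈ Q then f p else 0 := by
  classical
  exact Finset.sum_subset_zero_on_sdiff hQ (fun p hp => if_neg (Finset.mem_sdiff.1 hp).2)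
    (fun p hp => (if_pos hp).symm)

theorem sum_signs {M : Finset (Fin d × Fin d)} (s : Fin d × Fin d → ℝ)
    {Q : Finset (Fin d × Fin d)} (hQ : Q ⊆ M) :
    (∑ p ∈ Q, (Matrix.single p.1 p.2 |s p| : Matrix (Fin d) (Fin d) ℝ)) +
      ∑ p ∈ M.filter (fun p => s p < 0), Matrix.single p.1 p.2 (s p) =
      ∑ p ∈ symmDiff Q (M.filter (fun p => s p < 0)), Matrix.single p.1 p.2 (s p) := by
  classical
  set N := M.filter (fun p => s p < 0) with hN
  have hNM : N ⊆ M := Finset.filter_subset _ _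
  have hSM : symmDiff Q N ⊆ M := by
    intro p hp
    rcases Finset.mem_symmDiff.1 hp with h | h
    · exact hQ h.1
    · exact hNM h.1
  rw [sum_eq_ite hQ, sum_eq_ite hNM, sum_eq_ite hSM, ← Finset.sum_add_distrib]
  refine Finset.sum_congr rfl fun p hp => ?_
  have hpN : p ∈ N ↔ s p < 0 := by simp [hN, hp]
  by_cases h1 : p ∈ Q <;> by_cases h2 : s p < 0
  · rw [if_pos h1, if_pos (hpN.2 h2), if_neg, ← Matrix.single_add, abs_of_neg h2, neg_add_cancel,
      Matrix.single_zero]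
    rw [Finset.mem_symmDiff, hpN]
    tauto
  · rw [if_pos h1, if_neg (fun h => h2 (hpN.1 h)), if_pos, add_zero, abs_of_nonneg (not_lt.1 h2)]
    rw [Finset.mem_symmDiff, hpN]
    tauto
  · rw [if_neg h1, if_pos (hpN.2 h2), if_pos, zero_add]
    rw [Finset.mem_symmDiff, hpN]
    tauto
  · rw [if_neg h1, if_neg (fun h => h2 (hpN.1 h)), if_neg, add_zero]
    rw [Finset.mem_symmDiff, hpN]
    tauto

theorem exists_scaling {M : Finset (Fin d × Fin d)} (hM : Dis M) {s : Fin d × Fin d → ℝ}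
    (hs : ∀ p ∈ M, s p ≠ 0) : ∃ a ∈ A1 d, ∀ p ∈ M, a p.1 * |s p| = a p.2 := by
  classical
  set r : Fin d × Fin d → ℝ := fun p => if p ∈ M then Real.sqrt |s p| else 1 with hr
  have hr0 : ∀ p, 0 < r p := by
    intro p
    by_cases hp : p ∈ M
    · simp only [hr, hp, if_true]
      exact Real.sqrt_pos.2 (abs_pos.2 (hs p hp))
    · simp [hr, hp]
  set b : Fin d × Fin d → Fin d → ℝ := fun p i =>
    if i = p.1 then (r p)⁻¹ else if i = p.2 then r p else 1 with hb
  have hb0 : ∀ p i, 0 < b p i := by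
    intro p i
    simp only [hb]
    split_ifs
    · exact inv_pos.2 (hr0 p)
    · exact hr0 p
    · exact one_pos
  have hb1 : ∀ p ∈ M, b p p.1 = (r p)⁻¹ := fun p _ => by simp [hb]
  have hb2 : ∀ p ∈ M, b p p.2 = r p := fun p hp => by
    show (if p.2 = p.1 then (r p)⁻¹ else if p.2 = p.2 then r p else 1) = r p
    rw [if_neg (hM.1 p hp).symm, if_pos rfl]
  refine ⟨fun i => ∏ p ∈ M, b p i, ⟨fun i => Finset.prod_pos fun p _ => hb0 p i, ?_⟩, ?_⟩
  · rw [Finset.prod_comm]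
    refine Finset.prod_eq_one fun p hp => ?_
    rw [← Finset.prod_subset (Finset.subset_univ {p.1, p.2})]
    · rw [Finset.prod_pair (hM.1 p hp), hb1 p hp, hb2 p hp, inv_mul_cancel₀ (hr0 p).ne']
    · intro i _ hi
      rw [Finset.mem_insert, Finset.mem_singleton, not_or] at hi
      simp only [hb]
      rw [if_neg hi.1, if_neg hi.2]
  · intro p hp
    have h1 : ∏ q ∈ M, b q p.1 = (r p)⁻¹ := by
      rw [Finset.prod_eq_single p, hb1 p hp]
      · intro q hq hqp
        have h := hM.2 p hp q hq hqp.symm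
        simp only [hb]
        rw [if_neg h.1, if_neg h.2.1]
      · exact fun h => (h hp).elim
    have h2 : ∏ q ∈ M, b q p.2 = r p := by
      rw [Finset.prod_eq_single p, hb2 p hp]
      · intro q hq hqp
        have h := hM.2 p hp q hq hqp.symm
        simp only [hb]
        rw [if_neg h.2.2.1, if_neg h.2.2.2]
      · exact fun h => (h hp).elim
    show (∏ q ∈ M, b q p.1) * |s p| = ∏ q ∈ M, b q p.2
    rw [h1, h2]
    have h3 : |s p| = r p * r p := by
      simp only [hr, hp, if_true]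
      exact (Real.mul_self_sqrt (abs_nonneg _)).symm
    rw [h3, ← mul_assoc, inv_mul_cancel₀ (hr0 p).ne', one_mul]

theorem sh_mul_diagonal {M : Finset (Fin d × Fin d)} {s : Fin d × Fin d → ℝ} {a : Fin d → ℝ}
    (ha : ∀ p ∈ M, a p.1 * |s p| = a p.2) {Q : Finset (Fin d × Fin d)} (hQ : Q ⊆ M) :
    sh Q (fun _ => 1) * diagonal a = diagonal a * sh Q (fun p => |s p|) := by
  unfold sh
  rw [add_mul, mul_add, one_mul, mul_one, Finset.sum_mul, Finset.mul_sum]
  congr 1
  refine Finset.sum_congr rfl fun p hp => ?_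
  have h := ha p (hQ hp)
  ext i j
  rw [Matrix.mul_diagonal, Matrix.diagonal_mul, Matrix.single_apply, Matrix.single_apply]
  split_ifs with hij
  · rw [one_mul, ← hij.2, ← hij.1, h]
  · simp

theorem normalise {Y : Set (Matrix (Fin d) (Fin d) ℝ)} (hinv : IsInv (A1 d) Y)
    {M : Finset (Fin d × Fin d)} (hM : Dis M) {s : Fin d × Fin d → ℝ} (hs : ∀ p ∈ M, s p ≠ 0)
    (hne : (Zm Y M s).Nonempty) : (Zm Y M fun _ => 1).Nonempty := by
  classical
  obtain ⟨z, hz⟩ := hne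
  obtain ⟨a, haA, ha⟩ := exists_scaling hM hs
  have hNM : M.filter (fun p => s p < 0) ⊆ M := Finset.filter_subset _ _
  refine ⟨diagonal a * (sh (M.filter (fun p => s p < 0)) s * z), fun Q hQ => ?_⟩
  have hSM : symmDiff Q (M.filter (fun p => s p < 0)) ⊆ M := by
    intro p hp
    rcases Finset.mem_symmDiff.1 hp with h | h
    · exact hQ h.1
    · exact hNM h.1
  rw [← Matrix.mul_assoc, sh_mul_diagonal ha hQ, Matrix.mul_assoc]
  refine hinv.diag a haA _ ?_
  rw [← Matrix.mul_assoc, sh_mul_sh hM hQ hNM, sum_signs s hQ]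
  exact hz _ hSM

end Pool.Agent.H46.MM
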