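import Pool.Agent.H46.MM.Bas

/-!
# [H46 MM ZMI] The sets `Zm` (50 min)

* `Zm_subset`: `Q = ∅`, `sh ∅ s = 1`.
* `Zm_mono`: clear.
* `Zm_inv`: nonempty by assumption; closed: the intersection over `Q ⊆ M` of the preimages of `Y` under the
  continuous maps `z ↦ sh Q s * z`; units act on the right; for `a ∈ G M ∅` `diagonal a` commutes with
  `sh Q s` (`Q ⊆ M`): `a p.1 = a p.2` (`Matrix.diagonal_mul`, entrywise).
* `Zm_insert`: let `Q ⊆ insert (x, y) M`.  If `(x, y) ∉ Q` then `Q ⊆ M` and `sh Q s' = sh Q s` with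
  `s' = Function.update s (x, y) t` (`Finset.sum_congr`).  Otherwise `Q = insert (x, y) Q'`, `Q' = Q.erase (x, y) ⊆ M`,
  and `sh Q s' = sh Q' s * (1 + single x y t)` because `single p.1 p.2 _ * single x y t = 0` for `p ∈ Q'`
  (`p.2 ≠ x`, `Matrix.single_mul_single_of_ne`); and `(1 + single x y t) * z ∈ Zm Y M s` by `mem_Zs_one`.
-/

set_option autoImplicit false

namespace Pool.Agent.H46.MM

open Matrix Filter Topology Pool.Agent.H89.CSD Pool.Agent.H46.RG

variable {d : ℕ}

private theorem sh_empty (s : Fin d × Fin d → ℝ) : sh (∅ : Finset (Fin d × Fin d)) s = 1 := by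
  simp [sh]

private theorem sh_comm {Q : Finset (Fin d × Fin d)} {s : Fin d × Fin d → ℝ} {a : Fin d → ℝ}
    (h : ∀ p ∈ Q, a p.1 = a p.2) : sh Q s * diagonal a = diagonal a * sh Q s := by
  unfold sh
  rw [add_mul, mul_add, one_mul, mul_one, Finset.sum_mul, Finset.mul_sum]
  congr 1
  refine Finset.sum_congr rfl fun p hp => ?_
  ext i j
  rw [Matrix.mul_diagonal, Matrix.diagonal_mul, Matrix.single_apply]
  split_ifs with hij
  · rw [← hij.1, ← hij.2, h p hp, mul_comm]
  · simp

theorem Zm_subset {Y : Set (Matrix (Fin d) (Fin d) ℝ)} {M : Finset (Fin d × Fin d)}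
    {s : Fin d × Fin d → ℝ} : Zm Y M s ⊆ Y := by
  intro z hz
  have h := hz ∅ (Finset.empty_subset _)
  rwa [sh_empty, one_mul] at h

theorem Zm_mono {Y : Set (Matrix (Fin d) (Fin d) ℝ)} {M M' : Finset (Fin d × Fin d)}
    {s : Fin d × Fin d → ℝ} (h : M' ⊆ M) : Zm Y M s ⊆ Zm Y M' s :=
  fun _ hz Q hQ => hz Q (hQ.trans h)

theorem Zm_inv {Y : Set (Matrix (Fin d) (Fin d) ℝ)} (hinv : IsInv (A1 d) Y)
    {M : Finset (Fin d × Fin d)} {s : Fin d × Fin d → ℝ} (hne : (Zm Y M s).Nonempty) :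
    IsInv (G M ∅) (Zm Y M s) := by
  refine ⟨hne, ?_, ?_, ?_⟩
  · have h : Zm Y M s = ⋂ Q ∈ {Q : Finset (Fin d × Fin d) | Q ⊆ M},
        (fun z : Matrix (Fin d) (Fin d) ℝ => sh Q s * z) ⁻¹' Y := by
      ext z
      simp [Zm]
    rw [h]
    refine isClosed_biInter fun Q _ => hinv.closed.preimage ?_
    exact continuous_const.matrix_mul continuous_id
  · intro z hz γ hγ Q hQ
    rw [← Matrix.mul_assoc]
    exact hinv.units _ (hz Q hQ) γ hγ
  · intro a ha z hz Q hQ
    rw [← Matrix.mul_assoc, sh_comm fun p hp => ha.2.1 p (hQ hp), Matrix.mul_assoc]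
    exact hinv.diag a ha.1 _ (hz Q hQ)

theorem Zm_insert {Y : Set (Matrix (Fin d) (Fin d) ℝ)} {M : Finset (Fin d × Fin d)}
    {s : Fin d × Fin d → ℝ} {x y : Fin d} (hM : (x, y) ∉ M) (hx : ∀ p ∈ M, p.2 ≠ x) (t : ℝ) :
    Zs (Zm Y M s) [Matrix.single x y t] ⊆ Zm Y (insert (x, y) M) (Function.update s (x, y) t) := by
  classical
  intro z hz Q hQ
  rw [mem_Zs_one] at hz
  have hs : ∀ Q' : Finset (Fin d × Fin d), Q' ⊆ M →
      sh Q' (Function.update s (x, y) t) = sh Q' s := by
    intro Q' hQ'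
    unfold sh
    congr 1
    refine Finset.sum_congr rfl fun p hp => ?_
    have hne : p ≠ (x, y) := by
      rintro rfl
      exact hM (hQ' hp)
    rw [Function.update_of_ne hne]
  by_cases hxy : (x, y) ∈ Q
  · have hQ' : Q.erase (x, y) ⊆ M := by
      intro p hp
      rw [Finset.mem_erase] at hp
      exact (Finset.mem_insert.1 (hQ hp.2)).resolve_left hp.1
    have h1 : sh Q (Function.update s (x, y) t) =
        sh (Q.erase (x, y)) s * (1 + Matrix.single x y t) := by
      rw [← hs _ hQ']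
      have h2 : (∑ p ∈ Q.erase (x, y),
          Matrix.single p.1 p.2 (Function.update s (x, y) t p)) * Matrix.single x y t = 0 := by
        rw [Finset.sum_mul]
        refine Finset.sum_eq_zero fun p hp => ?_
        exact Matrix.single_mul_single_of_ne _ _ _ _ (hx p (hQ' hp)) _
      unfold sh
      rw [mul_add, mul_one, add_mul, one_mul, h2, add_zero,
        ← Finset.add_sum_erase Q _ hxy, Function.update_self]
      abel
    rw [h1, Matrix.mul_assoc]
    exact hz.2 _ hQ'
  · have hQ' : Q ⊆ M := by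
      intro p hp
      refine (Finset.mem_insert.1 (hQ hp)).resolve_left ?_
      rintro rfl
      exact hxy hp
    rw [hs Q hQ']
    exact hz.1 Q hQ'

end Pool.Agent.H46.MM
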