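import Pool.Agent.H46.MM.Chl
import Pool.Agent.H46.MM.Lim
import Pool.Agent.H46.MM.Zmi

/-!
# [H46 MM PTH] From a chain to single entries (90 min)

Induction on `ws`, generalizing `M`, `s`, `x`, `P`.
* `[w]`: `w = single x k (w x k)` with `k ∉ J`, `w x k ≠ 0`.  `M' = insert (x, k) M`, `s' = Function.update s (x, k) (w x k)`;
  `x, k ∉ idx M` (`idx M ⊆ J`), `x ≠ k` (`x ∈ J`); `Zm_insert`.
* `w :: w' :: ws`, `p ∈ P ⊆ M`, rows of `w`: `x`; columns `p.1, p.2`; `w * w' = 0`; `w' :: ws` a chain for `P.erase p` from
  `{p.1, p.2}`.  Let `y ∈ {p.1, p.2}` with `w x y ≠ 0` and `x'` the other index of `p`.  The row `x'` of `w'` is not zero: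
  otherwise `w'` (not zero) has nonzero entries only in the row `y`, `w' y j ≠ 0` for some `j` and
  `(w * w') x j = w x y * w' y j ≠ 0`.
  `M1 = M.erase p`, `Zs_mono` with `Zm_mono`: `(Zs (Zm Y M1 s) (w :: w' :: ws)).Nonempty`.  Let `α = 0` at `x` and `y`, `1` elsewhere;
  it is constant (`1`) on the pairs of `M1` (`x ∉ idx M`, `y` is in no other pair); `Zm_inv`, `exp_mem_G` (`I = ∅`).
  Entries: `w`: row `x` (`α = 0`); `w'`: rows `p.1, p.2`, columns in `idx (P.erase p)` or not in `J`, so `α = 1` (`Chn_cols`; `x`, `y` are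
  in `J`, `x ∉ idx M`, `y ∉ idx (P.erase p)`); `ws`: the same for the columns (`Chn_cols`), rows in `idx (P.erase p)` (`Chn_rows`), `α = 1`.  So
  `degen` applies: `part α w = single x y (w x y)`, `part α w'` is the row `x'` of `w'`, `part α` does not change the matrices
  of `ws`.  `Zs_cons` and `Zm_insert`: `(Zs (Zm Y M2 s2) (part α w' :: ws)).Nonempty` with `M2 = insert (x, y) M1`, `s2` the update.
  The induction hypothesis for `M2, s2, x', P.erase p` (`Chn_head`; `|M2| = |M|`; `x' ∉ idx M2`; `P.erase p ⊆ M2`;
  `idx M2 ⊆ J`; `Dis M2`) gives the claim.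
-/

set_option autoImplicit false

namespace Pool.Agent.H46.MM

open Matrix Filter Topology Pool.Agent.H89.CSD Pool.Agent.H46.RG

variable {d : ℕ}

private theorem pth_single {w : Matrix (Fin d) (Fin d) ℝ} {x k : Fin d}
    (h : ∀ i j, w i j ≠ 0 → i = x ∧ j = k) : w = Matrix.single x k (w x k) := by
  classical
  ext i j
  by_cases hij : i = x ∧ j = k
  · obtain ⟨rfl, rfl⟩ := hij
    rw [Matrix.single_apply_same]
  · rw [Matrix.single_apply_of_ne]
    · by_contra h0
      exact hij (h i j h0)
    · rintro ⟨h1, h2⟩
      exact hij ⟨h1.symm, h2.symm⟩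

private theorem pth_dis {M : Finset (Fin d × Fin d)} (hM : Dis M) {x y : Fin d}
    (hx : x ∉ idx M) (hy : y ∉ idx M) (hxy : x ≠ y) : Dis (insert (x, y) M) := by
  classical
  have hx' : ∀ p ∈ M, x ≠ p.1 ∧ x ≠ p.2 := fun p hp =>
    ⟨fun h => hx (mem_idx.2 ⟨p, hp, Or.inl h⟩), fun h => hx (mem_idx.2 ⟨p, hp, Or.inr h⟩)⟩
  have hy' : ∀ p ∈ M, y ≠ p.1 ∧ y ≠ p.2 := fun p hp =>
    ⟨fun h => hy (mem_idx.2 ⟨p, hp, Or.inl h⟩), fun h => hy (mem_idx.2 ⟨p, hp, Or.inr h⟩)⟩
  refine ⟨?_, ?_⟩
  · intro p hp
    rcases Finset.mem_insert.1 hp with rfl | hp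
    · exact hxy
    · exact hM.1 p hp
  · intro p hp q hq hpq
    rcases Finset.mem_insert.1 hp with rfl | hp
    · rcases Finset.mem_insert.1 hq with rfl | hq
      · exact absurd rfl hpq
      · exact ⟨(hx' q hq).1, (hx' q hq).2, (hy' q hq).1, (hy' q hq).2⟩
    · rcases Finset.mem_insert.1 hq with rfl | hq
      · exact ⟨(hx' p hp).1.symm, (hy' p hp).1.symm, (hx' p hp).2.symm, (hy' p hp).2.symm⟩
      · exact hM.2 p hp q hq hpq

private theorem pth_idx {M : Finset (Fin d × Fin d)} {x y i : Fin d} :
    i ∈ idx (insert (x, y) M) ↔ i = x ∨ i = y ∨ i ∈ idx M := by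
  classical
  constructor
  · intro h
    obtain ⟨p, hp, hi⟩ := mem_idx.1 h
    rcases Finset.mem_insert.1 hp with rfl | hp
    · rcases hi with rfl | rfl
      · exact Or.inl rfl
      · exact Or.inr (Or.inl rfl)
    · exact Or.inr (Or.inr (mem_idx.2 ⟨p, hp, hi⟩))
  · rintro (rfl | rfl | h)
    · exact mem_idx.2 ⟨(i, y), Finset.mem_insert_self _ _, Or.inl rfl⟩
    · exact mem_idx.2 ⟨(x, i), Finset.mem_insert_self _ _, Or.inr rfl⟩
    · exact idx_mono (Finset.subset_insert _ _) h

/-- adding a single entry -/
private theorem pth_add {Y : Set (Matrix (Fin d) (Fin d) ℝ)} {M : Finset (Fin d × Fin d)}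
    {s : Fin d × Fin d → ℝ} {x y : Fin d} {t : ℝ} (hM : Dis M) (hx : x ∉ idx M)
    (hy : y ∉ idx M) (hxy : x ≠ y) (ht : t ≠ 0) (hs : ∀ p ∈ M, s p ≠ 0)
    {ws : List (Matrix (Fin d) (Fin d) ℝ)}
    (hne : (Zs (Zm Y M s) (Matrix.single x y t :: ws)).Nonempty) :
    (insert (x, y) M).card = M.card + 1 ∧ Dis (insert (x, y) M) ∧
      (∀ p ∈ insert (x, y) M, Function.update s (x, y) t p ≠ 0) ∧
      (Zs (Zm Y (insert (x, y) M) (Function.update s (x, y) t)) ws).Nonempty := by
  classical
  have hnot : (x, y) ∉ M := fun h => hx (mem_idx.2 ⟨_, h, Or.inl rfl⟩)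
  refine ⟨Finset.card_insert_of_notMem hnot, pth_dis hM hx hy hxy, ?_, ?_⟩
  · intro p hp
    by_cases h : p = (x, y)
    · rw [h, Function.update_self]
      exact ht
    · rw [Function.update_of_ne h]
      exact hs p ((Finset.mem_insert.1 hp).resolve_left h)
  · rw [← Zs_cons] at hne
    exact hne.mono (Zs_mono (Zm_insert hnot
      (fun p hp h => hx (mem_idx.2 ⟨p, hp, Or.inr h.symm⟩)) t))

private theorem pth_aux {g : Matrix (Fin d) (Fin d) ℝ} (hg : g.det ≠ 0) {c : ℝ} (hc : 0 < c)
    (hp : Pos c g) {Y : Set (Matrix (Fin d) (Fin d) ℝ)} (hY : Y ⊆ Om g) (hinv : IsInv (A1 d) Y)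
    {J : Finset (Fin d)} (n : ℕ) : ∀ (ws : List (Matrix (Fin d) (Fin d) ℝ)), ws.length = n →
    ∀ (M P : Finset (Fin d × Fin d)) (s : Fin d × Fin d → ℝ) (x : Fin d), P ⊆ M → Dis M →
      x ∉ idx M → x ∈ J → idx M ⊆ J → (∀ p ∈ M, s p ≠ 0) → Chn J P (fun i => i = x) ws →
      (Zs (Zm Y M s) ws).Nonempty →
      ∃ (M' : Finset (Fin d × Fin d)) (s' : Fin d × Fin d → ℝ), M'.card = M.card + 1 ∧ Dis M' ∧
        (∀ p ∈ M', s' p ≠ 0) ∧ (Zm Y M' s').Nonempty := by
  classical
  induction n with
  | zero =>
    intro ws hlen M P s x _ _ _ _ _ _ hch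
    rw [List.length_eq_zero_iff] at hlen
    subst hlen
    exact absurd hch id
  | succ n ih =>
    intro ws hlen
    obtain ⟨w, ws, rfl⟩ : ∃ w ws', ws = w :: ws' := by
      cases ws with
      | nil => simp at hlen
      | cons w ws => exact ⟨w, ws, rfl⟩
    intro M P s x hPM hM hx hxJ hMJ hs hch hne
    cases ws with
    | nil =>
      obtain ⟨hw0, k, hk, hent⟩ := hch
      have hw : w = Matrix.single x k (w x k) := pth_single hent
      have ht : w x k ≠ 0 := by
        intro h
        rw [h, Matrix.single_zero] at hw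
        exact hw0 hw
      have hxk : x ≠ k := fun h => hk (h ▸ hxJ)
      rw [hw] at hne
      obtain ⟨h1, h2, h3, h4⟩ := pth_add hM hx (fun h => hk (hMJ h)) hxk ht hs hne
      exact ⟨_, _, h1, h2, h3, h4.mono Zs_subset⟩
    | cons w' ws =>
      obtain ⟨hw0, hww, p, hpP, hent, hch'⟩ := hch
      have hpM : p ∈ M := hPM hpP
      have hp12 : p.1 ≠ p.2 := hM.1 p hpM
      -- the indices `y` and `x'`
      have hex : ∃ y, w x y ≠ 0 := by
        by_contra h
        push Not at h
        apply hw0
        ext i j
        by_contra h0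
        have h1 := (hent i j h0).1
        rw [h1] at h0
        exact h0 (h j)
      obtain ⟨y, hy⟩ := hex
      have hyp : y = p.1 ∨ y = p.2 := (hent x y hy).2
      obtain ⟨x', hx'p, hx'y, hpxy⟩ : ∃ x', (x' = p.1 ∨ x' = p.2) ∧ x' ≠ y ∧
          ∀ i, (i = p.1 ∨ i = p.2) → i = x' ∨ i = y := by
        rcases hyp with h | h
        · exact ⟨p.2, Or.inr rfl, fun h' => hp12 (h ▸ h'.symm), fun i hi =>
            hi.elim (fun h' => Or.inr (h'.trans h.symm)) fun h' => Or.inl h'⟩
        · exact ⟨p.1, Or.inl rfl, fun h' => hp12 (h'.trans h), fun i hi =>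
            hi.elim (fun h' => Or.inl h') fun h' => Or.inr (h'.trans h.symm)⟩
      have hpy : y ∈ idx M := mem_idx.2 ⟨p, hpM, hyp⟩
      have hpx' : x' ∈ idx M := mem_idx.2 ⟨p, hpM, hx'p⟩
      have hxy : x ≠ y := fun h => hx (h ▸ hpy)
      have hxx' : x' ≠ x := fun h => hx (h ▸ hpx')
      have herase : ∀ i, (i = p.1 ∨ i = p.2) → i ∉ idx (M.erase p) := by
        intro i hi h
        obtain ⟨q, hq, hiq⟩ := mem_idx.1 h
        have hqp : q ≠ p := (Finset.mem_erase.1 hq).1
        have hqM : q ∈ M := (Finset.mem_erase.1 hq).2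
        obtain ⟨h1, h2, h3, h4⟩ := hM.2 p hpM q hqM hqp.symm
        rcases hi with hi | hi <;> rcases hiq with hq' | hq'
        · exact h1 (hi.symm.trans hq')
        · exact h2 (hi.symm.trans hq')
        · exact h3 (hi.symm.trans hq')
        · exact h4 (hi.symm.trans hq')
      have hPe : P.erase p ⊆ M.erase p := Finset.erase_subset_erase _ hPM
      have hMe : M.erase p ⊆ M := Finset.erase_subset _ _
      -- the exponents
      set α : Fin d → ℝ := fun i => if i = x ∨ i = y then 0 else 1 with hα
      have hα0 : ∀ i, (i = x ∨ i = y) → α i = 0 := fun i hi => if_pos hi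
      have hα1 : ∀ i, i ≠ x → i ≠ y → α i = 1 := fun i h1 h2 =>
        if_neg fun h => h.elim h1 h2
      have hαle : ∀ i, α i ≤ 1 := by
        intro i
        simp only [hα]
        split_ifs <;> norm_num
      have hαi : ∀ i, i ∈ idx (M.erase p) → α i = 1 := by
        intro i hi
        refine hα1 i (fun h => hx (h ▸ idx_mono hMe hi)) fun h => herase y hyp (h ▸ hi)
      have hcols : ∀ u ∈ w' :: ws, ∀ i j, u i j ≠ 0 → α j = 1 := by
        intro u hu i j hij
        rcases Chn_cols hch' hu hij with h | h
        · exact hαi j (idx_mono hPe h)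
        · exact hα1 j (fun h' => h (h' ▸ hxJ)) fun h' => h (h' ▸ hMJ hpy)
      have hrows : ∀ u ∈ ws, ∀ i j, u i j ≠ 0 → α i = 1 := by
        intro u hu i j hij
        exact hαi i (idx_mono hPe (Chn_rows hch' hu hij))
      have hM1 : ∀ q ∈ M.erase p, α q.1 = α q.2 := by
        intro q hq
        rw [hαi q.1 (mem_idx.2 ⟨q, hq, Or.inl rfl⟩), hαi q.2 (mem_idx.2 ⟨q, hq, Or.inr rfl⟩)]
      have hne1 : (Zs (Zm Y (M.erase p) s) (w :: w' :: ws)).Nonempty :=
        hne.mono (Zs_mono (Zm_mono hMe))
      have hne0 : (Zm Y (M.erase p) s).Nonempty := hne1.mono Zs_subset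
      have hdeg := degen hg hc hp (Zm_subset.trans hY) (Zm_inv hinv hne0) α
        (fun n => exp_mem_G hM1 (by simp) n) (w :: w' :: ws) (by
          intro u hu i j hij
          rcases List.mem_cons.1 hu with rfl | hu
          · rw [(hent i j hij).1, hα0 x (Or.inl rfl)]
            simp only [hα]
            split_ifs <;> norm_num
          · rw [hcols u hu i j hij]
            exact hαle i) hne1
      have hp1 : part α w = Matrix.single x y (w x y) := by
        have h1 : part α w x y = w x y := by
          show (if α x = α y then w x y else 0) = w x y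
          rw [hα0 x (Or.inl rfl), hα0 y (Or.inr rfl), if_pos rfl]
        rw [← h1]
        apply pth_single
        intro i j hij
        have hij' : (if α i = α j then w i j else 0) ≠ 0 := hij
        by_cases h2 : α i = α j
        · rw [if_pos h2] at hij'
          have hix := (hent i j hij').1
          refine ⟨hix, ?_⟩
          rw [hix, hα0 x (Or.inl rfl)] at h2
          by_contra hjy
          have hjx : j ≠ x := by
            intro h
            apply hx
            rw [← h]
            exact mem_idx.2 ⟨p, hpM, (hent i j hij').2⟩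
          rw [hα1 j hjx hjy] at h2
          exact zero_ne_one h2
        · rw [if_neg h2] at hij'
          exact absurd rfl hij'
      have hp2 : ws.map (part α) = ws := by
        conv_rhs => rw [← List.map_id ws]
        apply List.map_congr_left
        intro u hu
        ext i j
        show (if α i = α j then u i j else 0) = u i j
        by_cases h0 : u i j = 0
        · rw [h0]
          simp
        · rw [if_pos]
          rw [hrows u hu i j h0, hcols u (List.mem_cons_of_mem _ hu) i j h0]
      -- the row `x'` of `w'`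
      have hw'rows : ∀ i j, w' i j ≠ 0 → i = p.1 ∨ i = p.2 := by
        intro i j hij
        cases ws with
        | nil =>
          obtain ⟨-, k, -, h⟩ := hch'
          exact (h i j hij).1
        | cons w'' ws =>
          obtain ⟨-, -, q, -, h, -⟩ := hch'
          exact (h i j hij).1
      have hw'0 : w' ≠ 0 := by
        cases ws with
        | nil => exact hch'.1
        | cons w'' ws => exact hch'.1
      have hx'row : ∃ j, w' x' j ≠ 0 := by
        by_contra h
        push Not at h
        have hex' : ∃ i j, w' i j ≠ 0 := by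
          by_contra h'
          push Not at h'
          apply hw'0
          ext i j
          exact h' i j
        obtain ⟨i, j, hij⟩ := hex'
        have hiy : i = y := by
          rcases hpxy i (hw'rows i j hij) with h' | h'
          · rw [h'] at hij
            exact absurd (h j) hij
          · exact h'
        have h2 : (w * w') x j = w x y * w' y j := by
          rw [Matrix.mul_apply]
          apply Finset.sum_eq_single y
          · intro k _ hk
            by_cases hk0 : w' k j = 0
            · rw [hk0, mul_zero]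
            · rcases hpxy k (hw'rows k j hk0) with h' | h'
              · rw [h'] at hk0
                exact absurd (h j) hk0
              · exact absurd h' hk
          · intro h'
            exact absurd (Finset.mem_univ _) h'
        rw [hww, ← hiy] at h2
        have h3 : w x i * w' i j ≠ 0 := mul_ne_zero (hiy ▸ hy) hij
        exact h3 h2.symm
      have hpw' : ∀ i j, part α w' i j ≠ 0 → i = x' ∧ w' i j ≠ 0 := by
        intro i j hij
        have hij' : (if α i = α j then w' i j else 0) ≠ 0 := hij
        by_cases h2 : α i = α j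
        · rw [if_pos h2] at hij'
          refine ⟨?_, hij'⟩
          rcases hpxy i (hw'rows i j hij') with h' | h'
          · exact h'
          · exfalso
            rw [hcols w' List.mem_cons_self i j hij', hα0 i (Or.inr h')] at h2
            exact zero_ne_one h2
        · rw [if_neg h2] at hij'
          exact absurd rfl hij'
      have hpart' : ∀ j, part α w' x' j = w' x' j := by
        intro j
        show (if α x' = α j then w' x' j else 0) = w' x' j
        by_cases h0 : w' x' j = 0
        · rw [h0]
          simp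
        · rw [if_pos]
          rw [hα1 x' hxx' hx'y, hcols w' List.mem_cons_self x' j h0]
      rw [List.map_cons, List.map_cons, hp1, hp2] at hdeg
      have hxM1 : x ∉ idx (M.erase p) := fun h => hx (idx_mono hMe h)
      have hyM1 : y ∉ idx (M.erase p) := herase y hyp
      have hM1d : Dis (M.erase p) := ⟨fun q hq => hM.1 q (hMe hq),
        fun q hq r hr => hM.2 q (hMe hq) r (hMe hr)⟩
      obtain ⟨h1, h2, h3, h4⟩ := pth_add hM1d hxM1 hyM1 hxy hy
        (fun q hq => hs q (hMe hq)) hdeg
      have hcard : (M.erase p).card + 1 = M.card := Finset.card_erase_add_one hpM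
      obtain ⟨M', s', h5, h6⟩ := ih (part α w' :: ws) (by simpa using hlen)
        (insert (x, y) (M.erase p)) (P.erase p)
        (Function.update s (x, y) (w x y)) x' (hPe.trans (Finset.subset_insert _ _)) h2
        (by
          rw [pth_idx]
          rintro (h | h | h)
          · exact hxx' h
          · exact hx'y h
          · exact herase x' hx'p h)
        (hMJ hpx')
        (by
          intro i hi
          rcases pth_idx.1 hi with rfl | rfl | h
          · exact hxJ
          · exact hMJ hpy
          · exact hMJ (idx_mono hMe h)) h3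
        (Chn_head (u' := part α w') hch' (by
            intro h
            obtain ⟨j, hj⟩ := hx'row
            rw [← hpart' j, h] at hj
            exact hj rfl)
          (fun i j hij => ⟨(hpw' i j hij).1, i, (hpw' i j hij).2⟩)
          (by
            intro u hu
            ext i j
            rw [Matrix.mul_apply]
            by_cases hi : i = x'
            · subst hi
              have h7 := congrFun (congrFun hu i) j
              rw [Matrix.mul_apply] at h7
              rw [← h7]
              exact Finset.sum_congr rfl fun k _ => by rw [hpart' k]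
            · rw [Matrix.zero_apply]
              apply Finset.sum_eq_zero
              intro k _
              have h8 : part α w' i k = 0 := by
                by_contra h9
                exact hi (hpw' i k h9).1
              rw [h8, zero_mul]))
        h4
      refine ⟨M', s', ?_, h6⟩
      rw [h5, h1]
      omega

theorem path {g : Matrix (Fin d) (Fin d) ℝ} (hg : g.det ≠ 0) {c : ℝ} (hc : 0 < c)
    (hp : Pos c g) {Y : Set (Matrix (Fin d) (Fin d) ℝ)} (hY : Y ⊆ Om g) (hinv : IsInv (A1 d) Y)
    {J : Finset (Fin d)} (ws : List (Matrix (Fin d) (Fin d) ℝ)) :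
    ∀ (M P : Finset (Fin d × Fin d)) (s : Fin d × Fin d → ℝ) (x : Fin d), P ⊆ M → Dis M →
      x ∉ idx M → x ∈ J → idx M ⊆ J → (∀ p ∈ M, s p ≠ 0) → Chn J P (fun i => i = x) ws →
      (Zs (Zm Y M s) ws).Nonempty →
      ∃ (M' : Finset (Fin d × Fin d)) (s' : Fin d × Fin d → ℝ), M'.card = M.card + 1 ∧ Dis M' ∧
        (∀ p ∈ M', s' p ≠ 0) ∧ (Zm Y M' s').Nonempty :=
  pth_aux hg hc hp hY hinv ws.length ws rfl

end Pool.Agent.H46.MM
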