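import Pool.Agent.H46.MM.Chn
import Pool.Agent.H46.MM.Pth
import Pool.Agent.H46.MM.Nrm

/-!
# [H46 MM MAT] Matchings (45 min)

`card_idx`: induction on `M` (`Finset.induction_on`), `idx (insert p M) = insert p.1 (insert p.2 (idx M))`, `p.1 ≠ p.2`, both not in
`idx M` by `Dis (insert p M)`.

`match_ind`, induction on `m`.  `m = 0`: `M = ∅`, `Zm Y ∅ s = Y` (`sh ∅ s = 1`).  Step: `M`, `|M| = m`, `|idx M| = 2 m < d`, so there is
`x ∉ idx M`.  `J = insert x (idx M)`, `|J| = 2 m + 1 < 2 (m + 1)`.  `chain_ind` with `P = M`, `I = {x}`, `Z = Zm Y M s` (`Zm_inv` and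
`IsInv.mono`: `G M {x} ⊆ G M ∅`; `Zm Y M s ⊆ Y ⊆ Om g`) gives a chain, `path` gives the claim (`P = M`).

`matching`: `match_ind` and `normalise`.
-/

set_option autoImplicit false

namespace Pool.Agent.H46.MM

open Matrix Filter Topology Pool.Agent.H89.CSD Pool.Agent.H46.RG

variable {d : ℕ}

theorem card_idx {M : Finset (Fin d × Fin d)} (hM : Dis M) : (idx M).card = 2 * M.card := by
  classical
  have h1 : (M.image Prod.fst).card = M.card := by
    refine Finset.card_image_of_injOn fun p hp q hq h => ?_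
    by_contra hpq
    exact (hM.2 p hp q hq hpq).1 h
  have h2 : (M.image Prod.snd).card = M.card := by
    refine Finset.card_image_of_injOn fun p hp q hq h => ?_
    by_contra hpq
    exact (hM.2 p hp q hq hpq).2.2.2 h
  have h3 : Disjoint (M.image Prod.fst) (M.image Prod.snd) := by
    rw [Finset.disjoint_left]
    intro i hi hi'
    rw [Finset.mem_image] at hi hi'
    obtain ⟨p, hp, rfl⟩ := hi
    obtain ⟨q, hq, hqp⟩ := hi'
    by_cases hpq : p = q
    · subst hpq
      exact hM.1 p hp hqp.symm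
    · exact (hM.2 p hp q hq hpq).2.1 hqp.symm
  rw [idx, Finset.card_union_of_disjoint h3, h1, h2]
  ring

theorem match_ind (hd : 3 ≤ d) {g : Matrix (Fin d) (Fin d) ℝ} (hg : g.det ≠ 0) {c : ℝ}
    (hc : 0 < c) (hp : Pos c g) (hn : ¬ IntForm g) {Y : Set (Matrix (Fin d) (Fin d) ℝ)}
    (hY : Y ⊆ Om g) (hinv : IsInv (A1 d) Y) (m : ℕ) (hm : 2 * m ≤ d)
    (hodd : ∀ n, Odd n → n < 2 * m → n.Coprime d) :
    ∃ (M : Finset (Fin d × Fin d)) (s : Fin d × Fin d → ℝ), M.card = m ∧ Dis M ∧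
      (∀ p ∈ M, s p ≠ 0) ∧ (Zm Y M s).Nonempty := by
  classical
  induction m with
  | zero =>
    obtain ⟨z, hz⟩ := hinv.nonempty
    refine ⟨∅, fun _ => 1, rfl, ⟨by simp, by simp⟩, by simp, z, fun Q hQ => ?_⟩
    rw [Finset.subset_empty.mp hQ]
    simpa [sh] using hz
  | succ m ih =>
    obtain ⟨M, s, hMc, hM, hs, hne⟩ := ih (by omega) fun n h1 h2 => hodd n h1 (by omega)
    have hci := card_idx hM
    obtain ⟨x, hx⟩ : ∃ x, x ∉ idx M := by
      by_contra hcon
      push Not at hcon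
      have h1 : (Finset.univ : Finset (Fin d)).card ≤ (idx M).card :=
        Finset.card_le_card fun i _ => hcon i
      rw [Finset.card_univ, Fintype.card_fin, hci, hMc] at h1
      omega
    have hdis : Disjoint ({x} : Finset (Fin d)) (idx M) := Finset.disjoint_singleton_left.mpr hx
    have hJc : (({x} : Finset (Fin d)) ∪ idx M).card = 2 * m + 1 := by
      rw [Finset.card_union_of_disjoint hdis, hci, hMc, Finset.card_singleton]
      ring
    have hinv' : IsInv (G M {x}) (Zm Y M s) := by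
      refine (Zm_inv hinv hne).mono fun a ha => ⟨ha.1, ha.2.1, fun i hi => ?_⟩
      simp at hi
    obtain ⟨ws, hws, hne'⟩ := chain_ind hd hg hc hp hn (J := ({x} : Finset (Fin d)) ∪ idx M)
      (fun n h1 h2 => hodd n h1 (by omega)) m M {x} hMc hM rfl hdis (by simp) (Zm Y M s)
      (Zm_subset.trans hY) hinv'
    obtain ⟨M', s', hc', hM', hs', hne''⟩ := path hg hc hp hY hinv ws M M s x
      (Finset.Subset.refl _) hM hx (Finset.mem_union_left _ (Finset.mem_singleton_self x))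
      Finset.subset_union_right hs
      (Chn_mono (Finset.Subset.refl _) (fun i hi => Finset.mem_singleton.mp hi) hws) hne'
    exact ⟨M', s', by rw [hc', hMc], hM', hs', hne''⟩

theorem matching (hd : 3 ≤ d) {g : Matrix (Fin d) (Fin d) ℝ} (hg : g.det ≠ 0) {c : ℝ}
    (hc : 0 < c) (hp : Pos c g) (hn : ¬ IntForm g) {Y : Set (Matrix (Fin d) (Fin d) ℝ)}
    (hY : Y ⊆ Om g) (hinv : IsInv (A1 d) Y) (m : ℕ) (hm : 2 * m ≤ d)
    (hodd : ∀ n, Odd n → n < 2 * m → n.Coprime d) :
    ∃ M : Finset (Fin d × Fin d), M.card = m ∧ Dis M ∧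
      ∃ z, ∀ Q ⊆ M, (1 + ∑ p ∈ Q, Matrix.single p.1 p.2 1) * z ∈ Y := by
  obtain ⟨M, s, hMc, hM, hs, hne⟩ := match_ind hd hg hc hp hn hY hinv m hm hodd
  obtain ⟨z, hz⟩ := normalise hinv hM hs hne
  exact ⟨M, hMc, hM, z, fun Q hQ => hz Q hQ⟩

end Pool.Agent.H46.MM
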