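import Mathlib

/-!
Morrey's inequality in dimension `m ≥ 1` with exponent `m + 1`, on `Fin m → ℝ` with the sup norm.
Proof: `|g z| ≤ ∫ s in 0..1, 4 R (m + 1) s^m ‖g' (z + s^(m+1) h)‖` for all `h` in a cube of side
`2 R` at distance `2 R` from `0`; Jensen's inequality, integration over `h` and scaling.
-/

set_option autoImplicit false

namespace Pool.Agent.H46.MM

open MeasureTheory

private theorem Mor_line (m : ℕ) (R : ℝ) (hR : 0 < R) (g : (Fin m → ℝ) → ℝ) (hg : ContDiff ℝ 1 g)
    (z h : Fin m → ℝ) (hh : ‖h‖ ≤ 4 * R) (h0 : g (z + h) = 0) :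
    |g z| ^ (m + 1) ≤ ∫ s in Set.Icc (0 : ℝ) 1,
      (4 * R * ((m + 1) * s ^ m) * ‖fderiv ℝ g (z + s ^ (m + 1) • h)‖) ^ (m + 1) := by
  have hcf : Continuous (fderiv ℝ g) := hg.continuous_fderiv (by norm_num)
  have hcp : Continuous fun s : ℝ => z + s ^ (m + 1) • h := by fun_prop
  have hc1 : Continuous fun s : ℝ => fderiv ℝ g (z + s ^ (m + 1) • h) := hcf.comp hcp
  have hd : ∀ s : ℝ, HasDerivAt (fun s : ℝ => g (z + s ^ (m + 1) • h))
      (fderiv ℝ g (z + s ^ (m + 1) • h) (((m + 1 : ℝ) * s ^ m) • h)) s := by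
    intro s
    have h1 : HasDerivAt (fun s : ℝ => z + s ^ (m + 1) • h) (((m + 1 : ℝ) * s ^ m) • h) s := by
      have h2 := (hasDerivAt_pow (m + 1) s).smul_const h
      have h3 := h2.const_add z
      simpa using h3
    have h4 : HasFDerivAt g (fderiv ℝ g (z + s ^ (m + 1) • h)) (z + s ^ (m + 1) • h) :=
      (hg.differentiable (by norm_num) _).hasFDerivAt
    exact h4.comp_hasDerivAt s h1
  have hcd : Continuous fun s : ℝ => fderiv ℝ g (z + s ^ (m + 1) • h) (((m + 1 : ℝ) * s ^ m) • h) := by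
    exact hc1.clm_apply (by fun_prop)
  have hftc := intervalIntegral.integral_eq_sub_of_hasDerivAt (a := (0 : ℝ)) (b := 1)
    (fun s _ => hd s) (hcd.intervalIntegrable 0 1)
  have e0 : g (z + (0 : ℝ) ^ (m + 1) • h) = g z := by simp
  have e1 : g (z + (1 : ℝ) ^ (m + 1) • h) = 0 := by simpa using h0
  rw [e0, e1] at hftc
  have hle : |g z| ≤ ∫ s in Set.Icc (0 : ℝ) 1,
      4 * R * ((m + 1) * s ^ m) * ‖fderiv ℝ g (z + s ^ (m + 1) • h)‖ := by
    have h1 : |g z| = ‖∫ s in (0 : ℝ)..1,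
        fderiv ℝ g (z + s ^ (m + 1) • h) (((m + 1 : ℝ) * s ^ m) • h)‖ := by
      rw [hftc, zero_sub, norm_neg, Real.norm_eq_abs]
    rw [h1, integral_Icc_eq_integral_Ioc, ← intervalIntegral.integral_of_le zero_le_one]
    apply intervalIntegral.norm_integral_le_of_norm_le zero_le_one
    · refine Filter.Eventually.of_forall fun s hs => ?_
      have hs0 : 0 ≤ (m + 1 : ℝ) * s ^ m := by
        have : 0 ≤ s := hs.1.le
        positivity
      calc ‖fderiv ℝ g (z + s ^ (m + 1) • h) (((m + 1 : ℝ) * s ^ m) • h)‖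
          ≤ ‖fderiv ℝ g (z + s ^ (m + 1) • h)‖ * ‖((m + 1 : ℝ) * s ^ m) • h‖ :=
            ContinuousLinearMap.le_opNorm _ _
        _ = ‖fderiv ℝ g (z + s ^ (m + 1) • h)‖ * (((m + 1 : ℝ) * s ^ m) * ‖h‖) := by
            rw [norm_smul, Real.norm_of_nonneg hs0]
        _ ≤ ‖fderiv ℝ g (z + s ^ (m + 1) • h)‖ * (((m + 1 : ℝ) * s ^ m) * (4 * R)) := by
            gcongr
        _ = _ := by ring
    · apply Continuous.intervalIntegrable
      exact (by fun_prop : Continuous fun s : ℝ => 4 * R * ((m + 1) * s ^ m)).mul hc1.norm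
  have hcG : Continuous fun s : ℝ =>
      4 * R * ((m + 1) * s ^ m) * ‖fderiv ℝ g (z + s ^ (m + 1) • h)‖ :=
    (by fun_prop : Continuous fun s : ℝ => 4 * R * ((m + 1) * s ^ m)).mul hc1.norm
  have : IsProbabilityMeasure (volume.restrict (Set.Icc (0 : ℝ) 1)) := ⟨by simp⟩
  have hj := ConvexOn.map_integral_le (μ := volume.restrict (Set.Icc (0 : ℝ) 1))
    (convexOn_pow (m + 1)) (by fun_prop) isClosed_Ici
    (f := fun s : ℝ => 4 * R * ((m + 1) * s ^ m) * ‖fderiv ℝ g (z + s ^ (m + 1) • h)‖)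
    (by
      rw [ae_restrict_iff' measurableSet_Icc]
      refine Filter.Eventually.of_forall fun s hs => ?_
      have : 0 ≤ s := hs.1
      rw [Set.mem_Ici]
      positivity)
    (hcG.continuousOn.integrableOn_compact isCompact_Icc)
    ((hcG.pow (m + 1)).continuousOn.integrableOn_compact isCompact_Icc)
  exact (pow_le_pow_left₀ (abs_nonneg _) hle _).trans hj

theorem morrey (m : ℕ) (hm : 1 ≤ m) (R : ℝ) (hR : 0 < R) : ∃ C : ℝ, 0 < C ∧ ∀ (b : Fin m → ℝ)
    (g : (Fin m → ℝ) → ℝ), ContDiff ℝ 1 g → (∀ y, R ≤ dist y b → g y = 0) →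
      ∀ z, |g z| ^ (m + 1) ≤ C * ∫ y, ‖fderiv ℝ g y‖ ^ (m + 1) := by
  have : NeZero m := ⟨by omega⟩
  set c : Fin m → ℝ := fun _ => 3 * R with hc
  set A : Set (Fin m → ℝ) := Metric.closedBall c R with hA
  have hAc : IsCompact A := isCompact_closedBall c R
  have hAm : MeasurableSet A := Metric.isClosed_closedBall.measurableSet
  have hnc : ‖c‖ = 3 * R := by
    rw [hc, pi_norm_const, Real.norm_of_nonneg (by positivity)]
  have hV : 0 < volume.real A := by
    rw [measureReal_def]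
    apply ENNReal.toReal_pos
    · exact (Metric.measure_closedBall_pos volume c hR).ne'
    · exact hAc.measure_lt_top.ne
  set K : ℝ := (4 * R * (m + 1)) ^ (m + 1) with hK
  have hKp : 0 < K := by positivity
  refine ⟨K / volume.real A, by positivity, ?_⟩
  intro b g hg hgz z
  set G : ℝ := ∫ y, ‖fderiv ℝ g y‖ ^ (m + 1) with hG
  have hG0 : 0 ≤ G := integral_nonneg fun y => by positivity
  by_cases hz : R ≤ dist z b
  · rw [hgz z hz]
    simp only [abs_zero]
    rw [zero_pow (by omega)]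
    positivity
  push Not at hz
  have hcf : Continuous (fderiv ℝ g) := hg.continuous_fderiv (by norm_num)
  have hcs : HasCompactSupport g := by
    refine HasCompactSupport.intro (isCompact_closedBall b R) fun x hx => ?_
    apply hgz
    rw [Metric.mem_closedBall, not_le] at hx
    exact hx.le
  have hcs2 : HasCompactSupport fun y => ‖fderiv ℝ g y‖ ^ (m + 1) := by
    have h1 : HasCompactSupport (fderiv ℝ g) := hcs.fderiv (𝕜 := ℝ)
    refine h1.comp_left (g := fun L => ‖L‖ ^ (m + 1)) ?_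
    simp
  have hci : Integrable fun y => ‖fderiv ℝ g y‖ ^ (m + 1) :=
    (hcf.norm.pow (m + 1)).integrable_of_hasCompactSupport hcs2
  have hline : ∀ h ∈ A, |g z| ^ (m + 1) ≤ ∫ s in Set.Icc (0 : ℝ) 1,
      (4 * R * ((m + 1) * s ^ m) * ‖fderiv ℝ g (z + s ^ (m + 1) • h)‖) ^ (m + 1) := by
    intro h hh
    rw [hA, Metric.mem_closedBall, dist_eq_norm] at hh
    apply Mor_line m R hR g hg z h
    · calc ‖h‖ = ‖(h - c) + c‖ := by rw [sub_add_cancel]
        _ ≤ ‖h - c‖ + ‖c‖ := norm_add_le _ _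
        _ ≤ R + 3 * R := by rw [hnc]; linarith
        _ = 4 * R := by ring
    · apply hgz
      have h1 : 3 * R ≤ ‖h‖ + R := by
        calc 3 * R = ‖c‖ := hnc.symm
          _ = ‖h - (h - c)‖ := by rw [sub_sub_cancel]
          _ ≤ ‖h‖ + ‖h - c‖ := norm_sub_le _ _
          _ ≤ ‖h‖ + R := by linarith
      have h2 : dist (z + h) z = ‖h‖ := by rw [dist_eq_norm, add_sub_cancel_left]
      have h3 := dist_triangle (z + h) b z
      rw [h2, dist_comm b z] at h3
      linarith
  have hint : Integrable (Function.uncurry fun (h : Fin m → ℝ) (s : ℝ) =>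
      (4 * R * ((m + 1) * s ^ m) * ‖fderiv ℝ g (z + s ^ (m + 1) • h)‖) ^ (m + 1))
      ((volume.restrict A).prod (volume.restrict (Set.Icc (0 : ℝ) 1))) := by
    rw [Measure.prod_restrict]
    apply ContinuousOn.integrableOn_compact (hAc.prod isCompact_Icc)
    apply Continuous.continuousOn
    have h1 : Continuous fun p : (Fin m → ℝ) × ℝ => z + p.2 ^ (m + 1) • p.1 := by fun_prop
    have h2 : Continuous fun p : (Fin m → ℝ) × ℝ => 4 * R * ((m + 1 : ℝ) * p.2 ^ m) := by fun_prop
    exact (h2.mul (hcf.comp h1).norm).pow (m + 1)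
  have hin : ∀ s ∈ Set.Icc (0 : ℝ) 1, ∫ h in A,
      (4 * R * ((m + 1) * s ^ m) * ‖fderiv ℝ g (z + s ^ (m + 1) • h)‖) ^ (m + 1) ≤ K * G := by
    intro s hs
    rcases hs.1.eq_or_lt with h0 | h0
    · rw [← h0, zero_pow (by omega : m ≠ 0)]
      simp only [mul_zero, zero_mul]
      rw [zero_pow (by omega)]
      simp only [integral_zero]
      positivity
    · have hsm : s ^ (m + 1) ≠ 0 := by positivity
      have hi1 : Integrable fun h : Fin m → ℝ => ‖fderiv ℝ g (z + s ^ (m + 1) • h)‖ ^ (m + 1) := by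
        have h1 := hci.comp_add_left z
        exact h1.comp_smul hsm
      have e1 : (fun h : Fin m → ℝ =>
          (4 * R * ((m + 1) * s ^ m) * ‖fderiv ℝ g (z + s ^ (m + 1) • h)‖) ^ (m + 1)) =
          fun h => K * (s ^ (m + 1)) ^ m * ‖fderiv ℝ g (z + s ^ (m + 1) • h)‖ ^ (m + 1) := by
        funext h
        rw [hK, ← pow_mul, mul_comm (m + 1) m, pow_mul, ← mul_pow, ← mul_pow]
        congr 1
        ring
      rw [e1]
      calc ∫ h in A, K * (s ^ (m + 1)) ^ m * ‖fderiv ℝ g (z + s ^ (m + 1) • h)‖ ^ (m + 1)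
          ≤ ∫ h, K * (s ^ (m + 1)) ^ m * ‖fderiv ℝ g (z + s ^ (m + 1) • h)‖ ^ (m + 1) :=
            setIntegral_le_integral (hi1.const_mul _)
              (Filter.Eventually.of_forall fun h => by positivity)
        _ = K * (s ^ (m + 1)) ^ m * ∫ h, ‖fderiv ℝ g (z + s ^ (m + 1) • h)‖ ^ (m + 1) :=
            integral_const_mul _ _
        _ = K * (s ^ (m + 1)) ^ m * (((s ^ (m + 1)) ^ m)⁻¹ * G) := by
            congr 1
            have h2 := Measure.integral_comp_smul (volume : Measure (Fin m → ℝ))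
              (fun y => ‖fderiv ℝ g (z + y)‖ ^ (m + 1)) (s ^ (m + 1))
            rw [h2, Module.finrank_fin_fun, abs_of_nonneg (by positivity), smul_eq_mul,
              integral_add_left_eq_self (fun y => ‖fderiv ℝ g y‖ ^ (m + 1)) z]
        _ = K * G := by
            have : (s ^ (m + 1)) ^ m ≠ 0 := by positivity
            field_simp
        _ ≤ K * G := le_rfl
  have hfin : volume.real A * |g z| ^ (m + 1) ≤ K * G := by
    calc volume.real A * |g z| ^ (m + 1) = ∫ h in A, |g z| ^ (m + 1) := by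
          rw [setIntegral_const, smul_eq_mul]
      _ ≤ ∫ h in A, ∫ s in Set.Icc (0 : ℝ) 1,
          (4 * R * ((m + 1) * s ^ m) * ‖fderiv ℝ g (z + s ^ (m + 1) • h)‖) ^ (m + 1) := by
          apply setIntegral_mono_on _ _ hAm hline
          · exact integrableOn_const hAc.measure_lt_top.ne
          · exact hint.integral_prod_left
      _ = ∫ s in Set.Icc (0 : ℝ) 1, ∫ h in A,
          (4 * R * ((m + 1) * s ^ m) * ‖fderiv ℝ g (z + s ^ (m + 1) • h)‖) ^ (m + 1) :=
          integral_integral_swap hint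
      _ ≤ ∫ s in Set.Icc (0 : ℝ) 1, K * G := by
          apply setIntegral_mono_on _ _ measurableSet_Icc hin
          · exact hint.integral_prod_right
          · exact integrableOn_const isCompact_Icc.measure_lt_top.ne
      _ = K * G := by
          rw [setIntegral_const]
          simp
  rw [div_mul_eq_mul_div, le_div_iff₀ hV]
  linarith

end Pool.Agent.H46.MM
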