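import Pool.Agent.H46.MM.LocCut
import Pool.Agent.H46.MM.Basic

/-!
Cut-offs of small energy for compact sets of removable points. `IsCompact.induction_on` for the property of `S`: for all `ε > 0` there is `χ` as below
with `χ = 1` near every `x ∈ S \ D` (empty set: `χ = 0`; union: `χ₁ + χ₂ - χ₁ χ₂`, energy `≤ 2^n (energy χ₁ + energy χ₂)`; local: `w ∈ A ⊆ hull D` has
`r`, take `ρ ≤ r` with `closedBall w ρ ⊆ O` and `loc_cut` with `p = w`, neighbourhood `ball w (ρ/2)`).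
-/

set_option autoImplicit false

namespace Pool.Agent.H46.MM

open MeasureTheory Filter Topology

private theorem nc_add {m : ℕ} (χ₁ χ₂ : E m → ℝ) (h1 : ContDiff ℝ (⊤ : ℕ∞) χ₁) (h2 : ContDiff ℝ (⊤ : ℕ∞) χ₂)
    (c1 : HasCompactSupport χ₁) (c2 : HasCompactSupport χ₂) (a1 : ∀ x, 0 ≤ χ₁ x) (b1 : ∀ x, χ₁ x ≤ 1)
    (a2 : ∀ x, 0 ≤ χ₂ x) (b2 : ∀ x, χ₂ x ≤ 1)
    (c : HasCompactSupport (fun x => χ₁ x + χ₂ x - χ₁ x * χ₂ x)) :
    energy (fun x => χ₁ x + χ₂ x - χ₁ x * χ₂ x) ≤ 2 ^ m * (energy χ₁ + energy χ₂) := by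
  have hs : ContDiff ℝ (⊤ : ℕ∞) (fun x => χ₁ x + χ₂ x - χ₁ x * χ₂ x) := (h1.add h2).sub (h1.mul h2)
  unfold energy
  rw [← integral_add (integ _ h1 c1) (integ _ h2 c2), ← integral_const_mul]
  refine integral_mono (integ _ hs c) (((integ _ h1 c1).add (integ _ h2 c2)).const_mul _) fun x => ?_
  have d1 : DifferentiableAt ℝ χ₁ x := (h1.differentiable (by simp)).differentiableAt
  have d2 : DifferentiableAt ℝ χ₂ x := (h2.differentiable (by simp)).differentiableAt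
  have e : fderiv ℝ (fun x => χ₁ x + χ₂ x - χ₁ x * χ₂ x) x =
      (1 - χ₂ x) • fderiv ℝ χ₁ x + (1 - χ₁ x) • fderiv ℝ χ₂ x := by
    have f1 : HasFDerivAt (fun x => χ₁ x + χ₂ x - χ₁ x * χ₂ x)
        (fderiv ℝ χ₁ x + fderiv ℝ χ₂ x - (χ₁ x • fderiv ℝ χ₂ x + χ₂ x • fderiv ℝ χ₁ x)) x :=
      (d1.hasFDerivAt.add d2.hasFDerivAt).sub (d1.hasFDerivAt.mul d2.hasFDerivAt)
    rw [f1.fderiv]
    module
  have n1 : ‖(1 - χ₂ x) • fderiv ℝ χ₁ x‖ ≤ ‖fderiv ℝ χ₁ x‖ := by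
    rw [norm_smul, Real.norm_of_nonneg (by linarith [b2 x])]
    exact mul_le_of_le_one_left (norm_nonneg _) (by linarith [a2 x])
  have n2 : ‖(1 - χ₁ x) • fderiv ℝ χ₂ x‖ ≤ ‖fderiv ℝ χ₂ x‖ := by
    rw [norm_smul, Real.norm_of_nonneg (by linarith [b1 x])]
    exact mul_le_of_le_one_left (norm_nonneg _) (by linarith [a1 x])
  simp only
  rw [norm_grad, norm_grad, norm_grad, e]
  calc ‖(1 - χ₂ x) • fderiv ℝ χ₁ x + (1 - χ₁ x) • fderiv ℝ χ₂ x‖ ^ (m + 1)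
      ≤ (‖fderiv ℝ χ₁ x‖ + ‖fderiv ℝ χ₂ x‖) ^ (m + 1) :=
        pow_le_pow_left₀ (norm_nonneg _) ((norm_add_le _ _).trans (add_le_add n1 n2)) _
    _ ≤ 2 ^ (m + 1 - 1) * (‖fderiv ℝ χ₁ x‖ ^ (m + 1) + ‖fderiv ℝ χ₂ x‖ ^ (m + 1)) :=
        add_pow_le (norm_nonneg _) (norm_nonneg _) _
    _ = _ := by rw [Nat.add_sub_cancel]

theorem null_cut {m : ℕ} (D : Set (E m)) (hD : IsOpen D) (A : Set (E m)) (hA : IsCompact A) (hAH : A ⊆ hull D)
    (hAD : Disjoint A D) (O : Set (E m)) (hO : IsOpen O) (hAO : A ⊆ O) (ε : ℝ) (hε : 0 < ε) :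
    ∃ χ : E m → ℝ, ContDiff ℝ (⊤ : ℕ∞) χ ∧ HasCompactSupport χ ∧ tsupport χ ⊆ O ∧ (∀ x, 0 ≤ χ x) ∧
      (∀ x, χ x ≤ 1) ∧ energy χ ≤ ε ∧ ∀ x ∈ A, ∀ᶠ y in 𝓝 x, χ y = 1 := by
  have key : ∀ ε : ℝ, 0 < ε → ∃ χ : E m → ℝ, ContDiff ℝ (⊤ : ℕ∞) χ ∧ HasCompactSupport χ ∧
      tsupport χ ⊆ O ∧ (∀ x, 0 ≤ χ x) ∧ (∀ x, χ x ≤ 1) ∧ energy χ ≤ ε ∧
      ∀ x ∈ A, x ∉ D → ∀ᶠ y in 𝓝 x, χ y = 1 := by
    refine IsCompact.induction_on (p := fun S => ∀ ε : ℝ, 0 < ε → ∃ χ : E m → ℝ,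
      ContDiff ℝ (⊤ : ℕ∞) χ ∧ HasCompactSupport χ ∧
      tsupport χ ⊆ O ∧ (∀ x, 0 ≤ χ x) ∧ (∀ x, χ x ≤ 1) ∧ energy χ ≤ ε ∧
      ∀ x ∈ S, x ∉ D → ∀ᶠ y in 𝓝 x, χ y = 1) hA ?_ ?_ ?_ ?_
    · intro ε hε
      have ht : tsupport (fun _ : E m => (0 : ℝ)) = ∅ := by
        rw [tsupport_eq_empty_iff]; rfl
      refine ⟨fun _ => 0, contDiff_const, ?_, ?_, fun _ => le_rfl, fun _ => zero_le_one, ?_, ?_⟩
      · show IsCompact (tsupport (fun _ : E m => (0 : ℝ)))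
        rw [ht]; exact isCompact_empty
      · rw [ht]; exact Set.empty_subset _
      · have : energy (fun _ : E m => (0 : ℝ)) = 0 := by
          unfold energy
          have : ∀ x : E m, ‖gradient (fun _ : E m => (0 : ℝ)) x‖ ^ (m + 1) = 0 := by
            intro x
            rw [norm_grad]
            simp
          simp [this]
        rw [this]; exact hε.le
      · intro x hx
        exact absurd hx (Set.notMem_empty x)
    · intro s t hst h ε hε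
      obtain ⟨χ, q1, q2, q3, q4, q5, q6, q7⟩ := h ε hε
      exact ⟨χ, q1, q2, q3, q4, q5, q6, fun x hx => q7 x (hst hx)⟩
    · intro s t h h' ε hε
      obtain ⟨χ₁, q1, q2, q3, q4, q5, q6, q7⟩ := h (ε / 2 ^ (m + 1)) (by positivity)
      obtain ⟨χ₂, r1, r2, r3, r4, r5, r6, r7⟩ := h' (ε / 2 ^ (m + 1)) (by positivity)
      have hts : tsupport (fun x => χ₁ x + χ₂ x - χ₁ x * χ₂ x) ⊆ tsupport χ₁ ∪ tsupport χ₂ := by
        refine closure_minimal ?_ ((isClosed_tsupport χ₁).union (isClosed_tsupport χ₂))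
        intro x hx
        by_contra hc
        rw [Set.mem_union, not_or] at hc
        have e1 : χ₁ x = 0 := image_eq_zero_of_notMem_tsupport hc.1
        have e2 : χ₂ x = 0 := image_eq_zero_of_notMem_tsupport hc.2
        exact hx (by simp [e1, e2])
      have hcs : HasCompactSupport (fun x => χ₁ x + χ₂ x - χ₁ x * χ₂ x) := by
        have h2 : IsCompact (tsupport χ₁ ∪ tsupport χ₂) := IsCompact.union q2 r2
        exact h2.of_isClosed_subset (isClosed_tsupport _) hts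
      refine ⟨fun x => χ₁ x + χ₂ x - χ₁ x * χ₂ x, (q1.add r1).sub (q1.mul r1), hcs,
        hts.trans (Set.union_subset q3 r3), ?_, ?_, ?_, ?_⟩
      · intro x
        nlinarith [q4 x, q5 x, r4 x, r5 x]
      · intro x
        nlinarith [q4 x, q5 x, r4 x, r5 x, mul_nonneg (sub_nonneg.2 (q5 x)) (sub_nonneg.2 (r5 x))]
      · refine (nc_add χ₁ χ₂ q1 r1 q2 r2 q4 q5 r4 r5 hcs).trans ?_
        calc 2 ^ m * (energy χ₁ + energy χ₂) ≤ 2 ^ m * (ε / 2 ^ (m + 1) + ε / 2 ^ (m + 1)) := by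
              gcongr
          _ = ε := by
              rw [pow_succ]
              field_simp
              ring
      · rintro x (hx | hx) hxD
        · filter_upwards [q7 x hx hxD] with y hy
          rw [hy]; ring
        · filter_upwards [r7 x hx hxD] with y hy
          rw [hy]; ring
    · intro w hw
      obtain ⟨r, hr, hcap⟩ := hAH hw
      obtain ⟨ρ₀, hρ₀, hb⟩ := Metric.isOpen_iff.1 hO w (hAO hw)
      have hρ : 0 < min r ρ₀ := lt_min hr hρ₀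
      refine ⟨Metric.ball w (min r ρ₀ / 2), mem_nhdsWithin_of_mem_nhds
        (Metric.ball_mem_nhds w (by linarith)), fun ε hε => ?_⟩
      obtain ⟨χ, q1, q2, q3, q4, q5, q6⟩ := loc_cut D hD w r hr hcap w (min r ρ₀) hρ
        (Metric.closedBall_subset_closedBall (min_le_left _ _)) ε hε
      refine ⟨χ, q1, ?_, q2.trans ((Metric.ball_subset_ball (min_le_right _ _)).trans hb), q3, q4, q5,
        fun x hx hxD => q6 x (Metric.ball_subset_closedBall hx) hxD⟩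
      exact (isCompact_closedBall w (min r ρ₀)).of_isClosed_subset (isClosed_tsupport _)
        (q2.trans Metric.ball_subset_closedBall)
  obtain ⟨χ, q1, q2, q3, q4, q5, q6, q7⟩ := key ε hε
  exact ⟨χ, q1, q2, q3, q4, q5, q6, fun x hx => q7 x hx (Set.disjoint_left.1 hAD hx)⟩

end Pool.Agent.H46.MM
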