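import Pool.Agent.H46.MM.Slice
import Pool.Agent.H46.MM.Mor

/-!
Positivity of the capacity of continua. Let `N x = max_i |x i - p i|` (sup norm distance to `p`), choose `s0 > 0` with
`N x < s0 → dist x p < r` and `s0 ≤ N q`. For `0 < s < s0` some `z ∈ K` has `N z = s` (`K` preconnected, `N p = 0`), so
`z i = p i ± s` for some `i`, and the slice `x_i = p i ± s` of `Λ` has a value `≥ δ` and vanishes outside a ball of radius `R`
(sup norm, centre the coordinates of `a`): by `morrey` its integral `f i (p i ± s) ≥ δ^(m+1) / C`. So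
`∑ i, (f i (p i + s) + f i (p i - s)) ≥ δ^(m+1)/C` for all `s` in `(0, s0)`; integrate: `s0 δ^(m+1)/C ≤ ∑ i, 2 ∫ f i ≤ 2 (m+1) (m+1)^(m+1) energy Λ`.
-/

set_option autoImplicit false

namespace Pool.Agent.H46.MM

open MeasureTheory

/-- some coordinate of a point at sup distance `s` -/
private theorem pos_coord {m : ℕ} (z p : Fin (m + 1) → ℝ) (s : ℝ) (hs : 0 < s) (h : dist z p = s) :
    ∃ i, z i = p i + s ∨ z i = p i - s := by
  have h1 : ¬ ∀ i, dist (z i) (p i) < s := fun h2 => by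
    have := (dist_pi_lt_iff hs).2 h2
    linarith
  push Not at h1
  obtain ⟨i, hi⟩ := h1
  refine ⟨i, ?_⟩
  have h2 : dist (z i) (p i) = s := le_antisymm ((dist_le_pi_dist z p i).trans_eq h) hi
  rw [Real.dist_eq] at h2
  rcases abs_eq hs.le |>.1 h2 with h3 | h3
  · left; linarith
  · right; linarith

/-- the sup distance is at most the distance -/
private theorem pos_dist {m : ℕ} (x a : E m) : dist x.ofLp a.ofLp ≤ dist x a := by
  rw [dist_pi_le_iff dist_nonneg]
  intro i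
  rw [dist_eq_norm, dist_eq_norm]
  exact PiLp.norm_apply_le (x - a) i

/-- the slice through a point where `Λ ≥ δ` -/
private theorem pos_slice {m : ℕ} (R : ℝ) (C : ℝ)
    (hC : ∀ (b : Fin m → ℝ) (g : (Fin m → ℝ) → ℝ), ContDiff ℝ 1 g → (∀ y, R ≤ dist y b → g y = 0) →
      ∀ z, |g z| ^ (m + 1) ≤ C * ∫ y, ‖fderiv ℝ g y‖ ^ (m + 1))
    (Λ : E m → ℝ) (h : ContDiff ℝ (⊤ : ℕ∞) Λ) (a : E m) (h0 : ∀ x, R ≤ dist x a → Λ x = 0)
    (δ : ℝ) (hδ : 0 < δ) (z : E m) (hz : δ ≤ Λ z) (i : Fin (m + 1)) :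
    δ ^ (m + 1) ≤ C * ∫ y, ‖fderiv ℝ (slice Λ i (z i)) y‖ ^ (m + 1) := by
  have h1 := hC (i.removeNth a.ofLp) (slice Λ i (z i)) (slice_contDiff Λ h i _) ?_ (i.removeNth z.ofLp)
  · refine le_trans ?_ h1
    have h2 : slice Λ i (z i) (i.removeNth z.ofLp) = Λ z := by
      rw [slice]
      congr 1
      rw [show z i = z.ofLp i from rfl, Fin.insertNth_self_removeNth]
    rw [h2]
    exact pow_le_pow_left₀ hδ.le (hz.trans (le_abs_self _)) _
  · intro y hy
    apply h0
    refine hy.trans (le_trans ?_ (pos_dist _ _))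
    rw [dist_pi_le_iff dist_nonneg]
    intro j
    have h3 := dist_le_pi_dist (Fin.insertNth (α := fun _ => ℝ) i (z i) y) a.ofLp (i.succAbove j)
    rw [Fin.insertNth_apply_succAbove] at h3
    exact h3

theorem pos {m : ℕ} (hm : 1 ≤ m) (K : Set (E m)) (hK : IsPreconnected K) (p q : E m) (hp : p ∈ K) (hq : q ∈ K)
    (hpq : p ≠ q) (r : ℝ) (hr : 0 < r) (a : E m) (R : ℝ) (hR : 0 < R) (δ : ℝ) (hδ : 0 < δ) :
    ∃ c : ℝ, 0 < c ∧ ∀ Λ : E m → ℝ, ContDiff ℝ (⊤ : ℕ∞) Λ → (∀ x, R ≤ dist x a → Λ x = 0) →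
      (∀ x ∈ K, dist x p < r → δ ≤ Λ x) → c ≤ energy Λ := by
  obtain ⟨C, hC0, hC⟩ := morrey m hm R hR
  have hcont : Continuous fun x : E m => dist x.ofLp p.ofLp :=
    (PiLp.continuous_ofLp 2 _).dist continuous_const
  obtain ⟨s1, hs1, hs1'⟩ : ∃ s1 : ℝ, 0 < s1 ∧ ∀ x : E m, dist x.ofLp p.ofLp < s1 → dist x p < r := by
    have hc2 : Continuous fun y : Fin (m + 1) → ℝ => dist (WithLp.toLp 2 y : E m) p :=
      (PiLp.continuous_toLp 2 _).dist continuous_const
    have h1 : {y : Fin (m + 1) → ℝ | dist (WithLp.toLp 2 y : E m) p < r} ∈ nhds p.ofLp := by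
      apply (isOpen_lt hc2 continuous_const).mem_nhds
      show dist p p < r
      rwa [dist_self]
    obtain ⟨s1, hs1, h2⟩ := Metric.mem_nhds_iff.1 h1
    exact ⟨s1, hs1, fun x hx => h2 hx⟩
  have hq0 : 0 < dist q.ofLp p.ofLp := by
    rw [dist_pos]
    intro h1
    exact hpq (WithLp.ofLp_injective 2 h1).symm
  obtain ⟨s0, hs0, hs01, hs0q⟩ : ∃ s0 : ℝ, 0 < s0 ∧ s0 ≤ s1 ∧ s0 ≤ dist q.ofLp p.ofLp :=
    ⟨min s1 (dist q.ofLp p.ofLp), lt_min hs1 hq0, min_le_left _ _, min_le_right _ _⟩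
  have hm0 : (0 : ℝ) < 2 * (m + 1) * (m + 1) ^ (m + 1) := by positivity
  refine ⟨δ ^ (m + 1) / C * s0 / (2 * (m + 1) * (m + 1) ^ (m + 1)), by positivity,
    fun Λ hΛ h0 hK1 => ?_⟩
  have hsupp : HasCompactSupport Λ :=
    HasCompactSupport.of_support_subset_isCompact (isCompact_closedBall a R) fun x hx => by
      rw [Metric.mem_closedBall]
      by_contra h1
      exact hx (h0 x (not_le.1 h1).le)
  obtain ⟨F, hF⟩ : ∃ F : Fin (m + 1) → ℝ → ℝ,
      F = fun i t => ∫ y, ‖fderiv ℝ (slice Λ i t) y‖ ^ (m + 1) := ⟨_, rfl⟩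
  have hF0 : ∀ i t, 0 ≤ F i t := fun i t => by
    rw [hF]
    exact integral_nonneg fun y => by positivity
  have hFi : ∀ i, Integrable (F i) := fun i => by
    rw [hF]
    exact (slice_int Λ hΛ hsupp i).1
  have hFe : ∀ i, ∫ t, F i t ≤ (m + 1 : ℝ) ^ (m + 1) * energy Λ := fun i => by
    rw [hF]
    exact (slice_int Λ hΛ hsupp i).2
  obtain ⟨G, hG⟩ : ∃ G : ℝ → ℝ, G = fun s => ∑ i, (F i (p i + s) + F i (p i - s)) := ⟨_, rfl⟩
  have hlow : ∀ s ∈ Set.Ioo 0 s0, δ ^ (m + 1) / C ≤ G s := by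
    intro s hs
    obtain ⟨z, hzK, hz⟩ := hK.intermediate_value hp hq hcont.continuousOn
      (show s ∈ Set.Icc (dist p.ofLp p.ofLp) (dist q.ofLp p.ofLp) by
        rw [dist_self]
        exact ⟨hs.1.le, hs.2.le.trans hs0q⟩)
    have hz' : dist z.ofLp p.ofLp = s := hz
    have hzΛ : δ ≤ Λ z := hK1 z hzK (hs1' z (by rw [hz']; exact hs.2.trans_le hs01))
    obtain ⟨i, hi⟩ := pos_coord z.ofLp p.ofLp s hs.1 hz'
    have h1 := pos_slice R C hC Λ hΛ a h0 δ hδ z hzΛ i
    have h2 : δ ^ (m + 1) / C ≤ F i (z i) := by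
      rw [div_le_iff₀' hC0, hF]
      exact h1
    have h3 : F i (z i) ≤ F i (p i + s) + F i (p i - s) := by
      rcases hi with hi | hi
      · have h4 : z i = p i + s := hi
        rw [h4]
        linarith [hF0 i (p i - s)]
      · have h4 : z i = p i - s := hi
        rw [h4]
        linarith [hF0 i (p i + s)]
    refine (h2.trans h3).trans ?_
    rw [hG]
    exact Finset.single_le_sum (f := fun i => F i (p i + s) + F i (p i - s))
      (fun j _ => add_nonneg (hF0 _ _) (hF0 _ _)) (Finset.mem_univ i)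
  have hGi1 : ∀ i, Integrable fun s => F i (p i + s) := fun i => (hFi i).comp_add_left (p i)
  have hGi2 : ∀ i, Integrable fun s => F i (p i - s) := fun i => (hFi i).comp_sub_left (p i)
  have hGi3 : ∀ i, Integrable fun s => F i (p i + s) + F i (p i - s) := fun i =>
    (hGi1 i).add (hGi2 i)
  have hGi : Integrable G := by
    rw [hG]
    exact integrable_finsetSum _ fun i _ => hGi3 i
  have hG0 : ∀ s, 0 ≤ G s := fun s => by
    rw [hG]
    exact Finset.sum_nonneg fun i _ => add_nonneg (hF0 _ _) (hF0 _ _)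
  have hGI : ∫ s, G s ≤ 2 * (m + 1) * (m + 1) ^ (m + 1) * energy Λ := by
    have h5 : ∫ s, G s = ∑ i, ∫ s, (F i (p i + s) + F i (p i - s)) := by
      rw [hG]
      exact integral_finsetSum _ fun i _ => hGi3 i
    rw [h5]
    have h1 : ∀ i ∈ (Finset.univ : Finset (Fin (m + 1))),
        ∫ s, (F i (p i + s) + F i (p i - s)) ≤ 2 * ((m + 1 : ℝ) ^ (m + 1) * energy Λ) := by
      intro i _
      rw [integral_add (hGi1 i) (hGi2 i), integral_add_left_eq_self (F i), integral_sub_left_eq_self (F i)]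
      linarith [hFe i]
    refine (Finset.sum_le_sum h1).trans ?_
    rw [Finset.sum_const, Finset.card_univ, Fintype.card_fin, nsmul_eq_mul]
    push_cast
    linarith
  have hkey : δ ^ (m + 1) / C * s0 ≤ ∫ s, G s := by
    calc δ ^ (m + 1) / C * s0 = ∫ _ in Set.Ioo 0 s0, δ ^ (m + 1) / C := by
          rw [setIntegral_const, smul_eq_mul, mul_comm]
          simp [Measure.real, hs0.le]
      _ ≤ ∫ s in Set.Ioo 0 s0, G s :=
          setIntegral_mono_on (integrableOn_const (by simp)) hGi.integrableOn measurableSet_Ioo hlow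
      _ ≤ ∫ s, G s := setIntegral_le_integral hGi (Filter.Eventually.of_forall hG0)
  rw [div_le_iff₀' hm0]
  exact hkey.trans hGI

end Pool.Agent.H46.MM
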