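import Pool.Agent.H46.MM.Def

/-!
Pointwise inequalities. (helper13)
`conv`: `g t = ‖A - t (A - B)‖ ^ n` is convex, so `g λ - g 0 ≤ λ g' 1` (`n ≥ 2`); by the inequality
`‖X‖ ^ n ≥ ‖Y‖ ^ n + n ‖Y‖ ^ (n-2) ⟪Y, X - Y⟫` (Cauchy and Bernoulli) applied twice:
with `W = A - t (A - B)`: `‖A‖^n ≥ ‖W‖^n + n ‖W‖^(n-2) ⟪W, A - W⟫`, `A - W = t (A - B)`, and
`‖W‖^(n-2) ⟪W, A - B⟫ ≥ ‖B‖^(n-2) ⟪B, A - B⟫` (monotonicity of the gradient).
`clark`: Clarkson for exponent `n ≥ 2`: parallelogram law and `s^(n/2) + t^(n/2) ≤ (s+t)^(n/2)`, convexity of `s^(n/2)`.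
-/

set_option autoImplicit false

namespace Pool.Agent.H46.MM

namespace PwH

theorem tan1 (m : ℕ) {x y : ℝ} (hx : 0 ≤ x) (hy : 0 ≤ y) :
    y ^ (m + 1) + (m + 1) * y ^ m * (x - y) ≤ x ^ (m + 1) := by
  induction m with
  | zero => simp
  | succ m ih =>
    have h1 := mul_le_mul_of_nonneg_left ih hx
    have h2 : 0 ≤ ((m : ℝ) + 1) * y ^ m * (x - y) ^ 2 := by positivity
    have h3 : y ^ (m + 1 + 1) + (((m + 1 : ℕ) : ℝ) + 1) * y ^ (m + 1) * (x - y) =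
        x * (y ^ (m + 1) + (m + 1) * y ^ m * (x - y)) - ((m : ℝ) + 1) * y ^ m * (x - y) ^ 2 := by
      push_cast
      ring
    have h4 : x ^ (m + 1 + 1) = x * x ^ (m + 1) := by ring
    rw [h3, h4]
    linarith

theorem tan2 (k : ℕ) {x y : ℝ} (hx : 0 ≤ x) (hy : 0 ≤ y) :
    2 * y ^ (k + 2) + (k + 2) * y ^ k * (x ^ 2 - y ^ 2) ≤ 2 * x ^ (k + 2) := by
  induction k with
  | zero =>
    simp
    ring_nf
    exact le_refl _
  | succ k ih =>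
    have h1 := mul_le_mul_of_nonneg_left ih hx
    have h2 : 0 ≤ y ^ k * (x - y) ^ 2 * (((k : ℝ) + 2) * x + ((k : ℝ) + 1) * y) := by positivity
    have h3 : 2 * y ^ (k + 1 + 2) + (((k + 1 : ℕ) : ℝ) + 2) * y ^ (k + 1) * (x ^ 2 - y ^ 2) =
        x * (2 * y ^ (k + 2) + (k + 2) * y ^ k * (x ^ 2 - y ^ 2)) -
          y ^ k * (x - y) ^ 2 * (((k : ℝ) + 2) * x + ((k : ℝ) + 1) * y) := by
      push_cast
      ring
    have h4 : 2 * x ^ (k + 1 + 2) = x * (2 * x ^ (k + 2)) := by ring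
    rw [h3, h4]
    linarith

theorem grad {V : Type*} [NormedAddCommGroup V] [InnerProductSpace ℝ V] (k : ℕ) (X Y : V) :
    ‖Y‖ ^ (k + 2) + (k + 2) * (‖Y‖ ^ k * inner ℝ Y (X - Y)) ≤ ‖X‖ ^ (k + 2) := by
  have h1 : inner ℝ Y (X - Y) ≤ ‖Y‖ * (‖X‖ - ‖Y‖) := by
    rw [inner_sub_right, real_inner_self_eq_norm_sq]
    have := real_inner_le_norm Y X
    nlinarith
  have h2 := tan1 (k + 1) (norm_nonneg X) (norm_nonneg Y)
  have h3 : (k + 2 : ℝ) * (‖Y‖ ^ k * inner ℝ Y (X - Y)) ≤ (k + 2) * (‖Y‖ ^ k * (‖Y‖ * (‖X‖ - ‖Y‖))) := by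
    apply mul_le_mul_of_nonneg_left _ (by positivity)
    exact mul_le_mul_of_nonneg_left h1 (by positivity)
  have h4 : (k + 2 : ℝ) * (‖Y‖ ^ k * (‖Y‖ * (‖X‖ - ‖Y‖))) =
      (((k + 1 : ℕ) : ℝ) + 1) * ‖Y‖ ^ (k + 1) * (‖X‖ - ‖Y‖) := by
    push_cast
    ring
  rw [h4] at h3
  have h5 : k + 1 + 1 = k + 2 := rfl
  rw [h5] at h2
  linarith

end PwH

theorem conv {V : Type*} [NormedAddCommGroup V] [InnerProductSpace ℝ V] (m : ℕ) (hm : 1 ≤ m) (A B : V)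
    (t : ℝ) (h0 : 0 ≤ t) (h1 : t ≤ 1) :
    ‖A - t • (A - B)‖ ^ (m + 1) ≤ ‖A‖ ^ (m + 1) - (m + 1) * t * (‖B‖ ^ (m - 1) * inner ℝ B (A - B)) := by
  obtain ⟨k, rfl⟩ : ∃ k, m = k + 1 := ⟨m - 1, by omega⟩
  rw [Nat.add_sub_cancel]
  obtain ⟨W, hW⟩ : ∃ W, W = A - t • (A - B) := ⟨_, rfl⟩
  rw [← hW]
  have e1 : A - W = t • (A - B) := by
    rw [hW]
    abel
  have e2 : W - B = (1 - t) • (A - B) := by
    rw [hW, sub_smul, one_smul]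
    abel
  have g1 := PwH.grad k A W
  rw [e1, inner_smul_right] at g1
  have g2 : ‖B‖ ^ k * inner ℝ B (A - B) ≤ ‖W‖ ^ k * inner ℝ W (A - B) := by
    rcases h1.eq_or_lt with h | h
    · have e3 : W = B := by
        rw [hW, h, one_smul]
        abel
      rw [e3]
    · have g3 := PwH.grad k W B
      have g4 := PwH.grad k B W
      have e4 : B - W = -((1 - t) • (A - B)) := by rw [← e2, neg_sub]
      rw [e2, inner_smul_right] at g3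
      rw [e4, inner_neg_right, inner_smul_right] at g4
      have h5 : 0 < ((k : ℝ) + 2) * (1 - t) := by
        have : 0 < 1 - t := by linarith
        positivity
      have h6 : ((k : ℝ) + 2) * (1 - t) * (‖B‖ ^ k * inner ℝ B (A - B)) ≤
          ((k : ℝ) + 2) * (1 - t) * (‖W‖ ^ k * inner ℝ W (A - B)) := by
        nlinarith
      exact le_of_mul_le_mul_left h6 h5
  have h7 : 0 ≤ ((k : ℝ) + 2) * t := by positivity
  have g5 := mul_le_mul_of_nonneg_left g2 h7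
  have e5 : (((k + 1 : ℕ) : ℝ) + 1) * t * (‖B‖ ^ k * inner ℝ B (A - B)) =
      ((k : ℝ) + 2) * t * (‖B‖ ^ k * inner ℝ B (A - B)) := by
    push_cast
    ring
  rw [e5]
  have e6 : ((k : ℝ) + 2) * (‖W‖ ^ k * (t * inner ℝ W (A - B))) =
      ((k : ℝ) + 2) * t * (‖W‖ ^ k * inner ℝ W (A - B)) := by ring
  rw [e6] at g1
  have e7 : k + 1 + 1 = k + 2 := rfl
  rw [e7]
  linarith

theorem clark {V : Type*} [NormedAddCommGroup V] [InnerProductSpace ℝ V] (m : ℕ) (hm : 1 ≤ m) (A B : V) :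
    ‖(1 / 2 : ℝ) • (A + B)‖ ^ (m + 1) + ‖(1 / 2 : ℝ) • (A - B)‖ ^ (m + 1) ≤
      (‖A‖ ^ (m + 1) + ‖B‖ ^ (m + 1)) / 2 := by
  obtain ⟨k, rfl⟩ : ∃ k, m = k + 1 := ⟨m - 1, by omega⟩
  have e7 : k + 1 + 1 = k + 2 := rfl
  rw [e7]
  obtain ⟨a, ha⟩ : ∃ a, a = ‖(1 / 2 : ℝ) • (A + B)‖ := ⟨_, rfl⟩
  obtain ⟨b, hb⟩ : ∃ b, b = ‖(1 / 2 : ℝ) • (A - B)‖ := ⟨_, rfl⟩
  obtain ⟨r, hr⟩ : ∃ r, r = Real.sqrt (a ^ 2 + b ^ 2) := ⟨_, rfl⟩
  rw [← ha, ← hb]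
  have ha0 : 0 ≤ a := by rw [ha]; exact norm_nonneg _
  have hb0 : 0 ≤ b := by rw [hb]; exact norm_nonneg _
  have hr0 : 0 ≤ r := by rw [hr]; exact Real.sqrt_nonneg _
  have hr2 : r ^ 2 = a ^ 2 + b ^ 2 := by
    rw [hr]
    exact Real.sq_sqrt (by positivity)
  have hpar : 2 * (a ^ 2 + b ^ 2) = ‖A‖ ^ 2 + ‖B‖ ^ 2 := by
    rw [ha, hb, norm_smul, norm_smul]
    have h := parallelogram_law_with_norm ℝ A B
    have h2 : ‖(1 / 2 : ℝ)‖ = 1 / 2 := by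
      rw [Real.norm_eq_abs, abs_of_pos (by norm_num)]
    rw [h2]
    nlinarith
  have har : a ≤ r := by
    rw [hr]
    apply Real.le_sqrt_of_sq_le
    nlinarith [sq_nonneg b]
  have hbr : b ≤ r := by
    rw [hr]
    apply Real.le_sqrt_of_sq_le
    nlinarith [sq_nonneg a]
  have s1 : a ^ (k + 2) + b ^ (k + 2) ≤ r ^ (k + 2) := by
    have t1 : a ^ 2 * a ^ k ≤ a ^ 2 * r ^ k :=
      mul_le_mul_of_nonneg_left (pow_le_pow_left₀ ha0 har k) (by positivity)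
    have t2 : b ^ 2 * b ^ k ≤ b ^ 2 * r ^ k :=
      mul_le_mul_of_nonneg_left (pow_le_pow_left₀ hb0 hbr k) (by positivity)
    calc a ^ (k + 2) + b ^ (k + 2) = a ^ 2 * a ^ k + b ^ 2 * b ^ k := by ring
      _ ≤ a ^ 2 * r ^ k + b ^ 2 * r ^ k := by linarith
      _ = r ^ 2 * r ^ k := by rw [hr2]; ring
      _ = r ^ (k + 2) := by ring
  have s2 := PwH.tan2 k (norm_nonneg A) hr0
  have s3 := PwH.tan2 k (norm_nonneg B) hr0
  have s4 : ((k : ℝ) + 2) * r ^ k * (‖A‖ ^ 2 - r ^ 2) + ((k : ℝ) + 2) * r ^ k * (‖B‖ ^ 2 - r ^ 2) = 0 := by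
    have : ‖A‖ ^ 2 - r ^ 2 = -(‖B‖ ^ 2 - r ^ 2) := by
      rw [hr2]
      linarith
    rw [this]
    ring
  linarith

end Pool.Agent.H46.MM
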