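import Pool.Agent.H46.MM.Gro
import Pool.Agent.H46.MM.Zmi
import Pool.Agent.H46.MM.Nrm

/-!
# [H46 MM RTS] All roots (60 min)

`roots_ind`, by strong induction on `d - |I|` (`d` prime, `I` nonempty, `I ≠ univ` because `l ∉ I`, so `|I|` is prime
to `d`).  `grow` with `M = ∅` gives `k ∉ I`, `v ≠ 0` with rows in `I` and the column `k`, `(Zs Z [v]).Nonempty`.  If
`k = l` done.  Otherwise `Z' = Zs Z [v]` is invariant under `G ∅ (insert k I)` (`Zs_inv`), and the induction hypothesis
for `insert k I`, `Z'`, `l` gives `w ≠ 0`, rows in `insert k I`, column `l`, `(Zs Z' [w]).Nonempty`, that is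
`(Zs Z [v, w]).Nonempty` (`Zs_cons`).
Case A: `w i l ≠ 0` for some `i ∈ I`.  `Zs_drop` gives `(Zs Z [w]).Nonempty`.  `α = -1` at `k`, `0` elsewhere: `exp_mem_G`
(constant on `I`), `w i j ≠ 0 → j = l`, `α j = 0`, `α i ≤ 0`.  `degen`: `part α w`, rows in `I`, not zero.
Case B: `w` has nonzero entries only in the row `k`.  `w * v = 0` (`w i j ≠ 0 → j = l`, `v l _ = 0` because `l ∉ I`).
`base_change`: `(Zs Z [w + v * w]).Nonempty`.  The same `α`: `w + v w` has its nonzero entries in the column `l`;
`part α (w + v * w) = v * w` (rows in `I`: there `w` vanishes, `(v w) i l = v i k * w k l`; row `k`: `α k ≠ α l`; the other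
rows vanish), which is not zero: `v i k ≠ 0` for some `i ∈ I`, `w k l ≠ 0`.

`all_roots`: `I = {k}`; `w = single k l (w k l)`, `w k l ≠ 0`; `Z = Y` (`IsInv.mono`, `G ∅ {k} ⊆ A1`); `Zs Y [single k l t]`
is contained in `Zm Y {(k, l)} (fun _ => t)` (`Zm_insert` with `M = ∅` or directly: the subsets `Q` of `{(k, l)}` are `∅` and
`{(k, l)}`), `normalise`, `Q = ∅` and `Q = {(k, l)}`.
-/

set_option autoImplicit false

namespace Pool.Agent.H46.MM

open Matrix Filter Topology Pool.Agent.H89.CSD Pool.Agent.H46.RG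

variable {d : ℕ}

theorem roots_ind (hd : 3 ≤ d) (hdp : d.Prime) {g : Matrix (Fin d) (Fin d) ℝ} (hg : g.det ≠ 0)
    {c : ℝ} (hc : 0 < c) (hp : Pos c g) (hn : ¬ IntForm g) (n : ℕ) :
    ∀ (I : Finset (Fin d)), I.Nonempty → d - I.card = n → ∀ l, l ∉ I →
      ∀ Z : Set (Matrix (Fin d) (Fin d) ℝ), Z ⊆ Om g → IsInv (G ∅ I) Z →
      ∃ w : Matrix (Fin d) (Fin d) ℝ, w ≠ 0 ∧ (∀ i j, w i j ≠ 0 → i ∈ I ∧ j = l) ∧
        (Zs Z [w]).Nonempty := by
  classical
  induction n using Nat.strong_induction_on with
  | _ n ih =>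
  intro I hI hcard l hl Z hZ hinv
  have hlt : I.card < d := by
    have h1 := Finset.card_lt_univ_of_notMem hl
    rwa [Fintype.card_fin] at h1
  have hpos : 0 < I.card := hI.card_pos
  have hcop : I.card.Coprime d :=
    ((Nat.Prime.coprime_iff_not_dvd hdp).2 fun h =>
      absurd (Nat.le_of_dvd hpos h) (by omega)).symm
  rcases grow hd hg hc hp hn (M := ∅) ⟨by simp, by simp⟩ hcop (by simp [idx]) hZ hinv with
    ⟨k, hkI, -, v, hv0, hv, hne⟩ | ⟨p, hpM, -⟩
  swap
  · simp at hpM
  by_cases hkl : k = l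
  · subst hkl
    exact ⟨v, hv0, hv, hne⟩
  have hinv' : IsInv (G ∅ (insert k I)) (Zs Z [v]) := by
    refine Zs_inv hinv ?_ ?_ hne
    · rintro a ⟨h1, h2, h3⟩
      exact ⟨h1, h2, fun i hi j hj => h3 i (Finset.mem_insert_of_mem hi) j
        (Finset.mem_insert_of_mem hj)⟩
    · intro w hw i j hij a ha
      rw [List.mem_singleton] at hw
      subst hw
      obtain ⟨h1, h2⟩ := hv i j hij
      exact ha.2.2 i (Finset.mem_insert_of_mem h1) j (by rw [h2]; exact Finset.mem_insert_self _ _)
  have hl' : l ∉ insert k I := by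
    rw [Finset.mem_insert, not_or]
    exact ⟨fun h => hkl h.symm, hl⟩
  obtain ⟨w, hw0, hw, hne2⟩ := ih (d - (insert k I).card)
    (by rw [Finset.card_insert_of_notMem hkI]; omega) (insert k I) (Finset.insert_nonempty _ _) rfl
    l hl' (Zs Z [v]) (Zs_subset.trans hZ) hinv'
  rw [Zs_cons] at hne2
  obtain ⟨α, hα⟩ : ∃ α : Fin d → ℝ, α = fun i => if i = k then -1 else 0 := ⟨_, rfl⟩
  have hαk : α k = -1 := by rw [hα]; simp
  have hαo : ∀ i, i ≠ k → α i = 0 := fun i hi => by rw [hα]; simp [hi]
  have hαI : ∀ i ∈ I, i ≠ k := fun i hi h => hkI (h ▸ hi)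
  have hα0 : ∀ i, α i ≤ 0 := by
    intro i
    by_cases hi : i = k
    · rw [hi, hαk]; norm_num
    · rw [hαo i hi]
  have hlk : l ≠ k := fun h => hkl h.symm
  have hαS : ∀ n : ℕ, (fun i => Real.exp (n * (α i - (∑ k, α k) / d))) ∈ G ∅ I := fun n =>
    exp_mem_G (by simp) (fun i hi j hj => by rw [hαo i (hαI i hi), hαo j (hαI j hj)]) n
  by_cases hA : ∃ i ∈ I, w i l ≠ 0
  · obtain ⟨i0, hi0, hwi0⟩ := hA
    have hneA : (Zs Z [w]).Nonempty := hne2.mono (Zs_drop (List.sublist_cons_self v [w]))
    have h1 := degen hg hc hp hZ hinv α hαS [w] (by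
      intro w' hw' i j hij
      rw [List.mem_singleton] at hw'
      subst hw'
      rw [(hw i j hij).2, hαo l hlk]
      exact hα0 i) hneA
    refine ⟨part α w, ?_, ?_, h1⟩
    · intro h0
      have h2 := congrFun (congrFun h0 i0) l
      simp only [part, Matrix.of_apply, Matrix.zero_apply] at h2
      rw [if_pos (by rw [hαo i0 (hαI i0 hi0), hαo l hlk])] at h2
      exact hwi0 h2
    · intro i j hij
      simp only [part, Matrix.of_apply] at hij
      split_ifs at hij with h2
      · obtain ⟨h3, h4⟩ := hw i j hij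
        refine ⟨?_, h4⟩
        rcases Finset.mem_insert.1 h3 with h5 | h5
        · exfalso
          rw [h5, h4, hαk, hαo l hlk] at h2
          norm_num at h2
        · exact h5
      · exact absurd rfl hij
  · push Not at hA
    have hw' : ∀ i j, w i j ≠ 0 → i = k ∧ j = l := by
      intro i j hij
      obtain ⟨h3, h4⟩ := hw i j hij
      refine ⟨?_, h4⟩
      rcases Finset.mem_insert.1 h3 with h5 | h5
      · exact h5
      · exfalso
        rw [h4] at hij
        exact hij (hA i h5)
    have hwk : w k l ≠ 0 := by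
      intro h0
      apply hw0
      ext i j
      rw [Matrix.zero_apply]
      by_contra hij
      obtain ⟨h1, h2⟩ := hw' i j hij
      rw [h1, h2] at hij
      exact hij h0
    have hwv : w * v = 0 := by
      ext i j
      rw [Matrix.mul_apply, Matrix.zero_apply]
      apply Finset.sum_eq_zero
      intro m _
      by_contra hm
      have h1 := left_ne_zero_of_mul hm
      have h2 := right_ne_zero_of_mul hm
      have h3 := (hw' i m h1).2
      have h4 := (hv m j h2).1
      rw [h3] at h4
      exact hl h4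
    have hvw : ∀ i j, (v * w) i j = v i k * w k j := by
      intro i j
      rw [Matrix.mul_apply]
      apply Finset.sum_eq_single k
      · intro m _ hm
        by_contra h0
        exact hm (hw' m j (right_ne_zero_of_mul h0)).1
      · intro h0
        exact absurd (Finset.mem_univ k) h0
    have hne3 := base_change (Z := Z) (v := v) (ws := [w]) (by
      intro w1 hw1
      rw [List.mem_singleton] at hw1
      rw [hw1, hwv]) hne2
    have hcol : ∀ i j, (w + v * w) i j ≠ 0 → j = l := by
      intro i j hij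
      rw [Matrix.add_apply, hvw] at hij
      by_contra hj
      apply hij
      have h1 : ∀ m, w m j = 0 := by
        intro m
        by_contra h0
        exact hj (hw' m j h0).2
      rw [h1, h1, mul_zero, add_zero]
    have h1 := degen hg hc hp hZ hinv α hαS ([w].map fun w => w + v * w) (by
      intro w1 hw1 i j hij
      rw [List.map_singleton, List.mem_singleton] at hw1
      rw [hw1] at hij
      rw [hcol i j hij, hαo l hlk]
      exact hα0 i) hne3
    rw [List.map_singleton, List.map_singleton] at h1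
    refine ⟨part α (w + v * w), ?_, ?_, h1⟩
    · intro h0
      obtain ⟨i0, m0, him⟩ : ∃ i m, v i m ≠ 0 := by
        by_contra hcon
        push Not at hcon
        exact hv0 (by ext i m; exact hcon i m)
      obtain ⟨hi0, hm0⟩ := hv i0 m0 him
      rw [hm0] at him
      have h2 := congrFun (congrFun h0 i0) l
      simp only [part, Matrix.of_apply, Matrix.zero_apply] at h2
      rw [if_pos (by rw [hαo i0 (hαI i0 hi0), hαo l hlk]), Matrix.add_apply, hvw, hA i0 hi0,
        zero_add] at h2
      exact mul_ne_zero him hwk h2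
    · intro i j hij
      simp only [part, Matrix.of_apply] at hij
      split_ifs at hij with h2
      · have h4 := hcol i j hij
        refine ⟨?_, h4⟩
        have hik : i ≠ k := by
          intro h5
          rw [h5, h4, hαk, hαo l hlk] at h2
          norm_num at h2
        rw [Matrix.add_apply, hvw] at hij
        have h6 : w i j = 0 := by
          by_contra h0
          exact hik (hw' i j h0).1
        rw [h6, zero_add] at hij
        exact (hv i k (left_ne_zero_of_mul hij)).1
      · exact absurd rfl hij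

theorem all_roots (hd : 3 ≤ d) (hdp : d.Prime) {g : Matrix (Fin d) (Fin d) ℝ} (hg : g.det ≠ 0)
    {c : ℝ} (hc : 0 < c) (hp : Pos c g) (hn : ¬ IntForm g) {Y : Set (Matrix (Fin d) (Fin d) ℝ)}
    (hY : Y ⊆ Om g) (hinv : IsInv (A1 d) Y) {k l : Fin d} (hkl : k ≠ l) :
    ∃ z ∈ Y, (1 + Matrix.single k l 1) * z ∈ Y := by
  classical
  have hinv' : IsInv (G ∅ {k}) Y :=
    ⟨hinv.nonempty, hinv.closed, hinv.units, fun a ha => hinv.diag a ha.1⟩
  obtain ⟨w, hw0, hw, hne⟩ := roots_ind hd hdp hg hc hp hn (d - ({k} : Finset (Fin d)).card) {k}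
    (Finset.singleton_nonempty k) rfl l (by rw [Finset.mem_singleton]; exact fun h => hkl h.symm)
    Y hY hinv'
  obtain ⟨t, ht⟩ : ∃ t, t = w k l := ⟨_, rfl⟩
  have hw1 : w = Matrix.single k l t := by
    ext i j
    rw [Matrix.single_apply]
    split_ifs with h
    · rw [← h.1, ← h.2, ht]
    · by_contra h0
      obtain ⟨h1, h2⟩ := hw i j h0
      rw [Finset.mem_singleton] at h1
      exact h ⟨h1.symm, h2.symm⟩
  have ht0 : t ≠ 0 := by
    intro h0
    apply hw0
    rw [hw1, h0, Matrix.single_zero]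
  rw [hw1] at hne
  obtain ⟨s, hs⟩ : ∃ s : Fin d × Fin d → ℝ, s = fun _ => 0 := ⟨_, rfl⟩
  have hYZ : Y ⊆ Zm Y ∅ s := by
    intro z hz Q hQ
    rw [Finset.subset_empty.1 hQ, sh, Finset.sum_empty, add_zero, one_mul]
    exact hz
  have h1 : (Zm Y (insert (k, l) ∅) (Function.update s (k, l) t)).Nonempty :=
    (hne.mono (Zs_mono hYZ)).mono (Zm_insert (Finset.notMem_empty _) (by simp) t)
  have h2 := normalise hinv (M := insert (k, l) ∅) (by
    refine ⟨?_, ?_⟩
    · intro p hp
      rw [insert_empty_eq, Finset.mem_singleton] at hp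
      rw [hp]
      exact hkl
    · intro p hp q hq hpq
      rw [insert_empty_eq, Finset.mem_singleton] at hp hq
      exact absurd (hp.trans hq.symm) hpq) (by
    intro p hp
    rw [insert_empty_eq, Finset.mem_singleton] at hp
    rw [hp, Function.update_self]
    exact ht0) h1
  obtain ⟨z, hz⟩ := h2
  refine ⟨z, Zm_subset hz, ?_⟩
  have h3 := hz (insert (k, l) ∅) (Finset.Subset.refl _)
  rw [sh, insert_empty_eq, Finset.sum_singleton] at h3
  exact h3

end Pool.Agent.H46.MM
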