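import Pool.Agent.H46.MM.Basic
import Pool.Agent.H46.MM.Cut

/-!
`exists_seq`: `u k = τ ∘ f k`, `f k` admissible for `K` with energy `< cap D K + 1/(k+1)`, and
`τ s = 1 + ε + θ (s - 1 - ε)`, `ε = 1/(k+1)`, `θ` from `exists_cut`: `τ s = s` for `s ≤ 1`, `1 ≤ τ s ≤ 1 + ε` for `s ≥ 1`,
`0 ≤ τ' ≤ 1` (so the energy does not grow; `τ 0 = 0`, so the support does not grow).
`cap D K' ≤ energy (u k) ≤ cap D K + 1/(k+1) ≤ cap D K' + 1/(k+1)`.
-/

set_option autoImplicit false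

namespace Pool.Agent.H46.MM

open MeasureTheory Filter Topology

private theorem seq_norm_gradient {m : ℕ} (u : E m → ℝ) (x : E m) :
    ‖gradient u x‖ = ‖fderiv ℝ u x‖ := by
  unfold gradient
  exact LinearIsometryEquiv.norm_map _ _

private theorem seq_step {m : ℕ} (D K : Set (E m)) (f : E m → ℝ) (hf : Adm D K f) (ε : ℝ)
    (hε : 0 < ε) : ∃ u, Adm D K u ∧ (∀ x, u x ≤ 1 + ε) ∧ energy u ≤ energy f := by
  obtain ⟨θ, hθ, h1, h2, h3, -, h5, h6⟩ := exists_cut ε hε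
  obtain ⟨τ, hτ⟩ : ∃ τ : ℝ → ℝ, τ = fun s => 1 + ε + θ (s - (1 + ε)) := ⟨_, rfl⟩
  have hτs : ContDiff ℝ (⊤ : ℕ∞) τ := by
    rw [hτ]
    exact contDiff_const.add (hθ.comp (contDiff_id.sub contDiff_const))
  have hτ0 : τ 0 = 0 := by
    rw [hτ]
    show 1 + ε + θ (0 - (1 + ε)) = 0
    rw [h1 _ (by linarith)]
    ring
  have hτ1 : ∀ s, 1 ≤ s → 1 ≤ τ s := fun s hs => by
    rw [hτ]
    have := h2 (s - (1 + ε)) (by linarith)
    show 1 ≤ 1 + ε + θ (s - (1 + ε))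
    linarith
  have hτ2 : ∀ s, τ s ≤ 1 + ε := fun s => by
    rw [hτ]
    have := h3 (s - (1 + ε))
    show 1 + ε + θ (s - (1 + ε)) ≤ 1 + ε
    linarith
  have hθd : ∀ s, HasDerivAt θ (deriv θ s) s := fun s =>
    (hθ.differentiable (by simp)).differentiableAt.hasDerivAt
  have hτd : ∀ s, HasDerivAt τ (deriv θ (s - (1 + ε))) s := fun s => by
    rw [hτ]
    have h7 := (hθd (s - (1 + ε))).comp s ((hasDerivAt_id s).sub_const (1 + ε))
    rw [mul_one] at h7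
    exact h7.const_add (1 + ε)
  have hus : ContDiff ℝ (⊤ : ℕ∞) (τ ∘ f) := hτs.comp hf.smooth
  have huc : HasCompactSupport (τ ∘ f) := hf.comp.comp_left hτ0
  have hadm : Adm D K (τ ∘ f) := by
    refine ⟨hus, huc, ?_, fun x hx => hτ1 _ (hf.one x hx)⟩
    exact (closure_mono (Function.support_comp_subset hτ0 f)).trans hf.sub
  refine ⟨τ ∘ f, hadm, fun x => hτ2 _, ?_⟩
  unfold energy
  refine integral_mono (integ _ hus huc) (integ _ hf.smooth hf.comp) fun x => ?_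
  show ‖gradient (τ ∘ f) x‖ ^ (m + 1) ≤ ‖gradient f x‖ ^ (m + 1)
  refine pow_le_pow_left₀ (norm_nonneg _) ?_ _
  rw [seq_norm_gradient, seq_norm_gradient]
  have hfd : HasFDerivAt f (fderiv ℝ f x) x :=
    ((hf.smooth.differentiable (by simp)) x).hasFDerivAt
  have h8 : HasFDerivAt (τ ∘ f) (deriv θ (f x - (1 + ε)) • fderiv ℝ f x) x :=
    (hτd (f x)).comp_hasFDerivAt x hfd
  rw [h8.fderiv, norm_smul, Real.norm_eq_abs, abs_of_nonneg (h5 _)]
  exact mul_le_of_le_one_left (norm_nonneg _) (h6 _)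

theorem exists_seq {m : ℕ} (D K' K : Set (E m)) (hD : IsOpen D) (hK : IsCompact K) (hKD : K ⊆ D)
    (h : K' ⊆ K) (hc : cap D K ≤ cap D K') : ∃ u, MinSeq D K' K u := by
  have h1 : ∀ k : ℕ, ∃ u, Adm D K u ∧ (∀ x, u x ≤ 1 + 1 / ((k : ℝ) + 1)) ∧
      energy u ≤ cap D K + 1 / ((k : ℝ) + 1) := by
    intro k
    have hε : (0 : ℝ) < 1 / ((k : ℝ) + 1) := by positivity
    obtain ⟨f, hf, hf2⟩ := exists_lt D K hD hK hKD _ hε
    obtain ⟨u, hu, hu1, hu2⟩ := seq_step D K f hf _ hε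
    exact ⟨u, hu, hu1, hu2.trans hf2.le⟩
  choose u hu hu1 hu2 using h1
  have hadm' : ∀ k, Adm D K' (u k) := fun k =>
    ⟨(hu k).smooth, (hu k).comp, (hu k).sub, fun x hx => (hu k).one x (h hx)⟩
  refine ⟨u, hu, hadm', hu1, ?_⟩
  have h2 : Tendsto (fun k : ℕ => cap D K' + 1 / ((k : ℝ) + 1)) atTop (𝓝 (cap D K')) := by
    have h3 := tendsto_one_div_add_atTop_nhds_zero_nat (𝕜 := ℝ)
    simpa using h3.const_add (cap D K')
  refine tendsto_of_tendsto_of_tendsto_of_le_of_le tendsto_const_nhds h2 (fun k => ?_) fun k => ?_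
  · exact cap_le D K' (u k) (hadm' k)
  · exact (hu2 k).trans (by linarith)

end Pool.Agent.H46.MM
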