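import Pool.Agent.H46.MM.Seq

/-!
`exists_seq` with a lower bound. As in Seq.lean (copy the private lemmas you need), but before `seq_step` apply a truncation from
below to the almost minimizer `f` (admissible for `K`, energy `< cap D K + 1/(2(k+1))`): `θ` from `exists_cut ε'`,
`σ s = θ 0 - θ (-s)`: `σ 0 = 0`, `0 ≤ σ' ≤ 1`, `σ s ≥ θ 0 ≥ -ε'` for all `s`, `σ s = s + θ 0 ≥ 1 - ε'` for `s ≥ 1`. Put
`f₁ = (1 - ε')⁻¹ * σ ∘ f`: admissible for `K`, `f₁ ≥ -ε' / (1 - ε')`, `energy f₁ ≤ (1 - ε')⁻¹ ^ (m+1) * energy f ≤ energy f + 1/(2(k+1))` for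
small `ε'` (depending on `energy f`). Then `u k = τ ∘ f₁` (`seq_step`; `τ s = s` for `s ≤ 1` keeps the lower bound).
-/

set_option autoImplicit false

namespace Pool.Agent.H46.MM

open MeasureTheory Filter Topology

private theorem low_comp {m : ℕ} (D : Set (E m)) (f : E m → ℝ) (hfs : ContDiff ℝ (⊤ : ℕ∞) f)
    (hfc : HasCompactSupport f) (hfD : tsupport f ⊆ D) (φ : ℝ → ℝ)
    (hφ : ContDiff ℝ (⊤ : ℕ∞) φ) (h0 : φ 0 = 0) (hd0 : ∀ s, 0 ≤ deriv φ s)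
    (hd1 : ∀ s, deriv φ s ≤ 1) :
    ContDiff ℝ (⊤ : ℕ∞) (φ ∘ f) ∧ HasCompactSupport (φ ∘ f) ∧ tsupport (φ ∘ f) ⊆ D ∧
      energy (φ ∘ f) ≤ energy f := by
  have hus : ContDiff ℝ (⊤ : ℕ∞) (φ ∘ f) := hφ.comp hfs
  have huc : HasCompactSupport (φ ∘ f) := hfc.comp_left h0
  refine ⟨hus, huc, (closure_mono (Function.support_comp_subset h0 f)).trans hfD, ?_⟩
  unfold energy
  refine integral_mono (integ _ hus huc) (integ _ hfs hfc) fun x => ?_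
  show ‖gradient (φ ∘ f) x‖ ^ (m + 1) ≤ ‖gradient f x‖ ^ (m + 1)
  refine pow_le_pow_left₀ (norm_nonneg _) ?_ _
  rw [norm_grad, norm_grad]
  have hfd : HasFDerivAt f (fderiv ℝ f x) x :=
    ((hfs.differentiable (by simp)) x).hasFDerivAt
  have hφd : HasDerivAt φ (deriv φ (f x)) (f x) :=
    (hφ.differentiable (by simp)).differentiableAt.hasDerivAt
  have h8 : HasFDerivAt (φ ∘ f) (deriv φ (f x) • fderiv ℝ f x) x :=
    hφd.comp_hasFDerivAt x hfd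
  rw [h8.fderiv, norm_smul, Real.norm_eq_abs, abs_of_nonneg (hd0 _)]
  exact mul_le_of_le_one_left (norm_nonneg _) (hd1 _)

private theorem low_choose (m : ℕ) (e ε : ℝ) (hε : 0 < ε) :
    ∃ δ : ℝ, 0 < δ ∧ δ < 1 ∧ (1 - δ)⁻¹ * δ ≤ ε ∧ (1 - δ)⁻¹ ^ (m + 1) * e ≤ e + ε := by
  have hc : Tendsto (fun δ : ℝ => (1 - δ)⁻¹) (𝓝 0) (𝓝 1) := by
    have h : ContinuousAt (fun δ : ℝ => (1 - δ)⁻¹) 0 :=
      (continuousAt_const.sub continuousAt_id).inv₀ (by simp)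
    have h2 := h.tendsto
    simpa using h2
  have h1 : Tendsto (fun δ : ℝ => (1 - δ)⁻¹ * δ) (𝓝 0) (𝓝 0) := by
    simpa using hc.mul tendsto_id
  have h2 : Tendsto (fun δ : ℝ => (1 - δ)⁻¹ ^ (m + 1) * e) (𝓝 0) (𝓝 e) := by
    simpa using (hc.pow (m + 1)).mul_const e
  have e1 := h1.eventually (gt_mem_nhds hε)
  have e2 := h2.eventually (gt_mem_nhds (show e < e + ε by linarith))
  have e3 : ∀ᶠ δ : ℝ in 𝓝 0, δ < 1 := gt_mem_nhds one_pos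
  have e4 : ∀ᶠ δ : ℝ in 𝓝[>] (0 : ℝ), 0 < δ := self_mem_nhdsWithin
  have e5 : ∀ᶠ δ : ℝ in 𝓝[>] (0 : ℝ), (1 - δ)⁻¹ * δ < ε ∧ (1 - δ)⁻¹ ^ (m + 1) * e < e + ε ∧ δ < 1 :=
    nhdsWithin_le_nhds (e1.and (e2.and e3))
  obtain ⟨δ, hδ0, hδ⟩ := (e4.and e5).exists
  exact ⟨δ, hδ0, hδ.2.2, hδ.1.le, hδ.2.1.le⟩

private theorem low_lower {m : ℕ} (D K : Set (E m)) (f : E m → ℝ) (hf : Adm D K f) (ε : ℝ)
    (hε : 0 < ε) : ∃ g, Adm D K g ∧ (∀ x, -ε ≤ g x) ∧ energy g ≤ energy f + ε := by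
  obtain ⟨δ, hδ0, hδ1, hδ2, hδ3⟩ := low_choose m (energy f) ε hε
  obtain ⟨θ, hθ, h1, h2, h3, -, h5, h6⟩ := exists_cut δ hδ0
  obtain ⟨σ, hσ⟩ : ∃ σ : ℝ → ℝ, σ = fun s => θ 0 - θ (-s) := ⟨_, rfl⟩
  have hσs : ContDiff ℝ (⊤ : ℕ∞) σ := by
    rw [hσ]
    exact contDiff_const.sub (hθ.comp contDiff_neg)
  have hσ0 : σ 0 = 0 := by
    rw [hσ]
    show θ 0 - θ (-0) = 0
    rw [neg_zero, sub_self]
  have hθd : ∀ s, HasDerivAt θ (deriv θ s) s := fun s =>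
    (hθ.differentiable (by simp)).differentiableAt.hasDerivAt
  have hσd : ∀ s, HasDerivAt σ (deriv θ (-s)) s := fun s => by
    rw [hσ]
    have h7 := (hθd (-s)).comp s ((hasDerivAt_id s).neg)
    have h8 := h7.const_sub (θ 0)
    rw [mul_neg, mul_one, neg_neg] at h8
    exact h8
  have hθ0 : -δ ≤ θ 0 := h2 0 (by linarith)
  have hσl : ∀ s, -δ ≤ σ s := fun s => by
    rw [hσ]
    have := h3 (-s)
    show -δ ≤ θ 0 - θ (-s)
    linarith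
  have hσ1 : ∀ s, 1 ≤ s → 1 - δ ≤ σ s := fun s hs => by
    rw [hσ]
    show 1 - δ ≤ θ 0 - θ (-s)
    rw [h1 (-s) (by linarith)]
    linarith
  obtain ⟨hs, hc, hD, he⟩ := low_comp D f hf.smooth hf.comp hf.sub σ hσs hσ0
    (fun s => by rw [(hσd s).deriv]; exact h5 _) (fun s => by rw [(hσd s).deriv]; exact h6 _)
  have hpos : 0 < 1 - δ := by linarith
  have hcpos : 0 < (1 - δ)⁻¹ := inv_pos.2 hpos
  refine ⟨fun x => (1 - δ)⁻¹ * (σ ∘ f) x, ⟨contDiff_const.mul hs, hc.mul_left, ?_, ?_⟩, ?_, ?_⟩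
  · exact (tsupport_mul_subset_right (f := fun _ : E m => (1 - δ)⁻¹) (g := σ ∘ f)).trans hD
  · intro x hx
    have h7 := hσ1 _ (hf.one x hx)
    have h8 : (1 - δ)⁻¹ * (1 - δ) ≤ (1 - δ)⁻¹ * (σ ∘ f) x :=
      mul_le_mul_of_nonneg_left h7 hcpos.le
    rwa [inv_mul_cancel₀ hpos.ne'] at h8
  · intro x
    have h8 : (1 - δ)⁻¹ * (-δ) ≤ (1 - δ)⁻¹ * (σ ∘ f) x :=
      mul_le_mul_of_nonneg_left (hσl _) hcpos.le
    show -ε ≤ (1 - δ)⁻¹ * (σ ∘ f) x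
    linarith
  · rw [energy_smul _ _ hs, abs_of_pos hcpos]
    exact (mul_le_mul_of_nonneg_left he (by positivity)).trans hδ3

private theorem low_step {m : ℕ} (D K : Set (E m)) (f : E m → ℝ) (hf : Adm D K f) (ε : ℝ)
    (hε : 0 < ε) (hlow : ∀ x, -ε ≤ f x) :
    ∃ u, Adm D K u ∧ (∀ x, u x ≤ 1 + ε) ∧ (∀ x, -ε ≤ u x) ∧ energy u ≤ energy f := by
  obtain ⟨θ, hθ, h1, h2, h3, -, h5, h6⟩ := exists_cut ε hε
  obtain ⟨τ, hτ⟩ : ∃ τ : ℝ → ℝ, τ = fun s => 1 + ε + θ (s - (1 + ε)) := ⟨_, rfl⟩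
  have hτs : ContDiff ℝ (⊤ : ℕ∞) τ := by
    rw [hτ]
    exact contDiff_const.add (hθ.comp (contDiff_id.sub contDiff_const))
  have hτid : ∀ s, s ≤ 1 → τ s = s := fun s hs => by
    rw [hτ]
    show 1 + ε + θ (s - (1 + ε)) = s
    rw [h1 _ (by linarith)]
    ring
  have hτ1 : ∀ s, 1 ≤ s → 1 ≤ τ s := fun s hs => by
    rw [hτ]
    have := h2 (s - (1 + ε)) (by linarith)
    show 1 ≤ 1 + ε + θ (s - (1 + ε))
    linarith
  have hτ2 : ∀ s, τ s ≤ 1 + ε := fun s => by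
    rw [hτ]
    have := h3 (s - (1 + ε))
    show 1 + ε + θ (s - (1 + ε)) ≤ 1 + ε
    linarith
  have hθd : ∀ s, HasDerivAt θ (deriv θ s) s := fun s =>
    (hθ.differentiable (by simp)).differentiableAt.hasDerivAt
  have hτd : ∀ s, HasDerivAt τ (deriv θ (s - (1 + ε))) s := fun s => by
    rw [hτ]
    have h7 := (hθd (s - (1 + ε))).comp s ((hasDerivAt_id s).sub_const (1 + ε))
    rw [mul_one] at h7
    exact h7.const_add (1 + ε)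
  obtain ⟨hs, hc, hD, he⟩ := low_comp D f hf.smooth hf.comp hf.sub τ hτs (hτid 0 (by norm_num))
    (fun s => by rw [(hτd s).deriv]; exact h5 _) (fun s => by rw [(hτd s).deriv]; exact h6 _)
  refine ⟨τ ∘ f, ⟨hs, hc, hD, fun x hx => hτ1 _ (hf.one x hx)⟩, fun x => hτ2 _, fun x => ?_, he⟩
  show -ε ≤ τ (f x)
  rcases le_total (f x) 1 with h7 | h7
  · rw [hτid _ h7]
    exact hlow x
  · have := hτ1 _ h7
    linarith

theorem exists_seq_low {m : ℕ} (D K' K : Set (E m)) (hD : IsOpen D) (hK : IsCompact K) (hKD : K ⊆ D)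
    (h : K' ⊆ K) (hc : cap D K ≤ cap D K') :
    ∃ u, MinSeq D K' K u ∧ ∀ (k : ℕ) x, -(1 / ((k : ℝ) + 1)) ≤ u k x := by
  have h1 : ∀ k : ℕ, ∃ u, Adm D K u ∧ (∀ x, u x ≤ 1 + 1 / ((k : ℝ) + 1)) ∧
      (∀ x, -(1 / ((k : ℝ) + 1)) ≤ u x) ∧ energy u ≤ cap D K + 1 / ((k : ℝ) + 1) := by
    intro k
    have hε : (0 : ℝ) < 1 / ((k : ℝ) + 1) := by positivity
    have hε2 : (0 : ℝ) < 1 / ((k : ℝ) + 1) / 2 := by positivity
    obtain ⟨f, hf, hf2⟩ := exists_lt D K hD hK hKD _ hε2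
    obtain ⟨g, hg, hg1, hg2⟩ := low_lower D K f hf _ hε2
    obtain ⟨u, hu, hu1, hu2, hu3⟩ := low_step D K g hg _ hε (fun x => by
      have := hg1 x
      linarith)
    exact ⟨u, hu, hu1, hu2, by linarith⟩
  choose u hu hu1 hul hu2 using h1
  have hadm' : ∀ k, Adm D K' (u k) := fun k =>
    ⟨(hu k).smooth, (hu k).comp, (hu k).sub, fun x hx => (hu k).one x (h hx)⟩
  refine ⟨u, ⟨hu, hadm', hu1, ?_⟩, hul⟩
  have h2 : Tendsto (fun k : ℕ => cap D K' + 1 / ((k : ℝ) + 1)) atTop (𝓝 (cap D K')) := by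
    have h3 := tendsto_one_div_add_atTop_nhds_zero_nat (𝕜 := ℝ)
    simpa using h3.const_add (cap D K')
  refine tendsto_of_tendsto_of_tendsto_of_le_of_le tendsto_const_nhds h2 (fun k => ?_) fun k => ?_
  · exact cap_le D K' (u k) (hadm' k)
  · exact (hu2 k).trans (by linarith)

end Pool.Agent.H46.MM
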