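import Pool.Agent.H46.MM.Basic

/-!
Slices. `g i t y = Λ (WithLp.toLp 2 (Fin.insertNth i t y))`. Fubini
(`EuclideanSpace.volume_preserving_...`, `MeasureTheory.volume_preserving_piFinSuccAbove`), and
`‖fderiv ℝ (g i t) y‖ ≤ (m+1) ‖gradient Λ x‖` at the corresponding point (chain rule; the linear map
`(Fin m → ℝ) → E m` has norm at most `m + 1`). `f i t = ∫ y, ‖fderiv ℝ (g i t) y‖ ^ (m+1)`: continuous with compact support or at least integrable,
`≥ 0`, `∫ f i ≤ (m+1)^(m+1) energy Λ`.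
-/

set_option autoImplicit false

namespace Pool.Agent.H46.MM

open MeasureTheory

/-- the slice of `Λ` in the hyperplane `x_i = t` -/
noncomputable def slice {m : ℕ} (Λ : E m → ℝ) (i : Fin (m + 1)) (t : ℝ) : (Fin m → ℝ) → ℝ :=
  fun y => Λ (WithLp.toLp 2 (Fin.insertNth (α := fun _ => ℝ) i t y))

/-- the linear map `(t, y) ↦ x` -/
private noncomputable def slJ {m : ℕ} (i : Fin (m + 1)) : (ℝ × (Fin m → ℝ)) →L[ℝ] E m :=
  LinearMap.toContinuousLinearMap
    { toFun := fun p => WithLp.toLp 2 (Fin.insertNth (α := fun _ => ℝ) i p.1 p.2)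
      map_add' := by
        intro p q
        ext j
        refine Fin.succAboveCases i ?_ ?_ j
        · simp
        · intro k
          simp
      map_smul' := by
        intro c p
        ext j
        refine Fin.succAboveCases i ?_ ?_ j
        · simp
        · intro k
          simp }

private theorem slJ_apply {m : ℕ} (i : Fin (m + 1)) (p : ℝ × (Fin m → ℝ)) :
    slJ i p = WithLp.toLp 2 (Fin.insertNth (α := fun _ => ℝ) i p.1 p.2) := rfl

/-- the linear part in `y` -/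
private noncomputable def slL {m : ℕ} (i : Fin (m + 1)) : (Fin m → ℝ) →L[ℝ] E m :=
  (slJ i).comp (ContinuousLinearMap.inr ℝ ℝ (Fin m → ℝ))

private theorem slL_norm {m : ℕ} (i : Fin (m + 1)) : ‖slL i‖ ≤ (m : ℝ) + 1 := by
  refine ContinuousLinearMap.opNorm_le_bound _ (by positivity) fun y => ?_
  have h1 : slL i y = WithLp.toLp 2 (Fin.insertNth (α := fun _ => ℝ) i 0 y) := rfl
  rw [h1, EuclideanSpace.norm_eq]
  have h2 : ∑ j, ‖(WithLp.toLp 2 (Fin.insertNth (α := fun _ => ℝ) i 0 y) : E m) j‖ ^ 2 ≤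
      ((m : ℝ) + 1) * ‖y‖ ^ 2 := by
    refine (Finset.sum_le_card_nsmul _ _ (‖y‖ ^ 2) fun j _ => ?_).trans (le_of_eq ?_)
    · refine pow_le_pow_left₀ (norm_nonneg _) ?_ 2
      refine Fin.succAboveCases i ?_ ?_ j
      · simp
      · intro k
        simpa using norm_le_pi_norm y k
    · rw [Finset.card_univ, Fintype.card_fin, nsmul_eq_mul]
      push_cast
      ring
  have h3 : ((m : ℝ) + 1) * ‖y‖ ^ 2 ≤ (((m : ℝ) + 1) * ‖y‖) ^ 2 := by
    rw [mul_pow]
    refine mul_le_mul_of_nonneg_right ?_ (sq_nonneg _)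
    nlinarith [(Nat.cast_nonneg m : (0 : ℝ) ≤ m)]
  calc √(∑ j, ‖(WithLp.toLp 2 (Fin.insertNth (α := fun _ => ℝ) i 0 y) : E m) j‖ ^ 2)
      ≤ √((((m : ℝ) + 1) * ‖y‖) ^ 2) := Real.sqrt_le_sqrt (h2.trans h3)
    _ = ((m : ℝ) + 1) * ‖y‖ := Real.sqrt_sq (by positivity)

private theorem slice_eq {m : ℕ} (Λ : E m → ℝ) (i : Fin (m + 1)) (t : ℝ) :
    slice Λ i t = fun y => Λ (slJ i (t, y)) := rfl

theorem slice_contDiff {m : ℕ} (Λ : E m → ℝ) (h : ContDiff ℝ (⊤ : ℕ∞) Λ) (i : Fin (m + 1)) (t : ℝ) :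
    ContDiff ℝ 1 (slice Λ i t) := by
  rw [slice_eq]
  have h1 : ContDiff ℝ 1 Λ := h.of_le (by simp)
  exact h1.comp ((slJ i).contDiff.comp (contDiff_const.prodMk contDiff_id))

private theorem slice_fderiv {m : ℕ} (Λ : E m → ℝ) (h : ContDiff ℝ (⊤ : ℕ∞) Λ) (i : Fin (m + 1)) (t : ℝ)
    (y : Fin m → ℝ) : fderiv ℝ (slice Λ i t) y = (fderiv ℝ Λ (slJ i (t, y))).comp (slL i) := by
  rw [slice_eq]
  have hd : DifferentiableAt ℝ Λ (slJ i (t, y)) := (h.differentiable (by simp)).differentiableAt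
  have h1 : HasFDerivAt (fun y : Fin m → ℝ => (t, y)) (ContinuousLinearMap.inr ℝ ℝ (Fin m → ℝ)) y :=
    hasFDerivAt_prodMk_right t y
  have h2 : HasFDerivAt (fun y : Fin m → ℝ => slJ i (t, y)) (slL i) y :=
    (slJ i).hasFDerivAt.comp y h1
  exact (hd.hasFDerivAt.comp y h2).fderiv

theorem slice_int {m : ℕ} (Λ : E m → ℝ) (h : ContDiff ℝ (⊤ : ℕ∞) Λ) (hc : HasCompactSupport Λ)
    (i : Fin (m + 1)) :
    Integrable (fun t => ∫ y, ‖fderiv ℝ (slice Λ i t) y‖ ^ (m + 1)) ∧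
    (∫ t, ∫ y, ‖fderiv ℝ (slice Λ i t) y‖ ^ (m + 1)) ≤ (m + 1 : ℝ) ^ (m + 1) * energy Λ := by
  have hF := integ Λ h hc
  -- the measure preserving equivalence
  have hmp : MeasurePreserving (fun p : ℝ × (Fin m → ℝ) => slJ i p) volume volume := by
    have e1 := (volume_preserving_piFinSuccAbove (fun _ : Fin (m + 1) => ℝ) i).symm
    have e2 := (EuclideanSpace.volume_preserving_symm_measurableEquiv_toLp (Fin (m + 1))).symm
    exact e2.comp e1
  have hemb : MeasurableEmbedding (fun p : ℝ × (Fin m → ℝ) => slJ i p) := by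
    have e1 := (MeasurableEquiv.piFinSuccAbove (fun _ : Fin (m + 1) => ℝ) i).symm.measurableEmbedding
    have e2 := (MeasurableEquiv.toLp 2 (Fin (m + 1) → ℝ)).measurableEmbedding
    exact e2.comp e1
  obtain ⟨G, hG⟩ : ∃ G : ℝ × (Fin m → ℝ) → ℝ, G = fun p => ‖gradient Λ (slJ i p)‖ ^ (m + 1) := ⟨_, rfl⟩
  have hGi : Integrable G volume := by
    rw [hG]
    exact (hmp.integrable_comp_emb hemb).2 hF
  have hGe : ∫ p, G p = energy Λ := by
    rw [hG]
    exact hmp.integral_comp hemb (fun x => ‖gradient Λ x‖ ^ (m + 1))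
  obtain ⟨H, hH⟩ : ∃ H : ℝ × (Fin m → ℝ) → ℝ, H = fun p => ‖fderiv ℝ (slice Λ i p.1) p.2‖ ^ (m + 1) := ⟨_, rfl⟩
  have hHc : Continuous H := by
    rw [hH]
    have e1 : (fun p : ℝ × (Fin m → ℝ) => ‖fderiv ℝ (slice Λ i p.1) p.2‖ ^ (m + 1)) =
        fun p => ‖(fderiv ℝ Λ (slJ i p)).comp (slL i)‖ ^ (m + 1) := by
      funext p
      rw [slice_fderiv Λ h i p.1 p.2]
    rw [e1]
    have h1 : Continuous fun p : ℝ × (Fin m → ℝ) => fderiv ℝ Λ (slJ i p) :=
      (h.continuous_fderiv (by simp)).comp (slJ i).continuous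
    exact ((h1.clm_comp continuous_const).norm).pow _
  have hHG : ∀ p, H p ≤ ((m : ℝ) + 1) ^ (m + 1) * G p := by
    intro p
    rw [hH, hG]
    show ‖fderiv ℝ (slice Λ i p.1) p.2‖ ^ (m + 1) ≤ ((m : ℝ) + 1) ^ (m + 1) * ‖gradient Λ (slJ i p)‖ ^ (m + 1)
    rw [slice_fderiv Λ h i p.1 p.2, ← mul_pow]
    refine pow_le_pow_left₀ (norm_nonneg _) ?_ _
    refine (ContinuousLinearMap.opNorm_comp_le _ _).trans ?_
    rw [norm_grad, mul_comm]
    exact mul_le_mul_of_nonneg_right (slL_norm i) (norm_nonneg _)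
  have hH0 : ∀ p, 0 ≤ H p := by
    intro p
    rw [hH]
    positivity
  have hHi : Integrable H volume := by
    refine Integrable.mono' (hGi.const_mul (((m : ℝ) + 1) ^ (m + 1))) hHc.aestronglyMeasurable
      (Filter.Eventually.of_forall fun p => ?_)
    rw [Real.norm_eq_abs, abs_of_nonneg (hH0 p)]
    exact hHG p
  have hvol : (volume : Measure (ℝ × (Fin m → ℝ))) = (volume : Measure ℝ).prod volume := rfl
  rw [hvol] at hHi hGi hGe
  refine ⟨?_, ?_⟩
  · have h1 := hHi.integral_prod_left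
    rw [hH] at h1
    exact h1
  · have h1 := integral_prod H hHi
    have h2 : ∫ p, H p ∂((volume : Measure ℝ).prod volume) ≤ ((m : ℝ) + 1) ^ (m + 1) * energy Λ := by
      rw [← hGe, ← integral_const_mul]
      exact integral_mono hHi (hGi.const_mul _) hHG
    rw [h1, hH] at h2
    exact h2

end Pool.Agent.H46.MM
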