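import Pool.Agent.H46.MM.Slice
import Pool.Agent.H46.MM.Mor

/-!
A good cube surface. As in Pos.lean (`pos`, private lemmas `pos_coord`, `pos_dist`, `pos_slice`: copy what you need): with
`f i t = ∫ ‖fderiv (slice Λ i t)‖^(m+1)` (integrable in `t`, `∫ f i ≤ const * energy Λ` by `slice_int`), the function
`F s = ∑ i, (f i (w i + s) + f i (w i - s))` has `∫ s in r1..r2, F ≤ C' energy Λ`, so some `s` in `(r1, r2)` has
`F s ≤ C' energy Λ / (r2 - r1)`; if `dist x.ofLp w.ofLp = s` then `x i = w i ± s` for some `i` and `morrey` on this slice gives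
`|Λ x|^(m+1) ≤ C'' f i (w i ± s) ≤ C'' F s`.
-/

set_option autoImplicit false

namespace Pool.Agent.H46.MM

open MeasureTheory

/-- some coordinate of a point at sup distance `s` -/
private theorem surf_coord {m : ℕ} (z p : Fin (m + 1) → ℝ) (s : ℝ) (hs : 0 < s) (h : dist z p = s) :
    ∃ i, z i = p i + s ∨ z i = p i - s := by
  have h1 : ¬ ∀ i, dist (z i) (p i) < s := fun h2 => by
    have := (dist_pi_lt_iff hs).2 h2
    linarith
  push Not at h1
  obtain ⟨i, hi⟩ := h1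
  refine ⟨i, ?_⟩
  have h2 : dist (z i) (p i) = s := le_antisymm ((dist_le_pi_dist z p i).trans_eq h) hi
  rw [Real.dist_eq] at h2
  rcases abs_eq hs.le |>.1 h2 with h3 | h3
  · left; linarith
  · right; linarith

/-- the sup distance is at most the distance -/
private theorem surf_dist {m : ℕ} (x a : E m) : dist x.ofLp a.ofLp ≤ dist x a := by
  rw [dist_pi_le_iff dist_nonneg]
  intro i
  rw [dist_eq_norm, dist_eq_norm]
  exact PiLp.norm_apply_le (x - a) i

/-- the slice through a point -/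
private theorem surf_slice {m : ℕ} (R : ℝ) (C : ℝ)
    (hC : ∀ (b : Fin m → ℝ) (g : (Fin m → ℝ) → ℝ), ContDiff ℝ 1 g → (∀ y, R ≤ dist y b → g y = 0) →
      ∀ z, |g z| ^ (m + 1) ≤ C * ∫ y, ‖fderiv ℝ g y‖ ^ (m + 1))
    (Λ : E m → ℝ) (h : ContDiff ℝ (⊤ : ℕ∞) Λ) (a : E m) (h0 : ∀ x, R ≤ dist x a → Λ x = 0)
    (z : E m) (i : Fin (m + 1)) :
    |Λ z| ^ (m + 1) ≤ C * ∫ y, ‖fderiv ℝ (slice Λ i (z i)) y‖ ^ (m + 1) := by
  have h1 := hC (i.removeNth a.ofLp) (slice Λ i (z i)) (slice_contDiff Λ h i _) ?_ (i.removeNth z.ofLp)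
  · refine le_trans ?_ h1
    have h2 : slice Λ i (z i) (i.removeNth z.ofLp) = Λ z := by
      rw [slice]
      congr 1
      rw [show z i = z.ofLp i from rfl, Fin.insertNth_self_removeNth]
    rw [h2]
  · intro y hy
    apply h0
    refine hy.trans (le_trans ?_ (surf_dist _ _))
    rw [dist_pi_le_iff dist_nonneg]
    intro j
    have h3 := dist_le_pi_dist (Fin.insertNth (α := fun _ => ℝ) i (z i) y) a.ofLp (i.succAbove j)
    rw [Fin.insertNth_apply_succAbove] at h3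
    exact h3

theorem surf {m : ℕ} (hm : 1 ≤ m) (w : E m) (R : ℝ) (hR : 0 < R) (r1 r2 : ℝ) (h1 : 0 < r1) (h2 : r1 < r2) :
    ∃ C : ℝ, 0 ≤ C ∧ ∀ Λ : E m → ℝ, ContDiff ℝ (⊤ : ℕ∞) Λ → (∀ x, R ≤ dist x w → Λ x = 0) →
      ∃ s : ℝ, r1 < s ∧ s < r2 ∧ ∀ x : E m, dist x.ofLp w.ofLp = s → |Λ x| ^ (m + 1) ≤ C * energy Λ := by
  obtain ⟨C, hC0, hC⟩ := morrey m hm R hR
  have hr : 0 < r2 - r1 := by linarith
  refine ⟨C * ((r2 - r1)⁻¹ * (2 * (m + 1) * (m + 1) ^ (m + 1))), by positivity, fun Λ hΛ h0 => ?_⟩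
  have hsupp : HasCompactSupport Λ :=
    HasCompactSupport.of_support_subset_isCompact (isCompact_closedBall w R) fun x hx => by
      rw [Metric.mem_closedBall]
      by_contra h1
      exact hx (h0 x (not_le.1 h1).le)
  obtain ⟨F, hF⟩ : ∃ F : Fin (m + 1) → ℝ → ℝ,
      F = fun i t => ∫ y, ‖fderiv ℝ (slice Λ i t) y‖ ^ (m + 1) := ⟨_, rfl⟩
  have hF0 : ∀ i t, 0 ≤ F i t := fun i t => by
    rw [hF]
    exact integral_nonneg fun y => by positivity
  have hFi : ∀ i, Integrable (F i) := fun i => by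
    rw [hF]
    exact (slice_int Λ hΛ hsupp i).1
  have hFe : ∀ i, ∫ t, F i t ≤ (m + 1 : ℝ) ^ (m + 1) * energy Λ := fun i => by
    rw [hF]
    exact (slice_int Λ hΛ hsupp i).2
  obtain ⟨G, hG⟩ : ∃ G : ℝ → ℝ, G = fun s => ∑ i, (F i (w i + s) + F i (w i - s)) := ⟨_, rfl⟩
  have hGi1 : ∀ i, Integrable fun s => F i (w i + s) := fun i => (hFi i).comp_add_left (w i)
  have hGi2 : ∀ i, Integrable fun s => F i (w i - s) := fun i => (hFi i).comp_sub_left (w i)
  have hGi3 : ∀ i, Integrable fun s => F i (w i + s) + F i (w i - s) := fun i =>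
    (hGi1 i).add (hGi2 i)
  have hGi : Integrable G := by
    rw [hG]
    exact integrable_finsetSum _ fun i _ => hGi3 i
  have hG0 : ∀ s, 0 ≤ G s := fun s => by
    rw [hG]
    exact Finset.sum_nonneg fun i _ => add_nonneg (hF0 _ _) (hF0 _ _)
  have hGI : ∫ s, G s ≤ 2 * (m + 1) * (m + 1) ^ (m + 1) * energy Λ := by
    have h5 : ∫ s, G s = ∑ i, ∫ s, (F i (w i + s) + F i (w i - s)) := by
      rw [hG]
      exact integral_finsetSum _ fun i _ => hGi3 i
    rw [h5]
    have h1 : ∀ i ∈ (Finset.univ : Finset (Fin (m + 1))),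
        ∫ s, (F i (w i + s) + F i (w i - s)) ≤ 2 * ((m + 1 : ℝ) ^ (m + 1) * energy Λ) := by
      intro i _
      rw [integral_add (hGi1 i) (hGi2 i), integral_add_left_eq_self (F i), integral_sub_left_eq_self (F i)]
      linarith [hFe i]
    refine (Finset.sum_le_sum h1).trans ?_
    rw [Finset.sum_const, Finset.card_univ, Fintype.card_fin, nsmul_eq_mul]
    push_cast
    linarith
  have hvol : (volume : Measure ℝ).real (Set.Ioo r1 r2) = r2 - r1 := by
    simp [Measure.real, hr.le]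
  obtain ⟨s, hs, hsG⟩ := exists_le_setAverage (μ := (volume : Measure ℝ)) (s := Set.Ioo r1 r2) (f := G)
    (by rw [Real.volume_Ioo]; simpa using h2) (by simp) hGi.integrableOn
  rw [setAverage_eq, hvol, smul_eq_mul] at hsG
  have hsG2 : G s ≤ (r2 - r1)⁻¹ * (2 * (m + 1) * (m + 1) ^ (m + 1) * energy Λ) :=
    hsG.trans (mul_le_mul_of_nonneg_left
      ((setIntegral_le_integral hGi (Filter.Eventually.of_forall hG0)).trans hGI) (by positivity))
  refine ⟨s, hs.1, hs.2, fun x hx => ?_⟩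
  obtain ⟨i, hi⟩ := surf_coord x.ofLp w.ofLp s (h1.trans hs.1) hx
  have h3 : F i (x i) ≤ F i (w i + s) + F i (w i - s) := by
    rcases hi with hi | hi
    · have h4 : x i = w i + s := hi
      rw [h4]
      linarith [hF0 i (w i - s)]
    · have h4 : x i = w i - s := hi
      rw [h4]
      linarith [hF0 i (w i + s)]
  have h4 : F i (w i + s) + F i (w i - s) ≤ G s := by
    rw [hG]
    exact Finset.single_le_sum (f := fun i => F i (w i + s) + F i (w i - s))
      (fun j _ => add_nonneg (hF0 _ _) (hF0 _ _)) (Finset.mem_univ i)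
  have h5 : |Λ x| ^ (m + 1) ≤ C * F i (x i) := by
    rw [hF]
    exact surf_slice R C hC Λ hΛ w h0 x i
  calc |Λ x| ^ (m + 1) ≤ C * F i (x i) := h5
    _ ≤ C * ((r2 - r1)⁻¹ * (2 * (m + 1) * (m + 1) ^ (m + 1) * energy Λ)) :=
        mul_le_mul_of_nonneg_left (h3.trans (h4.trans hsG2)) hC0.le
    _ = C * ((r2 - r1)⁻¹ * (2 * (m + 1) * (m + 1) ^ (m + 1))) * energy Λ := by ring

end Pool.Agent.H46.MM
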