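import Pool.Agent.H46.MM.SeqLow
import Pool.Agent.H46.MM.LogE
import Pool.Agent.H46.MM.Bnd
import Pool.Agent.H46.MM.Surf
import Pool.Agent.H46.MM.CutIn

/-!
Minimizing sequences are low near a point of a thick complement.
-/

set_option autoImplicit false

namespace Pool.Agent.H46.MM

open MeasureTheory Filter Topology Set

/-- the distance is at most `m + 1` times the sup distance -/
theorem dist_le_sup {m : ℕ} (x a : E m) : dist x a ≤ (m + 1) * dist x.ofLp a.ofLp := by
  rw [EuclideanSpace.dist_eq]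
  rw [Real.sqrt_le_left (by positivity)]
  have h1 : ∀ i, dist (x.ofLp i) (a.ofLp i) ^ 2 ≤ dist x.ofLp a.ofLp ^ 2 := fun i =>
    pow_le_pow_left₀ dist_nonneg (dist_le_pi_dist _ _ i) 2
  calc ∑ i, dist (x.ofLp i) (a.ofLp i) ^ 2 ≤ ∑ _i : Fin (m + 1), dist x.ofLp a.ofLp ^ 2 :=
        Finset.sum_le_sum fun i _ => h1 i
    _ = (m + 1) * dist x.ofLp a.ofLp ^ 2 := by simp
    _ ≤ ((m + 1) * dist x.ofLp a.ofLp) ^ 2 := by
        rw [mul_pow]
        refine mul_le_mul_of_nonneg_right ?_ (by positivity)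
        have : (1 : ℝ) ≤ (m : ℝ) + 1 := by
          have := Nat.cast_nonneg (α := ℝ) m
          linarith
        nlinarith

private theorem st_psi {m : ℕ} (ε : ℝ) (u : E m → ℝ) (hu : ContDiff ℝ (⊤ : ℕ∞) u)
    (hp : ∀ x, 0 < 1 + ε - u x) :
    ContDiff ℝ (⊤ : ℕ∞) (fun x => Real.log (1 + ε) - Real.log (1 + ε - u x)) ∧
      ∀ x, ‖gradient (fun x => Real.log (1 + ε) - Real.log (1 + ε - u x)) x‖ = ‖gradient u x‖ / (1 + ε - u x) := by
  refine ⟨contDiff_const.sub ((contDiff_const.sub hu).log fun x => (hp x).ne'), fun x => ?_⟩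
  rw [norm_grad, norm_grad]
  have h1 : HasFDerivAt u (fderiv ℝ u x) x := ((hu.differentiable (by simp)).differentiableAt).hasFDerivAt
  have h2 : HasFDerivAt (fun y => 1 + ε - u y) (-(fderiv ℝ u x)) x := h1.const_sub (1 + ε)
  have h3 := (h2.log (hp x).ne').const_sub (Real.log (1 + ε))
  rw [h3.fderiv, norm_neg, norm_smul, norm_neg, Real.norm_eq_abs, abs_of_pos (inv_pos.2 (hp x)), inv_mul_eq_div]

theorem start {m : ℕ} (hm : 1 ≤ m) (D K' K : Set (E m)) (u : ℕ → E m → ℝ) (hu : MinSeq D K' K u)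
    (hlo : ∀ (k : ℕ) x, -(1 / ((k : ℝ) + 1)) ≤ u k x) (w : E m)
    (hT : ∀ r : ℝ, 0 < r → 0 < cap (Metric.ball w (2 * r)) (Metric.closedBall w r \ D)) (r : ℝ) (hr : 0 < r)
    (hK : ∀ x ∈ K', r ≤ dist x w) : ∃ ρ δ : ℝ, 0 < ρ ∧ 0 < δ ∧ Low u (Metric.ball w ρ) δ := by
  obtain ⟨R, hR⟩ : ∃ R : ℝ, R = r / 4 := ⟨_, rfl⟩
  have hR0 : 0 < R := by rw [hR]; linarith
  obtain ⟨η1, a1, a2⟩ : ∃ b : ContDiffBump w, b.rIn = 2 * R ∧ b.rOut = 3 * R :=
    ⟨⟨2 * R, 3 * R, by linarith, by linarith⟩, rfl, rfl⟩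
  obtain ⟨η, b1, b2⟩ : ∃ b : ContDiffBump w, b.rIn = R ∧ b.rOut = 3 / 2 * R :=
    ⟨⟨R, 3 / 2 * R, by linarith, by linarith⟩, rfl, rfl⟩
  obtain ⟨M, hM0, hM⟩ := logE hm (η1 : E m → ℝ) η1.contDiff η1.hasCompactSupport (fun x => η1.nonneg)
    (fun x => η1.le_one)
  have hηts : tsupport (η : E m → ℝ) ⊆ Metric.ball w (2 * R) := by
    rw [η.tsupport_eq, b2]
    exact Metric.closedBall_subset_ball (by linarith)
  have hη1 : ∀ x ∈ Metric.closedBall w R, η x = 1 := fun x hx => η.one_of_mem_closedBall (by rw [b1]; exact hx)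
  obtain ⟨CB, hCB0, hCB⟩ := bnd w R hR0 D (hT R hR0) (η : E m → ℝ) η.contDiff hη1 hηts
  have hm1 : (0 : ℝ) < (m : ℝ) + 1 := by positivity
  have hr2 : 0 < R / (m + 1) := by positivity
  obtain ⟨CS, hCS0, hCS⟩ := surf hm w (2 * R) (by linarith) (R / (m + 1) / 2) (R / (m + 1)) (by positivity)
    (by linarith)
  obtain ⟨L, hL⟩ : ∃ L : ℝ, L = max 1 (CS * (CB * (M + 1))) := ⟨_, rfl⟩
  have hL1 : 1 ≤ L := by rw [hL]; exact le_max_left _ _
  have hL2 : CS * (CB * (M + 1)) ≤ L := by rw [hL]; exact le_max_right _ _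
  have he : 0 < Real.exp (-L) := Real.exp_pos _
  have he1 : Real.exp (-L) ≤ 1 := Real.exp_le_one_iff.2 (by linarith)
  obtain ⟨ε, hε⟩ : ∃ ε : ℝ, ε = Real.exp (-L) / 4 := ⟨_, rfl⟩
  have hε0 : 0 < ε := by rw [hε]; linarith
  have hε1 : ε ≤ 1 / 2 := by rw [hε]; linarith
  obtain ⟨t, ht, hlog⟩ := hM ε hε0 hε1
  have hev1 : ∀ᶠ k : ℕ in atTop, energy (u k) - cap D K' ≤ t := by
    have h1 : Tendsto (fun k => energy (u k) - cap D K') atTop (𝓝 (cap D K' - cap D K')) :=
      hu.lim.sub_const _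
    rw [sub_self] at h1
    filter_upwards [h1.eventually_lt_const ht] with k hk using hk.le
  have hev2 : ∀ᶠ k : ℕ in atTop, 1 / ((k : ℝ) + 1) ≤ ε / 2 := by
    have h1 := tendsto_one_div_add_atTop_nhds_zero_nat (𝕜 := ℝ)
    filter_upwards [h1.eventually_lt_const (show (0 : ℝ) < ε / 2 by linarith)] with k hk using hk.le
  have key : ∀ k : ℕ, energy (u k) - cap D K' ≤ t → 1 / ((k : ℝ) + 1) ≤ ε / 2 →
      ∃ s : ℝ, R / (m + 1) / 2 < s ∧ s < R / (m + 1) ∧
        ∀ x : E m, dist x.ofLp w.ofLp = s → u k x < 1 - Real.exp (-L) / 2 := by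
    intro k hk1 hk2
    have hub : ∀ x, u k x ≤ 1 + ε / 2 := fun x => (hu.le k x).trans (by linarith)
    have hlb : ∀ x, -(1 / 2) ≤ u k x := fun x => by
      have := hlo k x
      linarith
    have hp : ∀ x, 0 < 1 + ε - u k x := fun x => by
      have := hub x
      linarith
    obtain ⟨hψs, hψg⟩ := st_psi ε (u k) (hu.adm k).smooth hp
    obtain ⟨ψ, hψ⟩ : ∃ ψ : E m → ℝ, ψ = fun x => Real.log (1 + ε) - Real.log (1 + ε - u k x) := ⟨_, rfl⟩
    rw [← hψ] at hψs hψg
    have hψ0 : ∀ x, x ∉ D → ψ x = 0 := fun x hx => by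
      have h1 : u k x = 0 := image_eq_zero_of_notMem_tsupport fun h4 => hx ((hu.adm k).sub h4)
      rw [hψ]
      show Real.log (1 + ε) - Real.log (1 + ε - u k x) = 0
      rw [h1, sub_zero, sub_self]
    have h1 := hlog D K' (u k) (hu.adm' k) (fun x hx => by
      have h2 : x ∉ tsupport (η1 : E m → ℝ) := by
        rw [η1.tsupport_eq, a2, Metric.mem_closedBall, not_le]
        have := hK x hx
        linarith
      exact image_eq_zero_of_notMem_tsupport h2) hlb hub
    have h2 : M + (energy (u k) - cap D K') / t ≤ M + 1 := by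
      have := (div_le_one ht).2 hk1
      linarith
    have hA : ∫ x in Metric.ball w (2 * R), ‖gradient ψ x‖ ^ (m + 1) ≤ M + 1 := by
      refine le_trans ?_ (h1.trans h2)
      have e1 : ∫ x in Metric.ball w (2 * R), ‖gradient ψ x‖ ^ (m + 1) =
          ∫ x in Metric.ball w (2 * R), η1 x ^ (m + 1) * (‖gradient (u k) x‖ / (1 + ε - u k x)) ^ (m + 1) := by
        refine setIntegral_congr_fun measurableSet_ball fun x hx => ?_
        rw [hψg, η1.one_of_mem_closedBall (by rw [a1]; exact Metric.ball_subset_closedBall hx), one_pow, one_mul]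
      rw [e1]
      refine setIntegral_le_integral ?_ (Eventually.of_forall fun x => ?_)
      · have hg : Continuous (gradient ψ) := by
          unfold gradient
          exact (InnerProductSpace.toDual ℝ (E m)).symm.continuous.comp (hψs.continuous_fderiv (by simp))
        have e2 : (fun x => η1 x ^ (m + 1) * (‖gradient (u k) x‖ / (1 + ε - u k x)) ^ (m + 1)) =
            fun x => η1 x ^ (m + 1) * ‖gradient ψ x‖ ^ (m + 1) := by
          funext x
          rw [hψg]
        rw [e2]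
        refine Continuous.integrable_of_hasCompactSupport ((η1.continuous.pow _).mul (hg.norm.pow _)) ?_
        exact HasCompactSupport.mul_right (η1.hasCompactSupport.comp_left (g := fun y : ℝ => y ^ (m + 1)) (by simp))
      · exact mul_nonneg (pow_nonneg η1.nonneg _) (pow_nonneg (div_nonneg (norm_nonneg _) (hp x).le) _)
    have hB : energy (fun x => η x * ψ x) ≤ CB * (M + 1) :=
      (hCB ψ hψs hψ0).trans (mul_le_mul_of_nonneg_left hA hCB0)
    obtain ⟨s, hs1, hs2, hs3⟩ := hCS (fun x => η x * ψ x) (η.contDiff.mul hψs) (fun x hx => by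
      have h3 : x ∉ tsupport (η : E m → ℝ) := fun h4 => by
        have := hηts h4
        rw [Metric.mem_ball] at this
        linarith
      show η x * ψ x = 0
      rw [image_eq_zero_of_notMem_tsupport h3, zero_mul])
    refine ⟨s, hs1, hs2, fun x hx => ?_⟩
    have h3 := hs3 x hx
    have hxR : x ∈ Metric.closedBall w R := by
      rw [Metric.mem_closedBall]
      have h4 := dist_le_sup x w
      rw [hx] at h4
      have h5 : ((m : ℝ) + 1) * s ≤ (m + 1) * (R / (m + 1)) := mul_le_mul_of_nonneg_left hs2.le hm1.le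
      rw [mul_div_cancel₀ _ hm1.ne'] at h5
      linarith
    simp only [hη1 x hxR, one_mul] at h3
    have h4 : |ψ x| ^ (m + 1) ≤ L := (h3.trans (mul_le_mul_of_nonneg_left hB hCS0)).trans hL2
    have h5 : |ψ x| ≤ L := by
      by_cases h6 : |ψ x| ≤ 1
      · linarith
      · push Not at h6
        have h7 : |ψ x| ^ 1 ≤ |ψ x| ^ (m + 1) := pow_le_pow_right₀ h6.le (by omega)
        rw [pow_one] at h7
        linarith
    have h6 : ψ x ≤ L := (le_abs_self _).trans h5
    rw [hψ] at h6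
    have h7 : Real.log (1 + ε) - Real.log (1 + ε - u k x) ≤ L := h6
    have h8 : 0 ≤ Real.log (1 + ε) := Real.log_nonneg (by linarith)
    have h9 : -L ≤ Real.log (1 + ε - u k x) := by linarith
    have h10 : Real.exp (-L) ≤ 1 + ε - u k x := (Real.le_log_iff_exp_le (hp x)).1 h9
    have h11 : ε = Real.exp (-L) / 4 := hε
    linarith
  have hch : ∀ k : ℕ, ∃ s : ℝ, energy (u k) - cap D K' ≤ t → 1 / ((k : ℝ) + 1) ≤ ε / 2 →
      (R / (m + 1) / 2 < s ∧ s < R / (m + 1) ∧
        ∀ x : E m, dist x.ofLp w.ofLp = s → u k x < 1 - Real.exp (-L) / 2) := by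
    intro k
    by_cases h1 : energy (u k) - cap D K' ≤ t
    · by_cases h2 : 1 / ((k : ℝ) + 1) ≤ ε / 2
      · obtain ⟨s, hs⟩ := key k h1 h2
        exact ⟨s, fun _ _ => hs⟩
      · exact ⟨0, fun _ h3 => absurd h3 h2⟩
    · exact ⟨0, fun h3 => absurd h3 h1⟩
  choose s hs using hch
  refine ⟨R / (m + 1) / 2, Real.exp (-L) / 2 / 2, by positivity, by positivity, ?_⟩
  refine cut_in hm D K' K u hu w (R / (m + 1) / 2) (R / (m + 1)) (Real.exp (-L) / 2) (by positivity) (by linarith)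
    (by positivity) (by linarith) (fun x hx => ?_) s ?_
  · have h1 := hK x hx
    have h2 := dist_le_sup x w
    rw [div_le_iff₀ hm1]
    linarith
  · filter_upwards [hev1, hev2] with k h1 h2 using hs k h1 h2

end Pool.Agent.H46.MM
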