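import Pool.Agent.H46.MM.Ineq
import Pool.Agent.H46.MM.Bar

/-!
One step. WLOG `δ ≤ 1/2` (`Low` for a smaller `δ` is weaker: for `δ₁ ≤ δ` the integrand decreases). `v0` from `barrier`
(`ρ, ρ', R`, `δ`), `δ' ` from it; fix `ε` with `2 ε ≤ δ'/2`, `ε ≤ 1/2`; `v = v0 + 2 ε`, `θ` from `exists_cut ε`. For `k` with
`1/(k+1) ≤ ε` put `Λ k = (u k - v) - θ (u k - v)` (else `Λ k = 0`). `Λ k x = 0` if `u k x - v x ≤ -ε`: in particular if
`R ≤ dist x a` (`u ≤ 1 + ε`, `v ≥ 1 + 2 ε`) and if `u k x = 0` (`v ≥ 1/2 ≥ ε`). So `w k = u k - Λ k` is admissible for `K'`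
(`Λ k = 0` on `K'`). `ineq` + `barrier`: `energy (w k) ≤ energy (u k) + (m+1) C ∫ x in ball a ρ, Λ k x` and
`Λ k ≤ max (u k - v + ε) 0 ≤ max (u k - (1 - δ)) 0` (as `θ s ≥ -ε` for `s ≥ -ε`, `v ≥ 1 - δ + 2ε`), so `Low` and `near`
(`u k`, `w k` admissible for `K'`) give `energy (Λ k) → 0`. `Λ k ≥ u k - v` as `θ ≤ 0`.. (`θ s ≤ 0`), so
`u k ≤ v + Λ k ≤ 1 - δ'/2 + Λ k` on the ball of radius `ρ'`.
-/

set_option autoImplicit false

namespace Pool.Agent.H46.MM

open MeasureTheory Filter Topology Set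

private theorem st_integ {m : ℕ} (f : E m → ℝ) (hf : Continuous f) (a : E m) (ρ : ℝ) :
    IntegrableOn f (Metric.ball a ρ) :=
  (hf.continuousOn.integrableOn_compact (isCompact_closedBall a ρ)).mono_set
    Metric.ball_subset_closedBall

private theorem st_low {m : ℕ} (u : ℕ → E m → ℝ) (hu : ∀ k, Continuous (u k)) (a : E m)
    (ρ δ δ1 : ℝ) (h : δ1 ≤ δ) (hL : Low u (Metric.ball a ρ) δ) : Low u (Metric.ball a ρ) δ1 := by
  refine squeeze_zero (fun k => ?_) (fun k => ?_) hL
  · exact setIntegral_nonneg measurableSet_ball fun x _ => le_max_right _ _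
  · refine setIntegral_mono (st_integ _ (by fun_prop) a ρ) (st_integ _ (by fun_prop) a ρ) fun x => ?_
    exact max_le_max_right 0 (by linarith)

theorem step {m : ℕ} (hm : 1 ≤ m) (D K' K : Set (E m)) (u : ℕ → E m → ℝ) (hu : MinSeq D K' K u) (a : E m)
    (ρ ρ' R δ : ℝ) (h0 : 0 < ρ) (h1 : ρ < ρ') (h2 : ρ' < R) (hδ : 0 < δ)
    (hK : ∀ x ∈ K', R ≤ dist x a) (hL : Low u (Metric.ball a ρ) δ) :
    ∃ (δ' : ℝ) (Λ : ℕ → E m → ℝ), 0 < δ' ∧ (∀ k, ContDiff ℝ (⊤ : ℕ∞) (Λ k)) ∧ (∀ k x, 0 ≤ Λ k x) ∧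
      (∀ k x, R ≤ dist x a → Λ k x = 0) ∧ Tendsto (fun k => energy (Λ k)) atTop (𝓝 0) ∧
      ∀ᶠ k in atTop, ∀ x, dist x a < ρ' → u k x ≤ 1 - δ' + Λ k x := by
  classical
  have hcu : ∀ k, Continuous (u k) := fun k => (hu.adm k).smooth.continuous
  set δ1 := min δ (1 / 2) with hδ1
  have hδ1p : 0 < δ1 := lt_min hδ (by norm_num)
  have hδ1h : δ1 ≤ 1 / 2 := min_le_right _ _
  have hL1 := st_low u hcu a ρ δ δ1 (min_le_left _ _) hL
  obtain ⟨v0, hv0, hvR, hvl, ⟨δ', hδ', hvb⟩, C, hC, hbar⟩ := barrier m hm a ρ ρ' R δ1 h0 h1 h2 hδ1p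
  set ε := min (δ' / 4) (1 / 2) with hε
  have hεp : 0 < ε := lt_min (by linarith) (by norm_num)
  have hε1 : ε ≤ δ' / 4 := min_le_left _ _
  have hε2 : ε ≤ 1 / 2 := min_le_right _ _
  obtain ⟨θ, hθ, t1, t2, t3, t4, t5, t6⟩ := exists_cut ε hεp
  set v : E m → ℝ := fun x => v0 x + 2 * ε with hv
  have hvs : ContDiff ℝ (⊤ : ℕ∞) v := hv0.add contDiff_const
  have hgrad : gradient v = gradient v0 := by
    funext x
    simp only [gradient, hv, fderiv_add_const]
  set L : ℕ → E m → ℝ := fun k x => (u k x - v x) - θ (u k x - v x) with hLdef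
  -- elementary properties
  have hLs : ∀ k, ContDiff ℝ (⊤ : ℕ∞) (L k) := fun k =>
    ((hu.adm k).smooth.sub hvs).sub (hθ.comp ((hu.adm k).smooth.sub hvs))
  have hL0 : ∀ k x, 0 ≤ L k x := fun k x => sub_nonneg.2 (t4 _)
  have hLz : ∀ k x, u k x - v x ≤ -ε → L k x = 0 := fun k x h => by
    simp only [hLdef, t1 _ h, sub_self]
  have hLR : ∀ k : ℕ, 1 / ((k : ℝ) + 1) ≤ ε → ∀ x, R ≤ dist x a → L k x = 0 := fun k hk x hx => by
    apply hLz
    have h3 := hu.le k x
    have h4 := hvR x hx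
    simp only [hv]
    linarith
  have hLu : ∀ k x, u k x = 0 → L k x = 0 := fun k x hx => by
    apply hLz
    have h4 := hvl x
    simp only [hv, hx]
    linarith
  have hsupp : ∀ k, Function.support (L k) ⊆ Function.support (u k) := fun k x hx => by
    rw [Function.mem_support] at hx ⊢
    exact fun h => hx (hLu k x h)
  have hLc : ∀ k, HasCompactSupport (L k) := fun k => (hu.adm k).comp.mono (hsupp k)
  have hLle : ∀ k x, L k x ≤ max (u k x - (1 - δ1)) 0 := fun k x => by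
    rcases le_total (u k x - v x) (-ε) with h | h
    · rw [hLz k x h]
      exact le_max_right _ _
    · refine le_trans ?_ (le_max_left _ _)
      have h3 := t2 _ h
      have h4 := hvl x
      simp only [hLdef]
      simp only [hv] at h3 h ⊢
      linarith
  -- the comparison function
  have hadm : ∀ k : ℕ, 1 / ((k : ℝ) + 1) ≤ ε → Adm D K' (fun x => u k x - L k x) := fun k hk => by
    have hs : Function.support (fun x => u k x - L k x) ⊆ Function.support (u k) := fun x hx => by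
      rw [Function.mem_support] at hx ⊢
      intro h
      apply hx
      rw [h, hLu k x h, sub_zero]
    refine ⟨(hu.adm k).smooth.sub (hLs k), (hu.adm k).comp.mono hs,
      (closure_mono hs).trans (hu.adm k).sub, fun x hx => ?_⟩
    rw [hLR k hk x (hK x hx), sub_zero]
    exact (hu.adm' k).one x hx
  have hen : ∀ k : ℕ, 1 / ((k : ℝ) + 1) ≤ ε → energy (L k) ≤
      2 ^ (m + 1) * (energy (u k) + (m + 1) * C / 2 *
        (∫ x in Metric.ball a ρ, max (u k x - (1 - δ1)) 0) - cap D K') := fun k hk => by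
    have e1 := near hm D K' (u k) _ (hu.adm' k) (hadm k hk)
    have e2 : (fun x => u k x - (u k x - L k x)) = L k := by
      funext x
      ring
    rw [e2] at e1
    have e3 := ineq hm (u k) v (hu.adm k).smooth (hu.adm k).comp hvs θ hθ t5 t6 (hLc k)
    rw [hgrad] at e3
    have e4 := hbar (L k) (hLs k) (hLc k) (hL0 k)
    have e5 : ∫ x in Metric.ball a ρ, L k x ≤ ∫ x in Metric.ball a ρ, max (u k x - (1 - δ1)) 0 :=
      setIntegral_mono (st_integ _ (hLs k).continuous a ρ)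
        (st_integ _ (((hcu k).sub continuous_const).max continuous_const) a ρ) (hLle k)
    have e6 : energy (fun x => u k x - L k x) ≤ energy (u k) + (m + 1) * C *
        ∫ x in Metric.ball a ρ, max (u k x - (1 - δ1)) 0 := by
      have e7 : (m + 1 : ℝ) * -(∫ x, ‖gradient v0 x‖ ^ (m - 1) *
          inner ℝ (gradient v0 x) (gradient (L k) x)) ≤
          (m + 1) * (C * ∫ x in Metric.ball a ρ, max (u k x - (1 - δ1)) 0) :=
        mul_le_mul_of_nonneg_left (e4.trans (mul_le_mul_of_nonneg_left e5 hC)) (by positivity)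
      have e8 : energy (fun x => u k x - L k x) ≤ energy (u k) -
          (m + 1) * ∫ x, ‖gradient v0 x‖ ^ (m - 1) *
            inner ℝ (gradient v0 x) (gradient (L k) x) := e3
      linarith
    refine e1.trans (mul_le_mul_of_nonneg_left ?_ (by positivity))
    linarith
  have hev : ∀ᶠ k : ℕ in atTop, 1 / ((k : ℝ) + 1) ≤ ε := by
    have := tendsto_one_div_add_atTop_nhds_zero_nat (𝕜 := ℝ)
    filter_upwards [this.eventually (gt_mem_nhds hεp)] with k hk
    exact hk.le
  refine ⟨δ' / 2, fun k => if 1 / ((k : ℝ) + 1) ≤ ε then L k else fun _ => 0, by linarith, ?_, ?_, ?_,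
    ?_, ?_⟩
  · intro k
    by_cases hk : 1 / ((k : ℝ) + 1) ≤ ε
    · simp only [if_pos hk]
      exact hLs k
    · simp only [if_neg hk]
      exact contDiff_const
  · intro k x
    by_cases hk : 1 / ((k : ℝ) + 1) ≤ ε
    · simp only [if_pos hk]
      exact hL0 k x
    · simp only [if_neg hk]
      exact le_rfl
  · intro k x hx
    by_cases hk : 1 / ((k : ℝ) + 1) ≤ ε
    · simp only [if_pos hk]
      exact hLR k hk x hx
    · simp only [if_neg hk]
  · have hlim : Tendsto (fun k : ℕ => 2 ^ (m + 1) * (energy (u k) + (m + 1) * C / 2 *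
        (∫ x in Metric.ball a ρ, max (u k x - (1 - δ1)) 0) - cap D K')) atTop (𝓝 0) := by
      have h3 := ((hu.lim.add (hL1.const_mul ((m + 1 : ℝ) * C / 2))).sub_const (cap D K')).const_mul
        ((2 : ℝ) ^ (m + 1))
      simpa using h3
    refine squeeze_zero' (Eventually.of_forall fun k => energy_nonneg _) ?_ hlim
    filter_upwards [hev] with k hk
    simp only [if_pos hk]
    exact hen k hk
  · filter_upwards [hev] with k hk x hx
    simp only [if_pos hk]
    have h3 := hvb x hx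
    have h4 := t3 (u k x - v x)
    simp only [hLdef]
    simp only [hv] at h4 ⊢
    linarith

end Pool.Agent.H46.MM
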