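import Pool.Agent.H46.MM.Chain
import Pool.Agent.H46.MM.Start
import Pool.Agent.H46.MM.Pos

/-!
Strict monotonicity.
-/

set_option autoImplicit false

namespace Pool.Agent.H46.MM

open MeasureTheory Filter Topology Set

theorem strict {m : ℕ} (hm : 1 ≤ m) (D K' K : Set (E m)) (hD : IsOpen D) (hK : IsCompact K) (hKD : K ⊆ D)
    (hKc : IsPreconnected K) (hKn : K.Nontrivial) (h : K' ⊆ K) (hc : cap D K ≤ cap D K')
    (U : Set (E m)) (hU : IsOpen U) (hUc : IsPreconnected U) (hUK : Disjoint U K')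
    (b : E m) (hbU : b ∈ U)
    (hT : ∀ r : ℝ, 0 < r → 0 < cap (Metric.ball b (2 * r)) (Metric.closedBall b r \ D)) : Disjoint U K := by
  rw [Set.disjoint_left]
  intro p hpU hpK
  obtain ⟨u, hu, hlo⟩ := exists_seq_low D K' K hD hK hKD h hc
  obtain ⟨r, hr, hrU⟩ := Metric.isOpen_iff.1 hU b hbU
  have hst := start hm D K' K u hu hlo b hT r hr fun x hx => by
    by_contra hcon
    push Not at hcon
    exact Set.disjoint_left.1 hUK (hrU hcon) hx
  obtain ⟨ρ, δ, hρ, hδ, hL⟩ := chain hm D K' K u hu U hU hUc hUK b hbU hst p hpU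
  obtain ⟨R0, hR0, hball⟩ := Metric.isOpen_iff.1 hU p hpU
  set ρ1 := min ρ (R0 / 4) with hρ1
  have hρ1p : 0 < ρ1 := lt_min hρ (by linarith)
  have hρ1R : ρ1 ≤ R0 / 4 := min_le_right _ _
  have hL1 : Low u (Metric.ball p ρ1) δ := by
    unfold Low at hL ⊢
    refine squeeze_zero (fun k => ?_) (fun k => ?_) hL
    · exact integral_nonneg fun x => le_max_right _ _
    · refine setIntegral_mono_set ?_ ?_ ?_
      · have hcont : Continuous fun x => max (u k x - (1 - δ)) 0 :=
          ((hu.adm k).smooth.continuous.sub continuous_const).max continuous_const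
        exact (hcont.continuousOn.integrableOn_compact (isCompact_closedBall p ρ)).mono_set
          Metric.ball_subset_closedBall
      · exact Eventually.of_forall fun x => le_max_right _ _
      · exact (Metric.ball_subset_ball (min_le_left _ _)).eventuallyLE
  have hKd : ∀ x ∈ K', R0 ≤ dist x p := by
    intro x hx
    by_contra hcon
    push Not at hcon
    exact Set.disjoint_left.1 hUK (hball hcon) hx
  obtain ⟨δ', Λ, hδ', hs, hn, hz, hlim, hev⟩ := step hm D K' K u hu p ρ1 (R0 / 2) R0 δ hρ1p (by linarith)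
    (by linarith) hδ hKd hL1
  obtain ⟨q, hq, hqp⟩ := hKn.exists_ne p
  obtain ⟨c, hc0, hcE⟩ := pos hm K hKc p q hpK hq (Ne.symm hqp) (R0 / 2) (by linarith) p R0 hR0 δ' hδ'
  have h1 : ∀ᶠ k in atTop, c ≤ energy (Λ k) := by
    filter_upwards [hev] with k hk
    refine hcE (Λ k) (hs k) (hz k) ?_
    intro x hx hd
    have h2 := (hu.adm k).one x hx
    have h3 := hk x hd
    linarith
  have h4 : c ≤ 0 := ge_of_tendsto hlim h1
  linarith

end Pool.Agent.H46.MM
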