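import Pool.Agent.H46.MM.Basic

/-!
Open sets without removable boundary points.
-/

set_option autoImplicit false

namespace Pool.Agent.H46.MM

/-- the complement of `D` has positive capacity near each of its points -/
def Thick {m : ℕ} (D : Set (E m)) : Prop :=
  ∀ w, w ∉ D → ∀ r : ℝ, 0 < r → 0 < cap (Metric.ball w (2 * r)) (Metric.closedBall w r \ D)

end Pool.Agent.H46.MM
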