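import Pool.Agent.H46.MM.ThickDef
import Pool.Agent.H46.MM.Pos

/-!
If every point of the complement lies in a connected subset of the complement with more than one point, the complement is thick: `pos` with `K = F`,
`p = w`, `q ∈ F`, `q ≠ w`, `r`, `a = w`, `R = 2 r`, `δ = 1` gives `c > 0` with `c ≤ energy u` for all `u` admissible for
`(ball w (2 r), closedBall w r \ D)`; `le_csInf` (nonempty by `exists_adm`).
-/

set_option autoImplicit false

namespace Pool.Agent.H46.MM

open MeasureTheory Set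

theorem thick_of {m : ℕ} (hm : 1 ≤ m) (D : Set (E m)) (hD : IsOpen D)
    (hF : ∀ w, w ∉ D → ∃ F : Set (E m), F ⊆ Dᶜ ∧ IsPreconnected F ∧ w ∈ F ∧ F.Nontrivial) : Thick D := by
  intro w hw r hr
  obtain ⟨F, hFD, hFc, hwF, hFn⟩ := hF w hw
  obtain ⟨q, hq, hqw⟩ := hFn.exists_ne w
  obtain ⟨c, hc, hle⟩ := pos hm F hFc w q hwF hq (Ne.symm hqw) r hr w (2 * r) (by linarith) 1 one_pos
  obtain ⟨u0, hu0⟩ := exists_adm (Metric.ball w (2 * r)) (Metric.closedBall w r \ D) Metric.isOpen_ball
    ((isCompact_closedBall w r).diff hD)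
    (sdiff_subset.trans (Metric.closedBall_subset_ball (by linarith)))
  refine lt_of_lt_of_le hc (le_csInf ⟨_, u0, hu0, rfl⟩ ?_)
  rintro _ ⟨u, hu, rfl⟩
  refine hle u hu.smooth ?_ ?_
  · intro x hx
    by_contra hne
    have h1 : x ∈ Metric.ball w (2 * r) := hu.sub (subset_tsupport _ hne)
    exact absurd (Metric.mem_ball.1 h1) (not_lt.2 hx)
  · intro x hx hxr
    exact hu.one x ⟨Metric.mem_closedBall.2 hxr.le, hFD hx⟩

end Pool.Agent.H46.MM
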